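import Pool.Agent.M4.Defs

/-!
PIECE M4-A02: tame sequences of functions.

PROOF. `mc (f + g) = mc f + mc g` (`mc_add`), `mc (f * g) m = ∑ over the antidiagonal of m` (`M3.mc_mul` in `M3.BlkC0`; import it or
reprove it), so `add`, `mul` (with `D + D'`: if `D + D' < m 0 + m 1` and `m = m' + m''` then `D < |m'|` or `D' < |m''|`), `pow`, `sum`
are immediate.  `Tame.ev`: given `M` let `D` be as in `Tame E c M`.  For almost all `i`
`c i = ∑ over m with m 0 + m 1 ≤ D of cA (mc (c i) m) * xA 0 ^ m 0 * xA 1 ^ m 1 + X^(M * E i) * g_i` (compare `mc`), so modulo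
`X^(M * E i)` (`ev_dvd`) `ev (χ i) (c i)` is the finite sum of the products `cA (map (mc (c i) m)) * χ i 0 ^ m 0 * χ i 1 ^ m 1`,
which are tame (use `Tame` at the level `M` only: it is convenient to introduce the private predicate
`TameAt E M c : ∃ D, ∀ᶠ i in Uf, ∀ m, D < m 0 + m 1 → X^(M * E i) ∣ mc (c i) m` which is closed under sums, products and
changes by multiples of `X^(M * E i)`).  Here `χ i j : AA L` with an extension ring `L` of `k`; take `L := k` for compositions
of charts.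
`Tame.evalP`: a polynomial in `t` of bounded degree with coefficients `cA (..)`.
`Tame.isChS`: induction on `IsChS` (`chA c p N₀ N₁ 0 = cA c + X^N₀ * xA 0`, `chA c p N₀ N₁ 1 = p.eval₂ cA (xA 0) + X^N₁ * xA 1`).
`isChS_comp`: as `M3.IsCh.comp` in `M3.BlkG` (induction on the second argument, `ev_ev`).
-/

open MvPolynomial

namespace M4

open M3

universe u

section
variable {k : Type*} [CommRing k] {E : ℕ → ℕ+}

private theorem tame_mc_mul (f g : AA k) (e : Fin 2 →₀ ℕ) :
    mc (f * g) e = ∑ x ∈ Finset.HasAntidiagonal.antidiagonal e, mc f x.1 * mc g x.2 := by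
  classical
  ext n
  rw [coeff_mc, PowerSeries.coeff_mul, coeff_sum, map_sum]
  simp only [MvPolynomial.coeff_mul, PowerSeries.coeff_mul, coeff_mc]
  rw [Finset.sum_comm]

/-- tame at one level -/
private def TameAt (E : ℕ → ℕ+) (M : ℕ) (c : ℕ → AA k) : Prop :=
  ∃ D : ℕ, ∀ᶠ i in Uf, ∀ m : Fin 2 →₀ ℕ, D < m 0 + m 1 →
    (PowerSeries.X : PowerSeries k) ^ (M * (E i : ℕ)) ∣ mc (c i) m

private theorem TameAt.congr {M : ℕ} {c c' : ℕ → AA k} (h : TameAt E M c)
    (hc : ∀ᶠ i in Uf, (PowerSeries.X : AA k) ^ (M * (E i : ℕ)) ∣ c i - c' i) :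
    TameAt E M c' := by
  obtain ⟨D, hD⟩ := h
  refine ⟨D, ?_⟩
  filter_upwards [hD, hc] with i h1 h2 m hm
  have h3 := (X_pow_dvd_iff_mc _ _).1 h2 m
  rw [mc_sub] at h3
  have h4 := dvd_sub (h1 m hm) h3
  rwa [sub_sub_cancel] at h4

private theorem TameAt.add {M : ℕ} {c c' : ℕ → AA k} (h : TameAt E M c) (h' : TameAt E M c') :
    TameAt E M (fun i => c i + c' i) := by
  obtain ⟨D, hD⟩ := h
  obtain ⟨D', hD'⟩ := h'
  refine ⟨max D D', ?_⟩
  filter_upwards [hD, hD'] with i h1 h2 m hm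
  rw [mc_add]
  exact dvd_add (h1 m (lt_of_le_of_lt (le_max_left _ _) hm))
    (h2 m (lt_of_le_of_lt (le_max_right _ _) hm))

private theorem TameAt.mul {M : ℕ} {c c' : ℕ → AA k} (h : TameAt E M c) (h' : TameAt E M c') :
    TameAt E M (fun i => c i * c' i) := by
  obtain ⟨D, hD⟩ := h
  obtain ⟨D', hD'⟩ := h'
  refine ⟨D + D', ?_⟩
  filter_upwards [hD, hD'] with i h1 h2 m hm
  rw [tame_mc_mul]
  refine Finset.dvd_sum fun x hx => ?_
  have h3 := Finset.HasAntidiagonal.mem_antidiagonal.1 hx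
  have h4 : x.1 0 + x.2 0 = m 0 := by rw [← h3]; rfl
  have h5 : x.1 1 + x.2 1 = m 1 := by rw [← h3]; rfl
  rcases Nat.lt_or_ge D (x.1 0 + x.1 1) with h6 | h6
  · exact Dvd.dvd.mul_right (h1 _ h6) _
  · exact Dvd.dvd.mul_left (h2 _ (by omega)) _

private theorem TameAt.cst {M : ℕ} (a : ℕ → PowerSeries k) :
    TameAt E M (fun i => (M3.cA (a i) : AA k)) := by
  refine ⟨0, Filter.Eventually.of_forall fun i m hm => ?_⟩
  rw [mc_cA, if_neg]
  · exact dvd_zero _
  · rintro rfl
    simp at hm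

private theorem TameAt.pow {M : ℕ} {c : ℕ → AA k} (h : TameAt E M c) (n : ℕ) :
    TameAt E M (fun i => c i ^ n) := by
  induction n with
  | zero =>
    have h1 := TameAt.cst (E := E) (M := M) (fun _ => (1 : PowerSeries k))
    simp only [map_one] at h1
    simp only [pow_zero]
    exact h1
  | succ n ih =>
    simp only [pow_succ]
    exact ih.mul h

private theorem TameAt.sum {M : ℕ} {ι : Type*} (s : Finset ι) {c : ι → ℕ → AA k}
    (h : ∀ j ∈ s, TameAt E M (c j)) : TameAt E M (fun i => ∑ j ∈ s, c j i) := by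
  classical
  induction s using Finset.induction_on with
  | empty =>
    have h1 := TameAt.cst (E := E) (M := M) (fun _ => (0 : PowerSeries k))
    simp only [map_zero] at h1
    simp only [Finset.sum_empty]
    exact h1
  | insert j s hj ih =>
    have h1 := (h j (Finset.mem_insert_self _ _)).add
      (ih fun x hx => h x (Finset.mem_insert_of_mem hx))
    simp only [Finset.sum_insert hj]
    exact h1

theorem Tame.of_nul {c : ℕ → AA k} (h : Nul E c) : Tame E c := by
  intro M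
  refine ⟨0, ?_⟩
  filter_upwards [h M] with i h1 m _
  exact (X_pow_dvd_iff_mc _ _).1 h1 m

theorem Tame.add {c c' : ℕ → AA k} (h : Tame E c) (h' : Tame E c') :
    Tame E (fun i => c i + c' i) := fun M =>
  TameAt.add (h M) (h' M)

theorem Tame.neg {c : ℕ → AA k} (h : Tame E c) : Tame E (fun i => -c i) := by
  intro M
  have h1 := TameAt.mul (TameAt.cst (E := E) (M := M) (fun _ => (-1 : PowerSeries k))) (h M)
  simp only [map_neg, map_one, neg_mul, one_mul] at h1
  exact h1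

theorem Tame.sub {c c' : ℕ → AA k} (h : Tame E c) (h' : Tame E c') :
    Tame E (fun i => c i - c' i) := by
  simp only [sub_eq_add_neg]
  exact Tame.add h (Tame.neg h')

theorem Tame.mul {c c' : ℕ → AA k} (h : Tame E c) (h' : Tame E c') :
    Tame E (fun i => c i * c' i) := fun M =>
  TameAt.mul (h M) (h' M)

theorem Tame.pow {c : ℕ → AA k} (h : Tame E c) (n : ℕ) : Tame E (fun i => c i ^ n) :=
  fun M => TameAt.pow (h M) n

theorem Tame.sum {ι : Type*} (s : Finset ι) {c : ι → ℕ → AA k}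
    (h : ∀ j ∈ s, Tame E (c j)) : Tame E (fun i => ∑ j ∈ s, c j i) := fun M =>
  TameAt.sum s fun j hj => h j hj M

theorem Tame.cA (a : ℕ → PowerSeries k) : Tame E (fun i => (cA (a i) : AA k)) := fun _ =>
  TameAt.cst a

theorem Tame.xA (j : Fin 2) : Tame E (fun _ => (xA j : AA k)) := by
  intro M
  refine ⟨1, Filter.Eventually.of_forall fun i m hm => ?_⟩
  rw [mc_xA, if_neg]
  · exact dvd_zero _
  · rintro rfl
    fin_cases j <;> simp at hm

theorem Tame.X_pow (n : ℕ → ℕ) : Tame E (fun i => (PowerSeries.X : AA k) ^ n i) := by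
  have h1 := Tame.cA (E := E) (fun i => (PowerSeries.X : PowerSeries k) ^ n i)
  have h2 : ∀ m : ℕ, M3.cA ((PowerSeries.X : PowerSeries k) ^ m) = PowerSeries.X ^ m := by
    intro m
    unfold M3.cA
    rw [map_pow, PowerSeries.map_X]
  simp only [h2] at h1
  exact h1

theorem Tame.congr {c c' : ℕ → AA k} (h : Tame E c) (hc : Nul E (fun i => c i - c' i)) :
    Tame E c' := fun M =>
  TameAt.congr (h M) (hc M)

theorem Tame.evalP {p : ℕ → Polynomial (PowerSeries k)} {D : ℕ} (hp : ∀ i, (p i).natDegree ≤ D)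
    {t : ℕ → AA k} (ht : Tame E t) : Tame E (fun i => (p i).eval₂ M3.cA (t i)) := by
  have h1 : (fun i => (p i).eval₂ M3.cA (t i)) =
      fun i => ∑ j ∈ Finset.range (D + 1), M3.cA ((p i).coeff j) * t i ^ j := funext fun i =>
    Polynomial.eval₂_eq_sum_range' _ (Nat.lt_succ_of_le (hp i)) _
  rw [h1]
  exact Tame.sum _ fun j _ => (Tame.cA fun i => (p i).coeff j).mul (ht.pow j)

theorem Tame.chA {p : ℕ → Polynomial (PowerSeries k)} {D : ℕ} (hp : ∀ i, (p i).natDegree ≤ D)
    (a : ℕ → PowerSeries k) (N₀ N₁ : ℕ → ℕ) (j : Fin 2) :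
    Tame E (fun i => chA (a i) (p i) (N₀ i) (N₁ i) j) := by
  fin_cases j
  · exact (Tame.cA a).add ((Tame.X_pow N₀).mul (Tame.xA 0))
  · exact (Tame.evalP hp (Tame.xA 0)).add ((Tame.X_pow N₁).mul (Tame.xA 1))

end

section
variable {k : Type*} [CommRing k] {L : Type*} [CommRing L] [Algebra k L] {E : ℕ → ℕ+}

theorem Tame.ev {c : ℕ → AA k} (h : Tame E c) {χ : ℕ → Fin 2 → AA L}
    (hχ : ∀ j, Tame E (fun i => χ i j)) : Tame E (fun i => (ev (χ i) (c i) : AA L)) := by
  classical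
  intro M
  obtain ⟨D, hD⟩ := h M
  set S : Finset (Fin 2 →₀ ℕ) := Finset.Iic (Finsupp.single 0 D + Finsupp.single 1 D) with hS
  have hS1 : ∀ e : Fin 2 →₀ ℕ, e ∉ S → D < e 0 + e 1 := by
    intro e he
    by_contra hn
    apply he
    rw [hS, Finset.mem_Iic, Finsupp.le_def]
    intro i
    fin_cases i
    · simp
      omega
    · simp
      omega
  have h1 : ∀ (f : AA k) (a b : ℕ) (x : PowerSeries k) (y : Fin 2 → AA L),
      M3.ev y (M3.cA x * M3.xA 0 ^ a * M3.xA 1 ^ b : AA k) =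
        M3.cA (PowerSeries.map (algebraMap k L) x) * y 0 ^ a * y 1 ^ b := by
    intro f a b x y
    rw [ev_mul, ev_mul, ev_pow, ev_pow, ev_xA, ev_xA, ev_cA]
    have h0 : PowerSeries.map (algebraMap k (MvPolynomial (Fin 2) L)) x =
        M3.cA (PowerSeries.map (algebraMap k L) x) := by
      ext1 n
      unfold M3.cA
      rw [PowerSeries.coeff_map, PowerSeries.coeff_map, PowerSeries.coeff_map,
        MvPolynomial.algebraMap_apply]
    rw [h0]
  have h2 : TameAt E M (fun i => ∑ m ∈ S,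
      M3.cA (PowerSeries.map (algebraMap k L) (mc (c i) m)) * χ i 0 ^ m 0 * χ i 1 ^ m 1) :=
    TameAt.sum S fun m _ =>
      ((TameAt.cst fun i => PowerSeries.map (algebraMap k L) (mc (c i) m)).mul
        (TameAt.pow (hχ 0 M) _)).mul (TameAt.pow (hχ 1 M) _)
  refine TameAt.congr h2 ?_
  filter_upwards [hD] with i hi
  have h3 : (PowerSeries.X : AA k) ^ (M * (E i : ℕ)) ∣
      toAA (∑ m ∈ S, monomial m (mc (c i) m)) - c i := by
    rw [X_pow_dvd_iff_mc]
    intro e
    rw [mc_sub, mc_toAA, coeff_sum]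
    have h4 : ∀ e' ∈ S, coeff e (monomial e' (mc (c i) e')) = if e' = e then mc (c i) e' else 0 :=
      fun e' _ => coeff_monomial _ _ _
    rw [Finset.sum_congr rfl h4, Finset.sum_ite_eq']
    by_cases he : e ∈ S
    · rw [if_pos he, sub_self]
      exact dvd_zero _
    · rw [if_neg he, zero_sub]
      exact (dvd_neg).2 (hi e (hS1 e he))
  have h5 : toAA (∑ m ∈ S, monomial m (mc (c i) m)) =
      ∑ m ∈ S, (M3.cA (mc (c i) m) * M3.xA 0 ^ m 0 * M3.xA 1 ^ m 1 : AA k) := by
    rw [map_sum]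
    refine Finset.sum_congr rfl fun m _ => ?_
    unfold toAA
    rw [coe_eval₂Hom, eval₂_monomial, Finsupp.prod_fintype _ _ (fun i => pow_zero _),
      Fin.prod_univ_two, mul_assoc]
  have h6 := ev_dvd (χ i) h3
  rw [ev_sub, h5] at h6
  have h7 : M3.ev (χ i) (∑ m ∈ S, (M3.cA (mc (c i) m) * M3.xA 0 ^ m 0 * M3.xA 1 ^ m 1 : AA k)) =
      ∑ m ∈ S, M3.cA (PowerSeries.map (algebraMap k L) (mc (c i) m)) * χ i 0 ^ m 0 *
        χ i 1 ^ m 1 := by
    rw [← evH_apply, map_sum]
    refine Finset.sum_congr rfl fun m _ => ?_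
    rw [evH_apply, h1 (c i)]
  rw [h7] at h6
  exact h6

end

section
variable {k : Type u} [Field k] {E : ℕ → ℕ+}

theorem Tame.isChS {χ : ℕ → Fin 2 → AA k} {N : ℕ} (h : IsChS E χ N) (j : Fin 2) :
    Tame E (fun i => χ i j) := by
  induction h generalizing j with
  | refl => exact Tame.xA j
  | swap _ ih =>
    refine Tame.ev (ih j) fun j' => ?_
    fin_cases j'
    · exact Tame.xA 1
    · exact Tame.xA 0
  | @step χ N c p D N₀ N₁ _ hD hp ih =>
    exact Tame.ev (ih j) fun j' => Tame.chA hD c _ _ j'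

theorem isChS_comp {χ ψ : ℕ → Fin 2 → AA k} {N M : ℕ} (hχ : IsChS E χ N) (hψ : IsChS E ψ M) :
    IsChS E (fun i j => ev (ψ i) (χ i j)) (N + M) := by
  induction hψ with
  | refl =>
    have h1 : (fun i j => ev (xA : Fin 2 → AA k) (χ i j)) = χ :=
      funext fun i => funext fun j => ev_self (χ i j)
    rw [h1]
    exact hχ
  | @swap ψ' M' _ ih =>
    have h1 := IsChS.swap ih
    have h2 : (fun i j => ev (fun j => ev (swA k) (ψ' i j)) (χ i j)) =
        fun i j => ev (swA k) (ev (ψ' i) (χ i j)) :=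
      funext fun i => funext fun j => (ev_ev _ _ _).symm
    rw [h2]
    exact h1
  | @step ψ' M' c p D N₀ N₁ _ hD hp ih =>
    have h1 := IsChS.step c p D N₀ N₁ ih hD hp
    have h2 : (fun i j => ev (fun j => ev (chA (c i) (p i) (N₀ * (E i : ℕ)) (N₁ * (E i : ℕ)))
        (ψ' i j)) (χ i j)) =
        fun i j => ev (chA (c i) (p i) (N₀ * (E i : ℕ)) (N₁ * (E i : ℕ))) (ev (ψ' i) (χ i j)) :=
      funext fun i => funext fun j => (ev_ev _ _ _).symm
    rw [h2, show N + (M' + N₀ + N₁) = N + M' + N₀ + N₁ by ring]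
    exact h1

/-- a single chart -/
theorem isChS_chA (c : ℕ → PowerSeries k) (p : ℕ → Polynomial (PowerSeries k)) (D N₀ N₁ : ℕ)
    (hD : ∀ i, (p i).natDegree ≤ D)
    (hp : ∀ i j, 1 ≤ j → PowerSeries.X ^ (N₀ * (E i : ℕ)) ∣ (p i).coeff j) :
    IsChS E (fun i => chA (c i) (p i) (N₀ * (E i : ℕ)) (N₁ * (E i : ℕ))) (N₀ + N₁) := by
  have h1 := IsChS.step (χ := fun _ => xA) c p D N₀ N₁ IsChS.refl hD hp
  have h2 : (fun i j => ev (chA (c i) (p i) (N₀ * (E i : ℕ)) (N₁ * (E i : ℕ))) (xA j : AA k)) =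
      fun i => chA (c i) (p i) (N₀ * (E i : ℕ)) (N₁ * (E i : ℕ)) :=
    funext fun i => funext fun j => ev_xA _ j
  rw [h2, zero_add] at h1
  exact h1

theorem isChS_swap : IsChS E (fun _ => swA k) 0 := by
  have h1 := IsChS.swap (E := E) (k := k) (χ := fun _ => xA) IsChS.refl
  have h2 : (fun (_ : ℕ) j => ev (swA k) (xA j : AA k)) = fun _ => swA k :=
    funext fun _ => funext fun j => ev_xA _ j
  rw [h2] at h1
  exact h1

end

end M4
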