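import Pool.Agent.M4.Nulb
import Pool.Agent.M4.Tame
import Pool.Agent.M3.LimCh

/-!
PIECE M4-A04: transfer of domination and of lower bounds (port of the second part of `M3.LimCh`, and of
`M3.lowB_isCh`); `N` is replaced by `N * E i` (`IsChS.isCh`, `cod_isCh`, `cod_isCh_inv`).  `M3.adm_div` can be used
as it is (`Adm` does not depend on `E`).

PROOF. `adm_isChS`: for almost all `i`: `P i = χ i (P' i)`, `cod_isCh_inv` gives `N * E i ≤ C i` and
`Cod k (P' i) (C i - N * E i)`; the orders: `ev (P' i) (ev (χ i) (c i h)) = ev (P i) (c i h)` (`ev_ev`).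
`dom_isChS`: given `Q`, `C₁`, `n₁` for the family `ev (χ i) (c i h)` take `χ i (Q)` (`cod_isCh`), `C₁ + N * E i`,
`n₁`, the bound `ℓ + N`.
`dom_mul`: for `c i h = X^(e i (grp h)) * c' i h`, `e i j ≤ A * E i`, and `Q`, `C₁`, `n₁` from the hypothesis take `Q`, `C₁`,
`n₁ j + e i j`; `n i j ≤ (n i j - e i j) + e i j` (natural subtraction).
`dom_of_arc`: `exists_Om` as in `M3.dom_of_arc`.
`dom_of_nonneg`: `exists_generic`, `C' = 0`, `n' = 0`.
`dom_congr`: if `c i h` and `c' i h` are congruent modulo `X^(ℓ * E i)` for every `ℓ` (for almost all `i`) the orders `≤ ℓ * E i` at `Q`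
are the same (`ev_dvd`, `ev_sub`).
`lowB_isChS`: for an arc `P` over `L` with `C ≤ ℓ * E i`, `n ≤ ℓ * E i` for `ev (χ i) (c i h)` the arc `χ i (P)` has
codimension `≤ C + N * E i` (`cod_isCh`), apply the bound for `ℓ + N`; the new constant is `K + N`.
`lowB_div`: `c i h = X^(e i (grp h)) * c' i h`, `e i j ≤ A * E i`: an arc with orders `n` for `c'` has orders `n j + e i j` for
`c`: `-K * E i ≤ C - ∑ lam (n + e)`, so `-K * E i ≤ C - ∑ lam n` if `lam ≥ 0` (bound for `ℓ + A`).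
`lowB_congr`: as `dom_congr`.
`lowB_ne`: otherwise all members of the group `j` are divisible by `X^(ℓ * E i)` for almost all `i`: the generic arc
(`exists_generic`) with `C = 0`, `n j = ℓ * E i`, other `n = 0`: `-K * E i ≤ -lam j * ℓ * E i` for all `ℓ`, a contradiction.
-/

open MvPolynomial

namespace M4

open M3

universe u

section
variable {E : ℕ → ℕ+} {k : Type u} [Field k] {r : ℕ} {J : Type} {lam : Fin r → ℝ}
  {grp : J → Fin r} {c : ℕ → J → AA k} {P : ℕ → Fin 2 → PowerSeries (Om k)} {C : ℕ → ℕ}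
  {n : ℕ → Fin r → ℕ}

theorem adm_isChS (hA : Adm grp c P C n) {χ : ℕ → Fin 2 → AA k} {N : ℕ} (hχ : IsChS E χ N)
    {P' : ℕ → Fin 2 → PowerSeries (Om k)}
    (hP : ∀ᶠ i in Uf, P i = fun j => ev (P' i) (χ i j)) :
    (∀ᶠ i in Uf, N * (E i : ℕ) ≤ C i) ∧
      Adm grp (fun i h => ev (χ i) (c i h)) P' (fun i => C i - N * (E i : ℕ)) n := by
  have h1 : ∀ᶠ i in Uf, N * (E i : ℕ) ≤ C i ∧ Cod k (P' i) (C i - N * (E i : ℕ)) ∧
      OrdGe grp (fun h => ev (χ i) (c i h)) (P' i) (n i) := by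
    filter_upwards [hA, hP] with i hi hi'
    rw [hi'] at hi
    obtain ⟨h2, h3⟩ := cod_isCh_inv (hχ.isCh i) hi.1
    refine ⟨h2, h3, fun h => ?_⟩
    rw [ev_ev]
    exact hi.2 h
  exact ⟨h1.mono fun i hi => hi.1, h1.mono fun i hi => hi.2⟩

theorem dom_isChS {χ : ℕ → Fin 2 → AA k} {N : ℕ} (hχ : IsChS E χ N)
    (hN : ∀ᶠ i in Uf, N * (E i : ℕ) ≤ C i)
    (hD : Dom E lam grp (fun i h => ev (χ i) (c i h)) (fun i => C i - N * (E i : ℕ)) n) :
    Dom E lam grp c C n := by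
  obtain ⟨ℓ, hℓ⟩ := hD
  refine ⟨ℓ + N, ?_⟩
  filter_upwards [hℓ, hN] with i hi hi'
  obtain ⟨Q, C', n', h1, h2, h3, h4, h5⟩ := hi
  refine ⟨fun j => ev Q (χ i j), C' + N * (E i : ℕ), n', ?_, fun j => ?_,
    cod_isCh (hχ.isCh i) h3, fun h => ?_, ?_⟩
  · rw [add_mul]
    omega
  · have h6 := h2 j
    rw [add_mul]
    omega
  · have h6 := h4 h
    rw [ev_ev] at h6
    exact h6
  · rw [Nat.cast_sub hi'] at h5
    push_cast at h5 ⊢
    linarith

theorem dom_mul (hlam : ∀ j, 0 ≤ lam j) {c' : ℕ → J → AA k} (e : ℕ → Fin r → ℕ) (A : ℕ)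
    (he : ∀ᶠ i in Uf, ∀ j, e i j ≤ A * (E i : ℕ))
    (hc : ∀ᶠ i in Uf, ∀ h, c i h = PowerSeries.X ^ e i (grp h) * c' i h)
    (hD : Dom E lam grp c' C (fun i j => n i j - e i j)) : Dom E lam grp c C n := by
  obtain ⟨ℓ, hℓ⟩ := hD
  refine ⟨ℓ + A, ?_⟩
  filter_upwards [hℓ, hc, he] with i hi hi' hi''
  obtain ⟨Q, C', n', h1, h2, h3, h4, h5⟩ := hi
  refine ⟨Q, C', fun j => n' j + e i j, ?_, fun j => ?_, h3, fun h => ?_, ?_⟩
  · rw [add_mul]
    omega
  · have h6 := hi'' j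
    have h7 := h2 j
    change n' j + e i j ≤ _
    rw [add_mul]
    omega
  · change PowerSeries.X ^ (n' (grp h) + e i (grp h)) ∣ _
    rw [hi' h, ev_mul, ev_pow, ev_X, pow_add, mul_comm]
    exact mul_dvd_mul_left _ (h4 h)
  · have h6 : ∑ j, lam j * (n i j : ℝ) ≤ ∑ j, lam j * ((n i j - e i j : ℕ) : ℝ) +
        ∑ j, lam j * (e i j : ℝ) := by
      rw [← Finset.sum_add_distrib]
      refine Finset.sum_le_sum fun j _ => ?_
      rw [← mul_add]
      refine mul_le_mul_of_nonneg_left ?_ (hlam j)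
      have h8 : n i j ≤ (n i j - e i j) + e i j := by omega
      exact_mod_cast h8
    have h7 : ∑ j, lam j * ((n' j + e i j : ℕ) : ℝ) = ∑ j, lam j * (n' j : ℝ) +
        ∑ j, lam j * (e i j : ℝ) := by
      rw [← Finset.sum_add_distrib]
      refine Finset.sum_congr rfl fun j _ => ?_
      push_cast
      ring
    rw [h7]
    linarith

theorem dom_of_nonneg (h : ∀ᶠ i in Uf, 0 ≤ (C i : ℝ) - ∑ j, lam j * n i j) :
    Dom E lam grp c C n := by
  obtain ⟨Q, hQ⟩ := exists_generic k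
  refine ⟨0, h.mono fun i hi => ⟨Q, 0, fun _ => 0, Nat.zero_le _, fun _ => Nat.zero_le _, hQ,
    fun h => ?_, ?_⟩⟩
  · rw [pow_zero]
    exact one_dvd _
  · simpa using hi

theorem dom_of_arc (ℓ : ℕ)
    (h : ∀ᶠ i in Uf, ∃ (L : Type u) (_ : Field L) (_ : Algebra k L) (Q : Fin 2 → PowerSeries L)
      (C' : ℕ) (n' : Fin r → ℕ), C' ≤ ℓ * (E i : ℕ) ∧ (∀ j, n' j ≤ ℓ * (E i : ℕ)) ∧ Cod k Q C' ∧
        OrdGe grp (c i) Q n' ∧ (C' : ℝ) - ∑ j, lam j * n' j ≤ C i - ∑ j, lam j * n i j) :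
    Dom E lam grp c C n := by
  refine ⟨ℓ, ?_⟩
  filter_upwards [h] with i hi
  obtain ⟨L, _, _, Q, C', n', h1, h2, h3, h4, h5⟩ := hi
  obtain ⟨Q', h6, h7⟩ := exists_Om (k := k) Q
  exact ⟨Q', C', n', h1, h2, fun m => h6 m C' (h3 m), fun h => (h7 (c i h) _).1 (h4 h), h5⟩

/-- orders of congruent functions -/
private theorem DomT_ord {L : Type*} [CommRing L] [Algebra k L] {f g : AA k} {M m : ℕ}
    (hfg : (PowerSeries.X : AA k) ^ M ∣ f - g) (hm : m ≤ M) (Q : Fin 2 → PowerSeries L)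
    (hf : (PowerSeries.X : PowerSeries L) ^ m ∣ ev Q f) :
    (PowerSeries.X : PowerSeries L) ^ m ∣ ev Q g := by
  have h1 : (PowerSeries.X : PowerSeries L) ^ m ∣ ev Q (f - g) :=
    (pow_dvd_pow _ hm).trans (ev_dvd Q hfg)
  rw [ev_sub] at h1
  have h2 := dvd_sub hf h1
  rwa [sub_sub_cancel] at h2

theorem dom_congr {c' : ℕ → J → AA k}
    (hc : ∀ M : ℕ, ∀ᶠ i in Uf, ∀ h, (PowerSeries.X : AA k) ^ (M * (E i : ℕ)) ∣ c i h - c' i h)
    (hD : Dom E lam grp c C n) : Dom E lam grp c' C n := by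
  obtain ⟨ℓ, hℓ⟩ := hD
  refine ⟨ℓ, ?_⟩
  filter_upwards [hℓ, hc ℓ] with i hi hi'
  obtain ⟨Q, C', n', h1, h2, h3, h4, h5⟩ := hi
  exact ⟨Q, C', n', h1, h2, h3, fun h => DomT_ord (hi' h) (h2 (grp h)) Q (h4 h), h5⟩

theorem lowB_isChS (hL : LowB E lam grp c) {χ : ℕ → Fin 2 → AA k} {N : ℕ} (hχ : IsChS E χ N) :
    LowB E lam grp (fun i h => ev (χ i) (c i h)) := by
  obtain ⟨K, hK⟩ := hL
  refine ⟨K + N, fun ℓ => ?_⟩
  filter_upwards [hK (ℓ + N)] with i hi L _ _ P C n hC hn hcod hO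
  have h1 := hi L (fun j => ev P (χ i j)) (C + N * (E i : ℕ)) n (by
    rw [add_mul]
    omega) (fun j => by
    have := hn j
    rw [add_mul]
    omega) (cod_isCh (hχ.isCh i) hcod) (fun h => by
      have h2 := hO h
      rwa [ev_ev] at h2)
  push_cast at h1
  linarith

theorem lowB_div (hlam : ∀ j, 0 ≤ lam j) (hL : LowB E lam grp c) {c' : ℕ → J → AA k}
    (e : ℕ → Fin r → ℕ) (A : ℕ) (he : ∀ᶠ i in Uf, ∀ j, e i j ≤ A * (E i : ℕ))
    (hc : ∀ᶠ i in Uf, ∀ h, c i h = PowerSeries.X ^ e i (grp h) * c' i h) :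
    LowB E lam grp c' := by
  obtain ⟨K, hK⟩ := hL
  refine ⟨K, fun ℓ => ?_⟩
  filter_upwards [hK (ℓ + A), he, hc] with i hi hi' hi'' L _ _ P C n hC hn hcod hO
  have h1 := hi L P C (fun j => n j + e i j) (by
    rw [add_mul]
    omega) (fun j => by
    have h2 := hn j
    have h3 := hi' j
    change n j + e i j ≤ _
    rw [add_mul]
    omega) hcod (fun h => by
      change PowerSeries.X ^ (n (grp h) + e i (grp h)) ∣ _
      rw [hi'' h, ev_mul, ev_pow, ev_X, pow_add, mul_comm]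
      exact mul_dvd_mul_left _ (hO h))
  have h2 : ∑ j, lam j * (n j : ℝ) ≤ ∑ j, lam j * ((n j + e i j : ℕ) : ℝ) := by
    refine Finset.sum_le_sum fun j _ => mul_le_mul_of_nonneg_left ?_ (hlam j)
    exact_mod_cast Nat.le_add_right _ _
  linarith

theorem lowB_congr (hL : LowB E lam grp c) {c' : ℕ → J → AA k}
    (hc : ∀ M : ℕ, ∀ᶠ i in Uf, ∀ h, (PowerSeries.X : AA k) ^ (M * (E i : ℕ)) ∣ c i h - c' i h) :
    LowB E lam grp c' := by
  obtain ⟨K, hK⟩ := hL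
  refine ⟨K, fun ℓ => ?_⟩
  filter_upwards [hK ℓ, hc ℓ] with i hi hi' L _ _ P C n hC hn hcod hO
  refine hi L P C n hC hn hcod fun h => ?_
  have h1 : (PowerSeries.X : AA k) ^ (ℓ * (E i : ℕ)) ∣ c' i h - c i h := by
    have h2 := (dvd_neg).2 (hi' h)
    rwa [neg_sub] at h2
  exact DomT_ord h1 (hn (grp h)) P (hO h)

/-- a family with a lower bound has a member which is not null in every group -/
theorem lowB_ne [Finite J] (hlam : ∀ j, 0 < lam j) (hL : LowB E lam grp c) (j : Fin r) :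
    ∃ h, grp h = j ∧ ¬ Nul E (fun i => c i h) := by
  by_contra hcon
  push Not at hcon
  obtain ⟨K, hK⟩ := hL
  obtain ⟨Q, hQ⟩ := exists_generic k
  obtain ⟨ℓ, hℓ⟩ := exists_nat_gt (K / lam j)
  have h1 : ∀ᶠ i in Uf, ∀ h, grp h = j →
      (PowerSeries.X : AA k) ^ (ℓ * (E i : ℕ)) ∣ c i h := by
    rw [Filter.eventually_all]
    intro h
    by_cases hh : grp h = j
    · filter_upwards [hcon h hh ℓ] with i hi _ using hi
    · exact Filter.Eventually.of_forall fun i h2 => absurd h2 hh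
  obtain ⟨i, hi, hi'⟩ := ((hK ℓ).and h1).exists
  have h2 := hi (Om k) Q 0 (fun j' => if j' = j then ℓ * (E i : ℕ) else 0) (Nat.zero_le _)
    (fun j' => by
      split_ifs
      · exact le_refl _
      · exact Nat.zero_le _) hQ (fun h => by
      dsimp only
      split_ifs with h3
      · exact ev_dvd Q (hi' h h3)
      · rw [pow_zero]
        exact one_dvd _)
  have h3 : ∑ j', lam j' * (((if j' = j then ℓ * (E i : ℕ) else 0 : ℕ)) : ℝ) =
      lam j * (ℓ * (E i : ℕ)) := by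
    rw [Finset.sum_eq_single j]
    · rw [if_pos rfl]
      push_cast
      ring
    · intro b _ hb
      rw [if_neg hb]
      simp
    · intro hj
      exact absurd (Finset.mem_univ j) hj
  rw [h3] at h2
  have h4 : (0 : ℝ) < ((E i : ℕ) : ℝ) := by exact_mod_cast (E i).pos
  have h5 : K < lam j * ℓ := by
    rw [div_lt_iff₀ (hlam j)] at hℓ
    linarith
  have h6 : K * ((E i : ℕ) : ℝ) < lam j * ℓ * ((E i : ℕ) : ℝ) :=
    mul_lt_mul_of_pos_right h5 h4
  push_cast at h2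
  linarith

end

end M4
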