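import Pool.Agent.M4.ExpArc
import Pool.Agent.M4.DomT

/-!
PIECE M4-B06: the order of vanishing along a moving point is at most one (in the sense of `lam`).

PROOF. `not_nul` for `hδ`: `A` with, for almost all `i`, `¬ X^(A * E i) ∣ dS (δ i) (P i j)`.  Let `K` be the constant of `LowB` and `M : ℕ`.
`ℓ := M + A + 1 + M * ∑ j, B j`.  For almost all `i` let `κ` be the minimum of the orders of `dS (δ i) (P i j')`, `j' = 0, 1` (`< A * E i`) and
`j₀` an index with this order; `exp_arc` with `M * E i` gives `R` over `L'` with `Cod k R (M * E i + κ + 1)`, so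
`Cod k R ((M + A + 1) * E i)`, and `X^(M * E i * B j) ∣ ev R (c i h)` for all `h` with `grp h = j` (the hypothesis for `mc (cent ..) m`,
`m 0 + m 1 < B (grp h)`, modulo `X^(M * B j * E i)`, from `hB`; finitely many `h`, `m`).  `LowB` with `C := (M + A + 1) * E i`,
`n j := M * E i * B j`: `-K * E i ≤ (M + A + 1) * E i - ∑ lam j * (M * E i * B j)`; divide by `E i`:
`M * ∑ lam j B j ≤ M + A + 1 + K` for all `M`, so `∑ lam j B j ≤ 1`.
-/

open MvPolynomial

namespace M4

open M3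

universe u

private theorem jetLow_fin (b : ℕ) : {m : Fin 2 →₀ ℕ | m 0 + m 1 < b}.Finite := by
  refine (Set.finite_Iic (Finsupp.equivFunOnFinite.symm (fun _ : Fin 2 => b))).subset ?_
  intro m hm
  rw [Set.mem_ofPred_eq] at hm
  rw [Set.mem_Iic]
  intro j
  rw [Finsupp.equivFunOnFinite_symm_apply_apply]
  fin_cases j
  · show m 0 ≤ b
    omega
  · show m 1 ≤ b
    omega

theorem lowB_jet {E : ℕ → ℕ+} {k : Type u} [Field k] [CharZero k] {r : ℕ} {J : Type} [Finite J]
    {lam : Fin r → ℝ} (hlam : ∀ j, 0 < lam j) {grp : J → Fin r} {c : ℕ → J → AA k}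
    (hL : LowB E lam grp c) (P : ℕ → Fin 2 → PowerSeries (Om k))
    (δ : ℕ → Derivation k (Om k) (Om k)) (hδ : ∃ j, ¬ Nul E (fun i => dS (δ i) (P i j)))
    (B : Fin r → ℕ) (hB : ∀ h (m : Fin 2 →₀ ℕ), m 0 + m 1 < B (grp h) →
      Nul E (fun i => mc (cent (P i) (c i h)) m)) : ∑ j, lam j * B j ≤ 1 := by
  classical
  have : CharZero (Om k) := charZero_of_injective_algebraMap (algebraMap k (Om k)).injective
  obtain ⟨j₁, hj₁⟩ := hδ
  obtain ⟨A, hA⟩ := not_nul.1 hj₁
  obtain ⟨K, hK⟩ := hL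
  by_contra hcon
  rw [not_le] at hcon
  obtain ⟨M, hM⟩ := exists_nat_gt ((A + 1 + K) / (∑ j, lam j * B j - 1))
  have hpos : 0 < ∑ j, lam j * (B j : ℝ) - 1 := by linarith
  rw [div_lt_iff₀ hpos] at hM
  have hfin : ∀ᶠ i in Uf, ∀ h, ∀ m ∈ {m : Fin 2 →₀ ℕ | m 0 + m 1 < B (grp h)},
      (PowerSeries.X : PowerSeries (Om k)) ^ (M * B (grp h) * (E i : ℕ)) ∣
        mc (cent (P i) (c i h)) m := by
    rw [Filter.eventually_all]
    intro h
    rw [Filter.eventually_all_finite (jetLow_fin _)]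
    intro m hm
    exact hB h m hm (M * B (grp h))
  obtain ⟨i, hi1, hi2, hi3⟩ := ((hK (M + A + 1 + M * ∑ j, B j)).and (hA.and hfin)).exists
  have hex : ∃ n, ∃ j, PowerSeries.coeff n (dS (δ i) (P i j)) ≠ 0 := by
    by_contra hno
    push Not at hno
    apply hi2
    rw [PowerSeries.X_pow_dvd_iff]
    intro m _
    exact hno m j₁
  have hκ : Nat.find hex < A * (E i : ℕ) := by
    by_contra hge
    rw [not_lt] at hge
    apply hi2
    rw [PowerSeries.X_pow_dvd_iff]
    intro m hm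
    by_contra hne
    exact Nat.find_min hex (lt_of_lt_of_le hm hge) ⟨j₁, hne⟩
  obtain ⟨j₀, hj₀⟩ := Nat.find_spec hex
  obtain ⟨L', _, _, R, hR1, hR2⟩ := exp_arc (δ i) (P i) (Nat.find hex) j₀ (fun j n hn => by
    by_contra hne
    exact Nat.find_min hex hn ⟨j, hne⟩) hj₀ (M * (E i : ℕ))
  have hE : 0 < (E i : ℕ) := (E i).pos
  have h1 := hi1 L' R ((M + A + 1) * (E i : ℕ)) (fun j => M * (E i : ℕ) * B j)
    (Nat.mul_le_mul_right _ (by omega)) (fun j => by
      have h2 : B j ≤ ∑ j, B j := Finset.single_le_sum (fun _ _ => Nat.zero_le _)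
        (Finset.mem_univ j)
      calc M * (E i : ℕ) * B j = M * B j * (E i : ℕ) := by ring
        _ ≤ M * (∑ j, B j) * (E i : ℕ) :=
          Nat.mul_le_mul_right _ (Nat.mul_le_mul_left _ h2)
        _ ≤ _ := Nat.mul_le_mul_right _ (by omega))
    (hR1.mono (by
      rw [add_mul, add_mul]
      omega)) (fun h => by
      refine hR2 (c i h) (B (grp h)) fun m hm => ?_
      have h3 := hi3 h m hm
      rwa [show M * (E i : ℕ) * B (grp h) = M * B (grp h) * (E i : ℕ) by ring])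
  have hE' : (0 : ℝ) < (E i : ℕ) := by exact_mod_cast hE
  have h4 : ∑ j, lam j * ((M * (E i : ℕ) * B j : ℕ) : ℝ) =
      (M * ∑ j, lam j * (B j : ℝ)) * ((E i : ℕ) : ℝ) := by
    rw [Finset.mul_sum, Finset.sum_mul]
    refine Finset.sum_congr rfl fun j _ => ?_
    push_cast
    ring
  rw [h4] at h1
  push_cast at h1
  have h5 : (M * ∑ j, lam j * (B j : ℝ)) * ((E i : ℕ) : ℝ) ≤
      (M + A + 1 + K) * ((E i : ℕ) : ℝ) := by linarith
  have h6 := le_of_mul_le_mul_right h5 hE'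
  linarith

end M4
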