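import Pool.Agent.M4.JetDom
import Pool.Agent.M4.JetLow
import Pool.Agent.M3.Irr

/-!
PIECE M4-B07: domination if the arcs do not tend to a rational arc.

PROOF. `exists_moving`: let `z i j := mk fun n => x` with `algebraMap x = coeff n (P i j)` if such an `x` exists, and `0` otherwise.  By
`hP` `z` some `j` and `M` have: for almost all `i` (`not_nul`) `X^(M * E i)` does not divide `P i j - map (z i j)`, so there is `n < M * E i`
such that `coeff n (P i j)` is not in the image of `k`; `exists_der_ne` (`M3.Irr`) gives `δ i` with `δ i (coeff n (P i j)) ≠ 0` (for the other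
`i` take `δ i := 0`), so `X^(M * E i)` does not divide `dS (δ i) (P i j)`.
`block_B`: for `h` not null let `B h` be the smallest `B` such that some `mc (cent (P i) (c i h)) m` with `m 0 + m 1 = B` is not null
(`exists_cent_ne`).  `h3` of `jet_dom` with `u i j := dS (δ i) (P i j)`: for `m 0 + m 1 + 1 = B h` the sequence
`mc (cent (P i) (c i h)) m` is null, so is `dS (δ i)` of it (`dS_dvd`), apply `cent_der`.
`hj j` := a member of the group `j` which is not null with the smallest `B h` (`ne`).  `lowB_jet` with `B j := B (hj j)` (for null members all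
`mc (cent ..) m` are null, `Nul.ev`, `nul_mc`) gives `∑ lam j * B (hj j) ≤ 1`.
-/

open MvPolynomial

namespace M4

open M3

universe u

theorem exists_moving {E : ℕ → ℕ+} {k : Type u} [Field k] [IsAlgClosed k] [CharZero k]
    {P : ℕ → Fin 2 → PowerSeries (Om k)} (hP : ∀ z, ¬ Near E P z) :
    ∃ δ : ℕ → Derivation k (Om k) (Om k), ∃ j, ¬ Nul E (fun i => dS (δ i) (P i j)) := by
  classical
  have hz : ∀ (x : Om k), ∃ y : k, x ∈ Set.range (algebraMap k (Om k)) →
      algebraMap k (Om k) y = x := by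
    intro x
    by_cases hx : x ∈ Set.range (algebraMap k (Om k))
    · obtain ⟨y, hy⟩ := hx
      exact ⟨y, fun _ => hy⟩
    · exact ⟨0, fun h => absurd h hx⟩
  choose ζ hζ using hz
  have h1 := hP fun i j => PowerSeries.mk fun n => ζ (PowerSeries.coeff n (P i j))
  unfold Near at h1
  rw [not_forall] at h1
  obtain ⟨j, hj⟩ := h1
  obtain ⟨A, hA⟩ := not_nul.1 hj
  have hδ : ∀ i, ∃ δ : Derivation k (Om k) (Om k),
      (∃ n < A * (E i : ℕ), PowerSeries.coeff n (P i j) ∉ Set.range (algebraMap k (Om k))) →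
      ∃ n < A * (E i : ℕ), δ (PowerSeries.coeff n (P i j)) ≠ 0 := by
    intro i
    by_cases h : ∃ n < A * (E i : ℕ),
        PowerSeries.coeff n (P i j) ∉ Set.range (algebraMap k (Om k))
    · obtain ⟨n, hn, hx⟩ := h
      obtain ⟨δ, hδ⟩ := exists_der_ne _ hx
      exact ⟨δ, fun _ => ⟨n, hn, hδ⟩⟩
    · exact ⟨0, fun h' => absurd h' h⟩
  choose δ hδ using hδ
  refine ⟨δ, j, not_nul.2 ⟨A, ?_⟩⟩
  filter_upwards [hA] with i hi
  have h2 : ∃ n < A * (E i : ℕ),
      PowerSeries.coeff n (P i j) ∉ Set.range (algebraMap k (Om k)) := by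
    by_contra hcon
    push Not at hcon
    apply hi
    rw [PowerSeries.X_pow_dvd_iff]
    intro n hn
    rw [map_sub, PowerSeries.coeff_map, PowerSeries.coeff_mk, hζ _ (hcon n hn), sub_self]
  obtain ⟨n, hn, hne⟩ := hδ i h2
  intro hd
  rw [PowerSeries.X_pow_dvd_iff] at hd
  have h3 := hd n hn
  unfold dS at h3
  rw [PowerSeries.coeff_mk] at h3
  exact hne h3

theorem block_B {E : ℕ → ℕ+} {k : Type u} [Field k] [IsAlgClosed k] [CharZero k] {r : ℕ}
    {J : Type} [Fintype J] {lam : Fin r → ℝ} (hlam : ∀ j, 0 < lam j) {grp : J → Fin r}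
    {c : ℕ → J → AA k} (tm : ∀ h, Tame E (fun i => c i h))
    (ne : ∀ j, ∃ h, grp h = j ∧ ¬ Nul E (fun i => c i h)) (hL : LowB E lam grp c)
    {P : ℕ → Fin 2 → PowerSeries (Om k)} {C : ℕ → ℕ} {n : ℕ → Fin r → ℕ}
    (hA : Adm grp c P C n) (hP : ∀ z, ¬ Near E P z) : Dom E lam grp c C n := by
  classical
  obtain ⟨δ, hδ⟩ := exists_moving hP
  have hB : ∀ h, ∃ B : ℕ, ¬ Nul E (fun i => c i h) →
      (∀ m : Fin 2 →₀ ℕ, m 0 + m 1 < B → Nul E (fun i => mc (cent (P i) (c i h)) m)) ∧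
      ∃ m : Fin 2 →₀ ℕ, m 0 + m 1 = B ∧ ¬ Nul E (fun i => mc (cent (P i) (c i h)) m) := by
    intro h
    by_cases hn : Nul E (fun i => c i h)
    · exact ⟨0, fun h' => absurd hn h'⟩
    · obtain ⟨m, hm⟩ := exists_cent_ne (tm h) hn P
      have hex : ∃ B : ℕ, ∃ m : Fin 2 →₀ ℕ, m 0 + m 1 = B ∧
          ¬ Nul E (fun i => mc (cent (P i) (c i h)) m) := ⟨_, m, rfl, hm⟩
      refine ⟨Nat.find hex, fun _ => ⟨fun m' hm' => ?_, Nat.find_spec hex⟩⟩
      by_contra hc
      exact Nat.find_min hex hm' ⟨m', rfl, hc⟩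
  choose B hB using hB
  have hmin : ∀ j, ∃ h, grp h = j ∧ ¬ Nul E (fun i => c i h) ∧
      ∀ h', grp h' = j → ¬ Nul E (fun i => c i h') → B h ≤ B h' := by
    intro j
    obtain ⟨h₀, hj0, hh0⟩ := ne j
    let s : Finset J := Finset.univ.filter fun h => grp h = j ∧ ¬ Nul E (fun i => c i h)
    have hs : s.Nonempty := ⟨h₀, by
      simp only [s, Finset.mem_filter, Finset.mem_univ, true_and]
      exact ⟨hj0, hh0⟩⟩
    obtain ⟨h, hh, hmin⟩ := Finset.exists_min_image s B hs
    simp only [s, Finset.mem_filter, Finset.mem_univ, true_and] at hh hmin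
    exact ⟨h, hh.1, hh.2, fun h' h1 h2 => hmin h' ⟨h1, h2⟩⟩
  choose hj h1 h2 h3 using hmin
  refine jet_dom hlam hA (fun i j => dS (δ i) (P i j)) hδ B (fun h hh => (hB h hh).1)
    (fun h hh => (hB h hh).2) (fun h hh m hm => ?_) hj (fun j => ⟨h1 j, h2 j⟩) ?_
  · have h4 := (hB h hh).1 m (by omega)
    intro M
    filter_upwards [h4 M] with i hi
    have h5 := dS_dvd (δ i) hi
    rw [cent_der] at h5
    exact h5
  · refine lowB_jet hlam hL P δ hδ (fun j => B (hj j)) fun h m hm => ?_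
    by_cases hn : Nul E (fun i => c i h)
    · exact nul_mc (Nul.ev (R := MvPolynomial (Fin 2) (Om k)) hn
        (fun i j => (cA (P i j) + xA j : AA (Om k)))) m
    · exact (hB h hn).1 m (lt_of_lt_of_le hm (h3 (grp h) h rfl hn))

end M4
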