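import Pool.Agent.M4.CStar

/-!
PIECE M4-C03: block C (port of `M3.BlkC`).

PROOF. As `M3.BlkC`: `exists_TC` (M3) gives the maximal charts `L i`, `u i`, `p i`, `P' i`; `c' i h` with
`ev (tch ..) (c i h) = X^(d L i) * c' i h`; `G` from `exists_G`; `ℓ * E i ≤ L i` for almost all `i` from `L_large` and the maximality;
`a * L i + b * L i ≤ C i` (`TC.cod`); `dom_C`; the last clause: `star` gives a chart with `L i + E i > L i`, a contradiction to the
maximality.
-/

open MvPolynomial

namespace M4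

open M3

universe u

theorem block_C {E : ℕ → ℕ+} {k : Type u} [Field k] [IsAlgClosed k] [CharZero k] {r : ℕ}
    {J : Type} [Fintype J] {a b : ℕ} {mu : Fin r → ℝ} {grp : J → Fin r} {d : Fin r → ℕ}
    {F : J → MvPolynomial (Fin 2) (Lam E k)} (hS : Stt a b mu grp d (fun h => toKL (F h)))
    {c : ℕ → J → AA k} (hc : ∀ h, IsLim E (fun i => c i h) (F h))
    {P : ℕ → Fin 2 → PowerSeries (Om k)} {C : ℕ → ℕ} {n : ℕ → Fin r → ℕ}
    (hA : Adm grp c P C n) (hP : ∀ j, Nul E (fun i => P i j)) :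
    ∃ (G : J → MvPolynomial (Fin 2) (Lam E k)) (c' : ℕ → J → AA k)
      (P' : ℕ → Fin 2 → PowerSeries (Om k)) (C' : ℕ → ℕ) (n' : ℕ → Fin r → ℕ),
      (∀ h m, d (grp h) ≤ wt a b m → coeff m (G h) = coeff m (F h)) ∧
      (∀ h, IsLim E (fun i => c' i h) (G h)) ∧ Adm grp c' P' C' n' ∧
      (Dom E mu grp c' C' n' → Dom E mu grp c C n) ∧
      ∀ z : ℕ → Fin 2 → PowerSeries k, Near E P' z →
        ¬ Tr a b F G (fun j => lm E (fun i => z i j)) := by
  have ha := hS.ha
  have hb : 0 < b := lt_of_lt_of_le ha hS.hab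
  have hF : ∀ h m, coeff m (F h) ≠ 0 → wt a b m = d (grp h) := by
    intro h m he
    refine hS.hom h m fun h0 => he ?_
    have h1 : algebraMap (Lam E k) (KL E k) (coeff m (F h)) = 0 := by
      have h2 : coeff m (toKL (F h)) = algebraMap (Lam E k) (KL E k) (coeff m (F h)) := by
        unfold toKL
        rw [coeff_map]
      rw [← h2]
      exact h0
    exact (map_eq_zero_iff _ (IsFractionRing.injective (Lam E k) (KL E k))).1 h1
  obtain ⟨L, u, p, P', hT, hmax⟩ := exists_TC ha hb grp d c P C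
  choose c' hg using fun i h => (hT i).2.2 h
  choose G hG1 hG2 using fun h => exists_G ha hb (hF h) (hc h) (fun i => (hT i).1)
    (fun i => hg i h)
  have hL : ∀ ℓ : ℕ, ∀ᶠ i in Uf, ℓ * (E i : ℕ) ≤ L i := by
    intro ℓ
    filter_upwards [hA, L_large hb hF hc hP ℓ] with i hi hi'
    exact hmax i _ hi.1 hi'
  have hLC : ∀ᶠ i in Uf, a * L i + b * L i ≤ C i := by
    filter_upwards [hA] with i hi
    exact ((hT i).cod hi.1).1
  refine ⟨G, c', P', fun i => C i - a * L i - b * L i, fun i j => n i j - d j * L i,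
    fun h m he => hG2 h m he, hG1, ?_, ?_, ?_⟩
  · filter_upwards [hA] with i hi
    refine ⟨((hT i).cod hi.1).2, fun h => ?_⟩
    have h1 := hi.2 h
    have h2 : ev (P i) (c i h) =
        PowerSeries.X ^ (d (grp h) * L i) * ev (P' i) (c' i h) := by
      have h3 := congrArg (ev (P' i)) (hg i h)
      rw [ev_ev, ev_mul, ev_X_pow] at h3
      rw [← h3]
      congr 1
      exact (hT i).2.1
    rw [h2] at h1
    change (PowerSeries.X : PowerSeries (Om k)) ^ (n i (grp h) - d (grp h) * L i) ∣ _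
    rcases Nat.lt_or_ge (n i (grp h)) (d (grp h) * L i) with h3 | h3
    · rw [Nat.sub_eq_zero_of_le h3.le, pow_zero]
      exact one_dvd _
    · rw [← Nat.add_sub_cancel' h3, pow_add] at h1
      exact (mul_dvd_mul_iff_left (pow_ne_zero _ PowerSeries.X_ne_zero)).1 h1
  · refine dom_C (fun j => (hS.hmu j).le) hS.sum (fun M => ?_) hLC
    rw [Filter.eventually_all]
    intro h
    filter_upwards [homog_mod (hF h) (hc h) M] with i hi
    exact ⟨hi, mc_quot ha (hT i).1 (hg i h) hi⟩
  · intro z hz htr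
    have h1 := star ha hb hF hc hG1 hT hg hL hz htr
    have h2 : ∀ᶠ i in Uf, False := by
      filter_upwards [hA, h1] with i hi hi'
      have h3 := hmax i _ hi.1 hi'
      have h4 := (E i).pos
      omega
    exact h2.exists.elim fun _ h => h

end M4
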