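import Pool.Agent.M4.LimP

/-!
PIECE M4-G05: lifting of arcs to charts.

PROOF. Induction on `IsChS`, with `P`, `w` general.  `refl`: `P' := P` (`ev_xA`).
`swap`: `ev (w i) (ev (swA _) (χ i j)) = ev (w' i) (χ i j)`, `w' i j := ev (w i) (swA _ j)` the swapped point (`ev_ev`); apply the induction
hypothesis to `w'` and swap `P'`.
`step c p D N₀ N₁`: by `ev_ev` the point is `χ i (w' i)`, `w' i := (c i + X^(N₀ E i) * w i 0, p i (w i 0) + X^(N₁ E i) * w i 1)`; the induction
hypothesis gives `P''` near `w'` with `P i = χ i (P'' i)`.  `P'' i 0 - c i - X^(N₀ E i) * w i 0` is null, so for almost all `i` `P'' i 0 - c i` is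
divisible by `X^(N₀ * E i)`, `P' i 0 :=` the quotient (for the other `i` take `0`); `P' i 0 - w i 0` is null (`Nul.div`).  Then
`P'' i 1 - p i (w i 0) - X^(N₁ E i) * w i 1` is null and `p i (P' i 0) - p i (w i 0)` is null (`P' i 0 - w i 0` divides it), so `P'' i 1 - p i (P' i 0)` is
divisible by `X^(N₁ * E i)` for almost all `i`, `P' i 1 :=` the quotient.  (`p i` evaluated over `Om k`: `eval₂` with
`PowerSeries.map (algebraMap k (Om k))`; `ev Q (p.eval₂ cA (xA 0)) = p.eval₂ (map ..) (Q 0)`: `ev_eval₂` in `M3.BlkC0` or `Polynomial.hom_eval₂`.)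
-/

open MvPolynomial

namespace M4

open M3

universe u

/-- the quotient by `X ^ N` -/
private noncomputable def LiftS_sh {K : Type u} [Field K] (N : ℕ) (z : PowerSeries K) :
    PowerSeries K := PowerSeries.mk fun n => PowerSeries.coeff (n + N) z

private theorem LiftS_sh_mul {K : Type u} [Field K] {N : ℕ} {z : PowerSeries K}
    (h : PowerSeries.X ^ N ∣ z) : z = PowerSeries.X ^ N * LiftS_sh N z := by
  obtain ⟨q, hq⟩ := h
  have h1 : LiftS_sh N z = q := by
    ext n
    rw [LiftS_sh, PowerSeries.coeff_mk, hq, PowerSeries.coeff_X_pow_mul]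
  rw [h1]
  exact hq

/-- if `a - X ^ v * b` is null, `a` is divisible by `X ^ v` and the quotient is near `b` -/
private theorem LiftS_quot {K : Type u} [Field K] {E : ℕ → ℕ+} (N : ℕ)
    {a b : ℕ → PowerSeries K}
    (h : Nul E (fun i => a i - PowerSeries.X ^ (N * (E i : ℕ)) * b i)) :
    Nul E (fun i => LiftS_sh (N * (E i : ℕ)) (a i) - b i) ∧
      ∀ᶠ i in Uf, a i = PowerSeries.X ^ (N * (E i : ℕ)) * LiftS_sh (N * (E i : ℕ)) (a i) := by
  have h1 : ∀ᶠ i in Uf, a i = PowerSeries.X ^ (N * (E i : ℕ)) *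
      LiftS_sh (N * (E i : ℕ)) (a i) := by
    filter_upwards [h N] with i hi
    refine LiftS_sh_mul ?_
    have h2 := dvd_add hi (dvd_mul_right (PowerSeries.X ^ (N * (E i : ℕ))) (b i))
    rwa [sub_add_cancel] at h2
  refine ⟨Nul.div N (fun i => N * (E i : ℕ)) (Filter.Eventually.of_forall fun i => le_refl _) ?_ h,
    h1⟩
  filter_upwards [h1] with i hi
  rw [mul_sub, ← hi]

private theorem LiftS_eval {R : Type*} [CommRing R] {k : Type u} [CommRing k] [Algebra k R]
    (P : Fin 2 → PowerSeries R) (p : Polynomial (PowerSeries k)) :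
    ev P (p.eval₂ cA (xA 0)) = p.eval₂ (PowerSeries.map (algebraMap k R)) (P 0) := by
  rw [← evH_apply, Polynomial.hom_eval₂, evH_apply, ev_xA]
  congr 1
  exact RingHom.ext fun c => ev_cA P c

private theorem LiftS_ch0 {R : Type*} [CommRing R] {k : Type u} [CommRing k] [Algebra k R]
    (P : Fin 2 → PowerSeries R) (c : PowerSeries k) (p : Polynomial (PowerSeries k)) (n m : ℕ) :
    ev P (chA c p n m 0) = PowerSeries.map (algebraMap k R) c + PowerSeries.X ^ n * P 0 := by
  change ev P (cA c + PowerSeries.X ^ n * xA 0) = _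
  rw [ev_add, ev_mul, ev_pow, ev_X, ev_xA, ev_cA]

private theorem LiftS_ch1 {R : Type*} [CommRing R] {k : Type u} [CommRing k] [Algebra k R]
    (P : Fin 2 → PowerSeries R) (c : PowerSeries k) (p : Polynomial (PowerSeries k)) (n m : ℕ) :
    ev P (chA c p n m 1) = p.eval₂ (PowerSeries.map (algebraMap k R)) (P 0) +
      PowerSeries.X ^ m * P 1 := by
  change ev P (p.eval₂ cA (xA 0) + PowerSeries.X ^ m * xA 1) = _
  rw [ev_add, ev_mul, ev_pow, ev_X, ev_xA, LiftS_eval]

private theorem LiftS_map_eval {k : Type u} [Field k] (p : Polynomial (PowerSeries k))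
    (w : PowerSeries k) : PowerSeries.map (algebraMap k (Om k))
      (p.eval₂ (PowerSeries.map (algebraMap k k)) w) =
      p.eval₂ (PowerSeries.map (algebraMap k (Om k)))
        (PowerSeries.map (algebraMap k (Om k)) w) := by
  rw [Polynomial.hom_eval₂]
  congr 1

private theorem LiftS_step {E : ℕ → ℕ+} {k : Type u} [Field k] (c : ℕ → PowerSeries k)
    (p : ℕ → Polynomial (PowerSeries k)) (N₀ N₁ : ℕ) (P : ℕ → Fin 2 → PowerSeries (Om k))
    (w : ℕ → Fin 2 → PowerSeries k)
    (hP : Near E P (fun i j =>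
      ev (w i) (chA (c i) (p i) (N₀ * (E i : ℕ)) (N₁ * (E i : ℕ)) j))) :
    ∃ P' : ℕ → Fin 2 → PowerSeries (Om k), Near E P' w ∧
      ∀ᶠ i in Uf, P i =
        fun j => ev (P' i) (chA (c i) (p i) (N₀ * (E i : ℕ)) (N₁ * (E i : ℕ)) j) := by
  set φ : PowerSeries k →+* PowerSeries (Om k) := PowerSeries.map (algebraMap k (Om k)) with hφ
  have hP0 := hP 0
  have hP1 := hP 1
  have hid : ∀ x : PowerSeries k, PowerSeries.map (algebraMap k k) x = x := fun x => by
    rw [Algebra.algebraMap_self, PowerSeries.map_id]; rfl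
  have h0 : Nul E (fun i => (P i 0 - φ (c i)) - PowerSeries.X ^ (N₀ * (E i : ℕ)) * φ (w i 0)) := by
    refine Nul.congr (Filter.Eventually.of_forall fun i => ?_) hP0
    change P i 0 - φ (ev (w i) (chA (c i) (p i) (N₀ * (E i : ℕ)) (N₁ * (E i : ℕ)) 0)) = _
    rw [LiftS_ch0, hid, map_add, map_mul, map_pow, hφ, PowerSeries.map_X]
    ring
  obtain ⟨hQ0, hE0⟩ := LiftS_quot N₀ h0
  set Q0 : ℕ → PowerSeries (Om k) := fun i => LiftS_sh (N₀ * (E i : ℕ)) (P i 0 - φ (c i))
    with hQ0d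
  have h1 : Nul E (fun i => (P i 1 - (p i).eval₂ φ (Q0 i)) -
      PowerSeries.X ^ (N₁ * (E i : ℕ)) * φ (w i 1)) := by
    have h2 : Nul E (fun i => (p i).eval₂ φ (Q0 i) - (p i).eval₂ φ (φ (w i 0))) := by
      have h3 : ∀ i, ∃ r, (p i).eval₂ φ (Q0 i) - (p i).eval₂ φ (φ (w i 0)) =
          (Q0 i - φ (w i 0)) * r := by
        intro i
        rw [← Polynomial.eval_map, ← Polynomial.eval_map]
        exact Polynomial.sub_dvd_eval_sub _ _ _
      choose r hr using h3
      refine Nul.congr (Filter.Eventually.of_forall fun i => (hr i).symm) (Nul.mul_right hQ0 r)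
    refine Nul.congr (Filter.Eventually.of_forall fun i => ?_) (Nul.sub hP1 h2)
    change P i 1 - φ (ev (w i) (chA (c i) (p i) (N₀ * (E i : ℕ)) (N₁ * (E i : ℕ)) 1)) -
      ((p i).eval₂ φ (Q0 i) - (p i).eval₂ φ (φ (w i 0))) = _
    rw [LiftS_ch1, map_add, map_mul, map_pow, hφ, LiftS_map_eval, PowerSeries.map_X]
    ring
  obtain ⟨hQ1, hE1⟩ := LiftS_quot N₁ h1
  refine ⟨fun i => ![Q0 i, LiftS_sh (N₁ * (E i : ℕ)) (P i 1 - (p i).eval₂ φ (Q0 i))], ?_, ?_⟩
  · intro j
    fin_cases j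
    · exact hQ0
    · exact hQ1
  · filter_upwards [hE0, hE1] with i hi0 hi1
    funext j
    fin_cases j
    · change P i 0 = ev _ (chA (c i) (p i) _ _ 0)
      rw [LiftS_ch0]
      change P i 0 = φ (c i) + PowerSeries.X ^ (N₀ * (E i : ℕ)) * Q0 i
      rw [← hi0]
      ring
    · change P i 1 = ev _ (chA (c i) (p i) _ _ 1)
      rw [LiftS_ch1]
      change P i 1 = (p i).eval₂ φ (Q0 i) + PowerSeries.X ^ (N₁ * (E i : ℕ)) *
        LiftS_sh (N₁ * (E i : ℕ)) (P i 1 - (p i).eval₂ φ (Q0 i))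
      rw [← hi1]
      ring

theorem isChS_lift {E : ℕ → ℕ+} {k : Type u} [Field k] {χ : ℕ → Fin 2 → AA k} {N : ℕ}
    (hχ : IsChS E χ N) (P : ℕ → Fin 2 → PowerSeries (Om k)) (w : ℕ → Fin 2 → PowerSeries k)
    (hP : Near E P (fun i j => ev (w i) (χ i j))) :
    ∃ P' : ℕ → Fin 2 → PowerSeries (Om k), Near E P' w ∧
      ∀ᶠ i in Uf, P i = fun j => ev (P' i) (χ i j) := by
  induction hχ generalizing P w with
  | refl =>
    refine ⟨P, ?_, ?_⟩
    · have h1 : (fun i j => ev (w i) (xA j : AA k)) = w :=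
        funext fun i => funext fun j => ev_xA (w i) j
      rw [h1] at hP
      exact hP
    · refine Filter.Eventually.of_forall fun i => funext fun j => ?_
      rw [ev_xA]
  | @swap χ N hχ ih =>
    have h1 : (fun i j => ev (w i) (ev (swA k) (χ i j))) =
        fun i j => ev (fun l => ev (w i) (swA k l)) (χ i j) :=
      funext fun i => funext fun j => ev_ev _ _ _
    rw [h1] at hP
    obtain ⟨P', h2, h3⟩ := ih P (fun i l => ev (w i) (swA k l)) hP
    refine ⟨fun i => ![P' i 1, P' i 0], ?_, ?_⟩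
    · intro j
      have f0 : ∀ i, ev (w i) (swA k 0) = w i 1 := fun i => ev_xA (w i) 1
      have f1 : ∀ i, ev (w i) (swA k 1) = w i 0 := fun i => ev_xA (w i) 0
      have e0 := h2 0
      have e1 := h2 1
      simp only [f0] at e0
      simp only [f1] at e1
      fin_cases j
      · exact e1
      · exact e0
    · filter_upwards [h3] with i hi
      rw [hi]
      funext j
      rw [ev_ev]
      congr 1
      funext l
      fin_cases l
      · change P' i 0 = ev ![P' i 1, P' i 0] (xA 1)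
        rw [ev_xA]
        rfl
      · change P' i 1 = ev ![P' i 1, P' i 0] (xA 0)
        rw [ev_xA]
        rfl
  | @step χ N c p D N₀ N₁ hχ hD hp ih =>
    have h1 : (fun i j => ev (w i) (ev (chA (c i) (p i) (N₀ * (E i : ℕ)) (N₁ * (E i : ℕ)))
        (χ i j))) = fun i j => ev (fun l => ev (w i)
          (chA (c i) (p i) (N₀ * (E i : ℕ)) (N₁ * (E i : ℕ)) l)) (χ i j) :=
      funext fun i => funext fun j => ev_ev _ _ _
    rw [h1] at hP
    obtain ⟨P', h2, h3⟩ := ih P (fun i l => ev (w i)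
      (chA (c i) (p i) (N₀ * (E i : ℕ)) (N₁ * (E i : ℕ)) l)) hP
    obtain ⟨P'', h4, h5⟩ := LiftS_step c p N₀ N₁ P' w h2
    refine ⟨P'', h4, ?_⟩
    filter_upwards [h3, h5] with i hi hi'
    rw [hi]
    funext j
    rw [ev_ev, ← hi']

end M4
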