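import Pool.Agent.M4.DomT
import Pool.Agent.M3.MonoDom

/-!
PIECE M4-G02: domination if the Newton polygon has a vertex `≤ (1, 1)` (port of `M3.MonoDom`).

PROOF. By `hv` and `not_nul` choose `A` with: for almost all `i` every group `j` has a member `h` with
`¬ X^(A * E i) ∣ mc (c i h) (v j)`.  `s := A + 1`, `M := s * (max wt (v j)) + s + A + 1`.  `tame_uniform`: for almost all `i`, for all `h`, `m`: if
`mc (c · h) m` is null, `X^(M * E i) ∣ mc (c i h) m`.  Fix such an `i`, `ψ := ![X^(s * w₀ * E i) * xA 0, X^(s * w₁ * E i) * xA 1]`.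
`mc (ev ψ (c i h)) m = X^(s * wt w₀ w₁ m * E i) * mc (c i h) m` (`mc_scale`).  For the group `j` let `o j` be the minimum of the orders of
`mc (c i h) (v j)`, `grp h = j` (`< A * E i`), `hh j` a member with this order, `e j := s * wt w₀ w₁ (v j) * E i + o j`.  For `m ≠ v j` not
null: `s * wt m * E i ≥ s * wt (v j) * E i + s * E i > e j`; for null `m`: `M * E i > e j`.  So `X^(e (grp h)) ∣ ev ψ (c i h)` for all `h`, and
`coeff (e j) (ev ψ (c i (hh j))) = monomial (v j) (g j)`, `g j ≠ 0`.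
`P i → 0`: for almost all `i` `P i = ev P' ψ` for an arc `P'`, `Cod k P' (C i - N)`, `N := (s w₀ + s w₁) * E i ≤ C i` (`cod_chA_inv`).
`n' j := n i j - e j`; `pia_mono` (`M3.Pia`) for the functions `ev ψ (c i (hh j)) / X^(e j)`: `∑ lam j n' j ≤ C i - N`.  So
`N - ∑ lam j e j ≤ C i - ∑ lam j n i j`; the arc `ev U ψ`, `U` generic, has `Cod k _ N` and orders `≥ e j`: `dom_of_arc` with
`ℓ := s w₀ + s w₁ + ∑ (s * wt (v j) + A)`.
-/

open MvPolynomial

namespace M4

open M3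

universe u

private theorem MonoS_ofMin {κ : Type u} [Field κ] {r : ℕ} {J : Type} [Fintype J]
    {grp : J → Fin r} {f : J → AA κ} (v : Fin r → Fin 2 →₀ ℕ)
    (hv : ∀ j, ∃ h, grp h = j ∧ mc (f h) (v j) ≠ 0) :
    ∃ (o : Fin r → ℕ) (hh : Fin r → J), ∀ j, grp (hh j) = j ∧
      PowerSeries.coeff (o j) (mc (f (hh j)) (v j)) ≠ 0 ∧
      ∀ h, grp h = j → (PowerSeries.X : PowerSeries κ) ^ o j ∣ mc (f h) (v j) := by
  classical
  have key : ∀ j, ∃ (o : ℕ) (h₀ : J), grp h₀ = j ∧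
      PowerSeries.coeff o (mc (f h₀) (v j)) ≠ 0 ∧
      ∀ h, grp h = j → (PowerSeries.X : PowerSeries κ) ^ o ∣ mc (f h) (v j) := by
    intro j
    let s : Finset J := Finset.univ.filter (fun h => grp h = j ∧ mc (f h) (v j) ≠ 0)
    have hs : s.Nonempty := by
      obtain ⟨h, h1, h2⟩ := hv j
      exact ⟨h, by simp [s, h1, h2]⟩
    obtain ⟨h₀, hm, hmin⟩ := Finset.exists_min_image s
      (fun h => (mc (f h) (v j)).order.toNat) hs
    have hm' : grp h₀ = j ∧ mc (f h₀) (v j) ≠ 0 := by simpa [s] using hm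
    refine ⟨(mc (f h₀) (v j)).order.toNat, h₀, hm'.1, PowerSeries.coeff_order hm'.2, ?_⟩
    intro h hj
    by_cases h0 : mc (f h) (v j) = 0
    · rw [h0]; exact dvd_zero _
    · have h1 : h ∈ s := by simp [s, hj, h0]
      exact (pow_dvd_pow _ (hmin h h1)).trans PowerSeries.X_pow_order_dvd
  choose o hh h using key
  exact ⟨o, hh, h⟩

private theorem MonoS_ch {κ : Type u} [CommRing κ] (A B : ℕ) :
    chA (0 : PowerSeries κ) 0 A B =
      ![PowerSeries.X ^ A * xA 0, PowerSeries.X ^ B * xA 1] := by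
  unfold chA
  rw [map_zero, Polynomial.eval₂_zero, zero_add, zero_add]

private theorem MonoS_mono {κ : Type u} [CommRing κ] (e : Fin 2 →₀ ℕ) (a : κ) :
    monomial e a = C a * X 0 ^ e 0 * X 1 ^ e 1 := by
  rw [monomial_eq, Finsupp.prod_fintype _ _ (by intro i; simp), Fin.prod_univ_two, mul_assoc]

/-- the statement for one index: `p` are the series of the arc divided by `X ^ A`, `X ^ B` -/
private theorem MonoS_one {k : Type u} [Field k] [CharZero k] {r : ℕ} {J : Type}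
    {lam : Fin r → ℝ} (hlam : ∀ j, 0 < lam j) {grp : J → Fin r} {f : J → AA k}
    {P : Fin 2 → PowerSeries (Om k)} {C : ℕ} {n : Fin r → ℕ} (hcod : Cod k P C)
    (hord : OrdGe grp f P n) (v : Fin r → Fin 2 →₀ ℕ)
    (h0 : ∑ j, lam j * (v j) 0 ≤ 1) (h1 : ∑ j, lam j * (v j) 1 ≤ 1)
    (A B : ℕ) (hp0 : (PowerSeries.X : PowerSeries (Om k)) ^ A ∣ P 0)
    (hp1 : (PowerSeries.X : PowerSeries (Om k)) ^ B ∣ P 1)
    (e : Fin r → ℕ) (hh : Fin r → J) (hgrp : ∀ j, grp (hh j) = j)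
    (hd : ∀ h, (PowerSeries.X : AA k) ^ e (grp h) ∣
      ev ![PowerSeries.X ^ A * xA 0, PowerSeries.X ^ B * xA 1] (f h))
    (hco : ∀ j, ∃ g : k, g ≠ 0 ∧ PowerSeries.coeff (e j)
      (ev ![PowerSeries.X ^ A * xA 0, PowerSeries.X ^ B * xA 1] (f (hh j))) =
      monomial (v j) g) :
    ∃ Q : Fin 2 → PowerSeries (Om k), Cod k Q (A + B) ∧ OrdGe grp f Q e ∧
      ((A + B : ℕ) : ℝ) - ∑ j, lam j * e j ≤ C - ∑ j, lam j * n j := by
  obtain ⟨U, hU⟩ := exists_generic k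
  obtain ⟨p0, hp0⟩ := hp0
  obtain ⟨p1, hp1⟩ := hp1
  have hPi : P = fun j => ev ![p0, p1] (chA (0 : PowerSeries k) 0 A B j) := by
    funext j
    rw [MonoS_ch]
    fin_cases j
    · show P 0 = ev ![p0, p1] (PowerSeries.X ^ A * xA 0)
      rw [ev_mul, ev_pow, ev_X, ev_xA, hp0]
      rfl
    · show P 1 = ev ![p0, p1] (PowerSeries.X ^ B * xA 1)
      rw [ev_mul, ev_pow, ev_X, ev_xA, hp1]
      rfl
  have hpz : ∀ j, 1 ≤ j → (PowerSeries.X : PowerSeries k) ^ A ∣
      (0 : Polynomial (PowerSeries k)).coeff j := by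
    intro j _
    rw [Polynomial.coeff_zero]
    exact dvd_zero _
  obtain ⟨hAB, hcod'⟩ := cod_chA_inv (k := k) (0 : PowerSeries k) 0 A B hpz
    (P := ![p0, p1]) (C := C) (by rw [← hPi]; exact hcod)
  refine ⟨fun j => ev U (chA (0 : PowerSeries k) 0 A B j), ?_, ?_, ?_⟩
  · have h1 := cod_chA (k := k) (0 : PowerSeries k) 0 A B hpz hU
    rw [zero_add] at h1
    exact h1
  · intro h
    rw [MonoS_ch, ← ev_ev]
    exact ev_dvd _ (hd h)
  · -- the inequality
    choose g hg hg' using hco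
    choose F hF using hd
    have hF0 : ∀ j, PowerSeries.coeff 0 (F (hh j)) =
        MvPolynomial.C (g j) * X 0 ^ (v j) 0 * X 1 ^ (v j) 1 := by
      intro j
      rw [← MonoS_mono, ← hg' j, hF (hh j), hgrp j]
      have := PowerSeries.coeff_X_pow_mul (F (hh j)) (e j) 0
      rw [zero_add] at this
      exact this.symm
    have hn' : ∀ j, (PowerSeries.X : PowerSeries (Om k)) ^ (n j - e j) ∣
        ev ![p0, p1] (F (hh j)) := by
      intro j
      have h1 := hord (hh j)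
      rw [hgrp j, hPi, MonoS_ch, ← ev_ev, hF (hh j), ev_mul, ev_pow, ev_X, hgrp j] at h1
      rcases le_total (n j) (e j) with h2 | h2
      · rw [Nat.sub_eq_zero_of_le h2, pow_zero]
        exact one_dvd _
      · have h3 : (PowerSeries.X : PowerSeries (Om k)) ^ n j =
            PowerSeries.X ^ e j * PowerSeries.X ^ (n j - e j) := by
          rw [← pow_add, Nat.add_sub_cancel' h2]
        rw [h3] at h1
        exact (mul_dvd_mul_iff_left (pow_ne_zero _ PowerSeries.X_ne_zero)).1 h1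
    have h1 : ∑ j, lam j * ((n j - e j : ℕ) : ℝ) ≤ ((C - A - B : ℕ) : ℝ) :=
      pia_mono (fun j => (hlam j).le) (f := fun j => F (hh j)) hg hF0 h0 h1 hcod' hn'
    have h2 : ∑ j, lam j * (n j : ℝ) ≤
        ∑ j, lam j * ((n j - e j : ℕ) : ℝ) + ∑ j, lam j * (e j : ℝ) := by
      rw [← Finset.sum_add_distrib]
      refine Finset.sum_le_sum fun j _ => ?_
      rw [← mul_add]
      refine mul_le_mul_of_nonneg_left ?_ (hlam j).le
      have : n j ≤ (n j - e j) + e j := by omega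
      exact_mod_cast this
    have h3 : ((C - A - B : ℕ) : ℝ) = (C : ℝ) - A - B := by
      rw [Nat.sub_sub, Nat.cast_sub hAB]
      push_cast
      ring
    push_cast
    linarith

/-- the arithmetic of the exponents -/
private theorem MonoS_arith {s w w' o A e : ℕ} (h : w < w') (ho : o < A * e) (hs : A < s) :
    s * w * e + o < s * w' * e := by
  have h1 : s * (w + 1) * e ≤ s * w' * e := Nat.mul_le_mul_right _ (Nat.mul_le_mul_left _ h)
  have h2 : A * e ≤ s * e := Nat.mul_le_mul_right _ hs.le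
  have h3 : s * (w + 1) * e = s * w * e + s * e := by ring
  omega

theorem mono_dom {E : ℕ → ℕ+} {k : Type u} [Field k] [CharZero k] {r : ℕ} {J : Type}
    [Fintype J] {lam : Fin r → ℝ} (hlam : ∀ j, 0 < lam j) {grp : J → Fin r}
    {c : ℕ → J → AA k} (tm : ∀ h, Tame E (fun i => c i h))
    {P : ℕ → Fin 2 → PowerSeries (Om k)} {C : ℕ → ℕ} {n : ℕ → Fin r → ℕ}
    (hA : Adm grp c P C n) (hP : ∀ j, Nul E (fun i => P i j)) {w₀ w₁ : ℕ} (hw₀ : 0 < w₀)
    (hw₁ : 0 < w₁) (v : Fin r → Fin 2 →₀ ℕ)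
    (hv : ∀ j, ∃ h, grp h = j ∧ ¬ Nul E (fun i => mc (c i h) (v j)))
    (huniq : ∀ h m, ¬ Nul E (fun i => mc (c i h) m) → m ≠ v (grp h) →
      wt w₀ w₁ (v (grp h)) < wt w₀ w₁ m)
    (h0 : ∑ j, lam j * (v j) 0 ≤ 1) (h1 : ∑ j, lam j * (v j) 1 ≤ 1) : Dom E lam grp c C n := by
  classical
  choose h₁ hh₁ using hv
  choose A₁ hA₁ using fun j => not_nul.1 (hh₁ j).2
  set A : ℕ := ∑ j, A₁ j with hA_def
  have hA₁le : ∀ j, A₁ j ≤ A := fun j =>
    Finset.single_le_sum (f := A₁) (fun _ _ => Nat.zero_le _) (Finset.mem_univ j)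
  set s : ℕ := A + 1 with hs_def
  set W : ℕ := ∑ j, wt w₀ w₁ (v j) with hW_def
  have hWle : ∀ j, wt w₀ w₁ (v j) ≤ W := fun j =>
    Finset.single_le_sum (f := fun j => wt w₀ w₁ (v j)) (fun _ _ => Nat.zero_le _)
      (Finset.mem_univ j)
  have hAev : ∀ᶠ i in Uf, ∀ j, ¬ (PowerSeries.X : PowerSeries k) ^ (A * (E i : ℕ)) ∣
      mc (c i (h₁ j)) (v j) := by
    rw [Filter.eventually_all]
    intro j
    filter_upwards [hA₁ j] with i hi hdvd
    exact hi ((pow_dvd_pow _ (Nat.mul_le_mul_right _ (hA₁le j))).trans hdvd)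
  have hMev : ∀ᶠ i in Uf, ∀ h, ∀ m : Fin 2 →₀ ℕ, Nul E (fun i => mc (c i h) m) →
      (PowerSeries.X : PowerSeries k) ^ ((s * (W + 1)) * (E i : ℕ)) ∣ mc (c i h) m := by
    rw [Filter.eventually_all]
    exact fun h => tame_uniform (tm h) (s * (W + 1))
  refine dom_of_arc (s * w₀ + s * w₁ + ∑ j, (s * wt w₀ w₁ (v j) + A)) ?_
  filter_upwards [hA, hAev, hMev, hP 0 (s * w₀), hP 1 (s * w₁)] with i hAi hai hMi hp0 hp1
  set ε : ℕ := (E i : ℕ) with hε
  obtain ⟨o, hh, ho⟩ := MonoS_ofMin (grp := grp) (f := c i) v fun j =>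
    ⟨h₁ j, (hh₁ j).1, fun h2 => hai j (by rw [h2]; exact dvd_zero _)⟩
  have ho' : ∀ j, o j < A * ε := by
    intro j
    by_contra hcon
    rw [not_lt] at hcon
    exact hai j ((pow_dvd_pow _ hcon).trans ((ho j).2.2 _ (hh₁ j).1))
  set e : Fin r → ℕ := fun j => s * wt w₀ w₁ (v j) * ε + o j with he_def
  have hwt : ∀ x : Fin 2 →₀ ℕ, s * w₀ * ε * x 0 + s * w₁ * ε * x 1 = s * wt w₀ w₁ x * ε := by
    intro x
    simp only [wt]
    ring
  -- the key estimate for the other monomials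
  have hkey : ∀ h, ∀ x : Fin 2 →₀ ℕ, x ≠ v (grp h) →
      (PowerSeries.X : PowerSeries k) ^ (e (grp h) + 1) ∣
        PowerSeries.X ^ (s * wt w₀ w₁ x * ε) * mc (c i h) x := by
    intro h x hx
    have h2 := ho' (grp h)
    by_cases hn : Nul E (fun i => mc (c i h) x)
    · refine Dvd.dvd.mul_left ((pow_dvd_pow _ ?_).trans (hMi h x hn)) _
      have h3 := MonoS_arith (s := s) (w := wt w₀ w₁ (v (grp h))) (w' := W + 1) (o := o (grp h))
        (A := A) (e := ε) (Nat.lt_succ_of_le (hWle _)) h2 (Nat.lt_succ_self A)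
      exact h3
    · refine Dvd.dvd.mul_right (pow_dvd_pow _ ?_) _
      exact MonoS_arith (s := s) (huniq h x hn hx) h2 (Nat.lt_succ_self A)
  have hd : ∀ h, (PowerSeries.X : AA k) ^ e (grp h) ∣
      ev ![PowerSeries.X ^ (s * w₀ * ε) * xA 0, PowerSeries.X ^ (s * w₁ * ε) * xA 1] (c i h) := by
    intro h
    rw [X_pow_dvd_iff_mc]
    intro x
    rw [mc_scale, hwt]
    by_cases hx : x = v (grp h)
    · rw [hx, he_def]
      simp only
      rw [pow_add]
      exact mul_dvd_mul_left _ ((ho (grp h)).2.2 h rfl)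
    · exact (pow_dvd_pow _ (Nat.le_succ _)).trans (hkey h x hx)
  have hco : ∀ j, ∃ g : k, g ≠ 0 ∧ PowerSeries.coeff (e j)
      (ev ![PowerSeries.X ^ (s * w₀ * ε) * xA 0, PowerSeries.X ^ (s * w₁ * ε) * xA 1]
        (c i (hh j))) = monomial (v j) g := by
    intro j
    refine ⟨PowerSeries.coeff (o j) (mc (c i (hh j)) (v j)), (ho j).2.1, ?_⟩
    ext x
    rw [← coeff_mc, mc_scale, hwt, coeff_monomial]
    by_cases hx : v j = x
    · rw [if_pos hx, ← hx]
      have h2 : e j = o j + s * wt w₀ w₁ (v j) * ε := add_comm _ _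
      rw [h2]
      exact PowerSeries.coeff_X_pow_mul _ _ _
    · rw [if_neg hx]
      have h2 := hkey (hh j) x (by rw [(ho j).1]; exact fun h => hx h.symm)
      rw [(ho j).1] at h2
      exact (PowerSeries.X_pow_dvd_iff.1 h2) _ (Nat.lt_succ_self _)
  obtain ⟨Q, hQ1, hQ2, hQ3⟩ := MonoS_one hlam hAi.1 hAi.2 v h0 h1 (s * w₀ * ε) (s * w₁ * ε)
    hp0 hp1 e hh (fun j => (ho j).1) hd hco
  refine ⟨Om k, inferInstance, inferInstance, Q, s * w₀ * ε + s * w₁ * ε, e, ?_, fun j => ?_,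
    hQ1, hQ2, hQ3⟩
  · rw [← add_mul]
    exact Nat.mul_le_mul_right _ (Nat.le_add_right _ _)
  · have h2 : s * wt w₀ w₁ (v j) + A ≤ ∑ j, (s * wt w₀ w₁ (v j) + A) :=
      Finset.single_le_sum (f := fun j => s * wt w₀ w₁ (v j) + A) (fun _ _ => Nat.zero_le _)
        (Finset.mem_univ j)
    have h3 : (s * wt w₀ w₁ (v j) + A) * ε ≤
        (s * w₀ + s * w₁ + ∑ j, (s * wt w₀ w₁ (v j) + A)) * ε :=
      Nat.mul_le_mul_right _ (h2.trans (Nat.le_add_left _ _))
    have h4 := ho' j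
    have h5 : (s * wt w₀ w₁ (v j) + A) * ε = s * wt w₀ w₁ (v j) * ε + A * ε := add_mul _ _ _
    show s * wt w₀ w₁ (v j) * ε + o j ≤ _
    omega

end M4
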