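import Pool.Agent.M4.LimP
import Pool.Agent.M3.ShiftF

/-!
PIECE M4-G03: the Newton polygons after the substitution `x = X^N x'`, `y = γ x'^b + X^N y'` (port of `M3.ShiftF`).

PROOF. `ψ i := chA 0 (Polynomial.monomial b (γ i)) (N * E i) (N * E i)`.  The substitution `ψ i` maps monomials of `(1, b)`-weight `w` to
functions all of whose monomials have weight `w` (see `ShiftF_ev`, private in `M3.ShiftF`: `mc (ev ψ f) m ≠ 0` implies that there is `m'`
with `mc f m' ≠ 0` and the same weight; copy it).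
Fix `h`, `d := d (grp h)`.  Let `F'` be representatives of `F h` (`exists_rep`; homogeneous of weight `d`), `g⁺ i` the function with the
coefficients `mc (g i h) m` for `d < wt 1 b m` and `0` otherwise (`g i h` minus the sum of the `topA 1 b w (g i h)`, `w ≤ d`).
`g i h - toAA (F' i) - g⁺ i` is null: it is tame (finitely many `topA`, each a polynomial of bounded degree) and its coefficients are
null (`hd` for `wt < d`, `hF` for `wt = d`).  So `ev (ψ i) (g i h) - ev (ψ i) (toAA (F' i)) - ev (ψ i) (g⁺ i)` is null; all monomials of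
`ev (ψ i) (g⁺ i)` have weight `> d`, and `ev (ψ i) (toAA (F' i))` tends (`IsLim.ev`) to `F₁ h := aeval ψ' (F h)`,
`ψ' := ![C t * X 0, C (lm E γ) * X 0 ^ b + C t * X 1]`, `t := lm E (fun i => X^(N * E i))`.  So for `wt 1 b m < d` the coefficients are null, and
for `wt 1 b m = d`: `lm E (fun i => mc (ev (ψ i) (g i h)) m) = coeff m (F₁ h)`.
The rest is the algebra of `M3.ShiftF` over the field `KL E k` (with `T := algebraMap t ≠ 0`, `lm E γ = c * T^b`): `toKL (F₁ h) = Φ (toKL (F h))`,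
`Φ = ShiftF_Phi`: `X 0 ↦ T X 0`, `X 1 ↦ c T^b X 0^b + T X 1`, which maps `X 1 - C c * X 0 ^ b` to `T X 1`; so `X 1 ^ B ∣ toKL (F₁ h)` (all `m` with
`coeff m (F₁ h) ≠ 0` have `B ≤ m 1`), and if `X 1 ^ (B + 1) ∣ toKL (F₁ h)` then `(X 1 - C c * X 0 ^ b)^(B + 1) ∣ toKL (F h)` (`ShiftF_Phi_dvd`);
so some `h` of the group has a monomial with `m 1 = B j`.  (The private lemmas of `M3.ShiftF` are stated for `KK κ`; copy them for a
general field.)
-/

open MvPolynomial

namespace M4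

open M3

universe u

section
variable {κ : Type u} [Field κ]

private lemma ShiftS_wt {a b : ℕ} (e : Fin 2 →₀ ℕ) : Finsupp.weight ![a, b] e = wt a b e := by
  rw [Finsupp.weight_apply, Finsupp.sum_fintype _ _ (by simp), Fin.sum_univ_two]
  simp [wt, mul_comm]

/-- all coefficients are homogeneous of weight `d` -/
private def ShiftS_H (b d : ℕ) (g : AA κ) : Prop :=
  ∀ n, PowerSeries.coeff n g ∈ weightedHomogeneousSubmodule κ ![1, b] d

private lemma ShiftS_add {b d : ℕ} {g g' : AA κ} (h : ShiftS_H b d g) (h' : ShiftS_H b d g') :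
    ShiftS_H b d (g + g') := by
  intro n
  rw [map_add]
  exact add_mem (h n) (h' n)

private lemma ShiftS_mul {b d d' : ℕ} {g g' : AA κ} (h : ShiftS_H b d g)
    (h' : ShiftS_H b d' g') : ShiftS_H b (d + d') (g * g') := by
  intro n
  rw [PowerSeries.coeff_mul]
  refine sum_mem fun p _ => ?_
  rw [mem_weightedHomogeneousSubmodule]
  exact ((mem_weightedHomogeneousSubmodule _ _ _ _).1 (h _)).mul
    ((mem_weightedHomogeneousSubmodule _ _ _ _).1 (h' _))

private lemma ShiftS_one {b : ℕ} : ShiftS_H b 0 (1 : AA κ) := by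
  intro n
  rw [PowerSeries.coeff_one]
  split_ifs
  · rw [mem_weightedHomogeneousSubmodule]
    exact isWeightedHomogeneous_one _ _
  · exact zero_mem _

private lemma ShiftS_pow {b d : ℕ} {g : AA κ} (h : ShiftS_H b d g) (n : ℕ) :
    ShiftS_H b (n * d) (g ^ n) := by
  induction n with
  | zero =>
    rw [zero_mul, pow_zero]
    exact ShiftS_one
  | succ n ih =>
    rw [pow_succ, add_mul, one_mul]
    exact ShiftS_mul ih h

private lemma ShiftS_X {b d : ℕ} {g : AA κ} (h : ShiftS_H b d g) (N : ℕ) :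
    ShiftS_H b d (PowerSeries.X ^ N * g) := by
  intro n
  rw [PowerSeries.coeff_X_pow_mul']
  split_ifs
  · exact h _
  · exact zero_mem _

private lemma ShiftS_cA {b : ℕ} (c : PowerSeries κ) : ShiftS_H b 0 (cA c) := by
  intro n
  unfold cA
  rw [PowerSeries.coeff_map, mem_weightedHomogeneousSubmodule]
  exact isWeightedHomogeneous_C _ _

private lemma ShiftS_xA {b : ℕ} (j : Fin 2) : ShiftS_H b ((![1, b] : Fin 2 → ℕ) j) (xA j : AA κ) := by
  intro n
  unfold xA
  rw [PowerSeries.coeff_C]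
  split_ifs
  · rw [mem_weightedHomogeneousSubmodule]
    exact isWeightedHomogeneous_X _ _ _
  · exact zero_mem _

/-- the chart -/
private noncomputable abbrev ShiftS_P (b N : ℕ) (γ : PowerSeries κ) : Fin 2 → AA κ :=
  chA 0 (Polynomial.monomial b γ) N N

private lemma ShiftS_P0 (b N : ℕ) (γ : PowerSeries κ) :
    ShiftS_P b N γ 0 = PowerSeries.X ^ N * xA 0 := by
  unfold ShiftS_P chA
  simp

private lemma ShiftS_P1 (b N : ℕ) (γ : PowerSeries κ) :
    ShiftS_P b N γ 1 = cA γ * xA 0 ^ b + PowerSeries.X ^ N * xA 1 := by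
  unfold ShiftS_P chA
  simp

private lemma ShiftS_mono (b N : ℕ) (γ : PowerSeries κ) (u : Fin 2 →₀ ℕ) (a : κ) :
    ShiftS_H b (wt 1 b u) (aeval (ShiftS_P b N γ) (monomial u a)) := by
  rw [aeval_monomial, Finsupp.prod_fintype _ _ (fun i => pow_zero _), Fin.prod_univ_two,
    ShiftS_P0, ShiftS_P1]
  have h0 : ShiftS_H b 0 (algebraMap κ (AA κ) a) := by
    have h4 : algebraMap κ (AA κ) a = cA (PowerSeries.C a) := by
      unfold cA
      rw [PowerSeries.map_C, PowerSeries.algebraMap_apply, MvPolynomial.algebraMap_eq]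
    rw [h4]
    exact ShiftS_cA _
  have h1 : ShiftS_H b 1 (PowerSeries.X ^ N * xA 0 : AA κ) := ShiftS_X (ShiftS_xA 0) N
  have h2 : ShiftS_H b b (cA γ * xA 0 ^ b + PowerSeries.X ^ N * xA 1 : AA κ) := by
    refine ShiftS_add ?_ (ShiftS_X (ShiftS_xA 1) N)
    have h3 := ShiftS_mul (ShiftS_cA (b := b) γ) (ShiftS_pow (ShiftS_xA (κ := κ) (b := b) 0) b)
    simpa using h3
  have h5 := ShiftS_mul h0 (ShiftS_mul (ShiftS_pow h1 (u 0)) (ShiftS_pow h2 (u 1)))
  have h6 : 0 + (u 0 * 1 + u 1 * b) = wt 1 b u := by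
    unfold wt
    ring
  rwa [h6] at h5

private lemma ShiftS_supp {b N : ℕ} {γ : PowerSeries κ} {q : MvPolynomial (Fin 2) κ} {j : ℕ}
    {e : Fin 2 →₀ ℕ} (h : coeff e (PowerSeries.coeff j (aeval (ShiftS_P b N γ) q)) ≠ 0) :
    ∃ u, coeff u q ≠ 0 ∧ wt 1 b e = wt 1 b u := by
  rw [← support_sum_monomial_coeff q, map_sum, map_sum, coeff_sum] at h
  obtain ⟨u, hu, hne⟩ := Finset.exists_ne_zero_of_sum_ne_zero h
  refine ⟨u, mem_support_iff.1 hu, ?_⟩
  have h1 := ShiftS_mono b N γ u (coeff u q) j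
  rw [mem_weightedHomogeneousSubmodule] at h1
  rw [← ShiftS_wt]
  exact h1 hne

private lemma ShiftS_ev {b N : ℕ} {γ : PowerSeries κ} {f : AA κ} {e : Fin 2 →₀ ℕ}
    (h : mc (ev (ShiftS_P b N γ) f) e ≠ 0) : ∃ u, mc f u ≠ 0 ∧ wt 1 b e = wt 1 b u := by
  obtain ⟨n, hn⟩ : ∃ n, PowerSeries.coeff n (mc (ev (ShiftS_P b N γ) f) e) ≠ 0 := by
    by_contra hcon
    push Not at hcon
    apply h
    ext n
    rw [hcon n, map_zero]
  rw [coeff_mc, coeff_ev, coeff_sum] at hn
  obtain ⟨p, -, hp⟩ := Finset.exists_ne_zero_of_sum_ne_zero hn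
  obtain ⟨u, hu, hw⟩ := ShiftS_supp hp
  refine ⟨u, fun h0 => hu ?_, hw⟩
  rw [← coeff_mc, h0, map_zero]

private lemma ShiftS_X1 {K : Type u} [Field K] {n : ℕ} {p : MvPolynomial (Fin 2) K}
    (h : X 1 ^ n ∣ p) {e : Fin 2 →₀ ℕ} (he : coeff e p ≠ 0) : n ≤ e 1 := by
  obtain ⟨q, rfl⟩ := h
  rw [X_pow_eq_monomial, coeff_monomial_mul'] at he
  by_contra hn
  rw [if_neg] at he
  · exact he rfl
  · intro h1
    have h2 := h1 1
    rw [Finsupp.single_eq_same] at h2
    exact hn h2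

private lemma ShiftS_X1' {K : Type u} [Field K] {n : ℕ} {p : MvPolynomial (Fin 2) K}
    (h : ¬ X 1 ^ n ∣ p) : ∃ e : Fin 2 →₀ ℕ, coeff e p ≠ 0 ∧ e 1 < n := by
  by_contra hcon
  push Not at hcon
  apply h
  rw [X_pow_eq_monomial, monomial_one_dvd_iff_modMonomial_eq_zero]
  ext e
  rw [coeff_zero]
  by_cases he : Finsupp.single 1 n ≤ e
  · exact coeff_modMonomial_of_le _ he
  · rw [coeff_modMonomial_of_not_le _ he]
    by_contra hc
    apply he
    rw [Finsupp.single_le_iff]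
    exact hcon e hc

end

/-- the substitution over a field -/
private noncomputable def ShiftS_Phi {K : Type u} [Field K] (b : ℕ) (c T : K) :
    MvPolynomial (Fin 2) K →ₐ[K] MvPolynomial (Fin 2) K :=
  aeval ![C T * X 0, C (c * T ^ b) * X 0 ^ b + C T * X 1]

private lemma ShiftS_Phi0 {K : Type u} [Field K] (b : ℕ) (c T : K) :
    ShiftS_Phi b c T (X 0) = C T * X 0 := by
  unfold ShiftS_Phi
  rw [aeval_X]
  rfl

private lemma ShiftS_Phi1 {K : Type u} [Field K] (b : ℕ) (c T : K) :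
    ShiftS_Phi b c T (X 1) = C (c * T ^ b) * X 0 ^ b + C T * X 1 := by
  unfold ShiftS_Phi
  rw [aeval_X]
  rfl

private lemma ShiftS_PhiC {K : Type u} [Field K] (b : ℕ) (c T t : K) :
    ShiftS_Phi b c T (C t) = C t := by
  unfold ShiftS_Phi
  rw [aeval_C, MvPolynomial.algebraMap_eq]

private lemma ShiftS_PhiL {K : Type u} [Field K] (b : ℕ) (c T : K) :
    ShiftS_Phi b c T (X 1 - C c * X 0 ^ b) = C T * X 1 := by
  rw [map_sub, map_mul, map_pow, ShiftS_Phi0, ShiftS_Phi1, ShiftS_PhiC, mul_pow, ← C_pow, C_mul]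
  ring

private lemma ShiftS_Phi_dvd {K : Type u} [Field K] (b : ℕ) {c T : K} (hT : T ≠ 0) {n : ℕ}
    {G : MvPolynomial (Fin 2) K} (h : X 1 ^ n ∣ ShiftS_Phi b c T G) :
    (X 1 - C c * X 0 ^ b) ^ n ∣ G := by
  let Ψ : MvPolynomial (Fin 2) K →ₐ[K] MvPolynomial (Fin 2) K :=
    aeval ![C T⁻¹ * X 0, C T⁻¹ * (X 1 - C c * X 0 ^ b)]
  have hcc : (C T * C T⁻¹ : MvPolynomial (Fin 2) K) = 1 := by
    rw [← C_mul, mul_inv_cancel₀ hT, C_1]
  have h1 : Ψ (X 0) = C T⁻¹ * X 0 := by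
    show aeval _ (X 0) = _
    rw [aeval_X]
    rfl
  have h3 : Ψ (X 1) = C T⁻¹ * (X 1 - C c * X 0 ^ b) := by
    show aeval _ (X 1) = _
    rw [aeval_X]
    rfl
  have h2 : ∀ t, Ψ (C t) = C t := by
    intro t
    show aeval _ (C t) = _
    rw [aeval_C, MvPolynomial.algebraMap_eq]
  have hΨ : Ψ.comp (ShiftS_Phi b c T) = AlgHom.id _ _ := by
    refine MvPolynomial.algHom_ext fun j => ?_
    rw [AlgHom.comp_apply, AlgHom.id_apply]
    fin_cases j
    · show Ψ (ShiftS_Phi b c T (X 0)) = X 0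
      rw [ShiftS_Phi0, map_mul, h1, h2, ← mul_assoc, hcc, one_mul]
    · show Ψ (ShiftS_Phi b c T (X 1)) = X 1
      rw [ShiftS_Phi1, map_add, map_mul Ψ, map_mul Ψ, map_pow Ψ, h1, h2, h2, h3,
        C_mul, mul_pow, ← C_pow T⁻¹]
      have h4 : (C (T ^ b) * C (T⁻¹ ^ b) : MvPolynomial (Fin 2) K) = 1 := by
        rw [← C_mul, ← mul_pow, mul_inv_cancel₀ hT, one_pow, C_1]
      calc (C c * C (T ^ b) * (C (T⁻¹ ^ b) * X 0 ^ b) + C T * (C T⁻¹ * (X 1 - C c * X 0 ^ b)) :
            MvPolynomial (Fin 2) K) = C c * (C (T ^ b) * C (T⁻¹ ^ b)) * X 0 ^ b +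
            (C T * C T⁻¹) * (X 1 - C c * X 0 ^ b) := by ring
        _ = X 1 := by rw [h4, hcc]; ring
  have h5 := map_dvd Ψ h
  rw [← AlgHom.comp_apply, hΨ, AlgHom.id_apply, map_pow, h3] at h5
  exact (pow_dvd_pow_of_dvd (dvd_mul_left _ _) n).trans h5

/-- the limit of the substitutions -/
private noncomputable def ShiftS_psi {R : Type u} [CommRing R] (b : ℕ) (x t : R) :
    Fin 2 → MvPolynomial (Fin 2) R :=
  ![C t * X 0, C x * X 0 ^ b + C t * X 1]

private lemma ShiftS_map {R K : Type u} [CommRing R] [Field K] (φ : R →+* K) {b : ℕ} {x t : R}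
    {c : K} (h : φ x = c * φ t ^ b) (F : MvPolynomial (Fin 2) R) :
    MvPolynomial.map φ (aeval (ShiftS_psi b x t) F) =
      ShiftS_Phi b c (φ t) (MvPolynomial.map φ F) := by
  have h1 : (MvPolynomial.map φ).comp (aeval (R := R) (ShiftS_psi b x t)).toRingHom =
      (ShiftS_Phi b c (φ t)).toRingHom.comp (MvPolynomial.map φ) := by
    refine MvPolynomial.ringHom_ext (fun r => ?_) (fun j => ?_)
    · rw [RingHom.comp_apply, RingHom.comp_apply, map_C]
      show MvPolynomial.map φ (aeval _ (C r)) = ShiftS_Phi b c (φ t) (C _)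
      rw [aeval_C, MvPolynomial.algebraMap_eq, map_C, ShiftS_PhiC]
    · rw [RingHom.comp_apply, RingHom.comp_apply, map_X]
      show MvPolynomial.map φ (aeval _ (X j)) = ShiftS_Phi b c (φ t) (X j)
      rw [aeval_X]
      fin_cases j
      · show MvPolynomial.map φ (C t * X 0) = ShiftS_Phi b c (φ t) (X 0)
        rw [ShiftS_Phi0, map_mul, map_C, map_X]
      · show MvPolynomial.map φ (C x * X 0 ^ b + C t * X 1) = ShiftS_Phi b c (φ t) (X 1)
        rw [ShiftS_Phi1, map_add, map_mul, map_mul, map_pow, map_C, map_C, map_X, map_X, h]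
  exact RingHom.congr_fun h1 F

section
variable {E : ℕ → ℕ+} {k : Type u} [Field k]

private lemma ShiftS_tame {P : (Fin 2 →₀ ℕ) → Prop} [DecidablePred P] {c c' : ℕ → AA k}
    (h : Tame E c) (hc : ∀ i m, mc (c' i) m = if P m then mc (c i) m else 0) : Tame E c' := by
  intro M
  obtain ⟨D, hD⟩ := h M
  refine ⟨D, ?_⟩
  filter_upwards [hD] with i hi m hm
  rw [hc]
  split_ifs
  · exact hi m hm
  · exact dvd_zero _

private lemma ShiftS_lim (b N : ℕ) (γ : ℕ → PowerSeries k) (j : Fin 2) :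
    IsLim E (fun i => ShiftS_P b (N * (E i : ℕ)) (γ i) j)
      (ShiftS_psi b (lm E γ) (lm E (fun i => (PowerSeries.X : PowerSeries k) ^ (N * (E i : ℕ)))) j) := by
  fin_cases j
  · show IsLim E (fun i => ShiftS_P b (N * (E i : ℕ)) (γ i) 0)
      (C (lm E (fun i => (PowerSeries.X : PowerSeries k) ^ (N * (E i : ℕ)))) * X 0)
    have h1 : (fun i => ShiftS_P b (N * (E i : ℕ)) (γ i) 0) =
        fun i => PowerSeries.X ^ (N * (E i : ℕ)) * (M3.xA 0 : AA k) :=
      funext fun i => ShiftS_P0 b _ _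
    rw [h1]
    exact (IsLim.X_pow _).mul (IsLim.xA 0)
  · show IsLim E (fun i => ShiftS_P b (N * (E i : ℕ)) (γ i) 1)
      (C (lm E γ) * X 0 ^ b +
        C (lm E (fun i => (PowerSeries.X : PowerSeries k) ^ (N * (E i : ℕ)))) * X 1)
    have h1 : (fun i => ShiftS_P b (N * (E i : ℕ)) (γ i) 1) =
        fun i => M3.cA (γ i) * (M3.xA 0 : AA k) ^ b + PowerSeries.X ^ (N * (E i : ℕ)) * M3.xA 1 :=
      funext fun i => ShiftS_P1 b _ _
    rw [h1]
    exact ((IsLim.cA γ).mul ((IsLim.xA 0).pow b)).add ((IsLim.X_pow _).mul (IsLim.xA 1))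

/-- the coefficients of weight at most `d` after the substitution -/
private lemma ShiftS_main {b N d : ℕ} {c : ℕ → AA k} (tm : Tame E c)
    (hd : ∀ m, ¬ Nul E (fun i => mc (c i) m) → d ≤ wt 1 b m)
    {F : MvPolynomial (Fin 2) (Lam E k)}
    (hF : ∀ m, coeff m F = if wt 1 b m = d then lm E (fun i => mc (c i) m) else 0)
    (γ : ℕ → PowerSeries k) :
    (∀ m, wt 1 b m < d → Nul E (fun i => mc (ev (ShiftS_P b (N * (E i : ℕ)) (γ i)) (c i)) m)) ∧
    (∀ m, wt 1 b m = d → lm E (fun i => mc (ev (ShiftS_P b (N * (E i : ℕ)) (γ i)) (c i)) m) =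
      coeff m (aeval (ShiftS_psi b (lm E γ)
        (lm E (fun i => (PowerSeries.X : PowerSeries k) ^ (N * (E i : ℕ))))) F)) ∧
    ∀ m, coeff m (aeval (ShiftS_psi b (lm E γ)
        (lm E (fun i => (PowerSeries.X : PowerSeries k) ^ (N * (E i : ℕ))))) F) ≠ 0 →
      wt 1 b m = d := by
  let lo : ℕ → AA k := fun i => ∑ w ∈ Finset.range d, topA 1 b w (c i)
  have hlo : ∀ i m, mc (lo i) m = if wt 1 b m < d then mc (c i) m else 0 := by
    intro i m
    have hs : ∀ s : Finset ℕ, mc (∑ w ∈ s, topA 1 b w (c i)) m =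
        ∑ w ∈ s, mc (topA 1 b w (c i)) m := by
      intro s
      induction s using Finset.cons_induction with
      | empty => rw [Finset.sum_empty, Finset.sum_empty, mc_zero]
      | cons a s ha ih => rw [Finset.sum_cons, Finset.sum_cons, mc_add, ih]
    show mc (∑ w ∈ Finset.range d, topA 1 b w (c i)) m = _
    rw [hs]
    simp only [mc_topA]
    rw [Finset.sum_ite_eq]
    simp only [Finset.mem_range]
  let tp : ℕ → AA k := fun i => topA 1 b d (c i)
  have htp : ∀ i m, mc (tp i) m = if wt 1 b m = d then mc (c i) m else 0 := fun i m =>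
    mc_topA 1 b d (c i) m
  have hlon : Nul E lo := by
    rw [nul_iff_mc (ShiftS_tame tm hlo)]
    intro m
    by_cases hm : wt 1 b m < d
    · have h1 : Nul E (fun i => mc (c i) m) := by
        by_contra hcon
        exact absurd (hd m hcon) (not_le.2 hm)
      have h2 : (fun i => mc (lo i) m) = fun i => mc (c i) m :=
        funext fun i => by rw [hlo, if_pos hm]
      rw [h2]
      exact h1
    · have h2 : (fun i => mc (lo i) m) = fun _ => 0 :=
        funext fun i => by rw [hlo, if_neg hm]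
      rw [h2]
      exact Nul.zero E
  have hlim : IsLim E tp F := by
    refine ⟨ShiftS_tame tm htp, fun m => ?_⟩
    rw [hF]
    by_cases hm : wt 1 b m = d
    · rw [if_pos hm]
      exact congrArg (lm E) (funext fun i => by rw [htp, if_pos hm])
    · rw [if_neg hm]
      have h2 : (fun i => mc (tp i) m) = fun _ => 0 :=
        funext fun i => by rw [htp, if_neg hm]
      rw [h2]
      exact (lm_eq_zero.2 (Nul.zero E)).symm
  have hlim' := IsLim.ev hlim (ShiftS_lim (E := E) b N γ)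
  have hsum : ∀ i m, mc (ev (ShiftS_P b (N * (E i : ℕ)) (γ i)) (c i)) m =
      mc (ev (ShiftS_P b (N * (E i : ℕ)) (γ i)) (c i - lo i - tp i)) m +
      mc (ev (ShiftS_P b (N * (E i : ℕ)) (γ i)) (tp i)) m +
      mc (ev (ShiftS_P b (N * (E i : ℕ)) (γ i)) (lo i)) m := by
    intro i m
    rw [← mc_add, ← mc_add, ← ev_add, ← ev_add, sub_add_cancel, sub_add_cancel]
  have hhi : ∀ i m, wt 1 b m ≤ d →
      mc (ev (ShiftS_P b (N * (E i : ℕ)) (γ i)) (c i - lo i - tp i)) m = 0 := by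
    intro i m hm
    by_contra hne
    obtain ⟨u, hu, hw⟩ := ShiftS_ev hne
    rw [mc_sub, mc_sub, hlo, htp] at hu
    rw [hw] at hm
    rcases lt_or_eq_of_le hm with h1 | h1
    · rw [if_pos h1, if_neg h1.ne] at hu
      simp at hu
    · rw [if_neg (by omega), if_pos h1] at hu
      simp at hu
  have htop0 : ∀ i m, wt 1 b m ≠ d →
      mc (ev (ShiftS_P b (N * (E i : ℕ)) (γ i)) (tp i)) m = 0 := by
    intro i m hm
    by_contra hne
    obtain ⟨u, hu, hw⟩ := ShiftS_ev hne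
    rw [htp, if_neg (fun h => hm (hw.trans h))] at hu
    exact hu rfl
  have hevlo : ∀ m, Nul E (fun i => mc (ev (ShiftS_P b (N * (E i : ℕ)) (γ i)) (lo i)) m) :=
    fun m => nul_mc (Nul.ev hlon fun i => ShiftS_P b (N * (E i : ℕ)) (γ i)) m
  refine ⟨fun m hm => ?_, fun m hm => ?_, fun m hm => ?_⟩
  · have h1 : (fun i => mc (ev (ShiftS_P b (N * (E i : ℕ)) (γ i)) (c i)) m) =
        fun i => mc (ev (ShiftS_P b (N * (E i : ℕ)) (γ i)) (lo i)) m :=
      funext fun i => by rw [hsum, hhi i m hm.le, htop0 i m hm.ne, zero_add, zero_add]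
    rw [h1]
    exact hevlo m
  · rw [hlim'.2 m, lm_eq]
    have h1 : (fun i => mc (ev (ShiftS_P b (N * (E i : ℕ)) (γ i)) (c i)) m -
        mc (ev (ShiftS_P b (N * (E i : ℕ)) (γ i)) (tp i)) m) =
        fun i => mc (ev (ShiftS_P b (N * (E i : ℕ)) (γ i)) (lo i)) m :=
      funext fun i => by rw [hsum, hhi i m hm.le, zero_add, add_sub_cancel_left]
    rw [h1]
    exact hevlo m
  · by_contra hne
    apply hm
    rw [hlim'.2 m, lm_eq_zero]
    have h1 : (fun i => mc (ev (ShiftS_P b (N * (E i : ℕ)) (γ i)) (tp i)) m) = fun _ => 0 :=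
      funext fun i => htop0 i m hne
    rw [h1]
    exact Nul.zero E

private lemma ShiftS_T (N : ℕ) :
    lm E (fun i => (PowerSeries.X : PowerSeries k) ^ (N * (E i : ℕ))) ≠ 0 := by
  intro h
  rw [lm_eq_zero] at h
  obtain ⟨i, hi⟩ := (h (N + 1)).exists
  have h2 := (PowerSeries.X_pow_dvd_iff.1 hi) (N * (E i : ℕ))
    (Nat.mul_lt_mul_of_pos_right (Nat.lt_succ_self N) (E i).pos)
  rw [PowerSeries.coeff_X_pow_self] at h2
  exact one_ne_zero h2

end

theorem shift_face {E : ℕ → ℕ+} {k : Type u} [Field k] {r : ℕ} {J : Type} {b : ℕ} (hb : 0 < b)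
    {grp : J → Fin r} {g : ℕ → J → AA k} (tm : ∀ h, Tame E (fun i => g i h))
    {d B : Fin r → ℕ} (hd : ∀ h m, ¬ Nul E (fun i => mc (g i h) m) → d (grp h) ≤ wt 1 b m)
    {F : J → MvPolynomial (Fin 2) (Lam E k)}
    (hF : ∀ h m, coeff m (F h) =
      if wt 1 b m = d (grp h) then lm E (fun i => mc (g i h) m) else 0)
    (c : KL E k) (γ : ℕ → PowerSeries k) (N : ℕ)
    (hγ : algebraMap (Lam E k) (KL E k) (lm E γ) = c * algebraMap (Lam E k) (KL E k)
      (lm E (fun i => (PowerSeries.X : PowerSeries k) ^ (b * N * (E i : ℕ)))))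
    (hB1 : ∀ h, (X 1 - C c * X 0 ^ b) ^ B (grp h) ∣ toKL (F h))
    (hB2 : ∀ j, ∃ h, grp h = j ∧ ¬ (X 1 - C c * X 0 ^ b) ^ (B j + 1) ∣ toKL (F h)) :
    (∀ h m, ¬ Nul E (fun i => mc (ev (chA 0 (Polynomial.monomial b (γ i)) (N * (E i : ℕ))
      (N * (E i : ℕ))) (g i h)) m) → d (grp h) ≤ wt 1 b m) ∧
    (∀ h m, ¬ Nul E (fun i => mc (ev (chA 0 (Polynomial.monomial b (γ i)) (N * (E i : ℕ))
      (N * (E i : ℕ))) (g i h)) m) → wt 1 b m = d (grp h) → B (grp h) ≤ m 1) ∧
    ∀ j, ∃ h, grp h = j ∧ ∃ m, ¬ Nul E (fun i => mc (ev (chA 0 (Polynomial.monomial b (γ i))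
      (N * (E i : ℕ)) (N * (E i : ℕ))) (g i h)) m) ∧ m 1 = B j ∧ wt 1 b m = d j := by
  have hinj : Function.Injective (algebraMap (Lam E k) (KL E k)) :=
    IsFractionRing.injective _ _
  set t : Lam E k := lm E (fun i => (PowerSeries.X : PowerSeries k) ^ (N * (E i : ℕ))) with ht
  set T : KL E k := algebraMap (Lam E k) (KL E k) t with hT
  have hT0 : T ≠ 0 := by
    rw [hT, Ne, map_eq_zero_iff _ hinj]
    exact ShiftS_T N
  have hco : ∀ (G : MvPolynomial (Fin 2) (Lam E k)) (e : Fin 2 →₀ ℕ),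
      coeff e (toKL G) ≠ 0 ↔ coeff e G ≠ 0 := by
    intro G e
    unfold toKL
    rw [coeff_map, Ne, map_eq_zero_iff _ hinj]
  have hγ' : algebraMap (Lam E k) (KL E k) (lm E γ) =
      c * (algebraMap (Lam E k) (KL E k) t) ^ b := by
    rw [hγ, ht, ← map_pow, ← map_pow]
    congr 3
    funext i
    show _ = ((PowerSeries.X : PowerSeries k) ^ (N * (E i : ℕ))) ^ b
    rw [← pow_mul]
    congr 1
    ring
  set G : J → MvPolynomial (Fin 2) (Lam E k) := fun h =>
    aeval (ShiftS_psi b (lm E γ) t) (F h) with hG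
  have hGK : ∀ h, toKL (G h) = ShiftS_Phi b c T (toKL (F h)) := fun h =>
    ShiftS_map (algebraMap (Lam E k) (KL E k)) hγ' (F h)
  have hm := fun h => ShiftS_main (N := N) (tm h) (hd h) (hF h) γ
  have hB : ∀ h e, coeff e (G h) ≠ 0 → B (grp h) ≤ e 1 := by
    intro h e he
    rw [← hco, hGK] at he
    refine ShiftS_X1 ?_ he
    have h1 := map_dvd (ShiftS_Phi b c T) (hB1 h)
    rw [map_pow, ShiftS_PhiL] at h1
    exact (pow_dvd_pow_of_dvd (dvd_mul_left _ _) _).trans h1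
  refine ⟨fun h m hne => ?_, fun h m hne hw => ?_, fun j => ?_⟩
  · by_contra hlt
    rw [not_le] at hlt
    exact hne ((hm h).1 m hlt)
  · refine hB h m ?_
    intro h0
    apply hne
    rw [← lm_eq_zero]
    exact ((hm h).2.1 m hw).trans h0
  · obtain ⟨h, h1, h2⟩ := hB2 j
    have h3 : ¬ (X 1 : MvPolynomial (Fin 2) (KL E k)) ^ (B j + 1) ∣
        ShiftS_Phi b c T (toKL (F h)) := fun h4 =>
      h2 (ShiftS_Phi_dvd b hT0 h4)
    rw [← hGK] at h3
    obtain ⟨e, he, hlt⟩ := ShiftS_X1' h3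
    rw [hco] at he
    have h5 := hB h e he
    have h6 := (hm h).2.2 e he
    rw [h1] at h5 h6
    refine ⟨h, h1, e, fun hn => he ?_, by omega, h6⟩
    have h7 := (hm h).2.1 e (by rw [h1]; exact h6)
    rw [← h7]
    exact lm_eq_zero.2 hn

end M4
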