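import Pool.Agent.M4.Nulb
import Pool.Agent.M4.Tame

/-!
PIECE M4-A03: limits of functions which are polynomials.

PROOF. `exists_rep`: for every `m ∈ F.support` choose by `lm_surj` a sequence `a m` with `lm E (a m) = coeff m F`,
`F' i := ∑ m ∈ F.support, monomial m (a m i)`.  `isLim_rep`: `mc_toAA`; tame: the degrees of `F' i` are bounded by the one of
`F`.  `IsLim.add`, `.sub`: `mc_add`, `lm` is a ring homomorphism (the function `fun i => a i + b i` is `a + b`, `rfl`).
`IsLim.mul`: `mc_mul` (`M3.BlkC0`), `coeff_mul`, `map_sum`.  `IsLim.cA`, `IsLim.xA`: `mc_cA`, `mc_xA`.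
`IsLim.nul_sub`: `Tame.sub`, `nul_iff_mc`, `lm_eq`.  `IsLim.congr`: `Tame.congr`, `nul_mc`, `lm_eq`.
`IsLim.ev`: let `F'` be a representative of `F`: `c i - toAA (F' i)` is null (`nul_sub`), so is `ev (χ i)` of it (`Nul.ev`), and
`ev (χ i) (toAA (F' i)) = eval₂ (..) (χ i) (F' i) = ∑ m ∈ F.support, cA (coeff m (F' i)) * χ i 0 ^ m 0 * χ i 1 ^ m 1` (`ev_toAA`),
whose limit is `∑ m ∈ F.support, C (coeff m F) * χ' 0 ^ m 0 * χ' 1 ^ m 1 = aeval χ' F`.
`exists_poly_lim`: `F := ∑ m with m 0 + m 1 ≤ D, monomial m (lm E (fun i => mc (c i) m))`.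
`exists_seqP`: representatives of the coefficients of `q`.
`isLim_unique`: immediate.
-/

open MvPolynomial

namespace M4

open M3

universe u

section
variable {k : Type u} [CommRing k] {E : ℕ → ℕ+}

private theorem limP_mc_mul (f g : AA k) (e : Fin 2 →₀ ℕ) :
    mc (f * g) e = ∑ x ∈ Finset.HasAntidiagonal.antidiagonal e, mc f x.1 * mc g x.2 := by
  classical
  ext n
  rw [coeff_mc, PowerSeries.coeff_mul, coeff_sum, map_sum]
  simp only [MvPolynomial.coeff_mul, PowerSeries.coeff_mul, coeff_mc]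
  rw [Finset.sum_comm]

private theorem limP_lm_sum {ι : Type*} (s : Finset ι) (a : ι → ℕ → PowerSeries k) :
    lm E (fun i => ∑ j ∈ s, a j i) = ∑ j ∈ s, lm E (a j) := by
  rw [← map_sum]
  congr 1
  funext i
  rw [Finset.sum_apply]

private theorem limP_lm_mul (a b : ℕ → PowerSeries k) :
    lm E (fun i => a i * b i) = lm E a * lm E b := map_mul (lm E) a b

private theorem limP_deg {D : ℕ} {m : Fin 2 →₀ ℕ}
    (hm : m ∉ Finset.Iic (Finsupp.single 0 D + Finsupp.single 1 D : Fin 2 →₀ ℕ)) :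
    D < m 0 + m 1 := by
  by_contra hn
  apply hm
  rw [Finset.mem_Iic, Finsupp.le_def]
  intro i
  fin_cases i
  · simp
    omega
  · simp
    omega

theorem exists_rep (F : MvPolynomial (Fin 2) (Lam E k)) :
    ∃ F' : ℕ → MvPolynomial (Fin 2) (PowerSeries k), (∀ i, (F' i).support ⊆ F.support) ∧
      ∀ m, lm E (fun i => coeff m (F' i)) = coeff m F := by
  classical
  choose a ha using fun m => lm_surj (E := E) (coeff m F)
  have key : ∀ i m, coeff m (∑ e ∈ F.support, monomial e (a e i)) =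
      if m ∈ F.support then a m i else 0 := by
    intro i m
    rw [coeff_sum, Finset.sum_congr rfl (fun e' _ => coeff_monomial _ _ _), Finset.sum_ite_eq']
  refine ⟨fun i => ∑ e ∈ F.support, monomial e (a e i), fun i m hm => ?_, fun m => ?_⟩
  · by_contra hn
    rw [mem_support_iff, key, if_neg hn] at hm
    exact hm rfl
  · simp only [key]
    by_cases hm : m ∈ F.support
    · simp only [if_pos hm]
      exact ha m
    · simp only [if_neg hm]
      rw [notMem_support_iff.1 hm]
      exact map_zero (lm E)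

theorem isLim_rep {F : MvPolynomial (Fin 2) (Lam E k)}
    {F' : ℕ → MvPolynomial (Fin 2) (PowerSeries k)} (h : ∀ i, (F' i).support ⊆ F.support)
    (h' : ∀ m, lm E (fun i => coeff m (F' i)) = coeff m F) : IsLim E (fun i => toAA (F' i)) F := by
  refine ⟨fun M => ⟨F.totalDegree, Filter.Eventually.of_forall fun i m hm => ?_⟩, fun m => ?_⟩
  · rw [mc_toAA]
    have h1 : m ∉ F.support := by
      intro h2
      have h3 := le_totalDegree h2
      rw [Finsupp.sum_fintype _ _ (fun _ => rfl), Fin.sum_univ_two] at h3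
      omega
    rw [notMem_support_iff.1 fun h2 => h1 (h i h2)]
    exact dvd_zero _
  · simp only [mc_toAA]
    exact (h' m).symm

theorem IsLim.unique {c : ℕ → AA k} {F G : MvPolynomial (Fin 2) (Lam E k)} (h : IsLim E c F)
    (h' : IsLim E c G) : F = G := by
  ext m
  rw [h.2 m, h'.2 m]

theorem IsLim.congr {c c' : ℕ → AA k} {F : MvPolynomial (Fin 2) (Lam E k)} (h : IsLim E c F)
    (hc : Nul E (fun i => c i - c' i)) : IsLim E c' F := by
  refine ⟨h.1.congr hc, fun m => ?_⟩
  rw [h.2 m, lm_eq]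
  have h1 := nul_mc hc m
  simp only [mc_sub] at h1
  exact h1

theorem IsLim.nul_sub {c c' : ℕ → AA k} {F : MvPolynomial (Fin 2) (Lam E k)} (h : IsLim E c F)
    (h' : IsLim E c' F) : Nul E (fun i => c i - c' i) := by
  rw [nul_iff_mc (h.1.sub h'.1)]
  intro m
  simp only [mc_sub]
  rw [← lm_eq, ← h.2 m, ← h'.2 m]

theorem IsLim.add {c c' : ℕ → AA k} {F F' : MvPolynomial (Fin 2) (Lam E k)} (h : IsLim E c F)
    (h' : IsLim E c' F') : IsLim E (fun i => c i + c' i) (F + F') := by
  refine ⟨h.1.add h'.1, fun m => ?_⟩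
  rw [coeff_add, h.2 m, h'.2 m]
  simp only [mc_add]
  exact (map_add (lm E) (fun i => mc (c i) m) (fun i => mc (c' i) m)).symm

theorem IsLim.sub {c c' : ℕ → AA k} {F F' : MvPolynomial (Fin 2) (Lam E k)} (h : IsLim E c F)
    (h' : IsLim E c' F') : IsLim E (fun i => c i - c' i) (F - F') := by
  refine ⟨h.1.sub h'.1, fun m => ?_⟩
  rw [coeff_sub, h.2 m, h'.2 m]
  simp only [mc_sub]
  exact (map_sub (lm E) (fun i => mc (c i) m) (fun i => mc (c' i) m)).symm

theorem IsLim.mul {c c' : ℕ → AA k} {F F' : MvPolynomial (Fin 2) (Lam E k)} (h : IsLim E c F)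
    (h' : IsLim E c' F') : IsLim E (fun i => c i * c' i) (F * F') := by
  classical
  refine ⟨h.1.mul h'.1, fun m => ?_⟩
  rw [coeff_mul]
  simp only [limP_mc_mul]
  rw [limP_lm_sum]
  refine Finset.sum_congr rfl fun x _ => ?_
  rw [limP_lm_mul, h.2, h'.2]

private theorem limP_cA (a : ℕ → PowerSeries k) : IsLim E (fun i => (M3.cA (a i) : AA k))
    (C (lm E a)) := by
  refine ⟨Tame.cA a, fun m => ?_⟩
  rw [coeff_C]
  simp only [mc_cA]
  by_cases hm : m = 0
  · rw [if_pos hm.symm]
    simp only [if_pos hm]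
  · rw [if_neg fun h => hm h.symm]
    simp only [if_neg hm]
    exact (map_zero (lm E)).symm

private theorem limP_one : IsLim E (fun _ => (1 : AA k)) 1 := by
  have h1 := limP_cA (E := E) (fun _ => (1 : PowerSeries k))
  have h2 : lm E (fun _ => (1 : PowerSeries k)) = 1 := map_one (lm E)
  rw [h2, map_one] at h1
  simp only [map_one] at h1
  exact h1

private theorem limP_zero : IsLim E (fun _ => (0 : AA k)) 0 := by
  have h1 := limP_cA (E := E) (fun _ => (0 : PowerSeries k))
  have h2 : lm E (fun _ => (0 : PowerSeries k)) = 0 := map_zero (lm E)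
  rw [h2, map_zero] at h1
  simp only [map_zero] at h1
  exact h1

theorem IsLim.pow {c : ℕ → AA k} {F : MvPolynomial (Fin 2) (Lam E k)} (h : IsLim E c F) (n : ℕ) :
    IsLim E (fun i => c i ^ n) (F ^ n) := by
  induction n with
  | zero =>
    simp only [pow_zero]
    exact limP_one
  | succ n ih =>
    simp only [pow_succ]
    exact ih.mul h

theorem IsLim.sum {ι : Type*} (s : Finset ι) {c : ι → ℕ → AA k}
    {F : ι → MvPolynomial (Fin 2) (Lam E k)} (h : ∀ j ∈ s, IsLim E (c j) (F j)) :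
    IsLim E (fun i => ∑ j ∈ s, c j i) (∑ j ∈ s, F j) := by
  classical
  induction s using Finset.induction_on with
  | empty =>
    simp only [Finset.sum_empty]
    exact limP_zero
  | insert j s hj ih =>
    simp only [Finset.sum_insert hj]
    exact (h j (Finset.mem_insert_self _ _)).add
      (ih fun x hx => h x (Finset.mem_insert_of_mem hx))

theorem IsLim.cA (a : ℕ → PowerSeries k) : IsLim E (fun i => (M3.cA (a i) : AA k))
    (C (lm E a)) := by
  exact limP_cA a

theorem IsLim.xA (j : Fin 2) : IsLim E (fun _ => (M3.xA j : AA k)) (X j) := by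
  refine ⟨Tame.xA j, fun m => ?_⟩
  rw [coeff_X]
  simp only [mc_xA]
  by_cases hm : m = Finsupp.single j 1
  · rw [if_pos hm.symm]
    simp only [if_pos hm]
    exact (map_one (lm E)).symm
  · rw [if_neg fun h => hm h.symm]
    simp only [if_neg hm]
    exact (map_zero (lm E)).symm

theorem IsLim.X_pow (n : ℕ → ℕ) : IsLim E (fun i => (PowerSeries.X : AA k) ^ n i)
    (C (lm E (fun i => (PowerSeries.X : PowerSeries k) ^ n i))) := by
  have h1 := limP_cA (E := E) (fun i => (PowerSeries.X : PowerSeries k) ^ n i)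
  have h2 : ∀ m : ℕ, M3.cA ((PowerSeries.X : PowerSeries k) ^ m) = PowerSeries.X ^ m := by
    intro m
    unfold M3.cA
    rw [map_pow, PowerSeries.map_X]
  simp only [h2] at h1
  exact h1

theorem IsLim.ev {c : ℕ → AA k} {F : MvPolynomial (Fin 2) (Lam E k)} (h : IsLim E c F)
    {χ : ℕ → Fin 2 → AA k} {χ' : Fin 2 → MvPolynomial (Fin 2) (Lam E k)}
    (hχ : ∀ j, IsLim E (fun i => χ i j) (χ' j)) :
    IsLim E (fun i => ev (χ i) (c i)) (aeval χ' F) := by
  classical
  obtain ⟨F', hF1, hF2⟩ := exists_rep F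
  have h1 := isLim_rep hF1 hF2
  have h2 : (fun i => M3.ev (χ i) (toAA (F' i))) = fun i => ∑ m ∈ F.support,
      M3.cA (coeff m (F' i)) * (χ i 0 ^ m 0 * χ i 1 ^ m 1) := by
    funext i
    rw [ev_toAA, eval₂_eq']
    refine (Finset.sum_subset (hF1 i) fun m _ hm => ?_).trans (Finset.sum_congr rfl fun m _ => ?_)
    · rw [notMem_support_iff.1 hm, map_zero, zero_mul]
    · rw [Fin.prod_univ_two]
      rfl
  have h3 : aeval χ' F = ∑ m ∈ F.support, C (coeff m F) * (χ' 0 ^ m 0 * χ' 1 ^ m 1) := by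
    rw [aeval_def, eval₂_eq']
    refine Finset.sum_congr rfl fun m _ => ?_
    rw [Fin.prod_univ_two]
    rfl
  have h4 : IsLim E (fun i => M3.ev (χ i) (toAA (F' i))) (aeval χ' F) := by
    rw [h2, h3]
    refine IsLim.sum _ fun m _ => IsLim.mul ?_ (IsLim.mul ((hχ 0).pow _) ((hχ 1).pow _))
    rw [← hF2 m]
    exact limP_cA _
  refine h4.congr ?_
  have h5 := (h1.nul_sub h).ev χ
  simp only [ev_sub] at h5
  exact h5

theorem exists_poly_lim {c : ℕ → AA k} (h : Tame E c) (D : ℕ)
    (h0 : ∀ m : Fin 2 →₀ ℕ, D < m 0 + m 1 → Nul E (fun i => mc (c i) m)) :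
    ∃ F : MvPolynomial (Fin 2) (Lam E k), IsLim E c F := by
  classical
  refine ⟨∑ m ∈ Finset.Iic (Finsupp.single 0 D + Finsupp.single 1 D),
    monomial m (lm E (fun i => mc (c i) m)), h, fun m => ?_⟩
  rw [coeff_sum, Finset.sum_congr rfl (fun e' _ => coeff_monomial _ _ _), Finset.sum_ite_eq']
  by_cases hm : m ∈ Finset.Iic (Finsupp.single 0 D + Finsupp.single 1 D : Fin 2 →₀ ℕ)
  · rw [if_pos hm]
  · rw [if_neg hm]
    exact (lm_eq_zero.2 (h0 m (limP_deg hm))).symm

/-- the polynomial with the coefficients of weight `d` -/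
theorem exists_top_lim {c : ℕ → AA k} {a b : ℕ} (ha : 0 < a) (hb : 0 < b) (d : ℕ) :
    ∃ F : MvPolynomial (Fin 2) (Lam E k), IsLim E (fun i => topA a b d (c i)) F ∧
      ∀ m, coeff m F = if wt a b m = d then lm E (fun i => mc (c i) m) else 0 := by
  classical
  have h0 : ∀ m : Fin 2 →₀ ℕ, d < m 0 + m 1 → wt a b m ≠ d := by
    intro m hm h1
    unfold wt at h1
    have h2 : m 0 ≤ a * m 0 := Nat.le_mul_of_pos_left _ ha
    have h3 : m 1 ≤ b * m 1 := Nat.le_mul_of_pos_left _ hb
    omega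
  have h1 : ∀ m : Fin 2 →₀ ℕ, coeff m (∑ e ∈ Finset.Iic (Finsupp.single 0 d + Finsupp.single 1 d),
      monomial e (if wt a b e = d then lm E (fun i => mc (c i) e) else 0)) =
      if wt a b m = d then lm E (fun i => mc (c i) m) else 0 := by
    intro m
    rw [coeff_sum, Finset.sum_congr rfl (fun e' _ => coeff_monomial _ _ _), Finset.sum_ite_eq']
    by_cases hm : m ∈ Finset.Iic (Finsupp.single 0 d + Finsupp.single 1 d : Fin 2 →₀ ℕ)
    · rw [if_pos hm]
    · rw [if_neg hm, if_neg (h0 m (limP_deg hm))]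
  refine ⟨_, ⟨fun M => ⟨d, Filter.Eventually.of_forall fun i m hm => ?_⟩, fun m => ?_⟩, h1⟩
  · rw [mc_topA, if_neg (h0 m hm)]
    exact dvd_zero _
  · rw [h1]
    simp only [mc_topA]
    by_cases hm : wt a b m = d
    · simp only [if_pos hm]
    · simp only [if_neg hm]
      exact (map_zero (lm E)).symm

theorem exists_seqP (q : Polynomial (Lam E k)) :
    ∃ q' : ℕ → Polynomial (PowerSeries k), (∀ i, (q' i).natDegree ≤ q.natDegree) ∧
      (∀ n, lm E (fun i => (q' i).coeff n) = q.coeff n) ∧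
      ∀ (t : ℕ → AA k) (t' : MvPolynomial (Fin 2) (Lam E k)), IsLim E t t' →
        IsLim E (fun i => (q' i).eval₂ M3.cA (t i)) (q.eval₂ C t') := by
  classical
  choose a ha using fun n => lm_surj (E := E) (q.coeff n)
  have key : ∀ i n, (∑ j ∈ Finset.range (q.natDegree + 1),
      Polynomial.monomial j (a j i)).coeff n = if n < q.natDegree + 1 then a n i else 0 := by
    intro i n
    rw [Polynomial.finsetSum_coeff, Finset.sum_congr rfl
      (fun j _ => Polynomial.coeff_monomial), Finset.sum_ite_eq']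
    simp only [Finset.mem_range]
  have h1 : ∀ i, (∑ j ∈ Finset.range (q.natDegree + 1),
      Polynomial.monomial j (a j i)).natDegree ≤ q.natDegree := by
    intro i
    rw [Polynomial.natDegree_le_iff_coeff_eq_zero]
    intro n hn
    rw [key, if_neg (by omega)]
  have h2 : ∀ n, lm E (fun i => (∑ j ∈ Finset.range (q.natDegree + 1),
      Polynomial.monomial j (a j i)).coeff n) = q.coeff n := by
    intro n
    simp only [key]
    by_cases hn : n < q.natDegree + 1
    · simp only [if_pos hn]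
      exact ha n
    · simp only [if_neg hn]
      rw [Polynomial.coeff_eq_zero_of_natDegree_lt (by omega)]
      exact map_zero (lm E)
  refine ⟨_, h1, h2, fun t t' ht => ?_⟩
  rw [Polynomial.eval₂_eq_sum_range]
  have h3 : ∀ i, Polynomial.eval₂ M3.cA (t i) (∑ j ∈ Finset.range (q.natDegree + 1),
      Polynomial.monomial j (a j i)) = ∑ n ∈ Finset.range (q.natDegree + 1),
        M3.cA ((∑ j ∈ Finset.range (q.natDegree + 1), Polynomial.monomial j (a j i)).coeff n) *
          t i ^ n := fun i =>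
    Polynomial.eval₂_eq_sum_range' _ (Nat.lt_succ_of_le (h1 i)) _
  simp only [h3]
  refine IsLim.sum _ fun n _ => IsLim.mul ?_ (ht.pow n)
  rw [← h2 n]
  exact limP_cA _

end

end M4
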