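import Pool.Agent.M4.DomT
import Pool.Agent.M4.LimP
import Pool.Agent.M3.Slow

/-!
PIECE M4-G04: slow rescaling (port of `M3.Slow`).

PROOF. (1) For `M : ℕ` for almost all `i`, for all `h` and `m` with `wt a b m < d := d (grp h)`: `X^(M * (d + 1) * E i) ∣ mc (c i h) m` (these
coefficients are null by `hd`; `tame_uniform`), `X^(a * M * E i) ∣ P i 0`, `X^(b * M * E i) ∣ P i 1`, `M ≤ i`, and the codimension and order conditions
of `Adm` hold.  As `slow_seq` in `M3.Slow` (private, copy) choose `ρ : ℕ → ℕ` with: for almost all `i` all this holds with `M := ρ i`, and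
`ρ i → ∞` (for all `M`, for almost all `i`, `M ≤ ρ i`).
(2) `ψ i := ![X^(a * ρ i * E i) * xA 0, X^(b * ρ i * E i) * xA 1]`; the lemma `slow_div` of `M3.Slow` (private, copy) with `ρ := ρ i * E i`:
`ev (ψ i) (c i h) = X^(d * ρ i * E i) * c' i h`, `mc (c' i h) m = X^(ρ i * E i * (wt a b m - d)) * mc (c i h) m` for `d ≤ wt a b m` and
`X^(ρ i * E i) ∣ mc (c' i h) m` for `wt a b m < d`.  So `IsLim E (fun i => c' i h) (F h)`: tame, because for `d < wt a b m` the coefficient is
divisible by `X^(ρ i * E i)`, `ρ i → ∞` (`D := d`; `m 0 + m 1 ≤ wt a b m`); the coefficients: `lm` of them is `0` for `wt a b m ≠ d` and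
`lm E (fun i => mc (c i h) m)` for `wt a b m = d`.
(3) `P i = ev (P' i) (ψ i)`, `C' i := C i - (a + b) * ρ i * E i`, `n' i j := n i j - d j * ρ i * E i` (`cod_chA_inv`); `Adm grp c' P' C' n'`.
(4) Domination.  Suppose `Dom E (l * lam) grp c' C' n'` with bound `ℓ`.  If `l = 1`: `∑ lam j d j = a + b`; let `ρ₀ := ℓ + 1` and use the chart
`ψ₀ i := ![X^(a * ρ₀ * E i) * xA 0, X^(b * ρ₀ * E i) * xA 1]`, `ev (ψ₀ i) (c i h) = X^(d * ρ₀ * E i) * c₀ i h`; `c₀ i h` and `c' i h` are congruent modulo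
`X^(ℓ * E i)` (for `wt a b m > d` both coefficients are divisible by `X^(ρ₀ * E i)`, `ρ₀ ≤ ρ i`).  So the arc `Q` for `c' i` has orders
`≥ n₁ j` for `c₀ i` too (`n₁ j ≤ ℓ * E i`), and `ev Q (ψ₀ i)` has codimension `≤ C₁ + (a + b) * ρ₀ * E i` (`cod_chA`) and orders
`≥ n₁ j + d j * ρ₀ * E i`; its value is `C₁ - ∑ lam n₁ ≤ C' i - ∑ lam n' i ≤ C i - ∑ lam n i` (`∑ lam d = a + b`).
If `l > 1`: `C i - ∑ lam j n i j ≥ C' i - ∑ lam j n' i j + (a + b - ∑ lam j d j) * ρ i * E i` and
`C' - ∑ lam n' ≥ C' - l ∑ lam n' ≥ (the value of the dominating arc) ≥ -l * (∑ lam j) * ℓ * E i`, `a + b - ∑ lam d > 0`, `ρ i → ∞`: the value is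
`≥ 0` for almost all `i`; `dom_of_nonneg`.
-/

open MvPolynomial

namespace M4

open M3

universe u

private theorem slow_cancel {K : Type*} [Field K] {m n : ℕ} {y : PowerSeries K}
    (h : (PowerSeries.X : PowerSeries K) ^ n ∣ PowerSeries.X ^ m * y) :
    (PowerSeries.X : PowerSeries K) ^ (n - m) ∣ y := by
  rcases le_total n m with hnm | hnm
  · rw [Nat.sub_eq_zero_of_le hnm, pow_zero]
    exact one_dvd _
  · obtain ⟨q, rfl⟩ := Nat.exists_eq_add_of_le hnm
    rw [pow_add] at h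
    rw [Nat.add_sub_cancel_left]
    exact (mul_dvd_mul_iff_left (pow_ne_zero _ PowerSeries.X_ne_zero)).1 h

private theorem slow_div {k : Type u} [Field k] (a b ρ dd : ℕ) (g : AA k)
    (hg : ∀ e, wt a b e < dd → (PowerSeries.X : PowerSeries k) ^ (ρ * (dd + 1)) ∣ mc g e) :
    ∃ g' : AA k, ev ![PowerSeries.X ^ (a * ρ) * xA 0, PowerSeries.X ^ (b * ρ) * xA 1] g =
        PowerSeries.X ^ (dd * ρ) * g' ∧
      (∀ e, dd ≤ wt a b e → mc g' e = PowerSeries.X ^ (ρ * (wt a b e - dd)) * mc g e) ∧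
      (∀ e, wt a b e < dd → (PowerSeries.X : PowerSeries k) ^ ρ ∣ mc g' e) := by
  have hx : (PowerSeries.X : PowerSeries k) ≠ 0 := PowerSeries.X_ne_zero
  have hsc : ∀ e, mc (ev ![PowerSeries.X ^ (a * ρ) * xA 0, PowerSeries.X ^ (b * ρ) * xA 1] g) e =
      PowerSeries.X ^ (ρ * wt a b e) * mc g e := by
    intro e
    rw [mc_scale]
    congr 2
    unfold wt
    ring
  obtain ⟨g', hg'⟩ := (X_pow_dvd_iff_mc
      (ev ![PowerSeries.X ^ (a * ρ) * xA 0, PowerSeries.X ^ (b * ρ) * xA 1] g)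
      (dd * ρ)).2 (fun e => by
    rw [hsc e]
    rcases lt_or_ge (wt a b e) dd with h | h
    · refine Dvd.dvd.mul_left ((pow_dvd_pow _ ?_).trans (hg e h)) _
      nlinarith
    · refine Dvd.dvd.mul_right (pow_dvd_pow _ ?_) _
      rw [Nat.mul_comm]
      exact Nat.mul_le_mul_left _ h)
  have hm : ∀ e, PowerSeries.X ^ (dd * ρ) * mc g' e = PowerSeries.X ^ (ρ * wt a b e) * mc g e := by
    intro e
    rw [← hsc e, hg', mc_X_pow_mul]
  refine ⟨g', hg', fun e he => ?_, fun e he => ?_⟩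
  · apply mul_left_cancel₀ (pow_ne_zero (dd * ρ) hx)
    rw [hm e, ← mul_assoc, ← pow_add]
    congr 2
    obtain ⟨q, hq⟩ := Nat.exists_eq_add_of_le he
    rw [hq, Nat.add_sub_cancel_left]
    ring
  · have h1 : (PowerSeries.X : PowerSeries k) ^ (ρ * (dd + 1)) ∣
        PowerSeries.X ^ (dd * ρ) * mc g' e := by
      rw [hm e]
      exact Dvd.dvd.mul_left (hg e he) _
    have h2 := slow_cancel h1
    have h3 : ρ * (dd + 1) - dd * ρ = ρ := by
      have : ρ * (dd + 1) = dd * ρ + ρ := by ring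
      rw [this, Nat.add_sub_cancel_left]
    rwa [h3] at h2

private theorem slow_seq {E : ℕ → ℕ → Prop} (hE : ∀ M, ∀ᶠ i in Uf, E M i)
    (hE' : ∀ M i, E M i → M ≤ i) :
    ∃ ρ : ℕ → ℕ, (∀ᶠ i in Uf, E (ρ i) i) ∧ ∀ M, ∀ᶠ i in Uf, M ≤ ρ i := by
  classical
  refine ⟨fun i => Nat.findGreatest (fun M => E M i) i, ?_, fun M => ?_⟩
  · refine (hE 0).mono fun i hi => ?_
    exact Nat.findGreatest_spec (P := fun M => E M i) (Nat.zero_le i) hi
  · refine (hE M).mono fun i hi => ?_
    exact Nat.le_findGreatest (P := fun M => E M i) (hE' M i hi) hi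

private theorem slow_chA {k : Type u} [Field k] (N₀ N₁ : ℕ) :
    chA (0 : PowerSeries k) 0 N₀ N₁ =
      ![PowerSeries.X ^ N₀ * xA 0, PowerSeries.X ^ N₁ * xA 1] := by
  unfold chA
  simp

theorem slow {E : ℕ → ℕ+} {k : Type u} [Field k] [CharZero k] {r : ℕ} {J : Type} [Fintype J]
    {lam : Fin r → ℝ} (hlam : ∀ j, 0 < lam j) {grp : J → Fin r}
    {c : ℕ → J → AA k} (tm : ∀ h, Tame E (fun i => c i h))
    {P : ℕ → Fin 2 → PowerSeries (Om k)} {C : ℕ → ℕ} {n : ℕ → Fin r → ℕ}
    (hA : Adm grp c P C n) (hP : ∀ j, Nul E (fun i => P i j)) {a b : ℕ} (ha : 0 < a) (hb : 0 < b)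
    {d : Fin r → ℕ} (hd : ∀ h m, ¬ Nul E (fun i => mc (c i h) m) → d (grp h) ≤ wt a b m)
    {F : J → MvPolynomial (Fin 2) (Lam E k)}
    (hF : ∀ h m, coeff m (F h) =
      if wt a b m = d (grp h) then lm E (fun i => mc (c i h) m) else 0) {l : ℝ} (hl : 1 ≤ l)
    (hsum : l * ∑ j, lam j * d j = a + b) :
    ∃ (c' : ℕ → J → AA k) (P' : ℕ → Fin 2 → PowerSeries (Om k)) (C' : ℕ → ℕ)
      (n' : ℕ → Fin r → ℕ), (∀ h, IsLim E (fun i => c' i h) (F h)) ∧
      Adm grp c' P' C' n' ∧
      (Dom E (fun j => l * lam j) grp c' C' n' → Dom E lam grp c C n) := by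
  classical
  -- the sets `G M`
  let G : ℕ → ℕ → Prop := fun M i =>
    ((PowerSeries.X : PowerSeries (Om k)) ^ (a * (M * (E i : ℕ))) ∣ P i 0 ∧
      (PowerSeries.X : PowerSeries (Om k)) ^ (b * (M * (E i : ℕ))) ∣ P i 1) ∧
    (∀ h e, wt a b e < d (grp h) →
      (PowerSeries.X : PowerSeries k) ^ ((M * (E i : ℕ)) * (d (grp h) + 1)) ∣ mc (c i h) e) ∧
    (Cod k (P i) (C i) ∧ OrdGe grp (c i) (P i) (n i)) ∧ M ≤ i
  have hG : ∀ M, ∀ᶠ i in Uf, G M i := by
    intro M
    refine Filter.Eventually.and (Filter.Eventually.and ?_ ?_) (Filter.Eventually.and ?_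
      (hA.and ?_))
    · refine (hP 0 (a * M)).mono fun i hi => ?_
      rwa [mul_assoc] at hi
    · refine (hP 1 (b * M)).mono fun i hi => ?_
      rwa [mul_assoc] at hi
    · rw [Filter.eventually_all]
      intro h
      refine (tame_uniform (tm h) (M * (d (grp h) + 1))).mono fun i hi e he => ?_
      have h6 : Nul E (fun i => mc (c i h) e) := by
        by_contra hne
        exact absurd (hd h e hne) (not_le.2 he)
      have h7 := hi e h6
      rwa [show M * (d (grp h) + 1) * (E i : ℕ) = M * (E i : ℕ) * (d (grp h) + 1) by ring] at h7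
    · have h7 : ∀ᶠ i in (Filter.atTop : Filter ℕ), M ≤ i := Filter.eventually_ge_atTop M
      rw [← Nat.cofinite_eq_atTop] at h7
      exact Filter.hyperfilter_le_cofinite h7
  obtain ⟨ρ, hρE, hρ⟩ := slow_seq hG (fun M i h => h.2.2.2)
  -- the exponents
  obtain ⟨R, hR⟩ : ∃ R : ℕ → ℕ, ∀ i, R i = ρ i * (E i : ℕ) := ⟨_, fun _ => rfl⟩
  have hRM : ∀ M i, M ≤ ρ i → M * (E i : ℕ) ≤ R i := by
    intro M i hM
    rw [hR]
    exact Nat.mul_le_mul_right _ hM
  -- the new data
  have hex : ∀ i h, ∃ g' : AA k, G (ρ i) i →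
      ev ![PowerSeries.X ^ (a * R i) * xA 0, PowerSeries.X ^ (b * R i) * xA 1] (c i h) =
        PowerSeries.X ^ (d (grp h) * R i) * g' ∧
      (∀ e, d (grp h) ≤ wt a b e →
        mc g' e = PowerSeries.X ^ (R i * (wt a b e - d (grp h))) * mc (c i h) e) ∧
      (∀ e, wt a b e < d (grp h) → (PowerSeries.X : PowerSeries k) ^ R i ∣ mc g' e) := by
    intro i h
    by_cases hi : G (ρ i) i
    · have h0 := hi.2.1 h
      rw [← hR] at h0
      obtain ⟨g', h1⟩ := slow_div a b (R i) (d (grp h)) (c i h) h0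
      exact ⟨g', fun _ => h1⟩
    · exact ⟨0, fun h' => absurd h' hi⟩
  choose c' hc' using hex
  have hexP : ∀ i, ∃ P' : Fin 2 → PowerSeries (Om k), G (ρ i) i →
      P i = fun j => ev P' (chA (0 : PowerSeries k) 0 (a * R i) (b * R i) j) := by
    intro i
    by_cases hi : G (ρ i) i
    · obtain ⟨⟨h0', h1'⟩, -⟩ := hi
      rw [← hR] at h0' h1'
      obtain ⟨q0, h0⟩ := h0'
      obtain ⟨q1, h1⟩ := h1'
      refine ⟨![q0, q1], fun _ => ?_⟩
      funext j
      rw [slow_chA]
      fin_cases j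
      · show P i 0 = ev ![q0, q1] (PowerSeries.X ^ (a * R i) * xA 0)
        rw [ev_mul, ev_pow, ev_X, ev_xA, h0]
        rfl
      · show P i 1 = ev ![q0, q1] (PowerSeries.X ^ (b * R i) * xA 1)
        rw [ev_mul, ev_pow, ev_X, ev_xA, h1]
        rfl
    · exact ⟨0, fun h' => absurd h' hi⟩
  choose P' hP' using hexP
  have hp0 : ∀ N j : ℕ, 1 ≤ j →
      (PowerSeries.X : PowerSeries k) ^ N ∣ (0 : Polynomial (PowerSeries k)).coeff j := by
    intro N j _
    rw [Polynomial.coeff_zero]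
    exact dvd_zero _
  have hcod : ∀ i, G (ρ i) i →
      a * R i + b * R i ≤ C i ∧ Cod k (P' i) (C i - a * R i - b * R i) := by
    intro i hi
    have h1 := hi.2.2.1.1
    rw [hP' i hi] at h1
    exact cod_chA_inv 0 0 (a * R i) (b * R i) (hp0 _) h1
  refine ⟨c', P', fun i => C i - a * R i - b * R i, fun i j => n i j - d j * R i, ?_, ?_, ?_⟩
  · -- limits
    intro h
    have key : ∀ M : ℕ, ∀ᶠ i in Uf, ∀ e : Fin 2 →₀ ℕ, wt a b e ≠ d (grp h) →
        (PowerSeries.X : PowerSeries k) ^ (M * (E i : ℕ)) ∣ mc (c' i h) e := by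
      intro M
      filter_upwards [hρE, hρ M] with i hi hm e he
      obtain ⟨-, h2, h3⟩ := hc' i h hi
      have h5 := hRM M i hm
      rcases lt_or_gt_of_ne he with hlt | hgt
      · exact (pow_dvd_pow _ h5).trans (h3 e hlt)
      · rw [h2 e hgt.le]
        have h4 : 1 ≤ wt a b e - d (grp h) := by omega
        refine Dvd.dvd.mul_right (pow_dvd_pow _ ?_) _
        calc M * (E i : ℕ) ≤ R i := h5
          _ = R i * 1 := (Nat.mul_one _).symm
          _ ≤ R i * (wt a b e - d (grp h)) := Nat.mul_le_mul_left _ h4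
    refine ⟨fun M => ⟨d (grp h), ?_⟩, fun e => ?_⟩
    · refine (key M).mono fun i hi m hm => hi m ?_
      have h0 : m 0 ≤ a * m 0 := Nat.le_mul_of_pos_left _ ha
      have h1 : m 1 ≤ b * m 1 := Nat.le_mul_of_pos_left _ hb
      unfold wt
      omega
    · rw [hF h e]
      split_ifs with he
      · rw [lm_eq]
        intro M
        filter_upwards [hρE] with i hi
        rw [(hc' i h hi).2.1 e he.ge, he, Nat.sub_self, Nat.mul_zero, pow_zero, one_mul, sub_self]
        exact dvd_zero _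
      · symm
        rw [lm_eq_zero]
        exact fun M => (key M).mono fun i hi => hi e he
  · -- admissibility
    unfold Adm
    filter_upwards [hρE] with i hi
    refine ⟨(hcod i hi).2, fun h => ?_⟩
    have h1 := hi.2.2.1.2 h
    rw [hP' i hi, ← ev_ev, slow_chA, (hc' i h hi).1, ev_mul, ev_pow, ev_X] at h1
    exact slow_cancel h1
  · -- domination
    rintro ⟨ℓ, hℓ⟩
    have hC : ∀ i, G (ρ i) i →
        ((C i - a * R i - b * R i : ℕ) : ℝ) = C i - (a + b) * R i := by
      intro i hi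
      have h1 := (hcod i hi).1
      rw [Nat.sub_sub, Nat.cast_sub h1]
      push_cast
      ring
    have hn : ∀ i, (∑ j, lam j * (n i j : ℝ)) ≤
        ∑ j, lam j * ((n i j - d j * R i : ℕ) : ℝ) + R i * ∑ j, lam j * (d j : ℝ) := by
      intro i
      rw [Finset.mul_sum, ← Finset.sum_add_distrib]
      refine Finset.sum_le_sum fun j _ => ?_
      have h2 : n i j ≤ (n i j - d j * R i) + d j * R i := by omega
      have h3 : (n i j : ℝ) ≤ ((n i j - d j * R i : ℕ) : ℝ) + d j * R i := by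
        exact_mod_cast h2
      have h4 := mul_le_mul_of_nonneg_left h3 (hlam j).le
      calc lam j * (n i j : ℝ) ≤ lam j * (((n i j - d j * R i : ℕ) : ℝ) + d j * R i) := h4
        _ = _ := by ring
    rcases eq_or_lt_of_le hl with h1 | h1
    · -- `l = 1`
      have hs : (∑ j, lam j * (d j : ℝ)) = a + b := by
        rw [← hsum, ← h1, one_mul]
      refine ⟨ℓ + a * (ℓ + 1) + b * (ℓ + 1) + (∑ j, d j) * (ℓ + 1), ?_⟩
      filter_upwards [hℓ, hρE, hρ (ℓ + 1), hG (ℓ + 1)] with i hi hEi hρi hEℓ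
      obtain ⟨Q, C₁, n₁, hC₁, hn₁, hQ, hord, hval⟩ := hi
      obtain ⟨S, hS⟩ : ∃ S : ℕ, S = (ℓ + 1) * (E i : ℕ) := ⟨_, rfl⟩
      have hSR : S ≤ R i := by
        rw [hS]
        exact hRM _ i hρi
      have hℓS : ℓ * (E i : ℕ) ≤ S := by
        rw [hS]
        exact Nat.mul_le_mul_right _ (Nat.le_succ ℓ)
      refine ⟨fun j => ev Q (chA (0 : PowerSeries k) 0 (a * S) (b * S) j),
        C₁ + a * S + b * S, fun j => n₁ j + d j * S, ?_, fun j => ?_,
        cod_chA 0 0 _ _ (hp0 _) hQ, fun h => ?_, ?_⟩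
      · calc C₁ + a * S + b * S ≤ ℓ * (E i : ℕ) + a * S + b * S := by omega
          _ = (ℓ + a * (ℓ + 1) + b * (ℓ + 1)) * (E i : ℕ) := by
            rw [hS]
            ring
          _ ≤ _ := Nat.mul_le_mul_right _ (Nat.le_add_right _ _)
      · have h2 : d j ≤ ∑ j, d j := Finset.single_le_sum (f := d) (fun _ _ => Nat.zero_le _)
          (Finset.mem_univ j)
        have h3 := Nat.mul_le_mul_right S h2
        have h4 := hn₁ j
        show n₁ j + d j * S ≤ _
        calc n₁ j + d j * S ≤ ℓ * (E i : ℕ) + (∑ j, d j) * S := by omega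
          _ = (ℓ + (∑ j, d j) * (ℓ + 1)) * (E i : ℕ) := by
            rw [hS]
            ring
          _ ≤ _ := Nat.mul_le_mul_right _ (by omega)
      · have h0 := hEℓ.2.1 h
        rw [← hS] at h0
        obtain ⟨g, hg1, hg2, hg3⟩ := slow_div a b S (d (grp h)) (c i h) h0
        obtain ⟨-, h2, h3⟩ := hc' i h hEi
        show (PowerSeries.X : PowerSeries (Om k)) ^ (n₁ (grp h) + d (grp h) * S) ∣ _
        rw [← ev_ev, slow_chA, hg1, ev_mul, ev_pow, ev_X, Nat.add_comm (n₁ (grp h)), pow_add]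
        refine mul_dvd_mul_left _ ?_
        have hdiff : (PowerSeries.X : AA k) ^ S ∣ g - c' i h := by
          rw [X_pow_dvd_iff_mc]
          intro e
          rw [mc_sub]
          rcases lt_trichotomy (wt a b e) (d (grp h)) with he | he | he
          · exact dvd_sub (hg3 e he) ((pow_dvd_pow _ hSR).trans (h3 e he))
          · rw [hg2 e he.ge, h2 e he.ge, he, Nat.sub_self, Nat.mul_zero, Nat.mul_zero, sub_self]
            exact dvd_zero _
          · rw [hg2 e he.le, h2 e he.le]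
            have h4 : 1 ≤ wt a b e - d (grp h) := by omega
            refine dvd_sub (Dvd.dvd.mul_right (pow_dvd_pow _ ?_) _)
              (Dvd.dvd.mul_right (pow_dvd_pow _ ?_) _)
            · calc S = S * 1 := (Nat.mul_one _).symm
                _ ≤ _ := Nat.mul_le_mul_left _ h4
            · calc S ≤ R i := hSR
                _ = R i * 1 := (Nat.mul_one _).symm
                _ ≤ _ := Nat.mul_le_mul_left _ h4
        have h5 : ev Q g = ev Q (c' i h) + ev Q (g - c' i h) := by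
          rw [ev_sub]
          ring
        rw [h5]
        refine dvd_add (hord h) ((pow_dvd_pow _ ?_).trans (ev_dvd Q hdiff))
        exact (hn₁ (grp h)).trans hℓS
      · have hn' := hn i
        have hC' := hC i hEi
        rw [← h1] at hval
        simp only [one_mul] at hval
        rw [hC'] at hval
        rw [hs] at hn'
        have h6 : (∑ j, lam j * ((n₁ j + d j * S : ℕ) : ℝ)) =
            ∑ j, lam j * (n₁ j : ℝ) + S * ∑ j, lam j * (d j : ℝ) := by
          rw [Finset.mul_sum, ← Finset.sum_add_distrib]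
          refine Finset.sum_congr rfl fun j _ => ?_
          push_cast
          ring
        rw [h6, hs]
        push_cast
        linarith
    · -- `1 < l`
      have hT : 0 < ∑ j, lam j * (d j : ℝ) := by
        have h2 : (0 : ℝ) < a + b := by positivity
        rw [← hsum] at h2
        exact pos_of_mul_pos_right h2 (by linarith)
      obtain ⟨M, hM⟩ := exists_nat_ge ((∑ j, l * lam j * (ℓ : ℝ)) /
        ((l - 1) * ∑ j, lam j * (d j : ℝ)))
      have hpos : 0 < (l - 1) * ∑ j, lam j * (d j : ℝ) := mul_pos (by linarith) hT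
      rw [div_le_iff₀ hpos] at hM
      apply dom_of_nonneg
      filter_upwards [hℓ, hρE, hρ M] with i hi hEi hρi
      obtain ⟨Q, C₁, n₁, hC₁, hn₁, hQ, hord, hval⟩ := hi
      have hn' := hn i
      have hC' := hC i hEi
      rw [hC'] at hval
      have hE0 : (0 : ℝ) ≤ ((E i : ℕ) : ℝ) := Nat.cast_nonneg _
      have h3 : (∑ j, l * lam j * (n₁ j : ℝ)) ≤ (∑ j, l * lam j * (ℓ : ℝ)) * ((E i : ℕ) : ℝ) := by
        rw [Finset.sum_mul]
        refine Finset.sum_le_sum fun j _ => ?_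
        have h4 : (n₁ j : ℝ) ≤ ℓ * ((E i : ℕ) : ℝ) := by exact_mod_cast hn₁ j
        rw [mul_assoc (l * lam j)]
        exact mul_le_mul_of_nonneg_left h4 (mul_nonneg (by linarith) (hlam j).le)
      have h5 : (∑ j, l * lam j * ((n i j - d j * R i : ℕ) : ℝ)) =
          l * ∑ j, lam j * ((n i j - d j * R i : ℕ) : ℝ) := by
        rw [Finset.mul_sum]
        exact Finset.sum_congr rfl fun j _ => by ring
      have h6 : 0 ≤ ∑ j, lam j * ((n i j - d j * R i : ℕ) : ℝ) :=
        Finset.sum_nonneg fun j _ => mul_nonneg (hlam j).le (Nat.cast_nonneg _)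
      have h7 : (0 : ℝ) ≤ C₁ := Nat.cast_nonneg _
      have h8 : (M : ℝ) * ((E i : ℕ) : ℝ) ≤ R i := by exact_mod_cast hRM M i hρi
      have h9 := mul_le_mul_of_nonneg_right h8 hpos.le
      have h12 := mul_le_mul_of_nonneg_right hM hE0
      rw [h5] at hval
      set S := ∑ j, lam j * ((n i j - d j * R i : ℕ) : ℝ) with hS
      set T := ∑ j, lam j * (d j : ℝ) with hTdef
      have h10 : 0 ≤ (l - 1) * S := mul_nonneg (by linarith) h6
      have h11 : ((a : ℝ) + b) * R i = l * T * R i := by rw [hsum]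
      nlinarith

end M4
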