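import Pool.Agent.M4.NewtS
import Pool.Agent.M4.MonoS
import Pool.Agent.M4.ShiftS
import Pool.Agent.M4.SlowS
import Pool.Agent.M4.LiftS
import Pool.Agent.M3.Polyg
import Pool.Agent.M3.MassAlt

/-!
PIECE M4-G06: the Newton polygon loop (port of `M3.BlkG`).

PROOF. `M3.BlkG` with the following replacements.  A family is a sequence `g : ℕ → J → AA k` with `tm : ∀ h, Tame E (g · h)`;
`mc (g h) e ≠ 0` becomes `¬ Nul E (fun i => mc (g i h) e)` (structures `Ed`, `Inv`); `g_ne`: `lowB_ne` and `exists_mc_ne`; `g_poly`: `newt_le`,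
`polygon`; `g_face`: `F h := ∑ over the (finitely many) m of weight d (grp h) of monomial m (lm E (fun i => mc (g i h) m))`, see
`exists_top_lim`; `g_int`: for `c : KL E k` there are `γ : Lam E k`, `N` with `algebraMap γ = c * algebraMap (lm E (fun i => X^(b * N * E i)))` (a
nonzero `y = lm E a` divides `lm E (fun i => X^(A * E i))`, since for almost all `i` the order of `a i` is `≤ A * E i`, `not_nul`); choose a
sequence `γ` (`lm_surj`); `g_edge`: `mass_alt` over `KL E k`, `shift_face`; `g_slope`, `g_drop`, `g_swap` (`mc_swap`): unchanged.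
Charts are sequences `χ` with `IsChS E χ N`, centre: `∀ j, Nul E (fun i => mc (χ i j) 0 - z i j)`; the new families are `ev (χ i) (c i h)`,
tame by `Tame.ev`, `Tame.isChS`, with `LowB` by `lowB_isChS`; compositions by `isChS_comp`, `isChS_chA`, `isChS_swap`; centre of a
composition: `mc (ev (ψ i) (χ i j)) 0 = ev 0 (ev (ψ i) (χ i j)) = ev 0 (χ i j) = mc (χ i j) 0` if `ev 0 (ψ i j) = 0` (`g_ev0`, `ev_ev`).
`stage`: `isChS_lift` with `w := 0` (`ev 0 (χ i j) = mc (χ i j) 0`, so `P` is near this point by `hP` and the centre condition) gives `P'` with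
`Near E P' 0`, i.e. `∀ j, Nul E (P' · j)`; `adm_isChS`, `dom_isChS`.  The first chart (translation): `chA (z i 0) (Polynomial.C (z i 1)) 0 0`
(`isChS_chA` with `D := 0`, `N₀ = N₁ = 0`; note `0 * E i = 0`).  `hnew`: `slow` and `shift_face`.
-/

open MvPolynomial

namespace M4

open M3

universe u

section
variable {κ : Type u} [Field κ] {E : ℕ → ℕ+}

/-- evaluation at the origin -/
private theorem g_ev0 (f : AA κ) : ev (0 : Fin 2 → PowerSeries κ) f = mc f 0 := by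
  ext n
  rw [coeff_ev, coeff_mc, Finset.sum_eq_single (n, 0)]
  · rw [aeval_zero, PowerSeries.algebraMap_apply, PowerSeries.coeff_C, if_pos rfl,
      constantCoeff_eq]
    rfl
  · rintro ⟨a', b'⟩ hab hne
    have h1 : b' ≠ 0 := by
      rintro rfl
      have := Finset.HasAntidiagonal.mem_antidiagonal.1 hab
      simp only [add_zero] at this
      exact hne (by rw [this])
    rw [aeval_zero, PowerSeries.algebraMap_apply, PowerSeries.coeff_C, if_neg h1]
  · intro h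
    exact absurd (Finset.HasAntidiagonal.mem_antidiagonal.2 (by simp)) h

/-- the chart `x = τ^N x'`, `y = γ x'^b + τ^N y'` -/
private theorem g_chM (b N : ℕ) (γ : ℕ → PowerSeries κ) :
    IsChS E (fun i => chA 0 (Polynomial.monomial b (γ i)) (N * (E i : ℕ)) (N * (E i : ℕ)))
      (N + N) := by
  have h1 := isChS_chA (E := E) (fun _ => (0 : PowerSeries κ)) (fun _ => 0) 0 N 0
    (fun _ => by simp) (fun _ j _ => by simp)
  have h2 := isChS_chA (E := E) (fun _ => (0 : PowerSeries κ))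
    (fun i => Polynomial.monomial b (γ i)) b 0 N
    (fun i => Polynomial.natDegree_monomial_le _)
    (fun i j _ => by rw [zero_mul, pow_zero]; exact one_dvd _)
  have h3 := isChS_comp h1 h2
  have h4 : (fun i j => ev (chA 0 (Polynomial.monomial b (γ i)) (0 * (E i : ℕ)) (N * (E i : ℕ)))
      (chA (0 : PowerSeries κ) 0 (N * (E i : ℕ)) (0 * (E i : ℕ)) j)) =
      fun i => chA 0 (Polynomial.monomial b (γ i)) (N * (E i : ℕ)) (N * (E i : ℕ)) := by
    funext i j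
    rw [zero_mul]
    fin_cases j
    · change ev _ (cA 0 + PowerSeries.X ^ (N * (E i : ℕ)) * xA 0) =
        cA 0 + PowerSeries.X ^ (N * (E i : ℕ)) * xA 0
      rw [ev_add, ev_mul, ev_pow, ev_X, ev_xA, ev_cA]
      change _ + _ * (cA 0 + PowerSeries.X ^ 0 * xA 0) = _
      simp
    · change ev _ ((0 : Polynomial (PowerSeries κ)).eval₂ cA (xA 0) +
          PowerSeries.X ^ 0 * xA 1) =
        (Polynomial.monomial b (γ i)).eval₂ cA (xA 0) + PowerSeries.X ^ (N * (E i : ℕ)) * xA 1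
      rw [Polynomial.eval₂_zero, pow_zero, one_mul, zero_add, ev_xA]
      rfl
  rw [h4] at h3
  rw [show N + N = N + 0 + (0 + N) by ring]
  exact h3

private theorem g_chM0 {b : ℕ} (hb : 0 < b) (N : ℕ) (γ : PowerSeries κ) (j : Fin 2) :
    ev (0 : Fin 2 → PowerSeries κ) (chA 0 (Polynomial.monomial b γ) N N j) = 0 := by
  fin_cases j
  · change ev _ (cA 0 + PowerSeries.X ^ N * xA 0) = 0
    rw [ev_add, ev_mul, ev_pow, ev_X, ev_xA, ev_cA]
    simp
  · change ev _ ((Polynomial.monomial b γ).eval₂ cA (xA 0) + PowerSeries.X ^ N * xA 1) = 0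
    rw [Polynomial.eval₂_monomial, ev_add, ev_mul, ev_mul, ev_pow, ev_pow, ev_X, ev_xA, ev_xA]
    simp [hb.ne']

private theorem g_sw0 (j : Fin 2) : ev (0 : Fin 2 → PowerSeries κ) (swA κ j) = 0 := by
  fin_cases j
  · change ev _ (xA 1) = 0
    rw [ev_xA]
    rfl
  · change ev _ (xA 0) = 0
    rw [ev_xA]
    rfl

private theorem g_cenComp {χ ψ : ℕ → Fin 2 → AA κ} {z : ℕ → Fin 2 → PowerSeries κ}
    (hz : ∀ j, Nul E (fun i => mc (χ i j) 0 - z i j))
    (hψ : ∀ i j, ev (0 : Fin 2 → PowerSeries κ) (ψ i j) = 0) (j : Fin 2) :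
    Nul E (fun i => mc (ev (ψ i) (χ i j)) 0 - z i j) := by
  have h1 : ∀ i, mc (ev (ψ i) (χ i j)) 0 = mc (χ i j) 0 := by
    intro i
    rw [← g_ev0, ev_ev]
    have h2 : (fun j => ev (0 : Fin 2 → PowerSeries κ) (ψ i j)) = 0 := funext (hψ i)
    rw [h2, g_ev0]
  simp only [h1]
  exact hz j

/-- the translation to `z` -/
private theorem g_trans (z : ℕ → Fin 2 → PowerSeries κ) :
    ∃ (χ : ℕ → Fin 2 → AA κ) (N : ℕ), IsChS E χ N ∧
      ∀ j, Nul E (fun i => mc (χ i j) 0 - z i j) := by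
  refine ⟨fun i => chA (z i 0) (Polynomial.C (z i 1)) (0 * (E i : ℕ)) (0 * (E i : ℕ)), 0 + 0,
    isChS_chA _ _ 0 0 0 (fun i => by simp) (fun i j _ => by
      rw [zero_mul, pow_zero]; exact one_dvd _), fun j => ?_⟩
  have h1 : ∀ i, mc (chA (z i 0) (Polynomial.C (z i 1)) (0 * (E i : ℕ)) (0 * (E i : ℕ)) j) 0 =
      z i j := by
    intro i
    rw [← g_ev0, zero_mul]
    fin_cases j
    · change ev _ (cA (z i 0) + PowerSeries.X ^ 0 * xA 0) = z i 0
      rw [ev_add, ev_mul, ev_pow, ev_X, ev_xA, ev_cA]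
      simp
    · change ev _ ((Polynomial.C (z i 1)).eval₂ cA (xA 0) + PowerSeries.X ^ 0 * xA 1) = z i 1
      rw [Polynomial.eval₂_C, ev_add, ev_mul, ev_pow, ev_X, ev_xA, ev_cA]
      simp
  simp only [h1, sub_self]
  exact Nul.zero E

end

/-- an element of the fraction field of the limit ring times a power of `τ` is integral -/
private theorem g_int {κ : Type u} [Field κ] {E : ℕ → ℕ+} (c : KL E κ) {b : ℕ} (hb : 0 < b) :
    ∃ (γ : ℕ → PowerSeries κ) (N : ℕ), algebraMap (Lam E κ) (KL E κ) (lm E γ) =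
      c * algebraMap (Lam E κ) (KL E κ)
        (lm E (fun i => (PowerSeries.X : PowerSeries κ) ^ (b * N * (E i : ℕ)))) := by
  obtain ⟨p, q, hq, rfl⟩ := IsFractionRing.div_surjective (A := Lam E κ) c
  have hq0 : q ≠ 0 := nonZeroDivisors.ne_zero hq
  obtain ⟨a, rfl⟩ := lm_surj q
  obtain ⟨p', rfl⟩ := lm_surj p
  have ha : ¬ Nul E a := fun h => hq0 (lm_eq_zero.2 h)
  obtain ⟨A, v, w, hw⟩ := exists_val ha
  obtain ⟨u, hu⟩ : ∃ u : ℕ → PowerSeries κ,
      lm E (fun i => (PowerSeries.X : PowerSeries κ) ^ (b * A * (E i : ℕ))) =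
        lm E a * lm E u := by
    refine ⟨fun i => PowerSeries.X ^ (b * A * (E i : ℕ) - v i) * (w i)⁻¹, ?_⟩
    rw [← map_mul, lm_eq]
    refine Nul.congr (a := fun _ => 0) ?_ (Nul.zero E)
    filter_upwards [hw] with i hi
    obtain ⟨h1, h2, h3⟩ := hi
    have h4 : w i * (w i)⁻¹ = 1 := by
      refine PowerSeries.mul_inv_cancel _ ?_
      rw [← PowerSeries.coeff_zero_eq_constantCoeff_apply]
      exact h3
    have h5 : v i ≤ b * A * (E i : ℕ) := by
      refine h1.trans ?_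
      rw [mul_assoc]
      exact Nat.le_mul_of_pos_left _ hb
    have h6 : a i * (PowerSeries.X ^ (b * A * (E i : ℕ) - v i) * (w i)⁻¹) =
        PowerSeries.X ^ (b * A * (E i : ℕ)) := by
      rw [h2]
      calc PowerSeries.X ^ v i * w i * (PowerSeries.X ^ (b * A * (E i : ℕ) - v i) * (w i)⁻¹)
          = PowerSeries.X ^ v i * PowerSeries.X ^ (b * A * (E i : ℕ) - v i) *
            (w i * (w i)⁻¹) := by ring
        _ = _ := by rw [h4, mul_one, ← pow_add, Nat.add_sub_cancel' h5]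
    change (0 : PowerSeries κ) = PowerSeries.X ^ (b * A * (E i : ℕ)) -
      a i * (PowerSeries.X ^ (b * A * (E i : ℕ) - v i) * (w i)⁻¹)
    rw [h6, sub_self]
  refine ⟨p' * u, A, ?_⟩
  have hq1 : algebraMap (Lam E κ) (KL E κ) (lm E a) ≠ 0 := by
    rw [Ne, IsFractionRing.to_map_eq_zero_iff]
    exact hq0
  rw [hu, map_mul, map_mul, map_mul]
  field_simp


/-! ### combinatorics -/

private noncomputable def gmk (x : ℕ × ℕ) : Fin 2 →₀ ℕ := Finsupp.single 0 x.1 + Finsupp.single 1 x.2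

private theorem gmk0 (x : ℕ × ℕ) : gmk x 0 = x.1 := by
  simp [gmk]

private theorem gmk1 (x : ℕ × ℕ) : gmk x 1 = x.2 := by
  simp [gmk]

private theorem gmk_eta (e : Fin 2 →₀ ℕ) : gmk (e 0, e 1) = e := by
  ext j
  fin_cases j
  · exact gmk0 _
  · exact gmk1 _

private theorem gmk_inj {x y : ℕ × ℕ} (h : gmk x = gmk y) : x = y := by
  have h0 := DFunLike.congr_fun h 0
  have h1 := DFunLike.congr_fun h 1
  rw [gmk0, gmk0] at h0
  rw [gmk1, gmk1] at h1
  exact Prod.ext h0 h1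

private theorem g_wt (a b : ℕ) (x : ℕ × ℕ) : wt a b (gmk x) = a * x.1 + b * x.2 := by
  unfold wt
  rw [gmk0, gmk1]

/-- sums `∑ lam n_j > 1` are bounded away from `1` -/
private theorem g_eps {r : ℕ} {lam : Fin r → ℝ} (hlam : ∀ j, 0 < lam j) :
    ∃ ε : ℝ, 0 < ε ∧ ∀ n : Fin r → ℕ, 1 < ∑ j, lam j * n j → 1 + ε ≤ ∑ j, lam j * n j := by
  classical
  let T : Set (Fin r → ℕ) := {n | 1 < ∑ j, lam j * n j ∧ ∑ j, lam j * n j ≤ 2}
  have hT : T.Finite := by
    refine Set.Finite.subset (Set.Finite.pi' (t := fun j => Set.Iic ⌊2 / lam j⌋₊)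
      (fun j => Set.finite_Iic _)) fun n hn j => ?_
    have h1 : lam j * n j ≤ 2 := by
      refine le_trans ?_ hn.2
      exact Finset.single_le_sum (f := fun j => lam j * (n j : ℝ))
        (fun j _ => mul_nonneg (hlam j).le (Nat.cast_nonneg _)) (Finset.mem_univ j)
    have h2 : (n j : ℝ) ≤ 2 / lam j := by
      rw [le_div_iff₀ (hlam j)]
      linarith
    exact Nat.le_floor h2
  rcases T.eq_empty_or_nonempty with h0 | h0
  · refine ⟨1, one_pos, fun n hn => ?_⟩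
    by_contra hcon
    have : n ∈ T := ⟨hn, by linarith⟩
    rw [h0] at this
    exact this
  · obtain ⟨m, hm, hmin⟩ := Set.exists_min_image T (fun n => ∑ j, lam j * (n j : ℝ)) hT h0
    have hm1 : 1 < ∑ j, lam j * (m j : ℝ) := hm.1
    have hm2 : ∑ j, lam j * (m j : ℝ) ≤ 2 := hm.2
    refine ⟨∑ j, lam j * (m j : ℝ) - 1, by linarith, fun n hn => ?_⟩
    by_cases hn2 : ∑ j, lam j * (n j : ℝ) ≤ 2
    · have := hmin n ⟨hn, hn2⟩
      linarith
    · linarith

/-- the data of an edge of the Newton polygons -/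
private structure Ed {κ : Type u} [Field κ] {r : ℕ} {J : Type} (E : ℕ → ℕ+) (lam : Fin r → ℝ)
    (grp : J → Fin r) (g : ℕ → J → AA κ) (a b : ℕ) (t : ℝ) (d : Fin r → ℕ)
    (vL vR : Fin r → Fin 2 →₀ ℕ) : Prop where
  ha : 0 < a
  hb : 0 < b
  cop : Nat.Coprime a b
  t0 : 0 < t
  t1 : t ≤ 1
  sum : ∑ j, lam j * d j = (a + b) * t
  low : ∀ h e, ¬ Nul E (fun i => mc (g i h) e) → d (grp h) ≤ wt a b e
  vL0 : ∀ j, ∃ h, grp h = j ∧ ¬ Nul E (fun i => mc (g i h) (vL j))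
  vL1 : ∀ j, wt a b (vL j) = d j
  vL2 : ∑ j, lam j * (vL j) 0 < t
  vR0 : ∀ j, ∃ h, grp h = j ∧ ¬ Nul E (fun i => mc (g i h) (vR j))
  vR1 : ∀ j, wt a b (vR j) = d j
  vR2 : ∑ j, lam j * (vR j) 1 < t

/-- the invariant of the loop -/
private structure Inv {κ : Type u} [Field κ] {r : ℕ} {J : Type} (E : ℕ → ℕ+) (lam : Fin r → ℝ)
    (grp : J → Fin r) (g : ℕ → J → AA κ) (b : ℕ) (d B : Fin r → ℕ) : Prop where
  hb : 0 < b
  low : ∀ h e, ¬ Nul E (fun i => mc (g i h) e) → d (grp h) ≤ wt 1 b e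
  lowB : ∀ h e, ¬ Nul E (fun i => mc (g i h) e) → wt 1 b e = d (grp h) → B (grp h) ≤ e 1
  vx : ∀ j, ∃ h, grp h = j ∧ ∃ e, ¬ Nul E (fun i => mc (g i h) e) ∧ e 1 = B j ∧ wt 1 b e = d j
  le : ∑ j, lam j * ((d j : ℝ) - b * B j) ≤ 1

/-- the alternatives of `polygon` -/
private theorem g_poly {κ : Type u} [Field κ] {r : ℕ} {J : Type} [Fintype J] {E : ℕ → ℕ+}
    {lam : Fin r → ℝ} (hlam : ∀ j, 0 < lam j) {grp : J → Fin r} {g : ℕ → J → AA κ}
    (tm : ∀ h, Tame E (fun i => g i h)) (hL : LowB E lam grp g) :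
    (∃ (w₀ w₁ : ℕ) (v : Fin r → Fin 2 →₀ ℕ), 0 < w₀ ∧ 0 < w₁ ∧
      (∀ j, ∃ h, grp h = j ∧ ¬ Nul E (fun i => mc (g i h) (v j))) ∧
      (∀ h e, ¬ Nul E (fun i => mc (g i h) e) → e ≠ v (grp h) →
        wt w₀ w₁ (v (grp h)) < wt w₀ w₁ e) ∧
      ∑ j, lam j * (v j) 0 ≤ 1 ∧ ∑ j, lam j * (v j) 1 ≤ 1) ∨
    ∃ (a b : ℕ) (t : ℝ) (d : Fin r → ℕ) (vL vR : Fin r → Fin 2 →₀ ℕ),
      Ed E lam grp g a b t d vL vR ∧ 1 < ∑ j, lam j * (vL j) 1 ∧
        1 < ∑ j, lam j * (vR j) 0 := by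
  let S : Fin r → Set (ℕ × ℕ) :=
    fun j => {x | ∃ h, grp h = j ∧ ¬ Nul E (fun i => mc (g i h) (gmk x))}
  have hS : ∀ j, (S j).Nonempty := by
    intro j
    obtain ⟨h, hj, hh⟩ := lowB_ne hlam hL j
    obtain ⟨e, he⟩ := exists_mc_ne (tm h) hh
    exact ⟨(e 0, e 1), h, hj, by rw [gmk_eta]; exact he⟩
  have hmem : ∀ h e, ¬ Nul E (fun i => mc (g i h) e) → (e 0, e 1) ∈ S (grp h) := fun h e he =>
    ⟨h, rfl, by rw [gmk_eta]; exact he⟩
  rcases polygon hlam S hS (fun w₀ w₁ _ _ φ hφ => newt_le tm hL w₀ w₁ φ fun h e he =>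
      hφ (grp h) _ (hmem h e he)) with
    ⟨w₀, w₁, v, h0, h1, hv, hu, hs0, hs1⟩ | ⟨a, b, t, d, vL, vR, ha, hb, hc, ht0, ht1, hs, hd,
      hvL, hvR, h1, h2, h3, h4⟩
  · left
    refine ⟨w₀, w₁, fun j => gmk (v j), h0, h1, fun j => hv j, ?_, ?_, ?_⟩
    · intro h e he hne
      rw [g_wt]
      refine hu (grp h) (e 0, e 1) (hmem h e he) fun h5 => hne ?_
      show e = gmk (v (grp h))
      rw [← h5, gmk_eta]
    · simp only [gmk0]
      exact hs0
    · simp only [gmk1]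
      exact hs1
  · right
    refine ⟨a, b, t, d, fun j => gmk (vL j), fun j => gmk (vR j), ⟨ha, hb, hc, ht0, ht1, hs,
      fun h e he => hd (grp h) _ (hmem h e he), fun j => (hvL j).1, fun j => ?_, ?_,
      fun j => (hvR j).1, fun j => ?_, ?_⟩, ?_, ?_⟩
    · rw [g_wt]
      exact (hvL j).2.1
    · simp only [gmk0]
      exact h1
    · rw [g_wt]
      exact (hvR j).2.1
    · simp only [gmk1]
      exact h2
    · simp only [gmk1]
      exact h3
    · simp only [gmk0]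
      exact h4

/-- the face functions of an edge -/
private theorem g_face {κ : Type u} [Field κ] {J : Type} {r : ℕ} {E : ℕ → ℕ+} {grp : J → Fin r}
    {a b : ℕ} (ha : 0 < a) (hb : 0 < b) (d : Fin r → ℕ) (g : ℕ → J → AA κ) :
    ∃ F : J → MvPolynomial (Fin 2) (Lam E κ), ∀ h m, coeff m (F h) =
      if wt a b m = d (grp h) then lm E (fun i => mc (g i h) m) else 0 := by
  have key : ∀ h, ∃ F : MvPolynomial (Fin 2) (Lam E κ), ∀ m, coeff m F =
      if wt a b m = d (grp h) then lm E (fun i => mc (g i h) m) else 0 := fun h =>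
    (exists_top_lim (c := fun i => g i h) ha hb (d (grp h))).imp fun F hF => hF.2
  choose F hF using key
  exact ⟨F, hF⟩

private theorem g_coeff {κ : Type u} [Field κ] {E : ℕ → ℕ+}
    (F : MvPolynomial (Fin 2) (Lam E κ)) (e : Fin 2 →₀ ℕ) :
    coeff e (toKL F) = 0 ↔ coeff e F = 0 := by
  unfold toKL
  rw [coeff_map]
  exact map_eq_zero_iff _ (IsFractionRing.injective _ _)

/-- a monomial with a small exponent forbids divisibility -/
private theorem g_ndvd {K : Type u} [Field K] {F : MvPolynomial (Fin 2) K} {e : Fin 2 →₀ ℕ}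
    (he : coeff e F ≠ 0) (j : Fin 2) : ¬ (X j : MvPolynomial (Fin 2) K) ^ (e j + 1) ∣ F := by
  rintro ⟨G, rfl⟩
  apply he
  rw [X_pow_eq_monomial, coeff_monomial_mul', if_neg]
  rw [Finsupp.single_le_iff]
  omega


/-- the face functions of an edge form a state, or one factor has a large mass -/
private theorem g_edge {κ : Type u} [Field κ] {r : ℕ} {J : Type} [Fintype J] {E : ℕ → ℕ+}
    {lam : Fin r → ℝ} (hlam : ∀ j, 0 < lam j) {grp : J → Fin r} {g : ℕ → J → AA κ}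
    (tm : ∀ h, Tame E (fun i => g i h)) {a b : ℕ} {t : ℝ} {d : Fin r → ℕ}
    {vL vR : Fin r → Fin 2 →₀ ℕ} (T : Ed E lam grp g a b t d vL vR) (hab : a ≤ b)
    {F : J → MvPolynomial (Fin 2) (Lam E κ)}
    (hF : ∀ h m, coeff m (F h) =
      if wt a b m = d (grp h) then lm E (fun i => mc (g i h) m) else 0) :
    Stt a b (fun j => t⁻¹ * lam j) grp d (fun h => toKL (F h)) ∨
    (a = 1 ∧ ∃ (γ : ℕ → PowerSeries κ) (N : ℕ) (B : Fin r → ℕ),
      Inv E lam grp (fun i h => ev (chA 0 (Polynomial.monomial b (γ i)) (N * (E i : ℕ))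
        (N * (E i : ℕ))) (g i h)) b d B) := by
  have hK : ∀ h e, coeff e (toKL (F h)) ≠ 0 ↔
      (wt a b e = d (grp h) ∧ ¬ Nul E (fun i => mc (g i h) e)) := by
    intro h e
    rw [Ne, g_coeff, hF]
    split_ifs with h1
    · simp [h1, lm_eq_zero]
    · simp [h1]
  have hom : ∀ h e, coeff e (toKL (F h)) ≠ 0 → wt a b e = d (grp h) := fun h e he =>
    ((hK h e).1 he).1
  have hL : ∀ j, ∃ h, grp h = j ∧ coeff (vL j) (toKL (F h)) ≠ 0 := by
    intro j
    obtain ⟨h, hj, hh⟩ := T.vL0 j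
    exact ⟨h, hj, (hK _ _).2 ⟨by rw [T.vL1 j, hj], hh⟩⟩
  have hR : ∀ j, ∃ h, grp h = j ∧ coeff (vR j) (toKL (F h)) ≠ 0 := by
    intro j
    obtain ⟨h, hj, hh⟩ := T.vR0 j
    exact ⟨h, hj, (hK _ _).2 ⟨by rw [T.vR1 j, hj], hh⟩⟩
  have ne : ∀ j, ∃ h, grp h = j ∧ toKL (F h) ≠ 0 := by
    intro j
    obtain ⟨h, hj, hh⟩ := hL j
    exact ⟨h, hj, fun h0 => hh (by rw [h0, coeff_zero])⟩
  have mx : MLt lam grp (fun h => toKL (F h)) (X 0) t := by
    refine ⟨fun j => vL j 0, fun j => ?_, T.vL2⟩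
    obtain ⟨h, hj, hh⟩ := hL j
    exact ⟨h, hj, g_ndvd hh 0⟩
  have my : MLt lam grp (fun h => toKL (F h)) (X 1) t := by
    refine ⟨fun j => vR j 1, fun j => ?_, T.vR2⟩
    obtain ⟨h, hj, hh⟩ := hR j
    exact ⟨h, hj, g_ndvd hh 1⟩
  have hti : 0 < t⁻¹ := inv_pos.2 T.t0
  have hscale : ∀ B : Fin r → ℕ, ∑ j, t⁻¹ * lam j * (B j : ℝ) = t⁻¹ * ∑ j, lam j * (B j : ℝ) := by
    intro B
    rw [Finset.mul_sum]
    exact Finset.sum_congr rfl fun j _ => by ring
  have hlt : ∀ p, MLt lam grp (fun h => toKL (F h)) p t →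
      MLt (fun j => t⁻¹ * lam j) grp (fun h => toKL (F h)) p 1 := by
    rintro p ⟨B, hB, hB1⟩
    refine ⟨B, hB, ?_⟩
    rw [hscale]
    have := mul_lt_mul_of_pos_left hB1 hti
    rwa [inv_mul_cancel₀ T.t0.ne'] at this
  have hle : ∀ p, MLe lam grp (fun h => toKL (F h)) p t →
      MLe (fun j => t⁻¹ * lam j) grp (fun h => toKL (F h)) p 1 := by
    rintro p ⟨B, hB, hB1⟩
    refine ⟨B, hB, ?_⟩
    rw [hscale]
    have := mul_le_mul_of_nonneg_left hB1 hti.le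
    rwa [inv_mul_cancel₀ T.t0.ne'] at this
  rcases mass_alt T.ha hab T.cop hlam hom ne T.t0 T.sum mx my with ⟨h1, h2⟩ | ⟨rfl, c, B, hc,
    hB1, hB2, hB3⟩
  · left
    exact
      { ha := T.ha
        hab := hab
        cop := T.cop
        hmu := fun j => mul_pos hti (hlam j)
        hom := hom
        ne := ne
        sum := by
          rw [hscale, T.sum, mul_comm ((a : ℝ) + b) t, ← mul_assoc, inv_mul_cancel₀ T.t0.ne',
            one_mul]
        mx := hlt _ mx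
        my := hlt _ my
        wk := fun p hp => hle p (h1 p hp)
        st := h2.imp id fun h p hp => hlt p (h p hp) }
  · right
    refine ⟨rfl, ?_⟩
    obtain ⟨γ, N, hγ⟩ := g_int c T.hb
    obtain ⟨s1, s2, s3⟩ := shift_face T.hb tm T.low hF c γ N hγ hB1 hB2
    refine ⟨γ, N, B, ⟨T.hb, s1, s2, s3, ?_⟩⟩
    have h3 : ∑ j, lam j * ((d j : ℝ) - b * B j) =
        ∑ j, lam j * (d j : ℝ) - b * ∑ j, lam j * (B j : ℝ) := by
      rw [Finset.mul_sum, ← Finset.sum_sub_distrib]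
      exact Finset.sum_congr rfl fun j _ => by ring
    rw [h3, T.sum]
    have hb1 : (1 : ℝ) ≤ b := by exact_mod_cast T.hb
    have ht1 := T.t1
    push_cast
    nlinarith

/-- in the loop the slope increases -/
private theorem g_slope {κ : Type u} [Field κ] {r : ℕ} {J : Type} {E : ℕ → ℕ+} {lam : Fin r → ℝ}
    (hlam : ∀ j, 0 < lam j) {grp : J → Fin r} {g : ℕ → J → AA κ} {a b : ℕ} {t : ℝ} {d : Fin r → ℕ}
    {vL vR : Fin r → Fin 2 →₀ ℕ} (T : Ed E lam grp g a b t d vL vR)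
    (hR : 1 < ∑ j, lam j * (vR j) 0) {b₀ : ℕ} {d₀ B₀ : Fin r → ℕ}
    (I : Inv E lam grp g b₀ d₀ B₀) : b₀ * a < b := by
  by_contra hcon
  push Not at hcon
  have key : ∀ j, ((vR j 0 : ℕ) : ℝ) ≤ (d₀ j : ℝ) - b₀ * B₀ j := by
    intro j
    obtain ⟨h, hj, e, he, he1, hew⟩ := I.vx j
    obtain ⟨h', hj', hh'⟩ := T.vR0 j
    have h1 := T.low h e he
    have h2 := T.vR1 j
    have h3 := I.low h' _ hh'
    have h4 := I.lowB h' _ hh'
    rw [hj] at h1
    rw [hj'] at h3 h4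
    unfold wt at h1 h2 h3 h4 hew
    have h5 : (vR j) 0 ≤ e 0 := by
      by_contra h6
      push Not at h6
      rw [he1] at h1 hew
      have hb := T.hb
      have ha := T.ha
      -- the second coordinate of `vR j` is smaller
      have h7 : (vR j) 1 < B₀ j := by
        by_contra h8
        push Not at h8
        have h9 : b * B₀ j ≤ b * (vR j) 1 := Nat.mul_le_mul_left _ h8
        have h10 : a * (e 0) < a * (vR j) 0 := Nat.mul_lt_mul_of_pos_left h6 ha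
        omega
      have h8 : 1 * (vR j) 0 + b₀ * (vR j) 1 ≠ d₀ j := fun h9 => by
        have := h4 h9
        omega
      have h9 : d₀ j + 1 ≤ 1 * (vR j) 0 + b₀ * (vR j) 1 := by omega
      -- `a * (vR 0 - e 0) ≤ b (B₀ - vR 1) ≤ b₀ a (B₀ - vR 1)`
      obtain ⟨x, hx⟩ := Nat.exists_eq_add_of_lt h6
      obtain ⟨y, hy⟩ := Nat.exists_eq_add_of_lt h7
      rw [hx] at h2 h9
      rw [hy] at h1 hew
      have h10 : a * (x + 1) ≤ b * (y + 1) := by nlinarith
      have h11 : b₀ * (y + 1) < x + 1 := by nlinarith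
      have h12 : b * (y + 1) ≤ (b₀ * a) * (y + 1) := Nat.mul_le_mul_right _ hcon
      have h13 : a * (b₀ * (y + 1)) < a * (x + 1) := Nat.mul_lt_mul_of_pos_left h11 ha
      nlinarith
    have h6 : ((vR j 0 : ℕ) : ℝ) ≤ (e 0 : ℝ) := by exact_mod_cast h5
    have h7 : ((1 * e 0 + b₀ * e 1 : ℕ) : ℝ) = (d₀ j : ℝ) := by rw [hew]
    rw [he1] at h7
    push_cast at h7
    linarith
  have h1 : ∑ j, lam j * ((vR j 0 : ℕ) : ℝ) ≤ ∑ j, lam j * ((d₀ j : ℝ) - b₀ * B₀ j) :=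
    Finset.sum_le_sum fun j _ => mul_le_mul_of_nonneg_left (key j) (hlam j).le
  linarith [I.le]

/-- the measure decreases -/
private theorem g_drop {κ : Type u} [Field κ] {r : ℕ} {J : Type} {E : ℕ → ℕ+} {lam : Fin r → ℝ}
    (hlam : ∀ j, 0 < lam j) {grp : J → Fin r} {g : ℕ → J → AA κ} {b : ℕ} {t : ℝ} {d : Fin r → ℕ}
    {vL vR : Fin r → Fin 2 →₀ ℕ} (T : Ed E lam grp g 1 b t d vL vR) {ε : ℝ}
    (hε : 0 < ε) (hL : 1 + ε ≤ ∑ j, lam j * (vL j) 1) {b₀ : ℕ} {d₀ B₀ : Fin r → ℕ}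
    (I : Inv E lam grp g b₀ d₀ B₀) (hb : b₀ < b) :
    (1 + (b : ℝ)) - ∑ j, lam j * (d j : ℝ) ≤ (1 + (b₀ : ℝ)) - ∑ j, lam j * (d₀ j : ℝ) - ε := by
  have key : ∀ j, ((b : ℝ) - b₀) * ((vL j 1 : ℕ) : ℝ) ≤ (d j : ℝ) - d₀ j := by
    intro j
    obtain ⟨h, hj, hh⟩ := T.vL0 j
    have h1 := T.vL1 j
    have h2 := I.low h _ hh
    rw [hj] at h2
    unfold wt at h1 h2
    have h3 : ((1 * (vL j) 0 + b * (vL j) 1 : ℕ) : ℝ) = (d j : ℝ) := by rw [h1]
    have h4 : (d₀ j : ℝ) ≤ ((1 * (vL j) 0 + b₀ * (vL j) 1 : ℕ) : ℝ) := by exact_mod_cast h2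
    push_cast at h3 h4
    linarith
  have h1 : ((b : ℝ) - b₀) * ∑ j, lam j * ((vL j 1 : ℕ) : ℝ) ≤
      ∑ j, lam j * (d j : ℝ) - ∑ j, lam j * (d₀ j : ℝ) := by
    rw [Finset.mul_sum, ← Finset.sum_sub_distrib]
    refine Finset.sum_le_sum fun j _ => ?_
    have := mul_le_mul_of_nonneg_left (key j) (hlam j).le
    linarith
  have h2 : (1 : ℝ) ≤ (b : ℝ) - b₀ := by
    have : (b₀ : ℝ) + 1 ≤ b := by exact_mod_cast hb
    linarith
  nlinarith

/-- exchange of the coordinates -/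
private theorem g_swap {κ : Type u} [Field κ] {r : ℕ} {J : Type} {E : ℕ → ℕ+} {lam : Fin r → ℝ}
    {grp : J → Fin r} {g : ℕ → J → AA κ} {a b : ℕ} {t : ℝ} {d : Fin r → ℕ}
    {vL vR : Fin r → Fin 2 →₀ ℕ} (T : Ed E lam grp g a b t d vL vR) :
    ∃ vL' vR', Ed E lam grp (fun i h => ev (swA κ) (g i h)) b a t d vL' vR' := by
  have hsw : ∀ e : Fin 2 →₀ ℕ, Finsupp.single 0 (gmk (e 1, e 0) 1) +
      Finsupp.single 1 (gmk (e 1, e 0) 0) = e := by
    intro e
    rw [gmk0, gmk1]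
    exact gmk_eta e
  refine ⟨fun j => gmk (vR j 1, vR j 0), fun j => gmk (vL j 1, vL j 0), T.hb, T.ha, T.cop.symm,
    T.t0, T.t1, ?_, ?_, ?_, ?_, ?_, ?_, ?_, ?_⟩
  · rw [T.sum]
    ring
  · intro h e he
    simp only [mc_swap] at he
    have h1 := T.low h _ he
    have h2 : wt a b (gmk (e 1, e 0)) = wt b a e := by
      rw [g_wt]
      unfold wt
      ring
    change d (grp h) ≤ wt a b (gmk (e 1, e 0)) at h1
    rw [h2] at h1
    exact h1
  · intro j
    obtain ⟨h, hj, hh⟩ := T.vR0 j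
    refine ⟨h, hj, ?_⟩
    simp only [mc_swap, hsw]
    exact hh
  · intro j
    rw [g_wt, ← T.vR1 j]
    unfold wt
    ring
  · simp only [gmk0]
    exact T.vR2
  · intro j
    obtain ⟨h, hj, hh⟩ := T.vL0 j
    refine ⟨h, hj, ?_⟩
    simp only [mc_swap, hsw]
    exact hh
  · intro j
    rw [g_wt, ← T.vL1 j]
    unfold wt
    ring
  · simp only [gmk1]
    exact T.vL2

theorem block_G {E : ℕ → ℕ+} {k : Type u} [Field k] [IsAlgClosed k] [CharZero k] {r : ℕ}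
    {J : Type} [Fintype J] {lam : Fin r → ℝ} (hlam : ∀ j, 0 < lam j) {grp : J → Fin r}
    {c : ℕ → J → AA k} (tm : ∀ h, Tame E (fun i => c i h)) (hL : LowB E lam grp c)
    {P : ℕ → Fin 2 → PowerSeries (Om k)} {C : ℕ → ℕ} {n : ℕ → Fin r → ℕ}
    (hA : Adm grp c P C n) (z : ℕ → Fin 2 → PowerSeries k) (hP : Near E P z) :
    Dom E lam grp c C n ∨ ∃ (a b : ℕ) (l : ℝ) (d : Fin r → ℕ) (χ : ℕ → Fin 2 → AA k) (N : ℕ)
      (F : J → MvPolynomial (Fin 2) (Lam E k)) (c' : ℕ → J → AA k)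
      (P' : ℕ → Fin 2 → PowerSeries (Om k)) (C' : ℕ → ℕ) (n' : ℕ → Fin r → ℕ),
      1 ≤ l ∧ Stt a b (fun j => l * lam j) grp d (fun h => toKL (F h)) ∧ IsChS E χ N ∧
      (∀ j, Nul E (fun i => mc (χ i j) 0 - z i j)) ∧
      (∀ h m, ¬ Nul E (fun i => mc (ev (χ i) (c i h)) m) → d (grp h) ≤ wt a b m) ∧
      (∀ h, IsLim E (fun i => c' i h) (F h)) ∧ Adm grp c' P' C' n' ∧
      (Dom E (fun j => l * lam j) grp c' C' n' → Dom E lam grp c C n) := by
  classical
  by_contra hgoal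
  -- transfer to a chart
  have stage : ∀ (χ : ℕ → Fin 2 → AA k) (N : ℕ), IsChS E χ N →
      (∀ j, Nul E (fun i => mc (χ i j) 0 - z i j)) →
      ∃ (P₁ : ℕ → Fin 2 → PowerSeries (Om k)) (C₁ : ℕ → ℕ),
        Adm grp (fun i h => ev (χ i) (c i h)) P₁ C₁ n ∧ (∀ j, Nul E (fun i => P₁ i j)) ∧
        (Dom E lam grp (fun i h => ev (χ i) (c i h)) C₁ n → Dom E lam grp c C n) := by
    intro χ N hχ hz
    obtain ⟨P', h1, h2⟩ := isChS_lift hχ P (fun _ => 0) (by
      intro j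
      have h3 := (hP j).sub ((hz j).map (algebraMap k (Om k)))
      refine Nul.congr (Filter.Eventually.of_forall fun i => ?_) h3
      change _ = P i j - PowerSeries.map (algebraMap k (Om k))
        (ev (0 : Fin 2 → PowerSeries k) (χ i j))
      rw [g_ev0, map_sub]
      ring)
    obtain ⟨h5, h6⟩ := adm_isChS hA hχ h2
    refine ⟨P', fun i => C i - N * (E i : ℕ), h6, fun j => ?_, fun h => dom_isChS hχ h5 h⟩
    have h7 := h1 j
    refine Nul.congr (Filter.Eventually.of_forall fun i => ?_) h7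
    change P' i j - PowerSeries.map (algebraMap k (Om k)) 0 = P' i j
    rw [map_zero, sub_zero]
  have htm : ∀ (χ : ℕ → Fin 2 → AA k) (N : ℕ), IsChS E χ N → ∀ h,
      Tame E (fun i => ev (χ i) (c i h)) := fun χ N hχ h =>
    Tame.ev (tm h) fun j => Tame.isChS hχ j
  -- there is always an edge
  have hedge : ∀ (χ : ℕ → Fin 2 → AA k) (N : ℕ), IsChS E χ N →
      (∀ j, Nul E (fun i => mc (χ i j) 0 - z i j)) →
      ∃ (a b : ℕ) (t : ℝ) (d : Fin r → ℕ) (vL vR : Fin r → Fin 2 →₀ ℕ),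
        Ed E lam grp (fun i h => ev (χ i) (c i h)) a b t d vL vR ∧
        1 < ∑ j, lam j * (vL j) 1 ∧ 1 < ∑ j, lam j * (vR j) 0 := by
    intro χ N hχ hz
    rcases g_poly hlam (htm χ N hχ) (lowB_isChS hL hχ) with
      ⟨w₀, w₁, v, h0, h1, hv, hu, hs0, hs1⟩ | h
    · exfalso
      obtain ⟨P₁, C₁, h3, h4, h5⟩ := stage χ N hχ hz
      exact hgoal (Or.inl (h5 (mono_dom hlam (htm χ N hχ) h3 h4 h0 h1 v hv hu hs0 hs1)))
    · exact h
  -- an edge with `a ≤ b` leads to a new chart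
  have hnew : ∀ (χ : ℕ → Fin 2 → AA k) (N : ℕ), IsChS E χ N →
      (∀ j, Nul E (fun i => mc (χ i j) 0 - z i j)) →
      ∀ (a b : ℕ) (t : ℝ) (d : Fin r → ℕ) (vL vR : Fin r → Fin 2 →₀ ℕ),
        Ed E lam grp (fun i h => ev (χ i) (c i h)) a b t d vL vR → a ≤ b →
        a = 1 ∧ ∃ (χ' : ℕ → Fin 2 → AA k) (N' : ℕ) (B : Fin r → ℕ), IsChS E χ' N' ∧
          (∀ j, Nul E (fun i => mc (χ' i j) 0 - z i j)) ∧
          Inv E lam grp (fun i h => ev (χ' i) (c i h)) b d B := by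
    intro χ N hχ hz a b t d vL vR T hab
    obtain ⟨F, hF⟩ := g_face (E := E) T.ha T.hb d (grp := grp) (fun i h => ev (χ i) (c i h))
    rcases g_edge hlam (htm χ N hχ) T hab hF with hS | ⟨h1, γ, M, B, hI⟩
    · exfalso
      obtain ⟨P₁, C₁, h3, h4, h5⟩ := stage χ N hχ hz
      have ht : 1 ≤ t⁻¹ := (one_le_inv₀ T.t0).2 T.t1
      obtain ⟨c', P', C', n', h6, h7, h8⟩ := slow hlam (htm χ N hχ) h3 h4 T.ha T.hb T.low hF ht
        (by
          rw [T.sum, mul_comm ((a : ℝ) + b) t, ← mul_assoc, inv_mul_cancel₀ T.t0.ne', one_mul])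
      exact hgoal (Or.inr ⟨a, b, t⁻¹, d, χ, N, F, c', P', C', n', ht, hS, hχ, hz, T.low, h6, h7,
        fun h => h5 (h8 h)⟩)
    · refine ⟨h1, fun i j => ev (chA 0 (Polynomial.monomial b (γ i)) (M * (E i : ℕ))
        (M * (E i : ℕ))) (χ i j), N + (M + M), B,
        isChS_comp hχ (g_chM b M γ), fun j => g_cenComp hz (fun i j => g_chM0 T.hb _ (γ i) j) j,
        ?_⟩
      have h2 : (fun i h => ev (fun j => ev (chA 0 (Polynomial.monomial b (γ i))
          (M * (E i : ℕ)) (M * (E i : ℕ))) (χ i j)) (c i h)) =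
          fun i h => ev (chA 0 (Polynomial.monomial b (γ i)) (M * (E i : ℕ)) (M * (E i : ℕ)))
            (ev (χ i) (c i h)) :=
        funext fun i => funext fun h => (ev_ev _ _ _).symm
      rw [h2]
      exact hI
  obtain ⟨ε, hε, hε1⟩ := g_eps hlam
  -- the loop
  have loop : ∀ (m : ℕ) (χ : ℕ → Fin 2 → AA k) (N : ℕ), IsChS E χ N →
      (∀ j, Nul E (fun i => mc (χ i j) 0 - z i j)) → ∀ (b₀ : ℕ) (d₀ B₀ : Fin r → ℕ),
      Inv E lam grp (fun i h => ev (χ i) (c i h)) b₀ d₀ B₀ →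
      (1 + (b₀ : ℝ)) - ∑ j, lam j * (d₀ j : ℝ) ≤ m * ε → False := by
    intro m
    induction m with
    | zero =>
      intro χ N hχ hz b₀ d₀ B₀ I hm
      obtain ⟨a, b, t, d, vL, vR, T, hvL, hvR⟩ := hedge χ N hχ hz
      have hs := g_slope hlam T hvR I
      have hab : a ≤ b := le_of_lt (lt_of_le_of_lt (Nat.le_mul_of_pos_left _ I.hb) hs)
      obtain ⟨rfl, χ', N', B, hχ', hz', I'⟩ := hnew χ N hχ hz a b t d vL vR T hab
      rw [mul_one] at hs
      have hd := g_drop hlam T hε (hε1 _ hvL) I hs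
      rw [T.sum] at hd
      have h1 := T.t1
      have h2 : (0 : ℝ) ≤ b := Nat.cast_nonneg _
      push_cast at hm hd
      nlinarith
    | succ m ih =>
      intro χ N hχ hz b₀ d₀ B₀ I hm
      obtain ⟨a, b, t, d, vL, vR, T, hvL, hvR⟩ := hedge χ N hχ hz
      have hs := g_slope hlam T hvR I
      have hab : a ≤ b := le_of_lt (lt_of_le_of_lt (Nat.le_mul_of_pos_left _ I.hb) hs)
      obtain ⟨rfl, χ', N', B, hχ', hz', I'⟩ := hnew χ N hχ hz a b t d vL vR T hab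
      rw [mul_one] at hs
      have hd := g_drop hlam T hε (hε1 _ hvL) I hs
      refine ih χ' N' hχ' hz' b d B I' ?_
      push_cast at hm
      linarith
  -- the first step
  obtain ⟨χ₀, N₀, hχ₀, hz₀⟩ := g_trans (E := E) z
  obtain ⟨a, b, t, d, vL, vR, T, hvL, hvR⟩ := hedge χ₀ N₀ hχ₀ hz₀
  have fin : ∀ (χ : ℕ → Fin 2 → AA k) (N : ℕ), IsChS E χ N →
      (∀ j, Nul E (fun i => mc (χ i j) 0 - z i j)) →
      ∀ (a b : ℕ) (t : ℝ) (d : Fin r → ℕ) (vL vR : Fin r → Fin 2 →₀ ℕ),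
        Ed E lam grp (fun i h => ev (χ i) (c i h)) a b t d vL vR → a ≤ b → False := by
    intro χ N hχ hz a b t d vL vR T hab
    obtain ⟨_, χ', N', B, hχ', hz', I'⟩ := hnew χ N hχ hz a b t d vL vR T hab
    obtain ⟨m, hm⟩ := exists_nat_ge (((1 + (b : ℝ)) - ∑ j, lam j * (d j : ℝ)) / ε)
    exact loop m χ' N' hχ' hz' b d B I' (by rwa [div_le_iff₀ hε] at hm)
  rcases le_total a b with hab | hab
  · exact fin χ₀ N₀ hχ₀ hz₀ a b t d vL vR T hab
  · obtain ⟨vL', vR', T'⟩ := g_swap T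
    have h2 : (fun i h => ev (fun j => ev (swA k) (χ₀ i j)) (c i h)) =
        fun i h => ev (swA k) (ev (χ₀ i) (c i h)) :=
      funext fun i => funext fun h => (ev_ev _ _ _).symm
    exact fin (fun i j => ev (swA k) (χ₀ i j)) N₀ hχ₀.swap
      (fun j => g_cenComp (ψ := fun _ => swA k) hz₀ (fun _ j => g_sw0 j) j)
      b a t d vL' vR' (by rw [h2]; exact T') hab

end M4
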