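import Pool.Agent.M4.Defs

/-!
PIECE M4-A01: null sequences.

PROOF. Everything is immediate from the definitions: `Nul` is a statement `∀ M, ∀ᶠ i in Uf, X^(M * E i) ∣ a i`, finite
intersections of eventual properties.  `nul_map_iff`: divisibility by a power of `X` is the vanishing of coefficients
(`PowerSeries.X_pow_dvd_iff`) and `φ` is injective.  `nul_mc`: `X_pow_dvd_iff_mc` (`M3.Mc`).
`tame_uniform`: for given `M` let `D` be the degree of `Tame E c M`; there are finitely many `m` with `m 0 + m 1 ≤ D`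
(`Filter.eventually_all_finite`), for each of them the statement is `Nul` for this `m` (at the level `M`).
`nul_iff_mc`: `tame_uniform` and `X_pow_dvd_iff_mc`.
`Nul.ev`: `ev_dvd`.  `nul_ev_sub`: `ev_congr`.
`exists_val`: `not_nul` gives `A`; for almost all `i` the order of `a i` is less than `A * E i`; `v i := (a i).order.toNat`,
`a i = X^(v i) * w i` (`PowerSeries.divXPowOrder` or `X_pow_order_dvd`).
`Nul.div`: `X^(M * E i) ∣ a i` for `M + A` instead of `M`, cancel `X^(v i)`, `v i ≤ A * E i`.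
-/

open MvPolynomial

namespace M4

open M3

universe u

section
variable {R : Type*} [CommRing R] {E : ℕ → ℕ+}

theorem Nul.congr {a b : ℕ → PowerSeries R} (h : ∀ᶠ i in Uf, a i = b i) (ha : Nul E a) :
    Nul E b := fun M => by
  filter_upwards [h, ha M] with i h1 h2
  rwa [← h1]

theorem Nul.sum {ι : Type*} (s : Finset ι) {a : ι → ℕ → PowerSeries R}
    (h : ∀ j ∈ s, Nul E (a j)) : Nul E (fun i => ∑ j ∈ s, a j i) := fun M => by
  have h1 : ∀ᶠ i in Uf, ∀ j ∈ s, (PowerSeries.X : PowerSeries R) ^ (M * (E i : ℕ)) ∣ a j i :=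
    (Filter.eventually_all_finset s).2 fun j hj => h j hj M
  filter_upwards [h1] with i hi using Finset.dvd_sum hi

theorem Nul.map {S : Type*} [CommRing S] (φ : R →+* S) {a : ℕ → PowerSeries R} (ha : Nul E a) :
    Nul E (fun i => PowerSeries.map φ (a i)) := fun M => by
  filter_upwards [ha M] with i hi
  have h1 := map_dvd (PowerSeries.map φ) hi
  rwa [map_pow, PowerSeries.map_X] at h1

theorem nul_map_iff {k L : Type*} [Field k] [Field L] (φ : k →+* L) {a : ℕ → PowerSeries k} :
    Nul E (fun i => PowerSeries.map φ (a i)) ↔ Nul E a := by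
  refine ⟨fun h M => ?_, fun h => h.map φ⟩
  filter_upwards [h M] with i hi
  rw [PowerSeries.X_pow_dvd_iff] at hi ⊢
  intro m hm
  have h1 := hi m hm
  rwa [PowerSeries.coeff_map, map_eq_zero] at h1

/-- division by a power of bounded order -/
theorem Nul.div {L : Type*} [Field L] {a b : ℕ → PowerSeries L} (A : ℕ) (v : ℕ → ℕ)
    (hv : ∀ᶠ i in Uf, v i ≤ A * (E i : ℕ)) (h : ∀ᶠ i in Uf, a i = PowerSeries.X ^ v i * b i)
    (ha : Nul E a) : Nul E b := fun M => by
  filter_upwards [hv, h, ha (M + A)] with i h1 h2 h3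
  rw [h2] at h3
  have h4 : (M + A) * (E i : ℕ) = v i + ((M + A) * (E i : ℕ) - v i) := by
    have : (M + A) * (E i : ℕ) = M * (E i : ℕ) + A * (E i : ℕ) := by ring
    omega
  have h5 : M * (E i : ℕ) ≤ (M + A) * (E i : ℕ) - v i := by
    have : (M + A) * (E i : ℕ) = M * (E i : ℕ) + A * (E i : ℕ) := by ring
    omega
  rw [h4, pow_add] at h3
  have h6 : (PowerSeries.X : PowerSeries L) ^ v i ≠ 0 := pow_ne_zero _ PowerSeries.X_ne_zero
  exact (pow_dvd_pow _ h5).trans ((mul_dvd_mul_iff_left h6).1 h3)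

theorem exists_val {L : Type*} [Field L] {a : ℕ → PowerSeries L} (h : ¬ Nul E a) :
    ∃ (A : ℕ) (v : ℕ → ℕ) (w : ℕ → PowerSeries L), ∀ᶠ i in Uf, v i ≤ A * (E i : ℕ) ∧
      a i = PowerSeries.X ^ v i * w i ∧ PowerSeries.coeff 0 (w i) ≠ 0 := by
  obtain ⟨A, hA⟩ := not_nul.1 h
  have h1 : ∀ i, ∃ w : PowerSeries L, a i = PowerSeries.X ^ (a i).order.toNat * w := fun i =>
    PowerSeries.X_pow_order_dvd
  choose w hw using h1
  refine ⟨A, fun i => (a i).order.toNat, w, ?_⟩
  filter_upwards [hA] with i hi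
  have h2 : a i ≠ 0 := by
    intro h0
    rw [h0] at hi
    exact hi (dvd_zero _)
  refine ⟨?_, hw i, ?_⟩
  · by_contra h3
    rw [not_le] at h3
    refine hi (PowerSeries.X_pow_dvd_iff.2 fun m hm => ?_)
    refine PowerSeries.coeff_of_lt_order _ ?_
    rw [← ENat.natCast_toNat (fun h0 => h2 (PowerSeries.order_eq_top.1 h0))]
    exact_mod_cast hm.trans h3
  · have h3 := PowerSeries.coeff_order h2
    rw [hw i, PowerSeries.coeff_X_pow_mul'] at h3
    have h4 : (PowerSeries.X ^ (a i).order.toNat * w i).order.toNat = (a i).order.toNat := by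
      rw [← hw i]
    rw [h4, if_pos le_rfl, Nat.sub_self] at h3
    exact h3

end

section
variable {k : Type*} [CommRing k] {E : ℕ → ℕ+}

theorem nul_mc {c : ℕ → AA k} (h : Nul E c) (m : Fin 2 →₀ ℕ) : Nul E (fun i => mc (c i) m) := fun M => by
  filter_upwards [h M] with i hi using (X_pow_dvd_iff_mc _ _).1 hi m

theorem tame_uniform {c : ℕ → AA k} (tm : Tame E c) (M : ℕ) :
    ∀ᶠ i in Uf, ∀ m : Fin 2 →₀ ℕ, Nul E (fun i => mc (c i) m) →
      (PowerSeries.X : PowerSeries k) ^ (M * (E i : ℕ)) ∣ mc (c i) m := by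
  classical
  obtain ⟨D, hD⟩ := tm M
  have hfin : {m : Fin 2 →₀ ℕ | m 0 + m 1 ≤ D}.Finite := by
    refine (Set.finite_Iic (Finsupp.equivFunOnFinite.symm (fun _ : Fin 2 => D))).subset ?_
    intro m hm j
    have hm' : m 0 + m 1 ≤ D := hm
    fin_cases j
    · exact (Nat.le_add_right _ _).trans hm'
    · exact (Nat.le_add_left _ _).trans hm'
  have h1 : ∀ᶠ i in Uf, ∀ m ∈ {m : Fin 2 →₀ ℕ | m 0 + m 1 ≤ D},
      Nul E (fun i => mc (c i) m) →
        (PowerSeries.X : PowerSeries k) ^ (M * (E i : ℕ)) ∣ mc (c i) m := by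
    rw [Filter.eventually_all_finite hfin]
    intro m _
    by_cases hm : Nul E (fun i => mc (c i) m)
    · filter_upwards [hm M] with i hi _ using hi
    · exact Filter.Eventually.of_forall fun i h => absurd h hm
  filter_upwards [hD, h1] with i h2 h3 m hm
  rcases Nat.lt_or_ge D (m 0 + m 1) with h4 | h4
  · exact h2 m h4
  · exact h3 m h4 hm

theorem nul_iff_mc {c : ℕ → AA k} (tm : Tame E c) :
    Nul E c ↔ ∀ m, Nul E (fun i => mc (c i) m) := by
  refine ⟨fun h m => nul_mc h m, fun h M => ?_⟩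
  filter_upwards [tame_uniform tm M] with i hi
  exact (X_pow_dvd_iff_mc _ _).2 fun m => hi m (h m)

theorem Nul.ev {R : Type*} [CommRing R] [Algebra k R] {c : ℕ → AA k} (h : Nul E c)
    (P : ℕ → Fin 2 → PowerSeries R) : Nul E (fun i => ev (P i) (c i)) := fun M => by
  filter_upwards [h M] with i hi using ev_dvd (P i) hi

theorem nul_ev_sub {R : Type*} [CommRing R] [Algebra k R] {P Q : ℕ → Fin 2 → PowerSeries R}
    (h : ∀ j, Nul E (fun i => P i j - Q i j)) (c : ℕ → AA k) :
    Nul E (fun i => ev (P i) (c i) - ev (Q i) (c i)) := fun M => by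
  have h1 : ∀ᶠ i in Uf, ∀ j, (PowerSeries.X : PowerSeries R) ^ (M * (E i : ℕ)) ∣
      P i j - Q i j := Filter.eventually_all.2 fun j => h j M
  filter_upwards [h1] with i hi using ev_congr hi (c i)

/-- functions which are not null have a coefficient which is not null -/
theorem exists_mc_ne {c : ℕ → AA k} (tm : Tame E c) (h : ¬ Nul E c) :
    ∃ m, ¬ Nul E (fun i => mc (c i) m) := by
  by_contra hcon
  push Not at hcon
  exact h ((nul_iff_mc tm).2 hcon)

end

end M4
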