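import Pool.Agent.M4.Defs
import Pool.Agent.M4.Nulb
import Pool.Agent.M4.Tame
import Pool.Agent.M3.DegA

open MvPolynomial

namespace M4

open M3

universe u

private theorem lowB_top_unif {E : ℕ → ℕ+} {k : Type u} [Field k] {a b d : ℕ}
    {F G : MvPolynomial (Fin 2) (Lam E k)} (hF : ∀ m, coeff m F ≠ 0 → wt a b m = d)
    (hG : ∀ m, d ≤ wt a b m → coeff m G = coeff m F) {c c' : ℕ → AA k} (hc : IsLim E c F)
    (hc' : IsLim E c' G) (M : ℕ) : ∀ᶠ i in Uf, ∀ m : Fin 2 →₀ ℕ,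
      (d < wt a b m → (PowerSeries.X : PowerSeries k) ^ (M * (E i : ℕ)) ∣ mc (c' i) m) ∧
      (wt a b m = d → (PowerSeries.X : PowerSeries k) ^ (M * (E i : ℕ)) ∣
        mc (c' i) m - mc (c i) m) ∧
      (wt a b m ≠ d → (PowerSeries.X : PowerSeries k) ^ (M * (E i : ℕ)) ∣ mc (c i) m) := by
  filter_upwards [tame_uniform hc'.1 M, tame_uniform hc.1 M,
    tame_uniform (hc'.1.sub hc.1) M] with i h1 h2 h3 m
  have h0 : wt a b m ≠ d → Nul E (fun i => mc (c i) m) := fun hm => by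
    refine lm_eq_zero.1 ?_
    rw [← hc.2]
    by_contra h4
    exact hm (hF m h4)
  refine ⟨fun hm => h1 m ?_, fun hm => ?_, fun hm => h2 m (h0 hm)⟩
  · refine lm_eq_zero.1 ?_
    rw [← hc'.2, hG m hm.le]
    by_contra h4
    exact hm.ne' (hF m h4)
  · rw [← mc_sub]
    refine h3 m ?_
    have h4 : lm E (fun i => mc (c' i) m) = lm E (fun i => mc (c i) m) := by
      rw [← hc'.2, ← hc.2, hG m hm.ge]
    have h5 := lm_eq.1 h4
    have h6 : (fun i => mc (c' i - c i) m) = fun i => mc (c' i) m - mc (c i) m := by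
      funext i
      rw [mc_sub]
    rw [h6]
    exact h5

theorem lowB_top {E : ℕ → ℕ+} {k : Type u} [Field k] {r : ℕ} {J : Type} [Fintype J]
    {a b : ℕ} (ha : 0 < a) (hb : 0 < b) {mu : Fin r → ℝ} (hmu : ∀ j, 0 < mu j) {grp : J → Fin r}
    {d : Fin r → ℕ} {F G : J → MvPolynomial (Fin 2) (Lam E k)}
    (hF : ∀ h m, coeff m (F h) ≠ 0 → wt a b m = d (grp h))
    (hG : ∀ h m, d (grp h) ≤ wt a b m → coeff m (G h) = coeff m (F h))
    {c c' : ℕ → J → AA k} (hc : ∀ h, IsLim E (fun i => c i h) (F h))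
    (hc' : ∀ h, IsLim E (fun i => c' i h) (G h)) (hL : LowB E mu grp c) : LowB E mu grp c' := by
  obtain ⟨K, hK⟩ := hL
  refine ⟨K, fun ℓ => ?_⟩
  have hU : ∀ᶠ i in Uf, ∀ (h : J) (m : Fin 2 →₀ ℕ),
      (d (grp h) < wt a b m → (PowerSeries.X : PowerSeries k) ^ (ℓ * (E i : ℕ)) ∣
        mc (c' i h) m) ∧
      (wt a b m = d (grp h) → (PowerSeries.X : PowerSeries k) ^ (ℓ * (E i : ℕ)) ∣
        mc (c' i h) m - mc (c i h) m) ∧
      (wt a b m ≠ d (grp h) → (PowerSeries.X : PowerSeries k) ^ (ℓ * (E i : ℕ)) ∣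
        mc (c i h) m) := by
    rw [Filter.eventually_all]
    exact fun h => lowB_top_unif (hF h) (hG h) (hc h) (hc' h) ℓ
  filter_upwards [hK ℓ, hU] with i h1 h2
  intro L _ _ P C n hC hnl hP hn
  obtain ⟨L₀, hf, ha0, P₀, hP₀, hdeg⟩ := deg_top P (ℓ * (E i : ℕ)) C (hP _) a b
  obtain ⟨Q, hQ, hQd⟩ := exists_cont P₀ (ℓ * (E i : ℕ)) C hP₀
  refine h1 (Om k) Q C n hC hnl hQ fun h => ?_
  refine hQd (c i h) (n (grp h)) (hnl _) ?_
  have h3 : (PowerSeries.X : PowerSeries L₀) ^ n (grp h) ∣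
      ev P₀ (topA a b (d (grp h)) (c' i h)) := by
    refine hdeg (c' i h) (d (grp h)) (n (grp h)) (hnl _) ?_ (hn h)
    intro j hj e he
    by_contra hlt
    push Not at hlt
    apply he
    rw [← coeff_mc]
    exact PowerSeries.X_pow_dvd_iff.1 ((h2 h e).1 hlt) j hj
  have h4 : (PowerSeries.X : AA k) ^ (ℓ * (E i : ℕ)) ∣
      topA a b (d (grp h)) (c' i h) - c i h := by
    rw [X_pow_dvd_iff_mc]
    intro e
    rw [mc_sub, mc_topA]
    split_ifs with hw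
    · exact (h2 h e).2.1 hw
    · rw [zero_sub, dvd_neg]
      exact (h2 h e).2.2 hw
  have h5 := ev_dvd P₀ h4
  rw [ev_sub] at h5
  have h6 := dvd_sub h3 ((pow_dvd_pow _ (hnl (grp h))).trans h5)
  rwa [sub_sub_cancel] at h6

end M4
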