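import Pool.Agent.M4.UChS
import Pool.Agent.M3.UFin

/-!
PIECE M4-U02: rigidity of states (port of `M3.BlkU`).

PROOF. As `M3.BlkU`: `isChS_trans` gives `χK`, `θ`; `core_U` (`M3.UFin`, for an arbitrary field of characteristic zero) over
`K := KL E k` for `toKL (F h)`, `toKL (G h)`; `hdK`: `coeff m (aeval χK (toKL (G h))) ≠ 0` implies
`lm E (fun i => mc (ev (χ i) (c i h)) m) ≠ 0`, i.e. `¬ Nul` (`lm_eq_zero`), so `hd'` applies.  The centre:
`lm E (fun i => mc (χ i j) 0) = lm E (fun i => z i j)` by `hz` (`lm_eq`).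
-/

open MvPolynomial

namespace M4

open M3

universe u

theorem block_U {E : ℕ → ℕ+} {k : Type u} [Field k] [CharZero k] {r : ℕ} {J : Type} [Fintype J]
    {a b : ℕ} {mu : Fin r → ℝ} {grp : J → Fin r} {d : Fin r → ℕ}
    {F G : J → MvPolynomial (Fin 2) (Lam E k)} (hS : Stt a b mu grp d (fun h => toKL (F h)))
    (hG : ∀ h m, d (grp h) ≤ wt a b m → coeff m (G h) = coeff m (F h))
    {c : ℕ → J → AA k} (hc : ∀ h, IsLim E (fun i => c i h) (G h))
    {χ : ℕ → Fin 2 → AA k} {N : ℕ} (hχ : IsChS E χ N) (z : ℕ → Fin 2 → PowerSeries k)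
    (hz : ∀ j, Nul E (fun i => mc (χ i j) 0 - z i j)) {a' b' : ℕ} (ha' : 0 < a') (hab' : a' ≤ b')
    (hcop' : Nat.Coprime a' b') {d' : Fin r → ℕ} (hsum' : ∑ j, mu j * d' j = a' + b')
    (hd' : ∀ h m, ¬ Nul E (fun i => mc (ev (χ i) (c i h)) m) → d' (grp h) ≤ wt a' b' m) :
    b * a' ≤ b' * a ∧ (b * a' = b' * a → Tr a b F G (fun j => lm E (fun i => z i j))) := by
  have hinj : Function.Injective (algebraMap (Lam E k) (KL E k)) :=
    IsFractionRing.injective _ _
  have h01 : CharZero (KL E k) := charZero_of_injective_algebraMap hinj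
  obtain ⟨χK, θ, hPA, hcc, hev⟩ := isChS_trans hχ
  have hcF : ∀ (H : MvPolynomial (Fin 2) (Lam E k)) e,
      coeff e (toKL H) = algebraMap (Lam E k) (KL E k) (coeff e H) := fun H e =>
    coeff_map _ _ _
  have hFd : ∀ h e, coeff e (F h) ≠ 0 → wt a b e = d (grp h) := by
    intro h e he
    refine hS.hom h e ?_
    rw [hcF]
    exact fun h0 => he (hinj (h0.trans (map_zero _).symm))
  have hGK : ∀ h, WLe a b (d (grp h)) (toKL (G h)) ∧
      wtop a b (d (grp h)) (toKL (G h)) = toKL (F h) := by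
    intro h
    refine ⟨fun e he => ?_, ?_⟩
    · rw [hcF] at he
      by_contra hlt
      push Not at hlt
      have h1 : coeff e (G h) ≠ 0 := fun h0 => he (by rw [h0, map_zero])
      rw [hG h e hlt.le] at h1
      exact hlt.ne' (hFd h e h1)
    · ext e
      rw [coeff_wtop, hcF, hcF]
      split_ifs with hw
      · rw [hG h e hw.ge]
      · have h1 : coeff e (F h) = 0 := by
          by_contra hne
          exact hw (hFd h e hne)
        rw [h1, map_zero]
  have hdK : ∀ h, WGe a' b' (d' (grp h)) (aeval χK (toKL (G h))) := by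
    intro h e he
    rw [hev _ _ (hc h)] at he
    refine hd' h e fun h0 => he ?_
    rw [lm_eq_zero.2 h0, map_zero]
  have hzz : ∀ j, lm E (fun i => mc (χ i j) 0) = lm E (fun i => z i j) := fun j =>
    lm_eq.2 (hz j)
  obtain ⟨h1, h2⟩ := core_U hS hGK hPA ha' hab' hcop' hsum' hdK
  refine ⟨h1, fun he => ?_⟩
  obtain ⟨p, hp, hpe, hpG⟩ := h2 he
  rw [hcc, hcc, hzz, hzz] at hpe
  refine ⟨p, hp, hpe, fun h => ?_⟩
  have h3 := hpG h
  rw [hcc, hzz] at h3
  exact h3

end M4
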