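import Pool.Agent.M3.Mc
import Pool.Agent.M3.Ev

/-!
PIECE M4-B02: the residue of a function in a small ball, forms killed by a constant vector field.

PROOF. `cent_ball`: `ev (fun j => X^N * (xA j - cA (S j))) g = ev (fun j => xA j - cA (S j)) g'`, `g' := ev ![X^N * xA 0, X^N * xA 1] g`
(`ev_ev`), `mc g' m = X^(N * m 0 + N * m 1) * mc g m` (`mc_scale`).  So `X^(N B + ν) ∣ mc g' m` for all `m` (`m 0 + m 1 < B`: `h0`, `N B + ν < T`;
`= B`: `h1`; `> B`: `N (m 0 + m 1) ≥ N B + N > N B + ν`), `g' = X^(N B + ν) * g₂` (`X_pow_dvd_iff_mc`) and the coefficient of `τ^0` of `g₂` is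
`∑ j ≤ B, monomial (single 0 j + single 1 (B - j)) (coeff ν (mc g _))`: compare coefficients (`coeff_mc`).  `ev _ (X^K * g₂) = X^K * ev _ g₂`,
and `coeff 0 (ev χ g₂) = coeff 0 (aeval χ (coeff 0 g₂)) = aeval (fun j => coeff 0 (χ j)) (coeff 0 g₂)` with
`coeff 0 (xA j - cA (S j)) = X j - C (coeff 0 (S j))`.
`kill_form`: let `u ≠ 0`: by induction on `j` (from `hk`) `t j = γ * (B.choose j) * v^j * (-u)^(B - j)` with `γ := t 0 / (-u)^B`
(`(j + 1) * B.choose (j + 1) = (B - j) * B.choose j`).  Then `γ ≠ 0` (some `t j ≠ 0`) and the binomial theorem.  If `u = 0`, `v ≠ 0`: `hk`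
gives `t j = 0` for `j < B`, `γ := t B / v^B`.
-/

open MvPolynomial

namespace M4

open M3

universe u

private theorem coef_g2 {L : Type u} [Field L] (g g₂ : AA L) {N ν B T : ℕ}
    (hν : ν < N) (hT : N * B + ν < T)
    (h0 : ∀ m : Fin 2 →₀ ℕ, m 0 + m 1 < B → (PowerSeries.X : PowerSeries L) ^ T ∣ mc g m)
    (hg : ∀ m, (PowerSeries.X : PowerSeries L) ^ (N * B + ν) * mc g₂ m =
      PowerSeries.X ^ (N * m 0 + N * m 1) * mc g m) :
    (PowerSeries.coeff 0 g₂ : MvPolynomial (Fin 2) L) =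
      ∑ j ∈ Finset.range (B + 1), monomial (Finsupp.single 0 j + Finsupp.single 1 (B - j))
        (PowerSeries.coeff ν (mc g (Finsupp.single 0 j + Finsupp.single 1 (B - j)))) := by
  classical
  ext m
  have e1 : coeff m (PowerSeries.coeff 0 g₂) =
      PowerSeries.coeff (N * B + ν) (PowerSeries.X ^ (N * m 0 + N * m 1) * mc g m) := by
    rw [← hg, PowerSeries.coeff_X_pow_mul', if_pos le_rfl, Nat.sub_self, coeff_mc]
  rw [e1, coeff_sum, PowerSeries.coeff_X_pow_mul']
  have hm : m 0 + m 1 < B ∨ m 0 + m 1 = B ∨ B < m 0 + m 1 := by omega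
  have hsum : N * m 0 + N * m 1 = N * (m 0 + m 1) := by ring
  have hne : m 0 + m 1 ≠ B → ∀ j ∈ Finset.range (B + 1),
      coeff m (monomial (Finsupp.single 0 j + Finsupp.single 1 (B - j))
        (PowerSeries.coeff ν (mc g (Finsupp.single 0 j + Finsupp.single 1 (B - j))))) = 0 := by
    intro h j hj
    rw [coeff_monomial, if_neg]
    intro h2
    apply h
    rw [← h2]
    have := Finset.mem_range.1 hj
    simp
    omega
  rcases hm with hm | hm | hm
  · rw [Finset.sum_eq_zero (hne (by omega))]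
    split_ifs
    · exact PowerSeries.X_pow_dvd_iff.1 (h0 m hm) _ (by omega)
    · rfl
  · rw [hsum, hm, if_pos (by omega), Finset.sum_eq_single (m 0)]
    · have h2 : (Finsupp.single 0 (m 0) + Finsupp.single 1 (B - m 0) : Fin 2 →₀ ℕ) = m := by
        ext i
        fin_cases i
        · simp
        · simp
          omega
      rw [h2, coeff_monomial, if_pos rfl, show N * B + ν - N * B = ν by omega]
    · intro j hj hj2
      rw [coeff_monomial, if_neg]
      intro h2
      apply hj2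
      rw [← h2]
      simp
    · intro h2
      exact absurd (Finset.mem_range.2 (by omega)) h2
  · rw [Finset.sum_eq_zero (hne (by omega)), if_neg]
    rw [hsum]
    have : N * (B + 1) ≤ N * (m 0 + m 1) := Nat.mul_le_mul_left _ hm
    have h3 : N * (B + 1) = N * B + N := by ring
    omega

theorem cent_ball {L : Type u} [Field L] (S : Fin 2 → PowerSeries L) (g : AA L) {N ν B T : ℕ}
    (hν : ν < N) (hT : N * B + ν < T)
    (h0 : ∀ m : Fin 2 →₀ ℕ, m 0 + m 1 < B → (PowerSeries.X : PowerSeries L) ^ T ∣ mc g m)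
    (h1 : ∀ m : Fin 2 →₀ ℕ, m 0 + m 1 = B → (PowerSeries.X : PowerSeries L) ^ ν ∣ mc g m) :
    (PowerSeries.X : AA L) ^ (N * B + ν) ∣
      ev (fun j => (PowerSeries.X ^ N * (xA j - cA (S j)) : AA L)) g ∧
    PowerSeries.coeff (N * B + ν)
      (ev (fun j => (PowerSeries.X ^ N * (xA j - cA (S j)) : AA L)) g : AA L) =
      ∑ j ∈ Finset.range (B + 1),
        C (PowerSeries.coeff ν (mc g (Finsupp.single 0 j + Finsupp.single 1 (B - j)))) *
          (X 0 - C (PowerSeries.coeff 0 (S 0))) ^ j *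
          (X 1 - C (PowerSeries.coeff 0 (S 1))) ^ (B - j) := by
  classical
  set Q : Fin 2 → AA L := fun j => xA j - cA (S j) with hQ
  set χ : Fin 2 → AA L := ![PowerSeries.X ^ N * xA 0, PowerSeries.X ^ N * xA 1] with hχ
  have hev : ev (fun j => (PowerSeries.X ^ N * (xA j - cA (S j)) : AA L)) g = ev Q (ev χ g) := by
    rw [ev_ev]
    congr 1
    ext1 j
    fin_cases j
    · simp [hχ, hQ, ev_mul, ev_pow, ev_X, ev_xA]
    · simp [hχ, hQ, ev_mul, ev_pow, ev_X, ev_xA]
  have hd : (PowerSeries.X : AA L) ^ (N * B + ν) ∣ ev χ g := by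
    rw [X_pow_dvd_iff_mc]
    intro m
    rw [hχ, mc_scale, ← Nat.mul_add]
    have hm : m 0 + m 1 < B ∨ m 0 + m 1 = B ∨ B < m 0 + m 1 := by omega
    rcases hm with hm | hm | hm
    · exact Dvd.dvd.mul_left (dvd_trans (pow_dvd_pow _ (by omega)) (h0 m hm)) _
    · rw [hm, pow_add]
      exact mul_dvd_mul_left _ (h1 m hm)
    · refine Dvd.dvd.mul_right (pow_dvd_pow _ ?_) _
      have : N * (B + 1) ≤ N * (m 0 + m 1) := Nat.mul_le_mul_left _ hm
      have h3 : N * (B + 1) = N * B + N := by ring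
      omega
  obtain ⟨g₂, hg₂⟩ := hd
  have hmc : ∀ m, (PowerSeries.X : PowerSeries L) ^ (N * B + ν) * mc g₂ m =
      PowerSeries.X ^ (N * m 0 + N * m 1) * mc g m := by
    intro m
    rw [← mc_X_pow_mul, ← hg₂, hχ, mc_scale]
  have h2 := coef_g2 g g₂ hν hT h0 hmc
  have hfin : ev Q (ev χ g) = PowerSeries.X ^ (N * B + ν) * ev Q g₂ := by
    rw [hg₂, ev_mul, ev_pow, ev_X]
  rw [hev, hfin]
  refine ⟨dvd_mul_right _ _, ?_⟩
  rw [PowerSeries.coeff_X_pow_mul', if_pos le_rfl, Nat.sub_self, coeff_ev]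
  rw [Finset.Nat.antidiagonal_zero, Finset.sum_singleton, h2, map_sum, map_sum]
  refine Finset.sum_congr rfl fun j hj => ?_
  have hj' := Finset.mem_range.1 hj
  rw [aeval_monomial, Finsupp.prod_fintype _ _ (fun i => pow_zero _), Fin.prod_univ_two]
  have e0 : ((Finsupp.single 0 j + Finsupp.single 1 (B - j) : Fin 2 →₀ ℕ) 0) = j := by simp
  have e1 : ((Finsupp.single 0 j + Finsupp.single 1 (B - j) : Fin 2 →₀ ℕ) 1) = B - j := by simp
  rw [e0, e1]
  have q0 : ∀ i : Fin 2, PowerSeries.constantCoeff (Q i) =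
      X i - C (PowerSeries.coeff 0 (S i)) := by
    intro i
    rw [hQ]
    have hx : PowerSeries.constantCoeff (xA i : AA L) = X i := by
      unfold xA
      rw [PowerSeries.constantCoeff_C]
    have hc : PowerSeries.constantCoeff (cA (S i)) = C (PowerSeries.coeff 0 (S i)) := by
      unfold cA
      rw [← PowerSeries.coeff_zero_eq_constantCoeff_apply, PowerSeries.coeff_map]
    rw [map_sub, hx, hc]
  rw [PowerSeries.coeff_zero_eq_constantCoeff_apply, map_mul, map_mul, map_pow, map_pow, q0, q0,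
    PowerSeries.algebraMap_apply, PowerSeries.constantCoeff_C, MvPolynomial.algebraMap_eq,
    mul_assoc]

private theorem kill_u {L : Type u} [Field L] [CharZero L] {u v : L} (hu : u ≠ 0) (B : ℕ)
    (t : ℕ → L)
    (hk : ∀ j < B, ((j + 1 : ℕ) : L) * t (j + 1) * u + ((B - j : ℕ) : L) * t j * v = 0) :
    ∀ j ≤ B, t j = t 0 / (-u) ^ B * ((B.choose j : ℕ) : L) * v ^ j * (-u) ^ (B - j) := by
  have hu' : -u ≠ 0 := neg_ne_zero.2 hu
  intro j
  induction j with
  | zero =>
    intro _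
    rw [Nat.choose_zero_right, Nat.cast_one, pow_zero, Nat.sub_zero]
    field_simp
  | succ j ih =>
    intro hj
    have h1 := hk j (by omega)
    have h2 := ih (by omega)
    have hc : ((j + 1 : ℕ) : L) ≠ 0 := Nat.cast_ne_zero.2 (by omega)
    have h3 : ((B.choose (j + 1) : ℕ) : L) * ((j + 1 : ℕ) : L) =
        ((B.choose j : ℕ) : L) * ((B - j : ℕ) : L) := by
      rw [← Nat.cast_mul, ← Nat.cast_mul, Nat.choose_succ_right_eq]
    have h4 : (-u) ^ (B - j) = (-u) ^ (B - (j + 1)) * (-u) := by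
      rw [← pow_succ]
      congr 1
      omega
    have h5 : ((j + 1 : ℕ) : L) * u * t (j + 1) = -(((B - j : ℕ) : L) * t j * v) := by
      linear_combination h1
    have h6 : ((j + 1 : ℕ) : L) * u * t (j + 1) = ((j + 1 : ℕ) : L) * u *
        (t 0 / (-u) ^ B * ((B.choose (j + 1) : ℕ) : L) * v ^ (j + 1) * (-u) ^ (B - (j + 1))) := by
      rw [h5, h2, h4]
      linear_combination (-(t 0 / (-u) ^ B * v ^ (j + 1) * (-u) ^ (B - (j + 1)) * u)) * h3
    exact mul_left_cancel₀ (mul_ne_zero hc hu) h6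

theorem kill_form {L : Type u} [Field L] [CharZero L] {u v : L} (huv : ¬ (u = 0 ∧ v = 0)) (B : ℕ)
    (t : ℕ → L) (ht : ∃ j ≤ B, t j ≠ 0)
    (hk : ∀ j < B, ((j + 1 : ℕ) : L) * t (j + 1) * u + ((B - j : ℕ) : L) * t j * v = 0) :
    ∃ γ : L, γ ≠ 0 ∧ ∀ x y : MvPolynomial (Fin 2) L,
      ∑ j ∈ Finset.range (B + 1), C (t j) * x ^ j * y ^ (B - j) =
        C γ * (C v * x - C u * y) ^ B := by
  by_cases hu : u = 0
  · have hv : v ≠ 0 := fun h => huv ⟨hu, h⟩
    have h0 : ∀ j < B, t j = 0 := by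
      intro j hj
      have h1 := hk j hj
      rw [hu, mul_zero, zero_add] at h1
      have hc : ((B - j : ℕ) : L) ≠ 0 := Nat.cast_ne_zero.2 (by omega)
      rcases mul_eq_zero.1 h1 with h2 | h2
      · rcases mul_eq_zero.1 h2 with h3 | h3
        · exact absurd h3 hc
        · exact h3
      · exact absurd h2 hv
    have hB : t B ≠ 0 := by
      obtain ⟨j, hj, hj2⟩ := ht
      rcases Nat.lt_or_ge j B with h | h
      · exact absurd (h0 j h) hj2
      · rwa [show B = j by omega]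
    refine ⟨t B / v ^ B, div_ne_zero hB (pow_ne_zero _ hv), fun x y => ?_⟩
    rw [Finset.sum_eq_single B]
    · rw [Nat.sub_self, pow_zero, mul_one, hu, map_zero, zero_mul, sub_zero, mul_pow, ← map_pow,
        ← mul_assoc, ← map_mul, div_mul_cancel₀ _ (pow_ne_zero _ hv)]
    · intro j hj hj2
      rw [h0 j (by have := Finset.mem_range.1 hj; omega), map_zero, zero_mul, zero_mul]
    · intro h
      exact absurd (Finset.mem_range.2 (by omega)) h
  · have hf := kill_u hu B t hk
    have hu' : -u ≠ 0 := neg_ne_zero.2 hu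
    refine ⟨t 0 / (-u) ^ B, ?_, fun x y => ?_⟩
    · intro h
      obtain ⟨j, hj, hj2⟩ := ht
      apply hj2
      rw [hf j hj, h, zero_mul, zero_mul, zero_mul]
    · rw [sub_eq_add_neg, add_pow, Finset.mul_sum]
      refine Finset.sum_congr rfl fun j hj => ?_
      have hj' := Finset.mem_range.1 hj
      have e1 : -(C u * y) = C (-u) * y := by
        rw [map_neg, neg_mul]
      rw [hf j (by omega), e1, mul_pow, mul_pow, map_mul, map_mul, map_mul, map_pow, map_pow,
        map_natCast]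
      ring

end M4
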