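import Pool.Agent.M4.Cent
import Pool.Agent.M4.Ball
import Pool.Agent.M4.DomT
import Pool.Agent.M3.LinDom

/-!
PIECE M4-B03: the jet criterion for domination.

Write `T_m^h(i) := mc (cent (P i) (c i h)) m` (Taylor coefficients at `P i`).  For the members `h` which are not null: `T_m^h` is null
for `m 0 + m 1 < B h`, not null for some `m` with `m 0 + m 1 = B h`, and the form of degree `B h` is killed by the constant
vector field `u` (`h3`).

PROOF. Choose `A` (finitely many `h`; `not_nul`) with, for almost all `i`: for every `h` which is not null some `T_m^h(i)`, `m 0 + m 1 = B h`, is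
not divisible by `X^(A * E i)`, and some `u i j` is not divisible by `X^(A * E i)`.  `N₀ := A + 1`, `N := N₀ * E i`,
`T := (N₀ * (max B + 1) + 2 A + 1) * E i`.  Fix such an `i` for which moreover all the null statements (finitely many `h`, `m`)
hold modulo `X^T`, the null members `c i h` are divisible by `X^T`, and the codimension and order conditions of `Adm` hold.
`κ :=` the minimum of the orders of `u i 0`, `u i 1` (`< A * E i`), `(u₀, u₁)` the coefficients of `τ^κ`.  For `h` not null `ν h :=` the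
minimum of the orders of `T_m^h(i)`, `m 0 + m 1 = B h` (`< A * E i < N`), `t_m` the coefficients of `τ^(ν h)`.  The coefficient of
`τ^(ν h + κ)` in `h3` gives (`ν h + κ < T`) `(m 0 + 1) t_(m + e₀) u₀ + (m 1 + 1) t_(m + e₁) u₁ = 0`.
`cen_cent`, `cent_ball` (with `S := shiftP N (P i)`, `g := cent (P i) (c i h)`) and `kill_form` (`u := u₀`, `v := u₁`, `t j := t_(j, B - j)`, `x := X 0 - C s₀`,
`y := X 1 - C s₁`): `X^(N * B h + ν h) ∣ ev (cen N (P i)) (c i h)` with coefficient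
`C γ_h * (C u₁ * (X 0 - C s₀) - C u₀ * (X 1 - C s₁))^(B h) = C γ_h * (C p * X 0 + C q * X 1 + C s)^(B h)`,
`p := u₁`, `q := -u₀`, `s := u₀ s₁ - u₁ s₀` (the same for all `h`).
For every group `j` let `hh j` be a member (not null) with the smallest `N * B h + ν h =: e j`; because of `ν h < N` it has the
smallest `B h` of the group, so `B (hh j) ≤ B (hj j)`.  `X^(e (grp h)) ∣ ev (cen N (P i)) (c i h)` for all `h` (for null `h` by the
divisibility by `X^T`, `e j < T`).  Apply `lin_core` (`M3.LinDom`) with `B j := B (hh j)`: an arc `R` over `L'` with `Cod k R t`, `t ≤ 2 N`,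
orders `≥ e`, and value at most the one of `P i`.  `dom_of_arc` with `ℓ := 2 N₀ + N₀ * max B + A + ..`.
-/

open MvPolynomial

namespace M4

open M3

universe u

private theorem jet_coeff {L : Type*} [CommRing L] {a b : PowerSeries L} {ν κ : ℕ}
    (ha : (PowerSeries.X : PowerSeries L) ^ ν ∣ a) (hb : (PowerSeries.X : PowerSeries L) ^ κ ∣ b) :
    PowerSeries.coeff (ν + κ) (a * b) = PowerSeries.coeff ν a * PowerSeries.coeff κ b := by
  obtain ⟨a', rfl⟩ := ha
  obtain ⟨b', rfl⟩ := hb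
  rw [show PowerSeries.X ^ ν * a' * (PowerSeries.X ^ κ * b') =
    PowerSeries.X ^ (ν + κ) * (a' * b') by ring]
  rw [PowerSeries.coeff_X_pow_mul', if_pos le_rfl, Nat.sub_self,
    PowerSeries.coeff_X_pow_mul', if_pos le_rfl, Nat.sub_self,
    PowerSeries.coeff_X_pow_mul', if_pos le_rfl, Nat.sub_self,
    PowerSeries.coeff_zero_eq_constantCoeff_apply, PowerSeries.coeff_zero_eq_constantCoeff_apply,
    PowerSeries.coeff_zero_eq_constantCoeff_apply, map_mul]

private theorem jet_min {L : Type*} [CommRing L] {I : Type*} (f : I → PowerSeries L) {a : ℕ}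
    (h : ∃ j, ¬ (PowerSeries.X : PowerSeries L) ^ a ∣ f j) :
    ∃ κ < a, (∀ j, (PowerSeries.X : PowerSeries L) ^ κ ∣ f j) ∧
      ∃ j, PowerSeries.coeff κ (f j) ≠ 0 := by
  classical
  obtain ⟨j, hj⟩ := h
  rw [PowerSeries.X_pow_dvd_iff] at hj
  push Not at hj
  obtain ⟨n, hn, hne⟩ := hj
  have hex : ∃ n, ∃ j, PowerSeries.coeff n (f j) ≠ 0 := ⟨n, j, hne⟩
  refine ⟨Nat.find hex, lt_of_le_of_lt (Nat.find_min' hex ⟨j, hne⟩) hn, fun j' => ?_,
    Nat.find_spec hex⟩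
  rw [PowerSeries.X_pow_dvd_iff]
  intro m hm
  by_contra hc
  exact Nat.find_min hex hm ⟨j', hc⟩

private theorem jet_fin (m : Fin 2 →₀ ℕ) :
    m = Finsupp.single 0 (m 0) + Finsupp.single 1 (m 1) := by
  ext j
  fin_cases j
  · simp
  · simp

private theorem jet_fin0 (a b : ℕ) :
    (Finsupp.single 0 a + Finsupp.single 1 b : Fin 2 →₀ ℕ) 0 = a := by
  simp

private theorem jet_fin1 (a b : ℕ) :
    (Finsupp.single 0 a + Finsupp.single 1 b : Fin 2 →₀ ℕ) 1 = b := by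
  simp

private theorem jet_all {Bm : ℕ} {p : (Fin 2 →₀ ℕ) → ℕ → Prop}
    (h : ∀ m : Fin 2 →₀ ℕ, m 0 + m 1 ≤ Bm → ∀ᶠ i in Uf, p m i) :
    ∀ᶠ i in Uf, ∀ m : Fin 2 →₀ ℕ, m 0 + m 1 ≤ Bm → p m i := by
  have hfin : {m : Fin 2 →₀ ℕ | m 0 + m 1 ≤ Bm}.Finite := by
    refine (Set.finite_Iic (Finsupp.single 0 Bm + Finsupp.single 1 Bm : Fin 2 →₀ ℕ)).subset ?_
    intro m hm
    rw [Set.mem_Iic, Finsupp.le_def]
    have hm' : m 0 + m 1 ≤ Bm := hm
    intro j
    fin_cases j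
    · change m 0 ≤ (Finsupp.single 0 Bm + Finsupp.single 1 Bm : Fin 2 →₀ ℕ) 0
      rw [jet_fin0]
      omega
    · change m 1 ≤ (Finsupp.single 0 Bm + Finsupp.single 1 Bm : Fin 2 →₀ ℕ) 1
      rw [jet_fin1]
      omega
  exact (Filter.eventually_all_finite hfin).2 h

/-- one function in the ball -/
private theorem jet_one {k : Type u} [Field k] {L : Type u} [Field L] [CharZero L] [Algebra k L]
    (P : Fin 2 → PowerSeries L) (f : AA k) (u : Fin 2 → PowerSeries L) {κ N a T B : ℕ}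
    (haN : a ≤ N) (hT : N * (B + 1) ≤ T) (hT' : a + κ ≤ T)
    (hκ : ∀ j, (PowerSeries.X : PowerSeries L) ^ κ ∣ u j)
    (hκ' : ∃ j, PowerSeries.coeff κ (u j) ≠ 0)
    (h1 : ∀ m : Fin 2 →₀ ℕ, m 0 + m 1 < B → (PowerSeries.X : PowerSeries L) ^ T ∣
      mc (cent P f) m)
    (h2 : ∃ m : Fin 2 →₀ ℕ, m 0 + m 1 = B ∧ ¬ (PowerSeries.X : PowerSeries L) ^ a ∣
      mc (cent P f) m)
    (h3 : ∀ m : Fin 2 →₀ ℕ, m 0 + m 1 + 1 = B → (PowerSeries.X : PowerSeries L) ^ T ∣
        ((m 0 + 1 : ℕ) : PowerSeries L) *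
          mc (cent P f) (m + Finsupp.single 0 1) * u 0 +
        ((m 1 + 1 : ℕ) : PowerSeries L) *
          mc (cent P f) (m + Finsupp.single 1 1) * u 1) :
    ∃ ν < a, (PowerSeries.X : AA L) ^ (N * B + ν) ∣ ev (cen N P) f ∧
      ∃ γ : L, γ ≠ 0 ∧ PowerSeries.coeff (N * B + ν) (ev (cen N P) f : AA L) =
        C γ * (C (PowerSeries.coeff κ (u 1)) * X 0 + C (-PowerSeries.coeff κ (u 0)) * X 1 +
          C (PowerSeries.coeff κ (u 0) * PowerSeries.coeff 0 (shiftP N P 1) -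
            PowerSeries.coeff κ (u 1) * PowerSeries.coeff 0 (shiftP N P 0))) ^ B := by
  obtain ⟨m₀, hm₀, hm₀'⟩ := h2
  obtain ⟨ν, hν, hd, ⟨⟨m₁, hm₁⟩, hne⟩⟩ := jet_min
    (fun m : {m : Fin 2 →₀ ℕ // m 0 + m 1 = B} => mc (cent P f) m.1) (a := a)
    ⟨⟨m₀, hm₀⟩, hm₀'⟩
  have hd' : ∀ m : Fin 2 →₀ ℕ, m 0 + m 1 = B → (PowerSeries.X : PowerSeries L) ^ ν ∣
      mc (cent P f) m := fun m hm => hd ⟨m, hm⟩
  have hNB : N * B + ν < T := by
    have : N * (B + 1) = N * B + N := by ring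
    omega
  obtain ⟨hb1, hb2⟩ := cent_ball (shiftP N P) (cent P f) (N := N) (ν := ν) (B := B) (T := T)
    (by omega) hNB h1 hd'
  have huv : ¬ (PowerSeries.coeff κ (u 0) = 0 ∧ PowerSeries.coeff κ (u 1) = 0) := by
    rintro ⟨ha, hb⟩
    obtain ⟨j, hj⟩ := hκ'
    fin_cases j
    · exact hj ha
    · exact hj hb
  obtain ⟨γ, hγ, hγ'⟩ := kill_form huv B
    (fun j => PowerSeries.coeff ν (mc (cent P f) (Finsupp.single 0 j + Finsupp.single 1 (B - j))))
    (by
      refine ⟨m₁ 0, by omega, ?_⟩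
      have h5 : (Finsupp.single 0 (m₁ 0) + Finsupp.single 1 (B - m₁ 0) : Fin 2 →₀ ℕ) = m₁ := by
        conv_rhs => rw [jet_fin m₁]
        congr 2
        omega
      change PowerSeries.coeff ν (mc (cent P f)
        (Finsupp.single 0 (m₁ 0) + Finsupp.single 1 (B - m₁ 0))) ≠ 0
      rw [h5]
      exact hne)
    (by
      intro j hj
      have h5 := h3 (Finsupp.single 0 j + Finsupp.single 1 (B - j - 1)) (by
        rw [jet_fin0, jet_fin1]
        omega)
      rw [jet_fin0, jet_fin1] at h5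
      have e0 : (Finsupp.single 0 j + Finsupp.single 1 (B - j - 1) + Finsupp.single 0 1 :
          Fin 2 →₀ ℕ) = Finsupp.single 0 (j + 1) + Finsupp.single 1 (B - (j + 1)) := by
        rw [add_right_comm, ← Finsupp.single_add, Nat.sub_sub]
      have e1 : (Finsupp.single 0 j + Finsupp.single 1 (B - j - 1) + Finsupp.single 1 1 :
          Fin 2 →₀ ℕ) = Finsupp.single 0 j + Finsupp.single 1 (B - j) := by
        rw [add_assoc, ← Finsupp.single_add]
        congr 2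
        omega
      rw [e0, e1, show B - j - 1 + 1 = B - j by omega] at h5
      have h6 := PowerSeries.X_pow_dvd_iff.1 h5 (ν + κ) (by omega)
      rw [map_add, mul_assoc, mul_assoc, ← map_natCast (PowerSeries.C (R := L)),
        ← map_natCast (PowerSeries.C (R := L)), PowerSeries.coeff_C_mul,
        PowerSeries.coeff_C_mul, jet_coeff (hd' _ (by
          rw [jet_fin0, jet_fin1]
          omega)) (hκ 0), jet_coeff (hd' _ (by
          rw [jet_fin0, jet_fin1]
          omega)) (hκ 1)] at h6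
      rw [mul_assoc, mul_assoc]
      exact h6)
  refine ⟨ν, hν, ?_, γ, hγ, ?_⟩
  · rw [cen_cent]
    exact hb1
  · rw [cen_cent, hb2, hγ']
    congr 2
    rw [map_neg, map_sub, map_mul, map_mul]
    ring

/-- the criterion at one index -/
private theorem jet_core {k : Type u} [Field k] [CharZero k] {L : Type u} [Field L] [Algebra k L]
    {r : ℕ} {J : Type} [Fintype J] {lam : Fin r → ℝ} (hlam : ∀ j, 0 < lam j) {grp : J → Fin r}
    {c : J → AA k} {P : Fin 2 → PowerSeries L} {C : ℕ} {n : Fin r → ℕ} (hP : Cod k P C)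
    (hO : OrdGe grp c P n) (nn : J → Prop) (u : Fin 2 → PowerSeries L) (B : J → ℕ)
    {N a T Bm : ℕ} (hBm : ∀ h, B h ≤ Bm) (haN : a ≤ N) (hT : N * (Bm + 1) ≤ T)
    (hT' : a + a ≤ T)
    (hu : ∃ j, ¬ (PowerSeries.X : PowerSeries L) ^ a ∣ u j)
    (h1 : ∀ h, nn h → ∀ m : Fin 2 →₀ ℕ, m 0 + m 1 < B h → (PowerSeries.X : PowerSeries L) ^ T ∣
      mc (cent P (c h)) m)
    (h2 : ∀ h, nn h → ∃ m : Fin 2 →₀ ℕ, m 0 + m 1 = B h ∧
      ¬ (PowerSeries.X : PowerSeries L) ^ a ∣ mc (cent P (c h)) m)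
    (h3 : ∀ h, nn h → ∀ m : Fin 2 →₀ ℕ, m 0 + m 1 + 1 = B h →
      (PowerSeries.X : PowerSeries L) ^ T ∣
        ((m 0 + 1 : ℕ) : PowerSeries L) *
          mc (cent P (c h)) (m + Finsupp.single 0 1) * u 0 +
        ((m 1 + 1 : ℕ) : PowerSeries L) *
          mc (cent P (c h)) (m + Finsupp.single 1 1) * u 1)
    (h4 : ∀ h, ¬ nn h → (PowerSeries.X : AA k) ^ T ∣ c h)
    (hj : Fin r → J) (hj1 : ∀ j, grp (hj j) = j ∧ nn (hj j))
    (hB : ∑ j, lam j * B (hj j) ≤ 1) :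
    ∃ (L' : Type u) (_ : Field L') (_ : Algebra k L') (R : Fin 2 → PowerSeries L') (t : ℕ)
      (e : Fin r → ℕ), t ≤ 2 * N ∧ (∀ j, e j ≤ N * (Bm + 1)) ∧ Cod k R t ∧ OrdGe grp c R e ∧
        (t : ℝ) - ∑ j, lam j * e j ≤ C - ∑ j, lam j * n j := by
  classical
  have : CharZero L := charZero_of_injective_algebraMap (algebraMap k L).injective
  obtain ⟨κ, hκa, hκ, hκ'⟩ := jet_min u hu
  have key : ∀ h, nn h → ∃ ν < a, (PowerSeries.X : AA L) ^ (N * B h + ν) ∣ ev (cen N P) (c h) ∧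
      ∃ γ : L, γ ≠ 0 ∧ PowerSeries.coeff (N * B h + ν) (ev (cen N P) (c h) : AA L) =
        MvPolynomial.C γ * (MvPolynomial.C (PowerSeries.coeff κ (u 1)) * X 0 +
          MvPolynomial.C (-PowerSeries.coeff κ (u 0)) * X 1 +
          MvPolynomial.C (PowerSeries.coeff κ (u 0) * PowerSeries.coeff 0 (shiftP N P 1) -
            PowerSeries.coeff κ (u 1) * PowerSeries.coeff 0 (shiftP N P 0))) ^ B h := by
    intro h hn
    refine jet_one P (c h) u haN (le_trans (Nat.mul_le_mul_left N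
      (Nat.succ_le_succ (hBm h))) hT) (by omega) hκ hκ' (h1 h hn) (h2 h hn) (h3 h hn)
  choose ν hν hdv γ hγ hco using key
  -- the smallest order in a group
  have hmin : ∀ j : Fin r, ∃ (h : J) (hn : nn h), grp h = j ∧ ∀ (h' : J) (hn' : nn h'),
      grp h' = j → N * B h + ν h hn ≤ N * B h' + ν h' hn' := by
    intro j
    let S : Set ℕ := {x | ∃ (h : J) (hn : nn h), grp h = j ∧ x = N * B h + ν h hn}
    have hS : S.Nonempty := ⟨_, hj j, (hj1 j).2, (hj1 j).1, rfl⟩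
    obtain ⟨h, hn, hg, he⟩ := Nat.sInf_mem hS
    refine ⟨h, hn, hg, fun h' hn' hg' => ?_⟩
    rw [← he]
    exact Nat.sInf_le ⟨h', hn', hg', rfl⟩
  choose hh hhn hhg hhm using hmin
  have hBle : ∀ j, B (hh j) ≤ B (hj j) := by
    intro j
    have h5 := hhm j (hj j) (hj1 j).2 (hj1 j).1
    have h6 := hν (hj j) (hj1 j).2
    by_contra hlt
    push Not at hlt
    have h7 : N * (B (hj j) + 1) ≤ N * B (hh j) := Nat.mul_le_mul_left N hlt
    have h8 : N * (B (hj j) + 1) = N * B (hj j) + N := by ring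
    omega
  have hele : ∀ j, N * B (hh j) + ν (hh j) (hhn j) ≤ N * (Bm + 1) := by
    intro j
    have h5 := hν (hh j) (hhn j)
    have h6 : N * B (hh j) ≤ N * Bm := Nat.mul_le_mul_left N (hBm _)
    have h7 : N * (Bm + 1) = N * Bm + N := by ring
    omega
  obtain ⟨L', i1, i2, R, t, ht, hR1, hR2, hR3⟩ := lin_core hlam hP hO N
    (fun j => N * B (hh j) + ν (hh j) (hhn j)) (fun j => B (hh j))
    (p := PowerSeries.coeff κ (u 1)) (q := -PowerSeries.coeff κ (u 0))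
    (s := PowerSeries.coeff κ (u 0) * PowerSeries.coeff 0 (shiftP N P 1) -
            PowerSeries.coeff κ (u 1) * PowerSeries.coeff 0 (shiftP N P 0))
    (by
      rintro ⟨ha, hb⟩
      rw [neg_eq_zero] at hb
      obtain ⟨j, hj⟩ := hκ'
      fin_cases j
      · exact hj hb
      · exact hj ha)
    (g := fun j => γ (hh j) (hhn j)) (fun j => hγ _ _)
    (by
      intro h
      by_cases hn : nn h
      · exact (pow_dvd_pow _ (hhm (grp h) h hn rfl)).trans (hdv h hn)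
      · exact (pow_dvd_pow _ ((hele (grp h)).trans hT)).trans (ev_dvd (cen N P) (h4 h hn)))
    hh hhg (fun j => hco _ _)
    (le_trans (Finset.sum_le_sum fun j _ => mul_le_mul_of_nonneg_left
      (by exact_mod_cast hBle j) (hlam j).le) hB)
  exact ⟨L', i1, i2, R, t, _, ht, hele, hR1, hR2, hR3⟩

theorem jet_dom {E : ℕ → ℕ+} {k : Type u} [Field k] [CharZero k] {r : ℕ} {J : Type} [Fintype J]
    {lam : Fin r → ℝ} (hlam : ∀ j, 0 < lam j) {grp : J → Fin r} {c : ℕ → J → AA k}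
    {P : ℕ → Fin 2 → PowerSeries (Om k)} {C : ℕ → ℕ} {n : ℕ → Fin r → ℕ}
    (hA : Adm grp c P C n) (u : ℕ → Fin 2 → PowerSeries (Om k))
    (hu : ∃ j, ¬ Nul E (fun i => u i j)) (B : J → ℕ)
    (h1 : ∀ h, ¬ Nul E (fun i => c i h) → ∀ m : Fin 2 →₀ ℕ, m 0 + m 1 < B h →
      Nul E (fun i => mc (cent (P i) (c i h)) m))
    (h2 : ∀ h, ¬ Nul E (fun i => c i h) → ∃ m : Fin 2 →₀ ℕ, m 0 + m 1 = B h ∧
      ¬ Nul E (fun i => mc (cent (P i) (c i h)) m))
    (h3 : ∀ h, ¬ Nul E (fun i => c i h) → ∀ m : Fin 2 →₀ ℕ, m 0 + m 1 + 1 = B h →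
      Nul E (fun i =>
        ((m 0 + 1 : ℕ) : PowerSeries (Om k)) *
          mc (cent (P i) (c i h)) (m + Finsupp.single 0 1) * u i 0 +
        ((m 1 + 1 : ℕ) : PowerSeries (Om k)) *
          mc (cent (P i) (c i h)) (m + Finsupp.single 1 1) * u i 1))
    (hj : Fin r → J) (hj1 : ∀ j, grp (hj j) = j ∧ ¬ Nul E (fun i => c i (hj j)))
    (hB : ∑ j, lam j * B (hj j) ≤ 1) : Dom E lam grp c C n := by
  classical
  -- the constant
  obtain ⟨j₀, hj₀⟩ := hu
  obtain ⟨Au, hAu⟩ := not_nul.1 hj₀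
  have hAh : ∀ h : J, ∃ Ah : ℕ, ¬ Nul E (fun i => c i h) → ∀ᶠ i in Uf, ∃ m : Fin 2 →₀ ℕ,
      m 0 + m 1 = B h ∧ ¬ (PowerSeries.X : PowerSeries (Om k)) ^ (Ah * (E i : ℕ)) ∣
        mc (cent (P i) (c i h)) m := by
    intro h
    by_cases hn : Nul E (fun i => c i h)
    · exact ⟨0, fun h' => absurd hn h'⟩
    · obtain ⟨m, hm, hmn⟩ := h2 h hn
      obtain ⟨Ah, hAh⟩ := not_nul.1 hmn
      exact ⟨Ah, fun _ => hAh.mono fun i hi => ⟨m, hm, hi⟩⟩
  choose Ah hAh using hAh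
  let A : ℕ := Au + ∑ h, Ah h
  have hA1 : Au ≤ A := Nat.le_add_right _ _
  have hA2 : ∀ h, Ah h ≤ A := fun h =>
    (Finset.single_le_sum (fun h _ => Nat.zero_le (Ah h)) (Finset.mem_univ h)).trans
      (Nat.le_add_left _ _)
  let Bm : ℕ := ∑ h, B h
  have hBm : ∀ h, B h ≤ Bm := fun h =>
    Finset.single_le_sum (fun h _ => Nat.zero_le (B h)) (Finset.mem_univ h)
  let T₀ : ℕ := (A + 1) * (Bm + 1) + 2 * A
  have e1 : ∀ᶠ i in Uf, ∀ h : J, ¬ Nul E (fun i => c i h) → ∀ m : Fin 2 →₀ ℕ, m 0 + m 1 ≤ Bm →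
      m 0 + m 1 < B h → (PowerSeries.X : PowerSeries (Om k)) ^ (T₀ * (E i : ℕ)) ∣
        mc (cent (P i) (c i h)) m := by
    rw [Filter.eventually_all]
    intro h
    by_cases hn : Nul E (fun i => c i h)
    · exact Filter.Eventually.of_forall fun i h' => absurd hn h'
    · refine (jet_all (Bm := Bm) (p := fun m i => m 0 + m 1 < B h →
        (PowerSeries.X : PowerSeries (Om k)) ^ (T₀ * (E i : ℕ)) ∣
          mc (cent (P i) (c i h)) m) fun m _ => ?_).mono fun i hi _ => hi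
      by_cases hm : m 0 + m 1 < B h
      · exact (h1 h hn m hm T₀).mono fun i hi _ => hi
      · exact Filter.Eventually.of_forall fun i h' => absurd h' hm
  have e3 : ∀ᶠ i in Uf, ∀ h : J, ¬ Nul E (fun i => c i h) → ∀ m : Fin 2 →₀ ℕ, m 0 + m 1 ≤ Bm →
      m 0 + m 1 + 1 = B h → (PowerSeries.X : PowerSeries (Om k)) ^ (T₀ * (E i : ℕ)) ∣
        ((m 0 + 1 : ℕ) : PowerSeries (Om k)) *
          mc (cent (P i) (c i h)) (m + Finsupp.single 0 1) * u i 0 +
        ((m 1 + 1 : ℕ) : PowerSeries (Om k)) *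
          mc (cent (P i) (c i h)) (m + Finsupp.single 1 1) * u i 1 := by
    rw [Filter.eventually_all]
    intro h
    by_cases hn : Nul E (fun i => c i h)
    · exact Filter.Eventually.of_forall fun i h' => absurd hn h'
    · refine (jet_all (Bm := Bm) (p := fun m i => m 0 + m 1 + 1 = B h →
        (PowerSeries.X : PowerSeries (Om k)) ^ (T₀ * (E i : ℕ)) ∣
        ((m 0 + 1 : ℕ) : PowerSeries (Om k)) *
          mc (cent (P i) (c i h)) (m + Finsupp.single 0 1) * u i 0 +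
        ((m 1 + 1 : ℕ) : PowerSeries (Om k)) *
          mc (cent (P i) (c i h)) (m + Finsupp.single 1 1) * u i 1) fun m _ => ?_).mono
            fun i hi _ => hi
      by_cases hm : m 0 + m 1 + 1 = B h
      · exact (h3 h hn m hm T₀).mono fun i hi _ => hi
      · exact Filter.Eventually.of_forall fun i h' => absurd h' hm
  have e2 : ∀ᶠ i in Uf, ∀ h : J, ¬ Nul E (fun i => c i h) → ∃ m : Fin 2 →₀ ℕ,
      m 0 + m 1 = B h ∧ ¬ (PowerSeries.X : PowerSeries (Om k)) ^ (A * (E i : ℕ)) ∣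
        mc (cent (P i) (c i h)) m := by
    rw [Filter.eventually_all]
    intro h
    by_cases hn : Nul E (fun i => c i h)
    · exact Filter.Eventually.of_forall fun i h' => absurd hn h'
    · refine (hAh h hn).mono fun i hi _ => ?_
      obtain ⟨m, hm, hmn⟩ := hi
      exact ⟨m, hm, fun hd => hmn ((pow_dvd_pow _ (Nat.mul_le_mul_right _ (hA2 h))).trans hd)⟩
  have e4 : ∀ᶠ i in Uf, ∀ h : J, ¬ ¬ Nul E (fun i => c i h) →
      (PowerSeries.X : AA k) ^ (T₀ * (E i : ℕ)) ∣ c i h := by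
    rw [Filter.eventually_all]
    intro h
    by_cases hn : Nul E (fun i => c i h)
    · exact (hn T₀).mono fun i hi _ => hi
    · exact Filter.Eventually.of_forall fun i h' => absurd hn h'
  refine dom_of_arc (2 * (A + 1) + (A + 1) * (Bm + 1)) ?_
  filter_upwards [hA, hAu, e1, e2, e3, e4] with i hAi hui h1i h2i h3i h4i
  obtain ⟨L', i1, i2, R, t, e, ht, he, hR1, hR2, hR3⟩ := jet_core hlam hAi.1 hAi.2
    (fun h => ¬ Nul E (fun i => c i h)) (u i) B (N := (A + 1) * (E i : ℕ))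
    (a := A * (E i : ℕ)) (T := T₀ * (E i : ℕ)) hBm
    (Nat.mul_le_mul_right _ (Nat.le_succ A))
    (by
      change (A + 1) * (E i : ℕ) * (Bm + 1) ≤ ((A + 1) * (Bm + 1) + 2 * A) * (E i : ℕ)
      have : ((A + 1) * (Bm + 1) + 2 * A) * (E i : ℕ) =
        (A + 1) * (E i : ℕ) * (Bm + 1) + 2 * A * (E i : ℕ) := by ring
      omega)
    (by
      change A * (E i : ℕ) + A * (E i : ℕ) ≤ ((A + 1) * (Bm + 1) + 2 * A) * (E i : ℕ)
      have : ((A + 1) * (Bm + 1) + 2 * A) * (E i : ℕ) =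
        (A + 1) * (Bm + 1) * (E i : ℕ) + (A * (E i : ℕ) + A * (E i : ℕ)) := by ring
      omega)
    ⟨j₀, fun hd => hui ((pow_dvd_pow _ (Nat.mul_le_mul_right _ hA1)).trans hd)⟩
    (fun h hn m hm => h1i h hn m (by
      have := hBm h
      omega) hm) h2i
    (fun h hn m hm => h3i h hn m (by
      have := hBm h
      omega) hm) h4i hj hj1 hB
  refine ⟨L', i1, i2, R, t, e, ht.trans ?_, fun j => (he j).trans ?_, hR1, hR2, hR3⟩
  · have : (2 * (A + 1) + (A + 1) * (Bm + 1)) * (E i : ℕ) =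
      2 * ((A + 1) * (E i : ℕ)) + (A + 1) * (Bm + 1) * (E i : ℕ) := by ring
    omega
  · have : (2 * (A + 1) + (A + 1) * (Bm + 1)) * (E i : ℕ) =
      (A + 1) * (E i : ℕ) * (Bm + 1) + 2 * (A + 1) * (E i : ℕ) := by ring
    omega

end M4
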