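import Pool.Agent.M4.ZAlg
import Pool.Agent.M4.JetDom
import Pool.Agent.M4.LimP

/-!
PIECE M4-Z02: domination of a state near a rational arc different from the origin.

PROOF. `z' j := lm E (fun i => z i j)`, `z' ≠ 0` by `hz` (`lm_eq_zero`).  `z_alg`: `G`, `B`, `W`, `v`, `hj`.  For `h` with `F h ≠ 0` let
`F_z h := aeval (fun j => C (z' j) + X j) (F h)` (and `G_z`, `W_z h`).
(1) `IsLim E (fun i => cent (z i) (c i h)) (F_z h)` (`IsLim.ev`, `IsLim.cA`, `IsLim.xA`; `cent` over `k`), so
`coeff m (F_z h) = lm E (fun i => mc (cent (z i) (c i h)) m)`.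
(2) `mc (cent (P i) (c i h)) m - PowerSeries.map (algebraMap k (Om k)) (mc (cent (z i) (c i h)) m)` is null: `cent (map z) f` over `Om k` is the image of
`cent z f` (`ev_map` or `exists_hasse` and `ev_map`), and `Near E P z` with `nul_ev_sub` (for `exists_hasse`: `ev (P i) g - ev (map z i) g` is null; note
that `g` depends on `i` through `c i h`, which is allowed in `nul_ev_sub`).  So `mc (cent (P i) (c i h)) m` is null iff `coeff m (F_z h) = 0`
(`nul_map_iff`, `lm_eq_zero`).
(3) `C (v h) * F_z h = G_z ^ B h * W_z h`; the constant coefficient of `G_z` is `eval z' G = 0`, its linear coefficients are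
`g j := eval z' (pderiv j G)`, not both zero; the constant coefficient of `W_z h` is `w := eval z' (W h) ≠ 0`.  So `v h * coeff m (F_z h)` is `0`
for `m 0 + m 1 < B h` and `w * (B h).choose (m 0) * g 0 ^ m 0 * g 1 ^ m 1` for `m 0 + m 1 = B h` (lowest homogeneous part of a
product; e.g. `homogeneousComponent` or write `G_z = ℓ + (terms of order ≥ 2)`).  Not all of them are zero (characteristic zero).
(4) `jet_dom` with `u i j := PowerSeries.map (algebraMap k (Om k)) (u' i j)`, `lm E (fun i => u' i 0) = g 1`, `lm E (fun i => u' i 1) = -g 0` (`lm_surj`):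
`h3`: in `Lam E k` `(m 0 + 1) * coeff (m + e₀) (F_z) * g 1 - (m 1 + 1) * coeff (m + e₁) (F_z) * g 0 = 0` after multiplication with `v h`
(`(m 0 + 1) * B.choose (m 0 + 1) = (m 1 + 1) * B.choose (m 0)`, `m 0 + m 1 + 1 = B`).
The members with `F h = 0` are null (`nul_iff_mc`), those with `F h ≠ 0` are not null.
-/

open MvPolynomial

namespace M4

open M3

universe u

section
variable {A : Type*} [CommRing A]

/-- translation by a point -/
private noncomputable def blkZ_sh (z : Fin 2 → A) :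
    MvPolynomial (Fin 2) A →ₐ[A] MvPolynomial (Fin 2) A :=
  aeval (fun j => C (z j) + X j)

private theorem blkZ_c0 (z : Fin 2 → A) (G : MvPolynomial (Fin 2) A) :
    coeff 0 (blkZ_sh z G) = eval z G := by
  induction G using MvPolynomial.induction_on with
  | C a => rw [blkZ_sh, aeval_C, MvPolynomial.algebraMap_eq, coeff_zero_C, eval_C]
  | add p q hp hq => rw [map_add, coeff_add, hp, hq, map_add]
  | mul_X p j hp =>
    have h1 : blkZ_sh z (X j) = C (z j) + X j := aeval_X _ j
    have h2 : coeff 0 (blkZ_sh z p * X j) = 0 := by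
      classical
      rw [coeff_mul_X', if_neg (by simp)]
    rw [map_mul, h1, mul_add, coeff_add, mul_comm _ (C (z j)), coeff_C_mul, hp, h2, add_zero,
      map_mul, eval_X, mul_comm]

private theorem blkZ_c1 (z : Fin 2 → A) (G : MvPolynomial (Fin 2) A) (j : Fin 2) :
    coeff (Finsupp.single j 1) (blkZ_sh z G) = eval z (pderiv j G) := by
  classical
  induction G using MvPolynomial.induction_on with
  | C a =>
    rw [blkZ_sh, aeval_C, MvPolynomial.algebraMap_eq, coeff_C, if_neg, pderiv_C, map_zero]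
    intro h
    have := DFunLike.congr_fun h j
    simp at this
  | add p q hp hq => rw [map_add, coeff_add, hp, hq, map_add, map_add]
  | mul_X p l hp =>
    have h1 : blkZ_sh z (X l) = C (z l) + X l := aeval_X _ l
    rw [map_mul, h1, mul_add, coeff_add, mul_comm _ (C (z l)), coeff_C_mul, hp, pderiv_mul,
      map_add, map_mul, map_mul, eval_X, coeff_mul_X', mul_comm (z l)]
    congr 1
    by_cases h : l = j
    · subst h
      rw [if_pos (by simp), tsub_self, blkZ_c0, pderiv_X_self, map_one, mul_one]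
    · rw [if_neg, pderiv_X_of_ne h, map_zero, mul_zero]
      intro h2
      rw [Finsupp.support_single_ne_zero _ one_ne_zero, Finset.mem_singleton] at h2
      exact h h2

/-- the order at the origin is at least `n` -/
private def BlkZO (n : ℕ) (p : MvPolynomial (Fin 2) A) : Prop :=
  ∀ m : Fin 2 →₀ ℕ, m 0 + m 1 < n → coeff m p = 0

private theorem blkZ_mul {n n' : ℕ} {p q : MvPolynomial (Fin 2) A} (h : BlkZO n p)
    (h' : BlkZO n' q) : BlkZO (n + n') (p * q) := by
  classical
  intro m hm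
  rw [coeff_mul]
  refine Finset.sum_eq_zero fun x hx => ?_
  have h3 := Finset.HasAntidiagonal.mem_antidiagonal.1 hx
  have h4 : x.1 0 + x.2 0 = m 0 := by rw [← h3]; rfl
  have h5 : x.1 1 + x.2 1 = m 1 := by rw [← h3]; rfl
  rcases Nat.lt_or_ge (x.1 0 + x.1 1) n with h6 | h6
  · rw [h _ h6, zero_mul]
  · rw [h' _ (by omega), mul_zero]

private theorem blkZ_zero (p : MvPolynomial (Fin 2) A) : BlkZO 0 p := fun _ hm =>
  absurd hm (Nat.not_lt_zero _)

private theorem blkZ_one {p : MvPolynomial (Fin 2) A} (h : coeff 0 p = 0) : BlkZO 1 p := by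
  intro m hm
  have h1 : m = 0 := by
    ext j
    fin_cases j
    · simp
      omega
    · simp
      omega
  rw [h1, h]

private theorem blkZ_two {p : MvPolynomial (Fin 2) A} (h : coeff 0 p = 0)
    (h0 : coeff (Finsupp.single 0 1) p = 0) (h1 : coeff (Finsupp.single 1 1) p = 0) :
    BlkZO 2 p := by
  intro m hm
  rcases Nat.lt_or_ge (m 0 + m 1) 1 with h2 | h2
  · exact blkZ_one h m h2
  · rcases Nat.eq_zero_or_pos (m 0) with h3 | h3
    · have h4 : m = Finsupp.single 1 1 := by
        ext j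
        fin_cases j
        · simp [h3]
        · simp
          omega
      rw [h4, h1]
    · have h4 : m = Finsupp.single 0 1 := by
        ext j
        fin_cases j
        · simp
          omega
        · simp
          omega
      rw [h4, h0]

private theorem blkZ_pow1 {p : MvPolynomial (Fin 2) A} (h : BlkZO 1 p) (B : ℕ) :
    BlkZO B (p ^ B) := by
  induction B with
  | zero => exact blkZ_zero _
  | succ B ih =>
    rw [pow_succ]
    exact blkZ_mul ih h

private theorem blkZ_add {n : ℕ} {p q : MvPolynomial (Fin 2) A} (h : BlkZO n p)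
    (h' : BlkZO n q) : BlkZO n (p + q) := fun m hm => by
  rw [coeff_add, h m hm, h' m hm, add_zero]

private theorem blkZ_pow {p l : MvPolynomial (Fin 2) A} (hp : BlkZO 1 p) (hl : BlkZO 1 l)
    (h : BlkZO 2 (p - l)) (B : ℕ) : BlkZO (B + 1) (p ^ B - l ^ B) := by
  induction B with
  | zero =>
    rw [pow_zero, pow_zero, sub_self]
    exact fun m _ => coeff_zero m
  | succ B ih =>
    have h1 : p ^ (B + 1) - l ^ (B + 1) = p * (p ^ B - l ^ B) + (p - l) * l ^ B := by ring
    rw [h1]
    refine blkZ_add ?_ ?_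
    · have h2 := blkZ_mul hp ih
      rwa [show 1 + (B + 1) = B + 1 + 1 by ring] at h2
    · have h2 := blkZ_mul h (blkZ_pow1 hl B)
      rwa [show 2 + B = B + 1 + 1 by ring] at h2

/-- the linear part -/
private noncomputable def blkZ_lin (g : Fin 2 → A) : MvPolynomial (Fin 2) A :=
  C (g 0) * X 0 + C (g 1) * X 1

private theorem blkZ_lin_c0 (g : Fin 2 → A) : coeff 0 (blkZ_lin g) = 0 := by
  rw [blkZ_lin, coeff_add, coeff_C_mul, coeff_C_mul, coeff_zero_X, coeff_zero_X, mul_zero,
    mul_zero, add_zero]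

private theorem blkZ_lin_c1 (g : Fin 2 → A) (j : Fin 2) :
    coeff (Finsupp.single j 1) (blkZ_lin g) = g j := by
  classical
  rw [blkZ_lin, coeff_add, coeff_C_mul, coeff_C_mul, coeff_X, coeff_X]
  fin_cases j
  · have h1 : ¬ ((Finsupp.single 1 1 : Fin 2 →₀ ℕ) = Finsupp.single 0 1) := by
      intro h
      have := DFunLike.congr_fun h 0
      simp at this
    simp [h1]
  · have h1 : ¬ ((Finsupp.single 0 1 : Fin 2 →₀ ℕ) = Finsupp.single 1 1) := by
      intro h
      have := DFunLike.congr_fun h 0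
      simp at this
    simp [h1]

private theorem blkZ_lin_hom (g : Fin 2 → A) (B : ℕ) : (blkZ_lin g ^ B).IsHomogeneous B := by
  have h1 : (blkZ_lin g).IsHomogeneous 1 := by
    refine IsHomogeneous.add ?_ ?_
    · have := (isHomogeneous_C (Fin 2) (g 0)).mul (isHomogeneous_X A (0 : Fin 2))
      rwa [zero_add] at this
    · have := (isHomogeneous_C (Fin 2) (g 1)).mul (isHomogeneous_X A (1 : Fin 2))
      rwa [zero_add] at this
  have h2 := h1.pow B
  rwa [one_mul] at h2

private theorem blkZ_lin_zero (g : Fin 2 → A) {B : ℕ} {m : Fin 2 →₀ ℕ} (h : m 0 + m 1 ≠ B) :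
    coeff m (blkZ_lin g ^ B) = 0 := by
  refine (blkZ_lin_hom g B).coeff_eq_zero ?_
  rw [Finsupp.degree_eq_sum, Fin.sum_univ_two]
  exact h

private theorem blkZ_lin_ne [IsDomain A] {g : Fin 2 → A} (hg : ∃ j, g j ≠ 0) (B : ℕ) :
    ∃ m : Fin 2 →₀ ℕ, m 0 + m 1 = B ∧ coeff m (blkZ_lin g ^ B) ≠ 0 := by
  have h1 : blkZ_lin g ≠ 0 := by
    obtain ⟨j, hj⟩ := hg
    intro h
    apply hj
    rw [← blkZ_lin_c1 g j, h, coeff_zero]
  obtain ⟨m, hm⟩ := ne_zero_iff.1 (pow_ne_zero B h1)
  refine ⟨m, ?_, hm⟩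
  by_contra h2
  exact hm (blkZ_lin_zero g h2)

private theorem blkZ_lin_rel (g : Fin 2 → A) (B : ℕ) (m : Fin 2 →₀ ℕ) :
    ((m 0 + 1 : ℕ) : A) * coeff (m + Finsupp.single 0 1) (blkZ_lin g ^ B) * g 1 =
      ((m 1 + 1 : ℕ) : A) * coeff (m + Finsupp.single 1 1) (blkZ_lin g ^ B) * g 0 := by
  have h0 : pderiv 0 (blkZ_lin g) = C (g 0) := by
    rw [blkZ_lin, map_add, pderiv_C_mul, pderiv_C_mul, pderiv_X_self,
      pderiv_X_of_ne (by decide), mul_one, mul_zero, add_zero]
  have h1 : pderiv 1 (blkZ_lin g) = C (g 1) := by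
    rw [blkZ_lin, map_add, pderiv_C_mul, pderiv_C_mul, pderiv_X_self,
      pderiv_X_of_ne (by decide), mul_one, mul_zero, zero_add]
  have h2 : C (g 1) * pderiv 0 (blkZ_lin g ^ B) = C (g 0) * pderiv 1 (blkZ_lin g ^ B) := by
    rw [pderiv_pow, pderiv_pow, h0, h1]
    ring
  have h3 := congrArg (coeff m) h2
  rw [coeff_C_mul, coeff_C_mul, coeff_pderiv, coeff_pderiv] at h3
  push_cast
  linear_combination h3

/-- the lowest homogeneous part of a product -/
private theorem blkZ_low (z : Fin 2 → A) (G W : MvPolynomial (Fin 2) A) (hG : eval z G = 0)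
    (B : ℕ) {m : Fin 2 →₀ ℕ} (hm : m 0 + m 1 ≤ B) :
    coeff m (blkZ_sh z (G ^ B * W)) =
      eval z W * coeff m (blkZ_lin (fun j => eval z (pderiv j G)) ^ B) := by
  set l := blkZ_lin (fun j => eval z (pderiv j G)) with hl
  have hp : BlkZO 1 (blkZ_sh z G) := blkZ_one (by rw [blkZ_c0, hG])
  have hl1 : BlkZO 1 l := blkZ_one (blkZ_lin_c0 _)
  have h2 : BlkZO 2 (blkZ_sh z G - l) := by
    refine blkZ_two ?_ ?_ ?_
    · rw [coeff_sub, blkZ_c0, hG, hl, blkZ_lin_c0, sub_zero]
    · rw [coeff_sub, blkZ_c1, hl, blkZ_lin_c1, sub_self]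
    · rw [coeff_sub, blkZ_c1, hl, blkZ_lin_c1, sub_self]
  have h3 : BlkZO (B + 1) (blkZ_sh z G ^ B * (blkZ_sh z W - C (eval z W))) :=
    blkZ_mul (blkZ_pow1 hp B) (blkZ_one (by
      rw [coeff_sub, blkZ_c0, coeff_zero_C, sub_self]))
  have h4 : BlkZO (B + 1) (C (eval z W) * (blkZ_sh z G ^ B - l ^ B)) := by
    have h5 := blkZ_mul (blkZ_zero (C (eval z W))) (blkZ_pow hp hl1 h2 B)
    rwa [zero_add] at h5
  have h5 : blkZ_sh z (G ^ B * W) - C (eval z W) * l ^ B =
      blkZ_sh z G ^ B * (blkZ_sh z W - C (eval z W)) +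
        C (eval z W) * (blkZ_sh z G ^ B - l ^ B) := by
    rw [map_mul, map_pow]
    ring
  have h6 := blkZ_add h3 h4 m (Nat.lt_succ_of_le hm)
  rw [← h5, coeff_sub, coeff_C_mul, sub_eq_zero] at h6
  exact h6

end

theorem block_Z {E : ℕ → ℕ+} {k : Type u} [Field k] [IsAlgClosed k] [CharZero k] {r : ℕ}
    {J : Type} [Fintype J] {a b : ℕ} {mu : Fin r → ℝ} {grp : J → Fin r} {d : Fin r → ℕ}
    {F : J → MvPolynomial (Fin 2) (Lam E k)} (hS : Stt a b mu grp d (fun h => toKL (F h)))
    {c : ℕ → J → AA k} (hc : ∀ h, IsLim E (fun i => c i h) (F h))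
    {P : ℕ → Fin 2 → PowerSeries (Om k)} {C : ℕ → ℕ} {n : ℕ → Fin r → ℕ}
    (hA : Adm grp c P C n) (z : ℕ → Fin 2 → PowerSeries k) (hz : ∃ j, ¬ Nul E (fun i => z i j))
    (hP : Near E P z) : Dom E mu grp c C n := by
  classical
  set z' : Fin 2 → Lam E k := fun j => lm E (fun i => z i j) with hz'
  have hz0 : z' ≠ 0 := by
    obtain ⟨j, hj⟩ := hz
    intro h
    exact hj (lm_eq_zero.1 (congrFun h j))
  obtain ⟨G, B, W, v, hG0, hG1, hfac, hj, hj1, hj2⟩ := z_alg hS z' hz0
  set g : Fin 2 → Lam E k := fun j => eval z' (pderiv j G) with hg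
  -- null members
  have hnul : ∀ h, Nul E (fun i => c i h) ↔ F h = 0 := by
    intro h
    rw [nul_iff_mc (hc h).1]
    constructor
    · intro h1
      ext m
      rw [(hc h).2 m, coeff_zero]
      exact lm_eq_zero.2 (h1 m)
    · intro h1 m
      rw [← lm_eq_zero, ← (hc h).2 m, h1, coeff_zero]
  -- limits of the Taylor coefficients at `z`
  have hlim : ∀ h m, coeff m (blkZ_sh z' (F h)) = lm E (fun i => mc (cent (z i) (c i h)) m) := by
    intro h m
    have h1 : IsLim E (fun i => ev (fun j => (M3.cA (z i j) + M3.xA j : AA k)) (c i h))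
        (aeval (fun j => MvPolynomial.C (z' j) + X j) (F h)) :=
      (hc h).ev fun j => (IsLim.cA fun i => z i j).add (IsLim.xA j)
    exact h1.2 m
  -- Taylor coefficients at `P`
  have hdif : ∀ h m, Nul E (fun i => mc (cent (P i) (c i h)) m -
      PowerSeries.map (algebraMap k (Om k)) (mc (cent (z i) (c i h)) m)) := by
    intro h m
    choose f hf using fun i => exists_hasse (c i h) m
    have h1 := nul_ev_sub (R := Om k) hP f
    refine h1.congr (Filter.Eventually.of_forall fun i => ?_)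
    rw [hf i (Om k) (P i), hf i k (z i)]
    congr 1
    exact (ev_map (Algebra.ofId k (Om k)) (z i) (f i)).symm
  have hiff : ∀ h m, Nul E (fun i => mc (cent (P i) (c i h)) m) ↔
      coeff m (blkZ_sh z' (F h)) = 0 := by
    intro h m
    rw [hlim, lm_eq_zero, ← nul_map_iff (algebraMap k (Om k))]
    constructor
    · intro h1
      have h2 := h1.sub (hdif h m)
      refine h2.congr (Filter.Eventually.of_forall fun i => ?_)
      ring
    · intro h1
      have h2 := h1.add (hdif h m)
      refine h2.congr (Filter.Eventually.of_forall fun i => ?_)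
      ring
  -- the coefficients of low degree
  have hlow : ∀ h, F h ≠ 0 → ∀ m : Fin 2 →₀ ℕ, m 0 + m 1 ≤ B h →
      v h * coeff m (blkZ_sh z' (F h)) = eval z' (W h) * coeff m (blkZ_lin g ^ B h) := by
    intro h hF m hm
    have h1 := congrArg (fun p => coeff m (blkZ_sh z' p)) (hfac h hF).2.2
    have h2 : blkZ_sh z' (MvPolynomial.C (v h)) = MvPolynomial.C (v h) := by
      rw [blkZ_sh, aeval_C, MvPolynomial.algebraMap_eq]
    simp only [map_mul (blkZ_sh z') (MvPolynomial.C (v h)) (F h), h2, coeff_C_mul] at h1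
    rw [h1, blkZ_low z' G (W h) hG0 (B h) hm]
  obtain ⟨u', hu'⟩ : ∃ u' : Fin 2 → ℕ → PowerSeries k, lm E (u' 0) = g 1 ∧
      lm E (u' 1) = -g 0 := by
    obtain ⟨a0, ha0⟩ := lm_surj (g 1)
    obtain ⟨a1, ha1⟩ := lm_surj (-g 0)
    exact ⟨![a0, a1], ha0, ha1⟩
  refine jet_dom hS.hmu hA (fun i j => PowerSeries.map (algebraMap k (Om k)) (u' j i)) ?_ B
    ?_ ?_ ?_ hj ?_ hj2
  · obtain ⟨j, hj⟩ := hG1
    fin_cases j
    · refine ⟨1, fun h1 => ?_⟩
      have h2 := lm_eq_zero.2 ((nul_map_iff (algebraMap k (Om k))).1 h1)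
      have h3 : lm E (u' 1) = 0 := h2
      rw [hu'.2, neg_eq_zero] at h3
      exact hj h3
    · refine ⟨0, fun h1 => ?_⟩
      have h2 := lm_eq_zero.2 ((nul_map_iff (algebraMap k (Om k))).1 h1)
      have h3 : lm E (u' 0) = 0 := h2
      rw [hu'.1] at h3
      exact hj h3
  · intro h hn m hm
    have hF : F h ≠ 0 := fun h0 => hn ((hnul h).2 h0)
    rw [hiff]
    have h1 := hlow h hF m hm.le
    rw [blkZ_lin_zero g (by omega), mul_zero] at h1
    exact (mul_eq_zero.1 h1).resolve_left (hfac h hF).1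
  · intro h hn
    have hF : F h ≠ 0 := fun h0 => hn ((hnul h).2 h0)
    obtain ⟨m, hm, hne⟩ := blkZ_lin_ne (g := g) hG1 (B h)
    refine ⟨m, hm, fun h0 => ?_⟩
    rw [hiff] at h0
    have h1 := hlow h hF m hm.le
    rw [h0, mul_zero] at h1
    rcases mul_eq_zero.1 h1.symm with h2 | h2
    · exact (hfac h hF).2.1 h2
    · exact hne h2
  · intro h hn m hm
    have hF : F h ≠ 0 := fun h0 => hn ((hnul h).2 h0)
    have e0 : (m + Finsupp.single 0 1 : Fin 2 →₀ ℕ) 0 +
        (m + Finsupp.single 0 1 : Fin 2 →₀ ℕ) 1 = B h := by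
      simp
      omega
    have e1 : (m + Finsupp.single 1 1 : Fin 2 →₀ ℕ) 0 +
        (m + Finsupp.single 1 1 : Fin 2 →₀ ℕ) 1 = B h := by
      simp
      omega
    have h0 := hlow h hF _ e0.le
    have h1 := hlow h hF _ e1.le
    have h2 := blkZ_lin_rel g (B h) m
    have h3 : ((m 0 + 1 : ℕ) : Lam E k) * coeff (m + Finsupp.single 0 1) (blkZ_sh z' (F h)) *
        g 1 + ((m 1 + 1 : ℕ) : Lam E k) * coeff (m + Finsupp.single 1 1) (blkZ_sh z' (F h)) *
        (-g 0) = 0 := by
      refine (mul_eq_zero.1 ?_).resolve_left (hfac h hF).1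
      linear_combination ((m 0 + 1 : ℕ) : Lam E k) * g 1 * h0 -
        ((m 1 + 1 : ℕ) : Lam E k) * g 0 * h1 + eval z' (W h) * h2
    have h4 : Nul E (fun i =>
        ((m 0 + 1 : ℕ) : PowerSeries k) *
          mc (cent (z i) (c i h)) (m + Finsupp.single 0 1) * u' 0 i +
        ((m 1 + 1 : ℕ) : PowerSeries k) *
          mc (cent (z i) (c i h)) (m + Finsupp.single 1 1) * u' 1 i) := by
      rw [← lm_eq_zero]
      have h5 : (fun i =>
          ((m 0 + 1 : ℕ) : PowerSeries k) *
            mc (cent (z i) (c i h)) (m + Finsupp.single 0 1) * u' 0 i +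
          ((m 1 + 1 : ℕ) : PowerSeries k) *
            mc (cent (z i) (c i h)) (m + Finsupp.single 1 1) * u' 1 i) =
          ((m 0 + 1 : ℕ) : ℕ → PowerSeries k) *
            (fun i => mc (cent (z i) (c i h)) (m + Finsupp.single 0 1)) * u' 0 +
          ((m 1 + 1 : ℕ) : ℕ → PowerSeries k) *
            (fun i => mc (cent (z i) (c i h)) (m + Finsupp.single 1 1)) * u' 1 := rfl
      rw [h5, map_add, map_mul, map_mul, map_mul, map_mul, map_natCast, map_natCast, ← hlim,
        ← hlim, hu'.1, hu'.2]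
      exact h3
    have h5 := h4.map (algebraMap k (Om k))
    have h6 := ((hdif h (m + Finsupp.single 0 1)).mul_right fun i =>
      ((m 0 + 1 : ℕ) : PowerSeries (Om k)) *
        PowerSeries.map (algebraMap k (Om k)) (u' 0 i)).add
      ((hdif h (m + Finsupp.single 1 1)).mul_right fun i =>
      ((m 1 + 1 : ℕ) : PowerSeries (Om k)) *
        PowerSeries.map (algebraMap k (Om k)) (u' 1 i))
    refine (h5.add h6).congr (Filter.Eventually.of_forall fun i => ?_)
    simp only [map_add, map_mul, map_natCast]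
    ring
  · intro j
    exact ⟨(hj1 j).1, fun h0 => (hj1 j).2 ((hnul _).1 h0)⟩

end M4
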