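import Pool.Agent.M4.BlkH
import Pool.Agent.M4.BlkL
import Pool.Agent.M4.BlkZ
import Pool.Agent.M4.BlkB
import Pool.Agent.M4.BlkG
import Pool.Agent.M4.BlkC
import Pool.Agent.M4.BlkU
import Pool.Agent.M3.BlkW

/-!
PROJECT M4: the recursion and the main theorem on limits of families of functions on the polydisc.
-/

open MvPolynomial

namespace M4

open M3

universe u

/-- a state with a sequence which is not dominated -/
structure Bad (E : ℕ → ℕ+) (k : Type u) [Field k] {r : ℕ} {J : Type} (lam : Fin r → ℝ)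
    (grp : J → Fin r) where
  a : ℕ
  b : ℕ
  l : ℝ
  d : Fin r → ℕ
  F : J → MvPolynomial (Fin 2) (Lam E k)
  c : ℕ → J → AA k
  P : ℕ → Fin 2 → PowerSeries (Om k)
  C : ℕ → ℕ
  n : ℕ → Fin r → ℕ
  hl : 1 ≤ l
  hS : Stt a b (fun j => l * lam j) grp d (fun h => toKL (F h))
  hc : ∀ h, IsLim E (fun i => c i h) (F h)
  hA : Adm grp c P C n
  bad : ¬ Dom E (fun j => l * lam j) grp c C n

section
variable {E : ℕ → ℕ+} {k : Type u} [Field k] [IsAlgClosed k] [CharZero k] {r : ℕ} {J : Type}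
  [Fintype J]

theorem coeff_toKL (F : MvPolynomial (Fin 2) (Lam E k)) (m : Fin 2 →₀ ℕ) :
    coeff m (toKL F) = 0 ↔ coeff m F = 0 := by
  unfold toKL
  rw [coeff_map]
  exact map_eq_zero_iff _ (IsFractionRing.injective _ _)

/-- a polynomial which is not zero is not a limit of null sequences -/
theorem not_nul_of_lim {c : ℕ → AA k} {F : MvPolynomial (Fin 2) (Lam E k)} (hc : IsLim E c F)
    (hF : F ≠ 0) : ¬ Nul E c := by
  obtain ⟨m, hm⟩ := MvPolynomial.ne_zero_iff.1 hF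
  intro h
  apply hm
  rw [hc.2 m, lm_eq_zero]
  intro M
  filter_upwards [h M] with i hi
  exact (X_pow_dvd_iff_mc _ _).1 hi m

/-- a polynomial which is not divisible by `X j ^ (n + 1)` has a monomial with exponent `≤ n` -/
theorem exists_mono {κ : Type u} [Field κ] {F : MvPolynomial (Fin 2) κ} {j : Fin 2} {n : ℕ}
    (h : ¬ (X j : MvPolynomial (Fin 2) κ) ^ (n + 1) ∣ F) : ∃ e, coeff e F ≠ 0 ∧ e j ≤ n := by
  by_contra hcon
  push Not at hcon
  apply h
  have h1 : (X j : MvPolynomial (Fin 2) κ) ^ (n + 1) = monomial (Finsupp.single j (n + 1)) 1 := by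
    rw [X_pow_eq_monomial]
  rw [h1, monomial_one_dvd_iff_modMonomial_eq_zero]
  ext1 e
  rw [coeff_zero]
  by_cases he : Finsupp.single j (n + 1) ≤ e
  · exact coeff_modMonomial_of_le _ he
  · rw [coeff_modMonomial_of_not_le _ he]
    by_contra h2
    apply he
    rw [Finsupp.single_le_iff]
    exact hcon e h2

/-- one step -/
theorem bad_step {lam : Fin r → ℝ} {grp : J → Fin r} (S : Bad E k lam grp) :
    ∃ S' : Bad E k lam grp, S.l < S'.l ∨ (S.l = S'.l ∧ S.b * S'.a < S'.b * S.a) := by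
  have hlow := block_H S.hS S.hc
  have ne : ∀ j, ∃ h, grp h = j ∧ ¬ Nul E (fun i => S.c i h) := by
    intro j
    obtain ⟨h, hj, hh⟩ := S.hS.ne j
    refine ⟨h, hj, not_nul_of_lim (S.hc h) fun h0 => hh ?_⟩
    show toKL (S.F h) = 0
    rw [h0, map_zero]
  by_cases hr : ∃ z, Near E S.P z
  swap
  · exact absurd (block_B S.hS.hmu (fun h => (S.hc h).1) ne hlow S.hA
      fun z hz => hr ⟨z, hz⟩) S.bad
  obtain ⟨z, hz⟩ := hr
  by_cases hz0 : ∃ j, ¬ Nul E (fun i => z i j)
  · exact absurd (block_Z S.hS S.hc S.hA z hz0 hz) S.bad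
  have hP : ∀ j, Nul E (fun i => S.P i j) := by
    intro j
    have h1 : Nul E (fun i => z i j) := by
      by_contra h
      exact hz0 ⟨j, h⟩
    intro M
    filter_upwards [hz j M, h1 M] with i hi h2
    have h3 : (PowerSeries.X : PowerSeries (Om k)) ^ (M * (E i : ℕ)) ∣
        PowerSeries.map (algebraMap k (Om k)) (z i j) := by
      have h4 := map_dvd (PowerSeries.map (algebraMap k (Om k))) h2
      rwa [map_pow, PowerSeries.map_X] at h4
    have := dvd_add hi h3
    rwa [sub_add_cancel] at this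
  obtain ⟨G, c', P', C', n', hG, hc', hA', hD', hT⟩ := block_C S.hS S.hc S.hA hP
  have hF : ∀ h e, coeff e (S.F h) ≠ 0 → wt S.a S.b e = S.d (grp h) := fun h e he =>
    S.hS.hom h e fun h0 => he ((coeff_toKL _ _).1 h0)
  have hb : 0 < S.b := lt_of_lt_of_le S.hS.ha S.hS.hab
  have hlow' := lowB_top S.hS.ha hb S.hS.hmu hF hG S.hc hc' hlow
  have ne' : ∀ j, ∃ h, grp h = j ∧ ¬ Nul E (fun i => c' i h) := by
    intro j
    obtain ⟨h, hj, hh⟩ := S.hS.ne j
    refine ⟨h, hj, not_nul_of_lim (hc' h) fun h0 => hh ?_⟩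
    show toKL (S.F h) = 0
    have : S.F h = 0 := by
      ext1 e
      rw [coeff_zero]
      by_contra he
      have h1 := hF h e he
      have h2 := hG h e h1.ge
      rw [h0, coeff_zero] at h2
      exact he h2.symm
    rw [this, map_zero]
  by_cases hr' : ∃ z, Near E P' z
  swap
  · exact absurd (hD' (block_B S.hS.hmu (fun h => (hc' h).1) ne' hlow' hA'
      fun z hz => hr' ⟨z, hz⟩)) S.bad
  obtain ⟨z', hz'⟩ := hr'
  rcases block_G S.hS.hmu (fun h => (hc' h).1) hlow' hA' z' hz' with hD | ⟨a', b', l', d', χ, N,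
    F', c'', P'', C'', n'', hl', hS', hχ, hzc, hd', hc'', hA'', hD''⟩
  · exact absurd (hD' hD) S.bad
  have hmul : (fun j => l' * (S.l * lam j)) = fun j => (l' * S.l) * lam j := by
    funext j
    ring
  rw [hmul] at hS' hD''
  refine ⟨⟨a', b', l' * S.l, d', F', c'', P'', C'', n'', ?_, hS', hc'', hA'',
    fun h => S.bad (hD' (hD'' h))⟩, ?_⟩
  · nlinarith [S.hl]
  show S.l < l' * S.l ∨ (S.l = l' * S.l ∧ S.b * a' < b' * S.a)
  rcases hl'.lt_or_eq with h1 | h1
  · left
    nlinarith [S.hl]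
  · right
    subst h1
    rw [one_mul]
    refine ⟨rfl, ?_⟩
    have hs : ∑ j, (S.l * lam j) * (d' j : ℝ) = a' + b' := by
      have := hS'.sum
      rw [one_mul] at this
      exact this
    obtain ⟨h2, h3⟩ := block_U S.hS hG hc' hχ z' hzc hS'.ha hS'.hab hS'.cop hs hd'
    rcases h2.lt_or_eq with h4 | h4
    · exact h4
    · exact absurd (h3 h4) (hT z' hz')

/-- the integral data of a state -/
theorem bad_data {lam : Fin r → ℝ} {grp : J → Fin r} (S : Bad E k lam grp) :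
    ∃ vL vR : Fin r → ℕ × ℕ, (∀ j, S.a * (vL j).1 + S.b * (vL j).2 = S.d j) ∧
      (∀ j, S.a * (vR j).1 + S.b * (vR j).2 = S.d j) ∧
      S.l * ∑ j, lam j * (vL j).1 < 1 ∧ S.l * ∑ j, lam j * (vR j).2 < 1 := by
  obtain ⟨B, hB, hB1⟩ := S.hS.mx
  obtain ⟨B', hB', hB1'⟩ := S.hS.my
  have h1 : ∀ j, ∃ e : Fin 2 →₀ ℕ, wt S.a S.b e = S.d j ∧ e 0 ≤ B j := by
    intro j
    obtain ⟨h, hj, hh⟩ := hB j
    obtain ⟨e, he, he'⟩ := exists_mono hh
    exact ⟨e, by rw [S.hS.hom h e he, hj], he'⟩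
  have h2 : ∀ j, ∃ e : Fin 2 →₀ ℕ, wt S.a S.b e = S.d j ∧ e 1 ≤ B' j := by
    intro j
    obtain ⟨h, hj, hh⟩ := hB' j
    obtain ⟨e, he, he'⟩ := exists_mono hh
    exact ⟨e, by rw [S.hS.hom h e he, hj], he'⟩
  choose e he1 he2 using h1
  choose e' he1' he2' using h2
  have key : ∀ (D D' : Fin r → ℕ), (∀ j, D j ≤ D' j) → ∑ j, (S.l * lam j) * (D' j : ℝ) < 1 →
      S.l * ∑ j, lam j * (D j : ℝ) < 1 := by
    intro D D' hD hD'
    refine lt_of_le_of_lt ?_ hD'
    rw [Finset.mul_sum]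
    refine Finset.sum_le_sum fun j _ => ?_
    rw [← mul_assoc]
    have := (S.hS.hmu j).le
    exact mul_le_mul_of_nonneg_left (by exact_mod_cast hD j) this
  refine ⟨fun j => (e j 0, e j 1), fun j => (e' j 0, e' j 1), fun j => he1 j, fun j => he1' j,
    key _ B he2 hB1, key _ B' he2' hB1'⟩

theorem bad_false {lam : Fin r → ℝ} (hlam : ∀ j, 0 < lam j) {grp : J → Fin r}
    (S₀ : Bad E k lam grp) : False := by
  choose nx hnx using fun S : Bad E k lam grp => bad_step S
  choose vL vR h1 h2 h3 h4 using fun S : Bad E k lam grp => bad_data S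
  let s : ℕ → Bad E k lam grp := fun i => nx^[i] S₀
  have hs : ∀ i, s (i + 1) = nx (s i) := fun i => Function.iterate_succ_apply' nx i S₀
  refine no_chain lam hlam (fun i => (s i).l) (fun i => (s i).a) (fun i => (s i).b)
    (fun i => (s i).d) (fun i => vL (s i)) (fun i => vR (s i)) (s 0).hl (fun i => (s i).hS.ha)
    (fun i => (s i).hS.hab) ?_ (fun i => h1 (s i)) (fun i => h2 (s i)) (fun i => h3 (s i))
    (fun i => h4 (s i)) ?_
  · intro i
    have := (s i).hS.sum
    rw [← this, Finset.mul_sum]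
    exact Finset.sum_congr rfl fun j _ => by ring
  · intro i
    show (s i).l < (s (i + 1)).l ∨ _
    rw [hs]
    exact hnx (s i)

/-- the limit theorem -/
theorem m4_main {lam : Fin r → ℝ} (hlam : ∀ j, 0 < lam j) {grp : J → Fin r}
    {c : ℕ → J → AA k} (tm : ∀ h, Tame E (fun i => c i h))
    (ne : ∀ j, ∃ h, grp h = j ∧ ¬ Nul E (fun i => c i h)) (hL : LowB E lam grp c)
    {P : ℕ → Fin 2 → PowerSeries (Om k)} {C : ℕ → ℕ} {n : ℕ → Fin r → ℕ}
    (hA : Adm grp c P C n) : Dom E lam grp c C n := by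
  by_cases hr : ∃ z, Near E P z
  swap
  · exact block_B hlam tm ne hL hA fun z hz => hr ⟨z, hz⟩
  obtain ⟨z, hz⟩ := hr
  rcases block_G hlam tm hL hA z hz with hD | ⟨a', b', l', d', χ, N, F', c'', P'',
    C'', n'', hl', hS', hχ, hz', hd', hc'', hA'', hD''⟩
  · exact hD
  · by_contra hbad
    exact bad_false hlam ⟨a', b', l', d', F', c'', P'', C'', n'', hl', hS', hc'', hA'',
      fun h => hbad (hD'' h)⟩

end

end M4
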