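import Pool.Agent.M4.XArc
import Pool.Agent.M4.Rec
import Pool.Agent.M3.XMain

/-!
PIECE M4-X03: the main theorem: uniform ideal-adic semicontinuity of minimal log discrepancies of R-ideals
on `A^3`.
-/

open MvPolynomial Filter

namespace M4

open M3 MLD

universe u

section
variable {k : Type u} [Field k] [IsAlgClosed k] [CharZero k]

/-- for fixed positive exponents: if `a ≡ b` modulo a large power of `m` and `a` is log canonical then
`mld a ≤ mld b` -/
theorem semi_fixed {r : ℕ} (lam : Fin r → ℝ) (hlam : ∀ j, 0 < lam j) :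
    ∃ s : ℕ, ∀ a b : Fin r → Ideal (MvPolynomial (Fin 3) k), (∀ j, a j ≠ ⊥) → (∀ j, b j ≠ ⊥) →
      (∀ j, a j ⊔ mm k (Fin 3) ^ s = b j ⊔ mm k (Fin 3) ^ s) → 0 ≤ mld lam a →
      mld lam a ≤ mld lam b := by
  classical
  by_contra hcon
  push Not at hcon
  choose a b ha hb hab hlc hlt using hcon
  obtain ⟨E₃, hE₃, -, hl₃⟩ := Bdd3_blowup k
  have hF : ∀ i, ∃ F : DivisorOver k (Fin 3), F.CenterZero ∧ F.aDisc lam (b i) < mld lam (a i) := by
    intro i
    by_contra hno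
    push Not at hno
    exact absurd (Q1_le_mld lam (b i) _ hno) (not_le.2 (hlt i))
  choose F hFz hFlt using hF
  have ht3 : ∀ i, mld lam (a i) ≤ ((((3 : ℕ) : ℝ)) : EReal) := by
    intro i
    refine (Q1_mld_le E₃ hE₃ lam (a i)).trans ?_
    obtain ⟨B, -, hB2, hB3⟩ := logDisc_real E₃ _ hl₃
    rw [Q1_aDisc E₃ lam (a i) hB3]
    have h1 : 0 ≤ ∑ j, lam j * (E₃.ordI (a i j) : ℝ) :=
      Finset.sum_nonneg fun j _ => mul_nonneg (hlam j).le (Nat.cast_nonneg _)
    exact EReal.coe_le_coe_iff.2 (by linarith)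
  have htop : ∀ i, (F i).logDisc ≠ ⊤ := by
    intro i ht
    have h1 := (hFlt i).trans_le (ht3 i)
    unfold DivisorOver.aDisc at h1
    rw [ht, EReal.top_sub_coe] at h1
    exact absurd h1 (not_lt.2 le_top)
  choose A hA using fun i => exists_logDisc (F i) (htop i)
  have hlca : ∀ i (F' : DivisorOver k (Fin 3)), F'.CenterZero → ¬ F'.aDisc lam (a i) < 0 :=
    fun i F' hF' => not_lt.2 ((hlc i).trans (Q1_mld_le F' hF' lam (a i)))
  have hneg : ∀ ℓ : ℕ, ∀ᶠ i in Uf, ∀ F' : DivisorOver k (Fin 3), F'.CenterZero →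
      F'.ordI (mm k (Fin 3)) ≤ 1 → F'.logDisc ≤ ((ℓ : ℝ) : EReal) →
      ¬ F'.aDisc lam (b i) < 0 := by
    intro ℓ
    obtain ⟨s, -, hs⟩ := Q1_exists_s lam (fun j => (hlam j).le) ℓ
    filter_upwards [Bdd3_ge s] with i hi F' hF' _ hl'
    have hs' : ∀ j, 0 < lam j → (ℓ : ℝ) < lam j * (i : ℕ) := fun j hj =>
      (hs j hj).trans_le (mul_le_mul_of_nonneg_left (by exact_mod_cast hi) hj.le)
    rcases Q1_transfer lam (fun j => (hlam j).le) hs' (a i) (b i) (ha i) (hb i) (hab i) F' hF' hl'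
      with h | h
    · rw [h]
      exact hlca i F' hF'
    · exact absurd h.1 (hlca i F' hF')
  obtain ⟨M, hM⟩ := mult_bdd hlam b hb 1 le_rfl hneg
  obtain ⟨J, _, grp, p, μ, hp, hd, hne, hH⟩ := gen_seq b M hM
  have hHa := gen_transfer hab hH
  choose i₀' e he harc using fun i => div_to_arc (F i) (hFz i) (A i) (hA i).le
    (∑ j, (F i).ordI (b i j))
  obtain ⟨i₀, hi₀⟩ : ∃ i₀ : Fin 3, ∀ᶠ i in Uf, i₀' i = i₀ :=
    Ultrafilter.eventually_exists_iff.1 (Filter.Eventually.of_forall fun i => ⟨i₀' i, rfl⟩)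
  choose he1 he2 he3 P hP hPf using harc
  let E : ℕ → ℕ+ := fun i => ⟨e i, he i⟩
  have hE : ∀ i, (E i : ℕ) = e i := fun i => rfl
  have hdvs := dvs_of_arcS E a ha grp p μ hd hHa i₀
  have tm : ∀ h, Tame E (fun i => cone i₀ (E i) (μ (grp h)) (p h i)) := fun h =>
    cone_tame E i₀ (μ (grp h)) (p h)
  have ne : ∀ j, ∃ h, grp h = j ∧ ¬ Nul E (fun i => cone i₀ (E i) (μ (grp h)) (p h i)) := by
    intro j
    obtain ⟨h, hj, m, hm, hm'⟩ := hne j
    exact ⟨h, hj, cone_ne E i₀ _ (p h) m (by rw [hm, hj]) hm'⟩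
  have hL : LowB E lam grp (fun i h => cone i₀ (E i) (μ (grp h)) (p h i)) := by
    refine ⟨3, fun ℓ => ?_⟩
    filter_upwards [hdvs ℓ] with i hi L _ _ Q C n _ hn hQ hO
    by_contra hlow
    rw [not_le] at hlow
    obtain ⟨F', g, A₁, hg, hF', hl', hgA, hord⟩ := hi L Q C n hn hQ hO
    have hV : ((C + 3 * (E i : ℕ) : ℕ) : ℝ) - ∑ j, lam j * ((n j + (E i : ℕ) * μ j : ℕ) : ℝ) ≤
        (C : ℝ) + 3 * (E i : ℕ) - ∑ j, lam j * n j := by
      have h3 : ∑ j, lam j * (n j : ℝ) ≤ ∑ j, lam j * ((n j + (E i : ℕ) * μ j : ℕ) : ℝ) := by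
        refine Finset.sum_le_sum fun j _ => mul_le_mul_of_nonneg_left ?_ (hlam j).le
        exact_mod_cast Nat.le_add_right _ _
      push_cast at h3 ⊢
      linarith
    exact hlca i F' hF' ((aDisc_le (fun j => (hlam j).le) (a i) F' g A₁ (C + 3 * (E i : ℕ)) hg hl'
      hgA (fun j => n j + (E i : ℕ) * μ j) hord _ hV).1 (by linarith))
  have hAdm : Adm grp (fun i h => cone i₀ (E i) (μ (grp h)) (p h i)) P (fun i => A i - 3 * e i)
      (fun i j => (F i).ordI (b i j) - e i * μ j) := by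
    filter_upwards [hi₀, hd] with i h1 h4
    refine ⟨hP i, fun h => ?_⟩
    simp only
    by_cases hp0 : p h i = 0
    · rw [hp0, cone_zero, ev_zero]
      exact dvd_zero _
    · by_cases hn : (F i).ordI (b i (grp h)) ≤ e i * μ (grp h)
      · rw [Nat.sub_eq_zero_of_le hn, pow_zero]
        exact one_dvd _
      · have h8 : (F i).ordI (b i (grp h)) - e i * μ (grp h) + e i * μ (grp h) =
            (F i).ordI (b i (grp h)) := by omega
        have h9 := hPf i (p h i) (μ (grp h)) ((F i).ordI (b i (grp h)) - e i * μ (grp h)) hp0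
          (h4 h)
        rw [h1, h8] at h9
        refine h9 ?_ ?_
        · exact Finset.single_le_sum (f := fun j => (F i).ordI (b i j))
            (fun _ _ => Nat.zero_le _) (Finset.mem_univ (grp h))
        · exact ordI_le (F i) (hp h i) hp0
  obtain ⟨ℓ, hℓ⟩ := m4_main hlam tm ne hL hAdm
  obtain ⟨i, hi1, hi2⟩ := (hℓ.and (hdvs ℓ)).exists
  obtain ⟨Q, C', n', hC', hn', hQ, hO, hval⟩ := hi1
  obtain ⟨F', g, A₁, hg, hF', hl', hgA, hord⟩ := hi2 (Om k) Q C' n' hn' hQ hO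
  have hEi := Q1_aDisc (F i) lam (b i) (hA i)
  obtain ⟨hc1, hc2⟩ := aDisc_le (fun j => (hlam j).le) (a i) F' g A₁ (C' + 3 * (E i : ℕ)) hg hl'
    hgA (fun j => n' j + (E i : ℕ) * μ j) hord
    ((A i : ℝ) - ∑ j, lam j * ((F i).ordI (b i j) : ℝ)) (by
      have h1 : ∑ j, lam j * ((F i).ordI (b i j) : ℝ) ≤
          ∑ j, lam j * (((F i).ordI (b i j) - e i * μ j : ℕ) : ℝ) +
            ∑ j, lam j * (e i * μ j : ℕ) := by
        rw [← Finset.sum_add_distrib]
        refine Finset.sum_le_sum fun j _ => ?_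
        rw [← mul_add]
        refine mul_le_mul_of_nonneg_left ?_ (hlam j).le
        have : (F i).ordI (b i j) ≤ ((F i).ordI (b i j) - e i * μ j) + e i * μ j := by omega
        exact_mod_cast this
      have h2 : ∑ j, lam j * ((n' j + (E i : ℕ) * μ j : ℕ) : ℝ) =
          ∑ j, lam j * (n' j : ℝ) + ∑ j, lam j * (e i * μ j : ℕ) := by
        rw [← Finset.sum_add_distrib]
        refine Finset.sum_congr rfl fun j _ => ?_
        rw [hE]
        push_cast
        ring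
      have h3 : ((A i - 3 * e i : ℕ) : ℝ) = A i - 3 * e i := by
        rw [Nat.cast_sub (he3 i)]
        push_cast
        ring
      have h4 : ((C' + 3 * (E i : ℕ) : ℕ) : ℝ) = C' + 3 * e i := by
        rw [hE]
        push_cast
        ring
      rw [h2, h4]
      rw [h3] at hval
      linarith)
  have hlt' := hFlt i
  rw [hEi] at hlt'
  rcases lt_or_ge ((A i : ℝ) - ∑ j, lam j * ((F i).ordI (b i j) : ℝ)) 0 with h | h
  · exact hlca i F' hF' (hc1 h)
  · exact absurd ((Q1_mld_le F' hF' lam (a i)).trans (hc2 h)) (not_le.2 hlt')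

/-- the same for nonnegative exponents -/
theorem semi_nonneg {r : ℕ} (lam : Fin r → ℝ) (hlam : ∀ j, 0 ≤ lam j) :
    ∃ s : ℕ, ∀ a b : Fin r → Ideal (MvPolynomial (Fin 3) k), (∀ j, a j ≠ ⊥) → (∀ j, b j ≠ ⊥) →
      (∀ j, a j ⊔ mm k (Fin 3) ^ s = b j ⊔ mm k (Fin 3) ^ s) → 0 ≤ mld lam a →
      mld lam a ≤ mld lam b := by
  obtain ⟨r', ι, h1, h2⟩ := xmain_drop (k := k) lam hlam
  obtain ⟨s, hs⟩ := semi_fixed (k := k) (fun i => lam (ι i)) h1
  have h3 : ∀ c : Fin r → Ideal (MvPolynomial (Fin 3) k),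
      mld lam c = mld (fun i => lam (ι i)) (fun i => c (ι i)) := by
    intro c
    unfold mld
    exact iInf_congr fun E => h2 E.1 c
  refine ⟨s, fun a b ha hb hab h0 => ?_⟩
  rw [h3 a] at h0
  rw [h3 a, h3 b]
  exact hs _ _ (fun i => ha _) (fun i => hb _) (fun i => hab _) h0

/-- ideal-adic semicontinuity of minimal log discrepancies on `A^3` -/
theorem q1_main (S : Set ℝ) (hS : S.Finite) (hS0 : ∀ t ∈ S, 0 ≤ t) :
    ∃ s : ℕ, 1 ≤ s ∧ ∀ (r : ℕ) (lam : Fin r → ℝ)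
      (a b : Fin r → Ideal (MvPolynomial (Fin 3) k)), (∀ j, lam j ∈ S) → (∀ j, a j ≠ ⊥) →
      (∀ j, b j ≠ ⊥) → (∀ j, a j ⊔ mm k (Fin 3) ^ s = b j ⊔ mm k (Fin 3) ^ s) →
      (0 ≤ mld lam a ↔ 0 ≤ mld lam b) ∧ (0 ≤ mld lam a → mld lam a = mld lam b) := by
  classical
  obtain ⟨R, t, ht, hg⟩ := xmain_fin S hS
  obtain ⟨s, hs⟩ := semi_nonneg (k := k) t (fun i => hS0 _ (ht i))
  have key : ∀ (r : ℕ) (lam : Fin r → ℝ) (a b : Fin r → Ideal (MvPolynomial (Fin 3) k)),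
      (∀ j, lam j ∈ S) → (∀ j, a j ≠ ⊥) → (∀ j, b j ≠ ⊥) →
      (∀ j, a j ⊔ mm k (Fin 3) ^ (s + 1) = b j ⊔ mm k (Fin 3) ^ (s + 1)) → 0 ≤ mld lam a →
      mld lam a ≤ mld lam b := by
    intro r lam a b hlam ha hb hab
    obtain ⟨g, hg⟩ := hg r lam hlam
    have h1 : ∀ c : Fin r → Ideal (MvPolynomial (Fin 3) k), (∀ j, c j ≠ ⊥) → mld lam c =
        mld t (fun i => ∏ j ∈ Finset.univ.filter (fun j => g j = i), c j) := by
      intro c hc
      unfold mld
      exact iInf_congr fun E => xmain_group lam t g hg c hc E.1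
    have h2 : ∀ j, a j ⊔ mm k (Fin 3) ^ s = b j ⊔ mm k (Fin 3) ^ s := by
      intro j
      have h3 : mm k (Fin 3) ^ (s + 1) ≤ mm k (Fin 3) ^ s := Ideal.pow_le_pow_right (Nat.le_succ s)
      have h4 : ∀ I : Ideal (MvPolynomial (Fin 3) k), I ⊔ mm k (Fin 3) ^ s =
          I ⊔ mm k (Fin 3) ^ (s + 1) ⊔ mm k (Fin 3) ^ s := by
        intro I
        rw [sup_assoc, sup_eq_right.2 h3]
      rw [h4 (a j), h4 (b j), hab j]
    rw [h1 a ha, h1 b hb]
    exact hs _ _ (fun i => xmain_ne a ha _) (fun i => xmain_ne b hb _)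
      (fun i => Q1_prod _ a b _ fun j _ => h2 j)
  refine ⟨s + 1, by omega, fun r lam a b hlam ha hb hab => ?_⟩
  have h1 := key r lam a b hlam ha hb hab
  have h2 := key r lam b a hlam hb ha fun j => (hab j).symm
  exact ⟨⟨fun h => h.trans (h1 h), fun h => h.trans (h2 h)⟩,
    fun h => le_antisymm (h1 h) (h2 (h.trans (h1 h)))⟩

end

end M4
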