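import Pool.Agent.M3.HomP
import Pool.Agent.M3.Smooth
import Pool.Agent.M3.CodCh

/-!
PIECE M4-H01: the lower bound for states at the finite level (all identities only modulo `X^T`).

The data: `F h` homogeneous of weight `d (grp h)` over `k[[τ]]`; `p s`, `s ∈ S`, homogeneous functions; modulo `X^T`
`v h * F h = w h * ∏ p s ^ m h s` with `w h` of order `≤ A` (for the `h` with `nz h`, the other `F h` are not used);
modulo `X^T` Bezout relations of order `≤ A` for `p s`, `p s'` (`s ≠ s'`) and for the partial derivatives of `p s`.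

PROOF (this is `M3.BlkH` with `T` instead of exact identities). Let `P` be an arc over `L/k` with `Cod k P C`,
`X^(n (grp h)) ∣ ev P (toAA (F h))` for all `h`, `n j < T - ...` (see `hn`).
(1) Let `Λ` be maximal with `X^(a Λ) ∣ P 0`, `X^(b Λ) ∣ P 1` (`(a + b) Λ ≤ C` by `cod_vanish` at a large level).  `P 0 = X^(a Λ) * P' 0`,
`P 1 = X^(b Λ) * P' 1`, `Cod k P' (C - (a + b) Λ)` (`cod_chA_inv`), `ev P (toAA (F h)) = X^(d Λ) * ev P' (toAA (F h))`
(`F h` is homogeneous), so `n' j := n j - d j * Λ` satisfies `X^(n' (grp h)) ∣ ev P' (toAA (F h))`, and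
`(C - (a + b) Λ) - ∑ mu j n' j ≤ C - ∑ mu j n j` (`∑ mu j d j = a + b`).  `¬ (X^a ∣ P' 0 ∧ X^b ∣ P' 1)`.
(2) Let `x_l` be the coordinate with `order (P' l) < a + b`.  The Bezout relation `A' p s + B' p s' ≡ W x_l^N` modulo `X^T`
(`N ≤ A`, order of `W` at most `A`): if `X^t` divides `ev P' (p s)` and `ev P' (p s')` then `min t T ≤ A + A (a + b)`; since
`A + A (a + b) < T`: `t ≤ κ₀ := A + A (a + b)`.  In the same way the order of one of the partial derivatives of `p s` at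
`P'` is `≤ κ₀`, so by `cod_smooth`: `r s ≤ C' + 2 κ₀ + 1`, `r s := order (ev P' (p s))` (`C' := C - (a + b) Λ`), in particular it is finite.
(3) Let `s₀` have the largest `r s`; `r s ≤ κ₀` for the other `s`.  For every `j` let `h j` be a member with `nz`,
`m (h j) s₀ ≤ B s₀ j`, `∑ mu j * B s₀ j ≤ 1` (`hB`): `X^(min (n' j) T)` divides `w * ∏ (ev P' (p s))^(m h s)`, so
`n' j ≤ A + κ₀ * ∑ s, m h s + B s₀ j * r s₀` (`n' j ≤ n j < T`).  Hence
`∑ mu j n' j ≤ ∑ mu j * (A + κ₀ * mm) + r s₀ ≤ ∑ mu j * (A + κ₀ * mm) + C' + 2 κ₀ + 1`, `mm` a bound of `∑ s, m h s`.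
If `S` is empty the same estimate with `n' j ≤ A`.
-/

open MvPolynomial

namespace M4

open M3

universe u

/-- congruence of polynomials over `k[[τ]]` modulo `X^T` -/
def PCong {k : Type u} [Field k] (T : ℕ) (F G : MvPolynomial (Fin 2) (PowerSeries k)) : Prop :=
  ∀ m, (PowerSeries.X : PowerSeries k) ^ T ∣ coeff m F - coeff m G

section
variable {k : Type u} [Field k] {L : Type u} [Field L] [Algebra k L]

/-- the evaluation of integral polynomials -/
private noncomputable def hcE (P : Fin 2 → PowerSeries L) :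
    MvPolynomial (Fin 2) (PowerSeries k) →+* PowerSeries L := (evH (k := k) P).comp toAA

private lemma hcE_apply (P : Fin 2 → PowerSeries L) (F : MvPolynomial (Fin 2) (PowerSeries k)) :
    hcE P F = ev P (toAA F) := rfl

private lemma hcE_C (P : Fin 2 → PowerSeries L) (c : PowerSeries k) :
    hcE P (C c) = PowerSeries.map (algebraMap k L) c := by
  rw [hcE_apply, toAA_C, ev_cA]

private lemma hcE_X (P : Fin 2 → PowerSeries L) (j : Fin 2) :
    hcE (k := k) P (X j) = P j := by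
  rw [hcE_apply, toAA_X, ev_xA]

private lemma hc_cong (P : Fin 2 → PowerSeries L) {T : ℕ}
    {F G : MvPolynomial (Fin 2) (PowerSeries k)} (h : PCong T F G) {t : ℕ} (ht : t ≤ T)
    (hF : (PowerSeries.X : PowerSeries L) ^ t ∣ hcE P F) :
    (PowerSeries.X : PowerSeries L) ^ t ∣ hcE P G := by
  have h1 : (C ((PowerSeries.X : PowerSeries k) ^ T) : MvPolynomial (Fin 2) (PowerSeries k)) ∣
      F - G := by
    rw [MvPolynomial.C_dvd_iff_dvd_coeff]
    intro m
    rw [coeff_sub]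
    exact h m
  obtain ⟨H, hH⟩ := h1
  have h2 : (PowerSeries.X : PowerSeries L) ^ t ∣ hcE P F - hcE P G := by
    rw [← map_sub, hH, map_mul, hcE_C, map_pow, PowerSeries.map_X]
    exact Dvd.dvd.mul_right (pow_dvd_pow _ ht) _
  have h3 := dvd_sub hF h2
  rwa [sub_sub_cancel] at h3

private lemma hc_map_order {c : PowerSeries k} {A : ℕ}
    (hc : ¬ (PowerSeries.X : PowerSeries k) ^ (A + 1) ∣ c) :
    (PowerSeries.map (algebraMap k L) c).order ≤ (A : ℕ∞) := by
  rw [PowerSeries.X_pow_dvd_iff] at hc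
  push Not at hc
  obtain ⟨m, hm, hne⟩ := hc
  have h1 : (PowerSeries.map (algebraMap k L) c).order ≤ (m : ℕ∞) := by
    apply PowerSeries.order_le
    rw [PowerSeries.coeff_map]
    intro h
    exact hne ((map_eq_zero _).1 h)
  refine h1.trans ?_
  exact_mod_cast (by omega : m ≤ A)

private lemma hc_dvd_order {K : ℕ} {φ : PowerSeries L} :
    (PowerSeries.X : PowerSeries L) ^ K ∣ φ ↔ (K : ℕ∞) ≤ φ.order := by
  rw [PowerSeries.X_pow_dvd_iff]
  constructor
  · intro h
    exact PowerSeries.le_order _ _ (fun i hi => h i (by exact_mod_cast hi))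
  · intro h m hm
    exact PowerSeries.coeff_of_lt_order _ (lt_of_lt_of_le (by exact_mod_cast hm) h)

private lemma hc_ord {K N A t : ℕ} {c : PowerSeries k}
    (hc : ¬ (PowerSeries.X : PowerSeries k) ^ (A + 1) ∣ c) {ψ : PowerSeries L}
    (hψ : ¬ (PowerSeries.X : PowerSeries L) ^ t ∣ ψ)
    (h : (PowerSeries.X : PowerSeries L) ^ K ∣ PowerSeries.map (algebraMap k L) c * ψ ^ N) :
    K ≤ A + N * t := by
  rw [hc_dvd_order, PowerSeries.order_mul, PowerSeries.order_pow] at h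
  rw [hc_dvd_order, not_le] at hψ
  have h1 : N • ψ.order ≤ ((N * t : ℕ) : ℕ∞) := by
    have h2 : N • ψ.order ≤ N • (t : ℕ∞) := nsmul_le_nsmul_right hψ.le N
    refine h2.trans (le_of_eq ?_)
    rw [nsmul_eq_mul]
    push_cast
    rfl
  have h3 := h.trans (add_le_add (hc_map_order (L := L) hc) h1)
  exact_mod_cast h3

/-- the condition on the arc after the reduction -/
private def hcNot (a b : ℕ) (P : Fin 2 → PowerSeries L) : Prop :=
  ¬ ((PowerSeries.X : PowerSeries L) ^ a ∣ P 0 ∧ (PowerSeries.X : PowerSeries L) ^ b ∣ P 1)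

private lemma hc_not {a b : ℕ} {P : Fin 2 → PowerSeries L} (h : hcNot a b P) :
    ∃ l : Fin 2, ¬ (PowerSeries.X : PowerSeries L) ^ (a + b) ∣ P l := by
  rcases not_and_or.1 h with h0 | h0
  · exact ⟨0, fun h1 => h0 ((pow_dvd_pow _ (Nat.le_add_right a b)).trans h1)⟩
  · exact ⟨1, fun h1 => h0 ((pow_dvd_pow _ (Nat.le_add_left b a)).trans h1)⟩

/-- a Bezout relation modulo `X^T` -/
private lemma hc_key {a b A T : ℕ} {q q' : MvPolynomial (Fin 2) (PowerSeries k)}
    (hbez : ∀ l : Fin 2, ∃ (N : ℕ) (W : PowerSeries k)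
      (A' B' : MvPolynomial (Fin 2) (PowerSeries k)), N ≤ A ∧
        ¬ (PowerSeries.X : PowerSeries k) ^ (A + 1) ∣ W ∧
        PCong T (A' * q + B' * q') (C W * X l ^ N)) (hT : A + A * (a + b) < T)
    {P : Fin 2 → PowerSeries L} (hP : hcNot a b P) :
    ¬ ((PowerSeries.X : PowerSeries L) ^ (A + A * (a + b) + 1) ∣ hcE P q ∧
        (PowerSeries.X : PowerSeries L) ^ (A + A * (a + b) + 1) ∣ hcE P q') := by
  rintro ⟨h1, h2⟩
  obtain ⟨l, hl⟩ := hc_not hP
  obtain ⟨N, W, A', B', hN, hW, hc⟩ := hbez l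
  have h3 : (PowerSeries.X : PowerSeries L) ^ (A + A * (a + b) + 1) ∣ hcE P (A' * q + B' * q') := by
    rw [map_add, map_mul, map_mul]
    exact dvd_add (h1.mul_left _) (h2.mul_left _)
  have h4 := hc_cong P hc (by omega) h3
  rw [map_mul, map_pow, hcE_C, hcE_X] at h4
  have h5 := hc_ord hW hl h4
  have h6 : N * (a + b) ≤ A * (a + b) := Nat.mul_le_mul_right _ hN
  omega

private lemma hc_scale {a b d : ℕ} {F : MvPolynomial (Fin 2) (PowerSeries k)}
    (hF : ∀ e, coeff e F ≠ 0 → wt a b e = d) {P P' : Fin 2 → PowerSeries L}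
    (h0 : P 0 = PowerSeries.X ^ a * P' 0) (h1 : P 1 = PowerSeries.X ^ b * P' 1) :
    hcE P F = PowerSeries.X ^ d * hcE P' F := by
  rw [hcE_apply, hcE_apply, ev_toAA, ev_toAA, eval₂_eq', eval₂_eq', Finset.mul_sum]
  refine Finset.sum_congr rfl (fun e he => ?_)
  have hd := hF e (MvPolynomial.mem_support_iff.1 he)
  rw [Fin.prod_univ_two, Fin.prod_univ_two, h0, h1, mul_pow, mul_pow, ← hd]
  unfold wt
  rw [pow_add, pow_mul, pow_mul]
  ring

private lemma hc_order_le {φ : PowerSeries L} (h : φ ≠ 0) :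
    φ.order = (φ.order.toNat : ℕ∞) := by
  have : φ.order ≠ ⊤ := by
    rw [Ne, PowerSeries.order_eq_top]
    exact h
  exact (ENat.natCast_toNat this).symm

/-- the bound for the order of one function -/
private lemma hc_one {S : Type} [Fintype S] {p : S → MvPolynomial (Fin 2) (PowerSeries k)}
    {F : MvPolynomial (Fin 2) (PowerSeries k)} {m : S → ℕ} {A T : ℕ}
    {v w : PowerSeries k} (hw : ¬ (PowerSeries.X : PowerSeries k) ^ (A + 1) ∣ w)
    (h : PCong T (C v * F) (C w * ∏ s, p s ^ m s))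
    {P : Fin 2 → PowerSeries L} (hs : ∀ s, hcE P (p s) ≠ 0) {n : ℕ} (hnT : n < T)
    (hn : (PowerSeries.X : PowerSeries L) ^ n ∣ hcE P F) :
    n ≤ A + ∑ s, m s * (hcE P (p s)).order.toNat := by
  have h1 : (PowerSeries.X : PowerSeries L) ^ n ∣ hcE P (C w * ∏ s, p s ^ m s) := by
    refine hc_cong P h hnT.le ?_
    rw [map_mul]
    exact Dvd.dvd.mul_left hn _
  rw [map_mul, map_prod, hcE_C, hc_dvd_order, PowerSeries.order_mul, PowerSeries.order_prod] at h1
  have h2 : ∑ s, (hcE P (p s ^ m s)).order =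
      ((∑ s, m s * (hcE P (p s)).order.toNat : ℕ) : ℕ∞) := by
    rw [Nat.cast_sum]
    refine Finset.sum_congr rfl (fun s _ => ?_)
    rw [map_pow, PowerSeries.order_pow, nsmul_eq_mul]
    nth_rewrite 1 [hc_order_le (hs s)]
    push_cast
    rfl
  rw [h2] at h1
  have h3 := h1.trans (add_le_add_left (hc_map_order (L := L) hw) _)
  exact_mod_cast h3

/-- the bound for the contact with one of the curves -/
private lemma hc_contact [CharZero k] {p : MvPolynomial (Fin 2) (PowerSeries k)}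
    {P : Fin 2 → PowerSeries L}
    {K Cc r : ℕ} (h : ¬ ((PowerSeries.X : PowerSeries L) ^ (K + 1) ∣ hcE P (pderiv 0 p) ∧
      (PowerSeries.X : PowerSeries L) ^ (K + 1) ∣ hcE P (pderiv 1 p))) (hC : Cod k P Cc)
    (hr : (PowerSeries.X : PowerSeries L) ^ r ∣ hcE P p) : r ≤ Cc + 2 * K + 1 := by
  have h0 : ∃ t < K + 1, PowerSeries.coeff t (ev P (dA 0 (toAA p))) ≠ 0 ∨
      PowerSeries.coeff t (ev P (dA 1 (toAA p))) ≠ 0 := by
    rcases not_and_or.1 h with h1 | h1
    · rw [PowerSeries.X_pow_dvd_iff] at h1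
      push Not at h1
      obtain ⟨t, ht, h2⟩ := h1
      refine ⟨t, ht, Or.inl ?_⟩
      rw [dA_toAA]
      exact h2
    · rw [PowerSeries.X_pow_dvd_iff] at h1
      push Not at h1
      obtain ⟨t, ht, h2⟩ := h1
      refine ⟨t, ht, Or.inr ?_⟩
      rw [dA_toAA]
      exact h2
  obtain ⟨t, ht, h2⟩ := h0
  have h3 := cod_smooth h2 hr hC
  omega

end

/-- the bound for arcs which are not divisible -/
private lemma hc_bound {k : Type u} [Field k] [CharZero k] {r : ℕ} {J : Type} [Fintype J]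
    {a b : ℕ} {mu : Fin r → ℝ} (hmu : ∀ j, 0 < mu j) {grp : J → Fin r}
    {F : J → MvPolynomial (Fin 2) (PowerSeries k)} {S : Type} [Fintype S]
    {p : S → MvPolynomial (Fin 2) (PowerSeries k)} (nz : J → Prop) (A mm T : ℕ)
    {v w : J → PowerSeries k} {m : J → S → ℕ}
    (hw : ∀ h, nz h → ¬ (PowerSeries.X : PowerSeries k) ^ (A + 1) ∣ w h)
    (hm : ∀ h, ∑ s, m h s ≤ mm)
    (hfac : ∀ h, nz h → PCong T (C (v h) * F h) (C (w h) * ∏ s, p s ^ m h s))
    (hbez : ∀ s s', s ≠ s' → ∀ l : Fin 2, ∃ (N : ℕ) (W : PowerSeries k)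
      (A' B' : MvPolynomial (Fin 2) (PowerSeries k)), N ≤ A ∧
        ¬ (PowerSeries.X : PowerSeries k) ^ (A + 1) ∣ W ∧
        PCong T (A' * p s + B' * p s') (C W * X l ^ N))
    (hgrad : ∀ s, ∀ l : Fin 2, ∃ (N : ℕ) (W : PowerSeries k)
      (A' B' : MvPolynomial (Fin 2) (PowerSeries k)), N ≤ A ∧
        ¬ (PowerSeries.X : PowerSeries k) ^ (A + 1) ∣ W ∧
        PCong T (A' * pderiv 0 (p s) + B' * pderiv 1 (p s)) (C W * X l ^ N))
    (hB : ∀ s, ∃ B : Fin r → ℕ, (∀ j, ∃ h, grp h = j ∧ nz h ∧ m h s ≤ B j) ∧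
      ∑ j, mu j * B j ≤ 1)
    (hnz : ∀ j, ∃ h, grp h = j ∧ nz h) (hT : A + A * (a + b) < T)
    {L : Type u} [Field L] [Algebra k L] {P : Fin 2 → PowerSeries L} {Cc : ℕ} {n : Fin r → ℕ}
    (hPn : hcNot a b P) (hP : Cod k P Cc) (hn : ∀ j, n j < T)
    (hO : ∀ h, (PowerSeries.X : PowerSeries L) ^ n (grp h) ∣ ev P (toAA (F h))) :
    ∑ j, mu j * n j ≤ (Cc : ℝ) + 2 * ((A + A * (a + b) : ℕ) : ℝ) + 1 +
      ∑ j, mu j * ((A + (A + A * (a + b)) * mm : ℕ) : ℝ) := by
  classical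
  obtain ⟨K, hK⟩ : ∃ K, K = A + A * (a + b) := ⟨_, rfl⟩
  rw [← hK]
  have hkey : ∀ s s', s ≠ s' → ¬ ((PowerSeries.X : PowerSeries L) ^ (K + 1) ∣ hcE P (p s) ∧
      (PowerSeries.X : PowerSeries L) ^ (K + 1) ∣ hcE P (p s')) := by
    intro s s' hne
    rw [hK]
    exact hc_key (hbez s s' hne) hT hPn
  have hcon : ∀ s t, (PowerSeries.X : PowerSeries L) ^ t ∣ hcE P (p s) → t ≤ Cc + 2 * K + 1 := by
    intro s t ht
    refine hc_contact ?_ hP ht
    rw [hK]
    exact hc_key (hgrad s) hT hPn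
  have hne : ∀ s, hcE P (p s) ≠ 0 := by
    intro s h0
    have := hcon s (Cc + 2 * K + 2) (by rw [h0]; exact dvd_zero _)
    omega
  have hone : ∀ h, nz h → n (grp h) ≤ A + ∑ s, m h s * (hcE P (p s)).order.toNat :=
    fun h hh => hc_one (hw h hh) (hfac h hh) hne (hn _) (hO h)
  have hmu0 : ∀ j, 0 ≤ mu j := fun j => (hmu j).le
  have hsmall : ∀ s, ¬ (PowerSeries.X : PowerSeries L) ^ (K + 1) ∣ hcE P (p s) →
      (hcE P (p s)).order.toNat ≤ K := by
    intro s hp
    by_contra hcon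
    exact hp ((pow_dvd_pow _ (by omega)).trans PowerSeries.X_pow_order_dvd)
  have h5 : (0 : ℝ) ≤ (K : ℝ) := Nat.cast_nonneg _
  have h4 : (0 : ℝ) ≤ Cc := Nat.cast_nonneg _
  by_cases hA : ∀ s, ¬ (PowerSeries.X : PowerSeries L) ^ (K + 1) ∣ hcE P (p s)
  · have h1 : ∀ j, n j ≤ A + K * mm := by
      intro j
      obtain ⟨h, rfl, hh⟩ := hnz j
      refine (hone h hh).trans (Nat.add_le_add_left ?_ _)
      refine (Finset.sum_le_sum (fun s _ => Nat.mul_le_mul_left _ (hsmall s (hA s)))).trans ?_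
      rw [← Finset.sum_mul, mul_comm]
      exact Nat.mul_le_mul_left _ (hm h)
    have h2 : ∑ j, mu j * n j ≤ ∑ j, mu j * (A + K * mm : ℕ) :=
      Finset.sum_le_sum (fun j _ => mul_le_mul_of_nonneg_left (by exact_mod_cast h1 j) (hmu0 j))
    linarith
  · push Not at hA
    obtain ⟨s₀, hd₀⟩ := hA
    have hother : ∀ s, s ≠ s₀ → (hcE P (p s)).order.toNat ≤ K := by
      intro s hs
      apply hsmall
      intro hds
      exact hkey s s₀ hs ⟨hds, hd₀⟩
    obtain ⟨B, hB, hB1⟩ := hB s₀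
    obtain ⟨R, hRdef⟩ : ∃ R, R = (hcE P (p s₀)).order.toNat := ⟨_, rfl⟩
    have hR : R ≤ Cc + 2 * K + 1 := by
      rw [hRdef]
      exact hcon s₀ _ PowerSeries.X_pow_order_dvd
    have h1 : ∀ j, n j ≤ (A + K * mm) + B j * R := by
      intro j
      obtain ⟨h, rfl, hh, hmB⟩ := hB j
      have h8 : ∑ s, m h s * (hcE P (p s)).order.toNat ≤ K * mm + B (grp h) * R := by
        rw [← Finset.add_sum_erase Finset.univ _ (Finset.mem_univ s₀)]
        have h9 : ∑ s ∈ Finset.univ.erase s₀, m h s * (hcE P (p s)).order.toNat ≤ K * mm := by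
          refine (Finset.sum_le_sum (fun s hs => Nat.mul_le_mul_left _
            (hother s (Finset.ne_of_mem_erase hs)))).trans ?_
          rw [← Finset.sum_mul, mul_comm]
          refine Nat.mul_le_mul_left _ (le_trans ?_ (hm h))
          exact Finset.sum_le_sum_of_subset (Finset.erase_subset _ _)
        have h10 : m h s₀ * (hcE P (p s₀)).order.toNat ≤ B (grp h) * R := by
          rw [← hRdef]
          exact Nat.mul_le_mul_right _ hmB
        omega
      have h11 := hone h hh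
      omega
    have h2 : ∑ j, mu j * n j ≤ ∑ j, (mu j * (A + K * mm : ℕ) + mu j * B j * R) := by
      refine Finset.sum_le_sum (fun j _ => ?_)
      have h3 : (n j : ℝ) ≤ (A + K * mm : ℕ) + B j * R := by exact_mod_cast h1 j
      have h4 := mul_le_mul_of_nonneg_left h3 (hmu0 j)
      linarith
    have h6 : ∑ j, (mu j * (A + K * mm : ℕ) + mu j * B j * R) =
        ∑ j, mu j * (A + K * mm : ℕ) + (∑ j, mu j * B j) * (R : ℝ) := by
      rw [Finset.sum_add_distrib, Finset.sum_mul]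
    rw [h6] at h2
    have h3 : (∑ j, mu j * B j) * (R : ℝ) ≤ 1 * R :=
      mul_le_mul_of_nonneg_right hB1 (Nat.cast_nonneg _)
    have h4 : (R : ℝ) ≤ Cc + 2 * K + 1 := by exact_mod_cast hR
    linarith

theorem h_core {k : Type u} [Field k] [CharZero k] {r : ℕ} {J : Type} [Fintype J] {a b : ℕ}
    (ha : 0 < a) (hb : 0 < b) {mu : Fin r → ℝ} (hmu : ∀ j, 0 < mu j) {grp : J → Fin r}
    {d : Fin r → ℕ} (hsum : ∑ j, mu j * d j = a + b)
    {F : J → MvPolynomial (Fin 2) (PowerSeries k)}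
    (hF : ∀ h m, coeff m (F h) ≠ 0 → wt a b m = d (grp h)) {S : Type} [Fintype S]
    {p : S → MvPolynomial (Fin 2) (PowerSeries k)} (nz : J → Prop) (A mm T : ℕ)
    {v w : J → PowerSeries k} {m : J → S → ℕ}
    (hw : ∀ h, nz h → ¬ (PowerSeries.X : PowerSeries k) ^ (A + 1) ∣ w h)
    (hm : ∀ h, ∑ s, m h s ≤ mm)
    (hfac : ∀ h, nz h → PCong T (C (v h) * F h) (C (w h) * ∏ s, p s ^ m h s))
    (hbez : ∀ s s', s ≠ s' → ∀ l : Fin 2, ∃ (N : ℕ) (W : PowerSeries k)
      (A' B' : MvPolynomial (Fin 2) (PowerSeries k)), N ≤ A ∧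
        ¬ (PowerSeries.X : PowerSeries k) ^ (A + 1) ∣ W ∧
        PCong T (A' * p s + B' * p s') (C W * X l ^ N))
    (hgrad : ∀ s, ∀ l : Fin 2, ∃ (N : ℕ) (W : PowerSeries k)
      (A' B' : MvPolynomial (Fin 2) (PowerSeries k)), N ≤ A ∧
        ¬ (PowerSeries.X : PowerSeries k) ^ (A + 1) ∣ W ∧
        PCong T (A' * pderiv 0 (p s) + B' * pderiv 1 (p s)) (C W * X l ^ N))
    (hB : ∀ s, ∃ B : Fin r → ℕ, (∀ j, ∃ h, grp h = j ∧ nz h ∧ m h s ≤ B j) ∧
      ∑ j, mu j * B j ≤ 1)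
    (hnz : ∀ j, ∃ h, grp h = j ∧ nz h) (hT : A + A * (a + b) < T)
    {L : Type u} [Field L] [Algebra k L] {P : Fin 2 → PowerSeries L} {Cc : ℕ} {n : Fin r → ℕ}
    (hP : Cod k P Cc) (hn : ∀ j, n j < T)
    (hO : ∀ h, (PowerSeries.X : PowerSeries L) ^ n (grp h) ∣ ev P (toAA (F h))) :
    ∑ j, mu j * n j ≤ (Cc : ℝ) + 2 * ((A + A * (a + b) : ℕ) : ℝ) + 1 +
      ∑ j, mu j * ((A + (A + A * (a + b)) * mm : ℕ) : ℝ) := by
  induction Cc using Nat.strong_induction_on generalizing P n with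
  | _ Cc ih =>
  by_cases hPn : hcNot a b P
  · exact hc_bound hmu nz A mm T hw hm hfac hbez hgrad hB hnz hT hPn hP hn hO
  · unfold hcNot at hPn
    push Not at hPn
    obtain ⟨⟨Q0, h0⟩, ⟨Q1, h1⟩⟩ := hPn
    let Q : Fin 2 → PowerSeries L := ![Q0, Q1]
    have hQ0 : P 0 = PowerSeries.X ^ a * Q 0 := h0
    have hQ1 : P 1 = PowerSeries.X ^ b * Q 1 := h1
    have hPQ : (fun j => ev Q (chA (0 : PowerSeries k) 0 a b j)) = P := by
      funext j
      fin_cases j
      · show ev Q (cA 0 + PowerSeries.X ^ a * xA 0) = P 0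
        rw [ev_add, ev_mul, ev_pow, ev_X, ev_xA, map_zero, ev_zero, zero_add, hQ0]
      · show ev Q ((0 : Polynomial (PowerSeries k)).eval₂ cA (xA 0) +
          PowerSeries.X ^ b * xA 1) = P 1
        rw [Polynomial.eval₂_zero, ev_add, ev_mul, ev_pow, ev_X, ev_xA, ev_zero, zero_add, hQ1]
    have hC := hP
    rw [← hPQ] at hC
    obtain ⟨hab, hC'⟩ := cod_chA_inv 0 0 a b (fun j _ => by
      rw [Polynomial.coeff_zero]; exact dvd_zero _) hC
    have hn' : ∀ h, (PowerSeries.X : PowerSeries L) ^ (n (grp h) - d (grp h)) ∣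
        ev Q (toAA (F h)) := by
      intro h
      have h3 : ev P (toAA (F h)) = PowerSeries.X ^ d (grp h) * ev Q (toAA (F h)) :=
        hc_scale (a := a) (b := b) (hF h) hQ0 hQ1
      rcases Nat.le_total (n (grp h)) (d (grp h)) with h4 | h4
      · rw [Nat.sub_eq_zero_of_le h4, pow_zero]
        exact one_dvd _
      · have h5 : (PowerSeries.X : PowerSeries L) ^ n (grp h) ∣ ev P (toAA (F h)) := hO h
        rw [h3] at h5
        have h6 : n (grp h) = d (grp h) + (n (grp h) - d (grp h)) := by omega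
        rw [h6, pow_add] at h5
        exact (mul_dvd_mul_iff_left (pow_ne_zero _ PowerSeries.X_ne_zero)).1 h5
    have h7 := ih (Cc - a - b) (by omega) (P := Q) (n := fun j => n j - d j) hC'
      (fun j => lt_of_le_of_lt (Nat.sub_le _ _) (hn j)) hn'
    have h8 : ∑ j, mu j * (n j : ℝ) ≤
        ∑ j, (mu j * ((n j - d j : ℕ) : ℝ) + mu j * (d j : ℝ)) := by
      refine Finset.sum_le_sum (fun j _ => ?_)
      rw [← mul_add]
      refine mul_le_mul_of_nonneg_left ?_ (hmu j).le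
      exact_mod_cast (by omega : n j ≤ (n j - d j) + d j)
    rw [Finset.sum_add_distrib, hsum] at h8
    have h9 : ((Cc - a - b : ℕ) : ℝ) = (Cc : ℝ) - a - b := by
      rw [Nat.sub_sub, Nat.cast_sub hab]
      push_cast
      ring
    rw [h9] at h7
    linarith

end M4
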