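import Pool.Agent.M4.LimP
import Pool.Agent.M4.HCore

/-!
PIECE M4-H02: states are bounded below.

PROOF. `exists_rep`: representatives `F' i h` of `F h` (homogeneous of weight `d (grp h)`, since the support is contained in the
one of `F h` and `coeff m (F h) ≠ 0` iff `coeff m (toKL (F h)) ≠ 0`).  `c i h - toAA (F' i h)` is null (`IsLim.nul_sub`,
`isLim_rep`).  `common_factors` (`M3.HomP`) for `toKL (F h)` over `KL E k`: `s`, `m`, `u`.  Keep only the `p ∈ s` which divide some
`toKL (F h) ≠ 0` (the other ones have `m h p = 0` for all `h` with `F h ≠ 0`; or take for them `m := 0`); they are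
homogeneous (`hom_dvd`).  Clear denominators (as in `M3.BlkH`: `bh_clr`, `bh_bez`, now over `Lam E k`, a domain with field of
fractions `KL E k`): `toKL p' = C (unit) * p`; identities over `Lam E k`:
`C v_h * F h = C w_h * ∏ p'^(m h p)` (`v_h, w_h ≠ 0`), `A' p' + B' q' = C W * X l ^ N` (`hom_coprime`), the same for the two
derivatives (`irr_grad`, `hom_pderiv`, `hom_coprime`; if one derivative is zero the other one is relatively prime to
zero, a unit).  Choose representatives (`exists_rep`, `lm_surj`) of all the finitely many polynomials and constants; the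
identities hold modulo `X^(M * E i)` for every `M` for almost all `i` (`lm_eq`; finitely many coefficients), the orders of the
constants are `≤ A₀ * E i` (`not_nul`), `A₀` also a bound of the exponents `N`.  `hB`: `hS.wk` (`MLe`) and `mult_le`.
Apply `h_core` with `A := A₀ * E i`, `T := M * E i`, `M` larger than `ℓ + 1` and `A₀ (1 + a + b) + 1`: for `C, n ≤ ℓ * E i` with
`OrdGe grp (c i) P n` also `X^(n j) ∣ ev P (toAA (F' i h))` (`c i h - toAA (F' i h)` is divisible by `X^(M * E i)`, `ev_dvd`).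
So `-K * E i ≤ C - ∑ mu j n j`, `K := 2 A₀ (1 + a + b) + 1 + ∑ mu j * (A₀ + A₀ (1 + a + b) * mm)` (`1 ≤ E i`).
-/

open MvPolynomial

namespace M4

open M3

universe u

section
variable {E : ℕ → ℕ+} {k : Type u} [Field k]

private lemma blkH_inj : Function.Injective (toKL (E := E) (k := k)) :=
  MvPolynomial.map_injective _ (IsFractionRing.injective (Lam E k) (KL E k))

private lemma blkH_toKL_C (c : Lam E k) : toKL (C c) = C (algebraMap _ (KL E k) c) := by
  unfold toKL
  rw [MvPolynomial.map_C]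

private lemma blkH_toKL_X (j : Fin 2) : toKL (X j : MvPolynomial (Fin 2) (Lam E k)) = X j := by
  unfold toKL
  rw [MvPolynomial.map_X]

/-- clearing denominators -/
private lemma blkH_clr (p : MvPolynomial (Fin 2) (KL E k)) :
    ∃ (c : Lam E k) (p' : MvPolynomial (Fin 2) (Lam E k)), c ≠ 0 ∧
      toKL p' = C (algebraMap _ (KL E k) c) * p := by
  induction p using MvPolynomial.induction_on with
  | C a =>
    obtain ⟨x, y, hy, rfl⟩ := IsFractionRing.div_surjective (A := Lam E k) a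
    have hy0 : y ≠ 0 := nonZeroDivisors.ne_zero hy
    refine ⟨y, C x, hy0, ?_⟩
    rw [blkH_toKL_C, ← map_mul]
    congr 1
    have : algebraMap (Lam E k) (KL E k) y ≠ 0 := by
      rw [Ne, IsFractionRing.to_map_eq_zero_iff]
      exact hy0
    field_simp
  | add p q hp hq =>
    obtain ⟨c, p', hc, h1⟩ := hp
    obtain ⟨c', q', hc', h2⟩ := hq
    refine ⟨c * c', C c' * p' + C c * q', mul_ne_zero hc hc', ?_⟩
    rw [map_add, map_mul, map_mul, h1, h2, blkH_toKL_C, blkH_toKL_C, map_mul, map_mul]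
    ring
  | mul_X p n hp =>
    obtain ⟨c, p', hc, h1⟩ := hp
    refine ⟨c, p' * X n, hc, ?_⟩
    rw [map_mul, h1, blkH_toKL_X, mul_assoc]

/-- a Bezout relation with integral coefficients -/
private lemma blkH_bez {p q : MvPolynomial (Fin 2) (Lam E k)} {j : Fin 2} {N : ℕ}
    {A B : MvPolynomial (Fin 2) (KL E k)} (h : A * toKL p + B * toKL q = X j ^ N) :
    ∃ (w : Lam E k) (A' B' : MvPolynomial (Fin 2) (Lam E k)), w ≠ 0 ∧
      A' * p + B' * q = C w * X j ^ N := by
  obtain ⟨c, A', hc, h1⟩ := blkH_clr A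
  obtain ⟨c', B', hc', h2⟩ := blkH_clr B
  refine ⟨c * c', C c' * A', C c * B', mul_ne_zero hc hc', blkH_inj ?_⟩
  rw [map_add, map_mul, map_mul, map_mul, map_mul, map_mul, map_pow, h1, h2, blkH_toKL_C, blkH_toKL_C,
    blkH_toKL_C, blkH_toKL_X, ← h, map_mul, map_mul]
  ring

private lemma blkH_alg {R ι : Type*} [CommRing R] (s : Finset ι) (c p : ι → R) (m : ι → ℕ)
    (y u : R) : y * (∏ i ∈ s, c i ^ m i) * (u * ∏ i ∈ s, p i ^ m i) =
      y * u * ∏ i ∈ s, (c i * p i) ^ m i := by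
  have : ∏ i ∈ s, (c i * p i) ^ m i = (∏ i ∈ s, c i ^ m i) * ∏ i ∈ s, p i ^ m i := by
    rw [← Finset.prod_mul_distrib]
    exact Finset.prod_congr rfl (fun i _ => mul_pow _ _ _)
  rw [this]
  ring

/-- integral form of a factorization -/
private lemma blkH_fac {J : Type} [Finite J] (F : J → MvPolynomial (Fin 2) (Lam E k)) :
    ∃ (s : Finset (MvPolynomial (Fin 2) (Lam E k)))
      (m : J → MvPolynomial (Fin 2) (Lam E k) → ℕ) (v w : J → Lam E k),
      (∀ p ∈ s, Irreducible (toKL p)) ∧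
      (∀ p ∈ s, ∀ q ∈ s, p ≠ q → IsRelPrime (toKL p) (toKL q)) ∧
      (∀ p ∈ s, ∃ h, F h ≠ 0 ∧ toKL p ∣ toKL (F h)) ∧
      ∀ h, F h ≠ 0 → v h ≠ 0 ∧ w h ≠ 0 ∧ C (v h) * F h = C (w h) * ∏ p ∈ s, p ^ m h p := by
  classical
  obtain ⟨s, m, u, h1, h2, h3⟩ := common_factors (fun h => toKL (F h))
  have hcl : ∀ p : MvPolynomial (Fin 2) (KL E k), ∃ (c : Lam E k)
      (p' : MvPolynomial (Fin 2) (Lam E k)), c ≠ 0 ∧
      toKL p' = C (algebraMap _ (KL E k) c) * p := blkH_clr
  choose c g hc hg using hcl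
  have hF : ∀ h, F h ≠ 0 ↔ toKL (F h) ≠ 0 := by
    intro h
    rw [← map_zero (toKL (E := E) (k := k)), Ne, Ne, blkH_inj.eq_iff]
  have hcu : ∀ p, IsUnit (C (algebraMap _ (KL E k) (c p)) : MvPolynomial (Fin 2) (KL E k)) := by
    intro p
    have : algebraMap (Lam E k) (KL E k) (c p) ≠ 0 := by
      rw [Ne, IsFractionRing.to_map_eq_zero_iff]
      exact hc p
    exact (IsUnit.mk0 _ this).map C
  have hass : ∀ p, Associated (toKL (g p)) p := by
    intro p
    rw [hg]
    exact (associated_unit_mul_left _ _ (hcu p))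
  let s' := s.filter (fun p => ∃ h, F h ≠ 0 ∧ p ∣ toKL (F h))
  have hginj : ∀ p ∈ s', ∀ q ∈ s', g p = g q → p = q := by
    intro p hp q hq hpq
    by_contra hne
    have hp1 := (Finset.mem_filter.1 hp).1
    have hq1 := (Finset.mem_filter.1 hq).1
    have h4 := h2 p hp1 q hq1 hne
    have h5 : p ∣ q := by
      have := (hass p).symm.dvd.trans (hpq ▸ (hass q).dvd)
      exact this
    exact (h1 p hp1).not_isUnit (h4 dvd_rfl h5)
  have hinv : ∀ p', ∃ p, p' ∈ s'.image g → p ∈ s' ∧ g p = p' := by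
    intro p'
    by_cases h : p' ∈ s'.image g
    · obtain ⟨p, hp, hpp⟩ := Finset.mem_image.1 h
      exact ⟨p, fun _ => ⟨hp, hpp⟩⟩
    · exact ⟨0, fun h' => absurd h' h⟩
  choose inv hinv using hinv
  have hinvg : ∀ p ∈ s', inv (g p) = p := by
    intro p hp
    obtain ⟨h4, h5⟩ := hinv (g p) (Finset.mem_image_of_mem g hp)
    exact hginj _ h4 _ hp h5
  have hu : ∀ h, ∃ x y : Lam E k, y ≠ 0 ∧
      algebraMap (Lam E k) (KL E k) x = algebraMap (Lam E k) (KL E k) y * u h := by
    intro h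
    obtain ⟨x, y, hy, hxy⟩ := IsFractionRing.div_surjective (A := Lam E k) (u h)
    have hy0 : y ≠ 0 := nonZeroDivisors.ne_zero hy
    have : algebraMap (Lam E k) (KL E k) y ≠ 0 := by
      rw [Ne, IsFractionRing.to_map_eq_zero_iff]
      exact hy0
    refine ⟨x, y, hy0, ?_⟩
    rw [← hxy]
    field_simp
  choose x y hy hxy using hu
  refine ⟨s'.image g, fun h p => m h (inv p), fun h => y h * ∏ p ∈ s', c p ^ m h p, x,
    ?_, ?_, ?_, ?_⟩
  · intro p' hp'
    obtain ⟨p, hp, rfl⟩ := Finset.mem_image.1 hp'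
    exact (hass p).symm.irreducible (h1 p (Finset.mem_filter.1 hp).1)
  · intro p' hp' q' hq' hne
    obtain ⟨p, hp, rfl⟩ := Finset.mem_image.1 hp'
    obtain ⟨q, hq, rfl⟩ := Finset.mem_image.1 hq'
    have hpq : p ≠ q := fun h => hne (by rw [h])
    have h4 := h2 p (Finset.mem_filter.1 hp).1 q (Finset.mem_filter.1 hq).1 hpq
    intro z hz1 hz2
    exact h4 (hz1.trans (hass p).dvd) (hz2.trans (hass q).dvd)
  · intro p' hp'
    obtain ⟨p, hp, rfl⟩ := Finset.mem_image.1 hp'
    obtain ⟨h, hh, hd⟩ := (Finset.mem_filter.1 hp).2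
    exact ⟨h, hh, (hass p).dvd.trans hd⟩
  · intro h hh
    obtain ⟨hu0, hfac⟩ := h3 h ((hF h).1 hh)
    have hprod : ∏ p ∈ s, p ^ m h p = ∏ p ∈ s', p ^ m h p := by
      symm
      apply Finset.prod_subset (Finset.filter_subset _ _)
      intro p hp hp'
      have : m h p = 0 := by
        by_contra h0
        apply hp'
        refine Finset.mem_filter.2 ⟨hp, h, hh, ?_⟩
        rw [hfac]
        exact Dvd.dvd.mul_left ((dvd_pow_self p h0).trans
          (Finset.dvd_prod_of_mem (fun p => p ^ m h p) hp)) _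
      rw [this, pow_zero]
    refine ⟨mul_ne_zero (hy h) (Finset.prod_ne_zero_iff.2 fun p _ => pow_ne_zero _ (hc p)), ?_, ?_⟩
    · intro hx
      have h4 := hxy h
      rw [hx, map_zero] at h4
      rcases mul_eq_zero.1 h4.symm with h5 | h5
      · rw [IsFractionRing.to_map_eq_zero_iff] at h5
        exact hy h h5
      · exact hu0 h5
    · have hprod2 : ∏ p' ∈ s'.image g, p' ^ m h (inv p') = ∏ p ∈ s', g p ^ m h p := by
        rw [Finset.prod_image (fun p hp q hq => hginj p hp q hq)]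
        exact Finset.prod_congr rfl (fun p hp => by rw [hinvg p hp])
      apply blkH_inj
      show toKL (C (y h * ∏ p ∈ s', c p ^ m h p) * F h) =
        toKL (C (x h) * ∏ p' ∈ s'.image g, p' ^ m h (inv p'))
      rw [hprod2]
      have e1 : toKL (∏ p ∈ s', g p ^ m h p) =
          ∏ p ∈ s', (C (algebraMap _ (KL E k) (c p)) * p) ^ m h p := by
        rw [map_prod]
        exact Finset.prod_congr rfl (fun p _ => by rw [map_pow, hg])
      have e2 : (C (algebraMap (Lam E k) (KL E k) (∏ p ∈ s', c p ^ m h p)) :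
          MvPolynomial (Fin 2) (KL E k)) = ∏ p ∈ s', C (algebraMap _ (KL E k) (c p)) ^ m h p := by
        rw [map_prod, map_prod]
        exact Finset.prod_congr rfl (fun p _ => by rw [map_pow, map_pow])
      have e3 : (C (algebraMap (Lam E k) (KL E k) (y h * ∏ p ∈ s', c p ^ m h p)) :
          MvPolynomial (Fin 2) (KL E k)) = C (algebraMap _ (KL E k) (y h)) *
            ∏ p ∈ s', C (algebraMap _ (KL E k) (c p)) ^ m h p := by
        rw [map_mul (algebraMap (Lam E k) (KL E k)), map_mul C, e2]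
      have e4 : (C (algebraMap (Lam E k) (KL E k) (x h)) :
          MvPolynomial (Fin 2) (KL E k)) = C (algebraMap _ (KL E k) (y h)) * C (u h) := by
        rw [hxy, map_mul C]
      calc toKL (C (y h * ∏ p ∈ s', c p ^ m h p) * F h)
          = toKL (C (y h * ∏ p ∈ s', c p ^ m h p)) * toKL (F h) := map_mul toKL _ _
        _ = C (algebraMap _ (KL E k) (y h)) * (∏ p ∈ s', C (algebraMap _ (KL E k) (c p)) ^ m h p) *
            (C (u h) * ∏ p ∈ s', p ^ m h p) := by rw [blkH_toKL_C, e3, hfac, hprod]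
        _ = C (algebraMap _ (KL E k) (y h)) * C (u h) *
            ∏ p ∈ s', (C (algebraMap _ (KL E k) (c p)) * p) ^ m h p := blkH_alg s' _ _ _ _ _
        _ = toKL (C (x h)) * toKL (∏ p ∈ s', g p ^ m h p) := by rw [blkH_toKL_C, e4, e1]
        _ = toKL (C (x h) * ∏ p ∈ s', g p ^ m h p) := (map_mul toKL _ _).symm

private lemma blkH_toKL_pderiv (j : Fin 2) (p : MvPolynomial (Fin 2) (Lam E k)) :
    toKL (pderiv j p) = pderiv j (toKL p) := by
  unfold toKL
  exact (pderiv_map (R := Lam E k)).symm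

/-! ### representatives -/

/-- a bound of finitely many numbers -/
private lemma blkH_bd {ι : Type*} [Finite ι] (f : ι → ℕ) : ∃ B, ∀ x, f x ≤ B := by
  obtain ⟨B, hB⟩ := (Set.finite_range f).bddAbove
  exact ⟨B, fun x => hB ⟨x, rfl⟩⟩

/-- equal limits: congruence of the polynomials -/
private lemma blkH_pcong {F : MvPolynomial (Fin 2) (Lam E k)}
    {f g : ℕ → MvPolynomial (Fin 2) (PowerSeries k)}
    (hf : IsLim E (fun i => toAA (f i)) F) (hg : IsLim E (fun i => toAA (g i)) F) (M : ℕ) :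
    ∀ᶠ i in Uf, PCong (M * (E i : ℕ)) (f i) (g i) := by
  filter_upwards [hf.nul_sub hg M] with i hi
  intro e
  have h1 := (X_pow_dvd_iff_mc _ _).1 hi e
  rwa [mc_sub, mc_toAA, mc_toAA] at h1

private lemma blkH_mul {F G : MvPolynomial (Fin 2) (Lam E k)}
    {f g : ℕ → MvPolynomial (Fin 2) (PowerSeries k)}
    (hf : IsLim E (fun i => toAA (f i)) F) (hg : IsLim E (fun i => toAA (g i)) G) :
    IsLim E (fun i => toAA (f i * g i)) (F * G) := by
  have h := hf.mul hg
  simp only [← map_mul] at h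
  exact h

private lemma blkH_add {F G : MvPolynomial (Fin 2) (Lam E k)}
    {f g : ℕ → MvPolynomial (Fin 2) (PowerSeries k)}
    (hf : IsLim E (fun i => toAA (f i)) F) (hg : IsLim E (fun i => toAA (g i)) G) :
    IsLim E (fun i => toAA (f i + g i)) (F + G) := by
  have h := hf.add hg
  simp only [← map_add] at h
  exact h

private lemma blkH_pow {F : MvPolynomial (Fin 2) (Lam E k)}
    {f : ℕ → MvPolynomial (Fin 2) (PowerSeries k)}
    (hf : IsLim E (fun i => toAA (f i)) F) (n : ℕ) :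
    IsLim E (fun i => toAA (f i ^ n)) (F ^ n) := by
  have h := hf.pow n
  simp only [← map_pow] at h
  exact h

private lemma blkH_C (a : ℕ → PowerSeries k) :
    IsLim E (fun i => toAA (C (a i))) (C (lm E a)) := by
  have h := IsLim.cA (E := E) a
  simp only [← toAA_C] at h
  exact h

private lemma blkH_X (j : Fin 2) :
    IsLim E (fun _ => (toAA (X j : MvPolynomial (Fin 2) (PowerSeries k)))) (X j) := by
  have h := IsLim.xA (E := E) (k := k) j
  simp only [← toAA_X] at h
  exact h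

private lemma blkH_prod {ι : Type*} (s : Finset ι) {F : ι → MvPolynomial (Fin 2) (Lam E k)}
    {f : ι → ℕ → MvPolynomial (Fin 2) (PowerSeries k)}
    (hf : ∀ j ∈ s, IsLim E (fun i => toAA (f j i)) (F j)) :
    IsLim E (fun i => toAA (∏ j ∈ s, f j i)) (∏ j ∈ s, F j) := by
  classical
  induction s using Finset.induction_on with
  | empty =>
    have h := blkH_C (E := E) (k := k) (fun _ => 1)
    have h1 : lm E (fun _ : ℕ => (1 : PowerSeries k)) = 1 := map_one (lm E)
    simp only [Finset.prod_empty]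
    rw [h1] at h
    simpa using h
  | insert a s ha ih =>
    have h := blkH_mul (hf a (Finset.mem_insert_self _ _))
      (ih fun j hj => hf j (Finset.mem_insert_of_mem hj))
    simp only [Finset.prod_insert ha]
    exact h

end

section
variable {E : ℕ → ℕ+} {k : Type u} [Field k] [CharZero k]

private lemma blkH_pderiv {F : MvPolynomial (Fin 2) (Lam E k)}
    {f : ℕ → MvPolynomial (Fin 2) (PowerSeries k)} (h : ∀ i, (f i).support ⊆ F.support)
    (h' : ∀ m, lm E (fun i => coeff m (f i)) = coeff m F) (j : Fin 2) :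
    IsLim E (fun i => toAA (pderiv j (f i))) (pderiv j F) := by
  apply isLim_rep
  · intro i m hm
    rw [mem_support_iff, coeff_pderiv] at hm ⊢
    have h1 : m + Finsupp.single j 1 ∈ (f i).support := by
      rw [mem_support_iff]
      intro h0
      rw [h0, zero_mul] at hm
      exact hm rfl
    have h2 := mem_support_iff.1 (h i h1)
    refine mul_ne_zero h2 ?_
    exact_mod_cast Nat.succ_ne_zero (m j)
  · intro m
    rw [coeff_pderiv, ← h']
    have h1 : (fun i => coeff m (pderiv j (f i))) =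
        (fun i => coeff (m + Finsupp.single j 1) (f i)) * ((m j + 1 : ℕ) : ℕ → PowerSeries k) := by
      funext i
      rw [coeff_pderiv]
      simp
    rw [h1, map_mul, map_natCast]
    push_cast
    rfl

end

theorem block_H {E : ℕ → ℕ+} {k : Type u} [Field k] [CharZero k] {r : ℕ} {J : Type} [Fintype J]
    {a b : ℕ} {mu : Fin r → ℝ} {grp : J → Fin r} {d : Fin r → ℕ}
    {F : J → MvPolynomial (Fin 2) (Lam E k)} (hS : Stt a b mu grp d (fun h => toKL (F h)))
    {c : ℕ → J → AA k} (hc : ∀ h, IsLim E (fun i => c i h) (F h)) : LowB E mu grp c := by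
  classical
  have ha := hS.ha
  have hb : 0 < b := lt_of_lt_of_le ha hS.hab
  have hchar : CharZero (KL E k) :=
    charZero_of_injective_algebraMap (IsFractionRing.injective (Lam E k) (KL E k))
  have hF0 : ∀ h, toKL (F h) ≠ 0 ↔ F h ≠ 0 := by
    intro h
    rw [← map_zero (toKL (E := E) (k := k)), Ne, Ne, blkH_inj.eq_iff]
  obtain ⟨s, m, v, w, hirr, hrel, hdiv, hfac⟩ := blkH_fac F
  have hhom : ∀ p ∈ s, ∃ e, HomW a b e (toKL p) := by
    intro p hp
    obtain ⟨h, hh, hd⟩ := hdiv p hp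
    exact hom_dvd ha hb ((hF0 h).2 hh) (hS.hom h) hd
  have key : ∀ (p q : MvPolynomial (Fin 2) (Lam E k)) (e e' : ℕ), HomW a b e (toKL p) →
      HomW a b e' (toKL q) → IsRelPrime (toKL p) (toKL q) → ∀ l : Fin 2,
      ∃ (N : ℕ) (W : Lam E k) (A' B' : MvPolynomial (Fin 2) (Lam E k)), W ≠ 0 ∧
        A' * p + B' * q = C W * X l ^ N := by
    intro p q e e' hp hq hpq l
    obtain ⟨N, ⟨A, B, hAB⟩, A', B', hAB'⟩ := hom_coprime ha hb hp hq hpq
    fin_cases l
    · exact ⟨N, blkH_bez hAB⟩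
    · exact ⟨N, blkH_bez hAB'⟩
  obtain ⟨Q, hQs, hQi, hQp⟩ : ∃ Q : Fin s.card → MvPolynomial (Fin 2) (Lam E k),
      (∀ t, Q t ∈ s) ∧ Function.Injective Q ∧
      ∀ m : MvPolynomial (Fin 2) (Lam E k) → ℕ, ∏ p ∈ s, p ^ m p = ∏ t, Q t ^ m (Q t) := by
    refine ⟨fun t => (s.equivFin.symm t).1, fun t => (s.equivFin.symm t).2,
      fun x y hxy => s.equivFin.symm.injective (Subtype.ext hxy), fun m => ?_⟩
    rw [← Finset.prod_attach s (fun p => p ^ m p), ← Finset.univ_eq_attach]
    exact (Equiv.prod_comp s.equivFin.symm (fun p : {p // p ∈ s} => p.1 ^ m p.1)).symm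
  have hbz : ∀ (p q : Fin s.card) (l : Fin 2), ∃ (N : ℕ) (W : Lam E k)
      (A' B' : MvPolynomial (Fin 2) (Lam E k)), W ≠ 0 ∧
        (p ≠ q → A' * Q p + B' * Q q = C W * X l ^ N) := by
    intro p q l
    by_cases h : p = q
    · exact ⟨0, 1, 0, 0, one_ne_zero, fun h' => absurd h h'⟩
    · obtain ⟨e, he⟩ := hhom (Q p) (hQs p)
      obtain ⟨e', he'⟩ := hhom (Q q) (hQs q)
      obtain ⟨N, W, A', B', h1, h2⟩ := key (Q p) (Q q) e e' he he'
        (hrel _ (hQs p) _ (hQs q) (fun h' => h (hQi h'))) l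
      exact ⟨N, W, A', B', h1, fun _ => h2⟩
  have hgd : ∀ (p : Fin s.card) (l : Fin 2), ∃ (N : ℕ) (W : Lam E k)
      (A' B' : MvPolynomial (Fin 2) (Lam E k)), W ≠ 0 ∧
        A' * pderiv 0 (Q p) + B' * pderiv 1 (Q p) = C W * X l ^ N := by
    intro p l
    obtain ⟨e, he⟩ := hhom (Q p) (hQs p)
    have h1 := hom_pderiv he 0
    have h2 := hom_pderiv he 1
    have h3 := irr_grad ha hb he (hirr (Q p) (hQs p))
    rw [← blkH_toKL_pderiv] at h1 h2
    rw [← blkH_toKL_pderiv, ← blkH_toKL_pderiv] at h3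
    exact key _ _ _ _ h1 h2 h3 l
  choose N2 W2 A2 B2 hW2 h2 using hbz
  choose N3 W3 A3 B3 hW3 h3 using hgd
  choose rp hrp1 hrp2 using (exists_rep (E := E) (k := k))
  choose rc hrc using (fun x : Lam E k => lm_surj x)
  have hrpL : ∀ G, IsLim E (fun i => toAA (rp G i)) G := fun G => isLim_rep (hrp1 G) (hrp2 G)
  have hrcL : ∀ x : Lam E k, IsLim E (fun i => toAA (C (rc x i))) (C x) := by
    intro x
    have h1 := blkH_C (E := E) (rc x)
    rwa [hrc] at h1
  have hbd : ∀ W : Lam E k, ∃ A : ℕ, W ≠ 0 → ∀ᶠ i in Uf,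
      ¬ (PowerSeries.X : PowerSeries k) ^ (A * (E i : ℕ)) ∣ rc W i := by
    intro W
    by_cases hW : W = 0
    · exact ⟨0, fun h => absurd hW h⟩
    · have h1 : ¬ Nul E (rc W) := by
        rw [← lm_eq_zero, hrc]
        exact hW
      obtain ⟨A, hA⟩ := not_nul.1 h1
      exact ⟨A, fun _ => hA⟩
  choose bd hbd using hbd
  obtain ⟨Z1, hZ1⟩ := blkH_bd (fun h : J => bd (w h))
  obtain ⟨Z2, hZ2⟩ := blkH_bd (fun x : Fin s.card × Fin s.card × Fin 2 =>
    N2 x.1 x.2.1 x.2.2 + bd (W2 x.1 x.2.1 x.2.2))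
  obtain ⟨Z3, hZ3⟩ := blkH_bd (fun x : Fin s.card × Fin 2 => N3 x.1 x.2 + bd (W3 x.1 x.2))
  obtain ⟨mm, hmm⟩ := blkH_bd (fun h : J => ∑ p : Fin s.card, m h (Q p))
  let A0 : ℕ := Z1 + Z2 + Z3
  have hA1 : ∀ h, bd (w h) ≤ A0 := fun h => (hZ1 h).trans (by omega)
  have hA2 : ∀ p q l, N2 p q l ≤ A0 ∧ bd (W2 p q l) ≤ A0 := by
    intro p q l
    have h4 := hZ2 (p, q, l)
    simp only at h4
    constructor <;> omega
  have hA3 : ∀ p l, N3 p l ≤ A0 ∧ bd (W3 p l) ≤ A0 := by
    intro p l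
    have h4 := hZ3 (p, l)
    simp only at h4
    constructor <;> omega
  have hord : ∀ W : Lam E k, W ≠ 0 → bd W ≤ A0 → ∀ᶠ i in Uf,
      ¬ (PowerSeries.X : PowerSeries k) ^ (A0 * (E i : ℕ) + 1) ∣ rc W i := by
    intro W hW hb'
    filter_upwards [hbd W hW] with i hi hcon
    apply hi
    refine (pow_dvd_pow _ ?_).trans hcon
    exact (Nat.mul_le_mul_right _ hb').trans (Nat.le_succ _)
  refine ⟨2 * ((A0 + A0 * (a + b) : ℕ) : ℝ) + 1 +
    ∑ j, mu j * ((A0 + (A0 + A0 * (a + b)) * mm : ℕ) : ℝ), ?_⟩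
  intro ℓ
  let M : ℕ := ℓ + 1 + (A0 + A0 * (a + b)) + 1
  have ev1 : ∀ᶠ i in Uf, ∀ h, F h ≠ 0 →
      ¬ (PowerSeries.X : PowerSeries k) ^ (A0 * (E i : ℕ) + 1) ∣ rc (w h) i := by
    rw [Filter.eventually_all]
    intro h
    by_cases hh : F h = 0
    · exact Filter.Eventually.of_forall fun i h' => absurd hh h'
    · filter_upwards [hord (w h) (hfac h hh).2.1 (hA1 h)] with i hi _ using hi
  have ev2 : ∀ᶠ i in Uf, ∀ p q l,
      ¬ (PowerSeries.X : PowerSeries k) ^ (A0 * (E i : ℕ) + 1) ∣ rc (W2 p q l) i := by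
    rw [Filter.eventually_all]
    intro p
    rw [Filter.eventually_all]
    intro q
    rw [Filter.eventually_all]
    intro l
    exact hord _ (hW2 p q l) (hA2 p q l).2
  have ev3 : ∀ᶠ i in Uf, ∀ p l,
      ¬ (PowerSeries.X : PowerSeries k) ^ (A0 * (E i : ℕ) + 1) ∣ rc (W3 p l) i := by
    rw [Filter.eventually_all]
    intro p
    rw [Filter.eventually_all]
    intro l
    exact hord _ (hW3 p l) (hA3 p l).2
  have ev4 : ∀ᶠ i in Uf, ∀ h, F h ≠ 0 → PCong (M * (E i : ℕ)) (C (rc (v h) i) * rp (F h) i)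
      (C (rc (w h) i) * ∏ p : Fin s.card, rp (Q p) i ^ m h (Q p)) := by
    rw [Filter.eventually_all]
    intro h
    by_cases hh : F h = 0
    · exact Filter.Eventually.of_forall fun i h' => absurd hh h'
    · have e1 := blkH_mul (hrcL (v h)) (hrpL (F h))
      have e2 := blkH_mul (hrcL (w h)) (blkH_prod (Finset.univ : Finset (Fin s.card))
        (fun p _ => blkH_pow (hrpL (Q p)) (m h (Q p))))
      have e3 : C (v h) * F h = C (w h) * ∏ p : Fin s.card, Q p ^ m h (Q p) := by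
        rw [(hfac h hh).2.2, hQp]
      rw [e3] at e1
      filter_upwards [blkH_pcong e1 e2 M] with i hi _ using hi
  have ev5 : ∀ᶠ i in Uf, ∀ p q : Fin s.card, ∀ l, p ≠ q →
      PCong (M * (E i : ℕ)) (rp (A2 p q l) i * rp (Q p) i + rp (B2 p q l) i * rp (Q q) i)
        (C (rc (W2 p q l) i) * X l ^ N2 p q l) := by
    rw [Filter.eventually_all]
    intro p
    rw [Filter.eventually_all]
    intro q
    rw [Filter.eventually_all]
    intro l
    by_cases hh : p = q
    · exact Filter.Eventually.of_forall fun i h' => absurd hh h'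
    · have e1 := blkH_add (blkH_mul (hrpL (A2 p q l)) (hrpL (Q p)))
        (blkH_mul (hrpL (B2 p q l)) (hrpL (Q q)))
      have e2 := blkH_mul (hrcL (W2 p q l)) (blkH_pow (blkH_X (E := E) (k := k) l) (N2 p q l))
      rw [h2 p q l hh] at e1
      filter_upwards [blkH_pcong e1 e2 M] with i hi _ using hi
  have ev6 : ∀ᶠ i in Uf, ∀ (p : Fin s.card) l,
      PCong (M * (E i : ℕ)) (rp (A3 p l) i * pderiv 0 (rp (Q p) i) +
        rp (B3 p l) i * pderiv 1 (rp (Q p) i)) (C (rc (W3 p l) i) * X l ^ N3 p l) := by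
    rw [Filter.eventually_all]
    intro p
    rw [Filter.eventually_all]
    intro l
    have e1 := blkH_add
      (blkH_mul (hrpL (A3 p l)) (blkH_pderiv (hrp1 (Q p)) (hrp2 (Q p)) 0))
      (blkH_mul (hrpL (B3 p l)) (blkH_pderiv (hrp1 (Q p)) (hrp2 (Q p)) 1))
    have e2 := blkH_mul (hrcL (W3 p l)) (blkH_pow (blkH_X (E := E) (k := k) l) (N3 p l))
    rw [h3 p l] at e1
    exact blkH_pcong e1 e2 M
  have ev7 : ∀ᶠ i in Uf, ∀ h, (PowerSeries.X : AA k) ^ (M * (E i : ℕ)) ∣
      c i h - toAA (rp (F h) i) := by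
    rw [Filter.eventually_all]
    intro h
    exact (hc h).nul_sub (hrpL (F h)) M
  have hBB : ∀ p : Fin s.card, ∃ B : Fin r → ℕ,
      (∀ j, ∃ h, grp h = j ∧ F h ≠ 0 ∧ m h (Q p) ≤ B j) ∧ ∑ j, mu j * B j ≤ 1 := by
    intro p
    obtain ⟨B, hB, hB1⟩ := hS.wk (toKL (Q p)) (hirr (Q p) (hQs p))
    refine ⟨B, fun j => ?_, hB1⟩
    obtain ⟨h, hj, hh⟩ := hB j
    subst hj
    have hFK : toKL (F h) ≠ 0 := by
      intro h0
      apply hh
      show toKL (Q p) ^ (B (grp h) + 1) ∣ toKL (F h)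
      rw [h0]
      exact dvd_zero _
    have hFh := (hF0 h).1 hFK
    obtain ⟨hv, hw, hf⟩ := hfac h hFh
    refine ⟨h, rfl, hFh, ?_⟩
    apply mult_le hh
    show toKL (Q p) ^ m h (Q p) ∣ toKL (F h)
    have h5 := congrArg toKL hf
    rw [map_mul toKL, map_mul toKL, map_prod toKL] at h5
    have h6 : toKL (Q p) ^ m h (Q p) ∣ toKL (MvPolynomial.C (v h)) * toKL (F h) := by
      rw [h5]
      refine Dvd.dvd.mul_left ?_ _
      rw [← map_pow]
      exact Finset.dvd_prod_of_mem (fun p => toKL (p ^ m h p)) (hQs p)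
    have h7 : IsUnit (toKL (MvPolynomial.C (v h))) := by
      rw [blkH_toKL_C]
      have : algebraMap (Lam E k) (KL E k) (v h) ≠ 0 := by
        rw [Ne, IsFractionRing.to_map_eq_zero_iff]
        exact hv
      exact (IsUnit.mk0 _ this).map MvPolynomial.C
    exact (h7.dvd_mul_left).1 h6
  filter_upwards [ev1, ev2, ev3, ev4, ev5, ev6, ev7] with i g1 g2 g3 g4 g5 g6 g7
  intro L _ _ P Cc n hCc hn hP hO
  have hE : 1 ≤ (E i : ℕ) := (E i).pos
  have hcore := h_core (k := k) (S := Fin s.card) ha hb hS.hmu (grp := grp) hS.sum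
    (F := fun h => rp (F h) i)
    (by
      intro h e he
      have h4 := mem_support_iff.1 (hrp1 (F h) i (mem_support_iff.2 he))
      apply hS.hom h e
      show coeff e (toKL (F h)) ≠ 0
      unfold toKL
      rw [coeff_map, Ne, IsFractionRing.to_map_eq_zero_iff]
      exact h4)
    (p := fun p => rp (Q p) i) (fun h => F h ≠ 0) (A0 * (E i : ℕ)) mm (M * (E i : ℕ))
    (v := fun h => rc (v h) i) (w := fun h => rc (w h) i) (m := fun h p => m h (Q p))
    g1 hmm g4
    (by
      intro p q hpq l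
      refine ⟨N2 p q l, rc (W2 p q l) i, rp (A2 p q l) i, rp (B2 p q l) i, ?_, g2 p q l,
        g5 p q l hpq⟩
      nlinarith [(hA2 p q l).1, Nat.zero_le A0])
    (by
      intro p l
      refine ⟨N3 p l, rc (W3 p l) i, rp (A3 p l) i, rp (B3 p l) i, ?_, g3 p l, g6 p l⟩
      nlinarith [(hA3 p l).1, Nat.zero_le A0])
    hBB
    (by
      intro j
      obtain ⟨h, hj, hh⟩ := hS.ne j
      exact ⟨h, hj, (hF0 h).1 hh⟩)
    (by
      have h4 : A0 * (E i : ℕ) + A0 * (E i : ℕ) * (a + b) = (A0 + A0 * (a + b)) * (E i : ℕ) := by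
        ring
      rw [h4]
      exact Nat.mul_lt_mul_of_pos_right (by omega) (by omega))
    hP
    (by
      intro j
      refine lt_of_le_of_lt (hn j) ?_
      exact Nat.mul_lt_mul_of_pos_right (by omega) (by omega))
    (by
      intro h
      have h4 : (PowerSeries.X : PowerSeries L) ^ (M * (E i : ℕ)) ∣
          ev P (c i h) - ev P (toAA (rp (F h) i)) := by
        rw [← ev_sub]
        exact ev_dvd P (g7 h)
      have h5 : n (grp h) ≤ M * (E i : ℕ) :=
        (hn (grp h)).trans (Nat.mul_le_mul_right _ (by omega))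
      have h6 := (pow_dvd_pow (PowerSeries.X : PowerSeries L) h5).trans h4
      exact (dvd_sub_right (hO h)).1 h6)
  have hER : (1 : ℝ) ≤ ((E i : ℕ) : ℝ) := by exact_mod_cast hE
  have hsumle : ∑ j, mu j * ((A0 * (E i : ℕ) + (A0 * (E i : ℕ) + A0 * (E i : ℕ) * (a + b)) * mm : ℕ) : ℝ) =
      (∑ j, mu j * ((A0 + (A0 + A0 * (a + b)) * mm : ℕ) : ℝ)) * ((E i : ℕ) : ℝ) := by
    rw [Finset.sum_mul]
    refine Finset.sum_congr rfl fun j _ => ?_
    push_cast
    ring
  rw [hsumle] at hcore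
  have h8 : (2 * ((A0 * (E i : ℕ) + A0 * (E i : ℕ) * (a + b) : ℕ) : ℝ)) =
      (2 * ((A0 + A0 * (a + b) : ℕ) : ℝ)) * ((E i : ℕ) : ℝ) := by
    push_cast
    ring
  rw [h8] at hcore
  nlinarith

end M4
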