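import Pool.Agent.M4.LimP
import Pool.Agent.M3.BlkC5

/-!
PIECE M4-C01: block C, limits of the new functions, large charts, transfer of domination (port of parts of
`M3.BlkC1`, `M3.BlkC4`, `M3.BlkC5`; the finite level statements `TC`, `HasT`, `exists_TC`, `mc_quot`, `tch`, `sca`, `psi` of M3 are
used as they are).

PROOF. `homog_mod`: for `wt a b m ≠ d` the coefficient of `F` is zero, so `mc (c i) m` is null (`lm_eq_zero`); `tame_uniform`.
`exists_G`: by `mc_quot` (with `M * E i` instead of `M`) and `homog_mod`, for every `M` for almost all `i`: `X^(M * E i) ∣ mc (c' i) m`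
for all `m` with `d < wt a b m`, and `X^(M * E i) ∣ mc (c' i) m - mc (c i) m` if `wt a b m = d`.  So `c'` is tame (`D := d`, since
`m 0 + m 1 ≤ wt a b m`) and `exists_poly_lim` gives `G`; its coefficients are `lm E (fun i => mc (c' i) m)`.
`L_large`: `u = 0`, `p = 0`, `psi 0 0 = xA`, `mc_tch`: the coefficient of `x^m` of the new function is
`X^(ℓ * E i * wt a b m) * mc (c i) m`, divisible by `X^(d * ℓ * E i)` if `d ≤ wt a b m`, and also if `wt a b m < d` by `homog_mod` with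
`M := d * ℓ`.  The arc: `P i 0`, `P i 1` are divisible by `X^(a * ℓ * E i)`, `X^(b * ℓ * E i)`.
`dom_C`: as `M3.dom_C` with `ℓ * E i` instead of `ℓ` (`deg_top` at the level `ℓ * E i`).
-/

open MvPolynomial

namespace M4

open M3

universe u

section
variable {E : ℕ → ℕ+} {k : Type u} [Field k] {r : ℕ} {J : Type}

theorem homog_mod {a b d : ℕ} {F : MvPolynomial (Fin 2) (Lam E k)}
    (hF : ∀ m, coeff m F ≠ 0 → wt a b m = d) {c : ℕ → AA k} (hc : IsLim E c F) (M : ℕ) :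
    ∀ᶠ i in Uf, ∀ m, wt a b m ≠ d →
      (PowerSeries.X : PowerSeries k) ^ (M * (E i : ℕ)) ∣ mc (c i) m := by
  filter_upwards [tame_uniform hc.1 M] with i hi m hm
  refine hi m (lm_eq_zero.1 ?_)
  rw [← hc.2 m]
  by_contra h
  exact hm (hF m h)

private theorem cLim_le {a b : ℕ} (ha : 0 < a) (hb : 0 < b) (m : Fin 2 →₀ ℕ) :
    m 0 + m 1 ≤ wt a b m := by
  unfold wt
  exact Nat.add_le_add (Nat.le_mul_of_pos_left _ ha) (Nat.le_mul_of_pos_left _ hb)

theorem exists_G {a b d : ℕ} (ha : 0 < a) (hb : 0 < b) {F : MvPolynomial (Fin 2) (Lam E k)}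
    (hF : ∀ m, coeff m F ≠ 0 → wt a b m = d) {c c' : ℕ → AA k} (hc : IsLim E c F)
    {L : ℕ → ℕ} {u : ℕ → PowerSeries k} {p : ℕ → Polynomial (PowerSeries k)}
    (hp : ∀ i, a * (p i).natDegree < b)
    (hg : ∀ i, ev (tch (a * L i) (b * L i) (u i) (p i)) (c i) =
      PowerSeries.X ^ (d * L i) * c' i) :
    ∃ G : MvPolynomial (Fin 2) (Lam E k), IsLim E c' G ∧
      ∀ m, d ≤ wt a b m → coeff m G = coeff m F := by
  have h1 : ∀ M : ℕ, ∀ᶠ i in Uf,
      (∀ m, d < wt a b m → (PowerSeries.X : PowerSeries k) ^ (M * (E i : ℕ)) ∣ mc (c' i) m) ∧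
      ∀ m, wt a b m = d →
        (PowerSeries.X : PowerSeries k) ^ (M * (E i : ℕ)) ∣ mc (c' i) m - mc (c i) m := by
    intro M
    filter_upwards [homog_mod hF hc M] with i hi
    exact mc_quot ha (hp i) (hg i) hi
  have h2 : Tame E c' := fun M => ⟨d, by
    filter_upwards [h1 M] with i hi m hm
    exact hi.1 m (lt_of_lt_of_le hm (cLim_le ha hb m))⟩
  have h3 : ∀ m : Fin 2 →₀ ℕ, d < wt a b m → Nul E (fun i => mc (c' i) m) := by
    intro m hm M
    filter_upwards [h1 M] with i hi using hi.1 m hm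
  obtain ⟨G, hG⟩ := exists_poly_lim h2 d
    (fun m hm => h3 m (lt_of_lt_of_le hm (cLim_le ha hb m)))
  refine ⟨G, hG, fun m hm => ?_⟩
  rw [hG.2 m, hc.2 m]
  rcases hm.lt_or_eq with h4 | h4
  · have h5 : coeff m F = 0 := by
      by_contra h6
      exact h4.ne' (hF m h6)
    rw [← hc.2 m, h5]
    exact lm_eq_zero.2 (h3 m h4)
  · rw [lm_eq]
    intro M
    filter_upwards [h1 M] with i hi using hi.2 m h4.symm

theorem L_large [Finite J] {a b : ℕ} (hb : 0 < b) {grp : J → Fin r} {d : Fin r → ℕ}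
    {F : J → MvPolynomial (Fin 2) (Lam E k)}
    (hF : ∀ h m, coeff m (F h) ≠ 0 → wt a b m = d (grp h))
    {c : ℕ → J → AA k} (hc : ∀ h, IsLim E (fun i => c i h) (F h))
    {P : ℕ → Fin 2 → PowerSeries (Om k)} (hP : ∀ j, Nul E (fun i => P i j)) (ℓ : ℕ) :
    ∀ᶠ i in Uf, HasT a b grp d (c i) (P i) (ℓ * (E i : ℕ)) := by
  have hpsi : psi (0 : PowerSeries k) 0 = xA := by
    funext j
    fin_cases j
    · change xA 0 + cA 0 = xA 0
      rw [map_zero, add_zero]
    · change xA 1 + Polynomial.eval₂ cA _ 0 = xA 1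
      rw [Polynomial.eval₂_zero, add_zero]
  have h2 : ∀ h, ∀ᶠ i in Uf, (PowerSeries.X : AA k) ^ (d (grp h) * (ℓ * (E i : ℕ))) ∣
      ev (tch (a * (ℓ * (E i : ℕ))) (b * (ℓ * (E i : ℕ))) 0 0) (c i h) := by
    intro h
    filter_upwards [homog_mod (hF h) (hc h) (d (grp h) * ℓ)] with i hi
    rw [X_pow_dvd_iff_mc]
    intro m
    rw [mc_tch, hpsi, ev_self]
    by_cases hm : wt a b m = d (grp h)
    · refine Dvd.dvd.mul_right (pow_dvd_pow _ (le_of_eq ?_)) _
      rw [← hm]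
      unfold wt
      ring
    · refine Dvd.dvd.mul_left ?_ _
      have h3 := hi m hm
      rwa [mul_assoc] at h3
  filter_upwards [hP 0 (a * ℓ), hP 1 (b * ℓ), Filter.eventually_all.2 h2] with i h3 h4 h5
  obtain ⟨w0, hw0⟩ := h3
  obtain ⟨w1, hw1⟩ := h4
  rw [mul_assoc] at hw0 hw1
  refine ⟨0, 0, ![w0, w1], by rw [Polynomial.natDegree_zero, mul_zero]; exact hb, ?_, h5⟩
  funext j
  fin_cases j
  · change P i 0 = ev ![w0, w1] (cA 0 + PowerSeries.X ^ (a * (ℓ * (E i : ℕ))) * xA 0)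
    rw [map_zero, zero_add, ev_mul, ev_X_pow, ev_xA, hw0]
    rfl
  · change P i 1 = ev ![w0, w1]
      (Polynomial.eval₂ cA _ 0 + PowerSeries.X ^ (b * (ℓ * (E i : ℕ))) * xA 1)
    rw [Polynomial.eval₂_zero, zero_add, ev_mul, ev_X_pow, ev_xA, hw1]
    rfl

/-- transfer of domination -/
theorem dom_C {a b : ℕ} {mu : Fin r → ℝ} (hmu : ∀ j, 0 ≤ mu j) {grp : J → Fin r}
    {d : Fin r → ℕ} (hsum : ∑ j, mu j * d j = a + b) {c c' : ℕ → J → AA k}
    (hM : ∀ M, ∀ᶠ i in Uf, ∀ h,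
      (∀ m, wt a b m ≠ d (grp h) →
        (PowerSeries.X : PowerSeries k) ^ (M * (E i : ℕ)) ∣ mc (c i h) m) ∧
      (∀ m, d (grp h) < wt a b m →
        (PowerSeries.X : PowerSeries k) ^ (M * (E i : ℕ)) ∣ mc (c' i h) m) ∧
      ∀ m, wt a b m = d (grp h) → (PowerSeries.X : PowerSeries k) ^ (M * (E i : ℕ)) ∣
        mc (c' i h) m - mc (c i h) m)
    {C : ℕ → ℕ} {n : ℕ → Fin r → ℕ} {L : ℕ → ℕ} (hL : ∀ᶠ i in Uf, a * L i + b * L i ≤ C i)
    (hD : Dom E mu grp c' (fun i => C i - a * L i - b * L i)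
      (fun i j => n i j - d j * L i)) : Dom E mu grp c C n := by
  obtain ⟨ℓ, hℓ⟩ := hD
  refine ⟨ℓ, ?_⟩
  filter_upwards [hℓ, hM ℓ, hL] with i hi hi' hi''
  obtain ⟨Q, C₁, n₁, h1, h2, h3, h4, h5⟩ := hi
  obtain ⟨L₀, _, _, P₀, h6, h7⟩ := deg_top Q (ℓ * (E i : ℕ)) C₁ (h3 (ℓ * (E i : ℕ))) a b
  obtain ⟨Q', h8, h9⟩ := exists_cont P₀ (ℓ * (E i : ℕ)) C₁ h6
  refine ⟨Q', C₁, n₁, h1, h2, h8, fun h => ?_, ?_⟩
  · refine h9 _ _ (h2 _) ?_
    obtain ⟨g1, g2, g3⟩ := hi' h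
    have h10 := h7 (c' i h) (d (grp h)) (n₁ (grp h)) (h2 _) (fun m hm e he => by
      by_contra hlt
      apply he
      rw [← coeff_mc]
      exact (PowerSeries.X_pow_dvd_iff.1 (g2 e (by omega))) m hm) (h4 h)
    have h11 : (PowerSeries.X : AA k) ^ (ℓ * (E i : ℕ)) ∣
        topA a b (d (grp h)) (c' i h) - c i h := by
      rw [X_pow_dvd_iff_mc]
      intro e
      rw [mc_sub, mc_topA]
      split_ifs with he
      · exact g3 e he
      · rw [zero_sub]
        exact (g1 e he).neg_right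
    have h12 := (pow_dvd_pow _ (h2 (grp h))).trans (ev_dvd P₀ h11)
    rw [ev_sub] at h12
    have h13 := dvd_sub h10 h12
    rwa [sub_sub_cancel] at h13
  · refine h5.trans ?_
    have e1 : ((C i - a * L i - b * L i : ℕ) : ℝ) = C i - (a + b) * L i := by
      rw [Nat.sub_sub, Nat.cast_sub hi'']
      push_cast
      ring
    have e2 : ∑ j, mu j * ((n i j - d j * L i : ℕ) : ℝ) ≥
        ∑ j, mu j * (n i j : ℝ) - (a + b) * L i := by
      have e3 : ∑ j, mu j * (n i j : ℝ) - (a + b) * L i =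
          ∑ j, mu j * ((n i j : ℝ) - d j * L i) := by
        rw [← hsum, Finset.sum_mul, ← Finset.sum_sub_distrib]
        refine Finset.sum_congr rfl fun j _ => ?_
        ring
      rw [e3]
      refine Finset.sum_le_sum fun j _ => mul_le_mul_of_nonneg_left ?_ (hmu j)
      have e4 : (n i j : ℝ) ≤ ((n i j - d j * L i : ℕ) : ℝ) + ((d j * L i : ℕ) : ℝ) := by
        exact_mod_cast Nat.le_add_of_sub_le (le_refl _)
      push_cast at e4
      linarith
    change ((C i - a * L i - b * L i : ℕ) : ℝ) - ∑ j, mu j * ((n i j - d j * L i : ℕ) : ℝ) ≤ _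
    rw [e1]
    linarith

end

end M4
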