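import Pool.Agent.M4.CLim

/-!
PIECE M4-C02: block C, a larger chart for translated states (port of `M3.BlkC2` (denominators), `M3.BlkC3`, `M3.BlkC4`,
`M3.BlkC5.star`).  Notation: `t n := lm E (fun i => X^(n * E i))`.

PROOF. `exists_den`: a nonzero `y = lm E a` divides some `t n`: for almost all `i` the order `v i` of `a i` is `≤ n * E i` (`not_nul`), so
`X^(n * E i) = a i * w i`.  `exists_denP`: common denominator of the coefficients of `p`.
`star`: as `M3.star` with `s` replaced by `s * E i`, `X^s` at the limit level by `t s`, `L i + 1` by `L i + E i`, `tch a (b + s)` by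
`tch (a * E i) ((b + s) * E i)`:
(1) `exists_denP p₀`: `s`, `q : Polynomial (Lam E k)`, `natDegree q ≤ natDegree p₀`, `q = t s * p₀` over `KL E k`; `exists_seqP q`:
`q' i`; `v i := z i 0`.  `q.eval (lm z 0) = t s * lm z 1`.
(2) `exists_H` (M3, finite level) with `s * E i`: `Hh i h` (for almost all `i`, `s * E i ≤ L i`); its coefficients of weight `> d` are
divisible by `X^(M * E i)`, so `IsLim E (fun i => Hh i h) (H h)` for a polynomial `H h` (`exists_poly_lim`).
`ev (sca 0 (s * E i)) (Hh i h) = X^(s * E i * d) * c' i h` gives `aeval ![X 0, C (t s) * X 1] (H h) = C (t (s * d)) * G h`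
(`IsLim.ev`, `IsLim.unique`).
(3) `star_field` (M3, over the field `KL E k`, `T := t s`, `Ta := t a`, `Tb := t b`, `Sd := t (s * d)`) and `F h` homogeneous of weight `d`:
the limit of `ev (tch (a * E i) ((b + s) * E i) (v i) (q' i)) (Hh i h)` is `C (t (s * d)) * aeval ![C (t a) * X 0, C (t b) * X 1] (F h)`
`= C (t (s * d + d)) * F h`; so for almost all `i` the function is divisible by `X^((s * d + d) * E i)` (its difference to
`X^(..) * toAA (F' i h)` is null, `IsLim.nul_sub`, `exists_rep`).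
(4) Arcs: `P' i 0 - v i` is divisible by `X^(a * E i)`, `X^(s * E i) * P' i 1 - q' i (P' i 0)` by `X^((b + s) * E i)`: `Near E P' z` and
`q' i (v i) - X^(s * E i) * z i 1` null.
(5) The end is the one of `M3.star` (`tch_comp`, `ev_tch_comp`, `corr`, all finite level) with `s * E i` for `s`:
`a * (L i + E i) = a * L i + a * E i`, `b * (L i + E i) = b * L i - s * E i + (b + s) * E i`.
-/

open MvPolynomial

namespace M4

open M3

universe u

section
variable {E : ℕ → ℕ+} {k : Type u} [Field k] {r : ℕ} {J : Type}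

private theorem nul_of_eventually_eq {R : Type*} [CommRing R] {a b : ℕ → PowerSeries R}
    (h : ∀ᶠ i in Uf, a i = b i) : Nul E (fun i => a i - b i) := by
  refine Nul.congr ?_ (Nul.zero E)
  filter_upwards [h] with i hi
  rw [hi, sub_self]

theorem exists_den (x : KL E k) : ∃ n : ℕ, ∀ m, n ≤ m → ∃ y : Lam E k,
    algebraMap (Lam E k) (KL E k) y = algebraMap (Lam E k) (KL E k)
      (lm E (fun i => (PowerSeries.X : PowerSeries k) ^ (m * (E i : ℕ)))) * x := by
  obtain ⟨a, b, hb, rfl⟩ := IsFractionRing.div_surjective (A := Lam E k) x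
  have hb0 : b ≠ 0 := nonZeroDivisors.ne_zero hb
  obtain ⟨β, rfl⟩ := lm_surj b
  have hβ : ¬ Nul E β := fun h => hb0 (lm_eq_zero.2 h)
  obtain ⟨A, v, w, hvw⟩ := exists_val hβ
  refine ⟨A, fun m hm => ⟨lm E (fun i => (w i)⁻¹ * PowerSeries.X ^ (m * (E i : ℕ) - v i)) * a,
    ?_⟩⟩
  have hb1 : algebraMap (Lam E k) (KL E k) (lm E β) ≠ 0 := by
    intro h
    exact hb0 ((map_eq_zero_iff _ (IsFractionRing.injective (Lam E k) (KL E k))).1 h)
  rw [← mul_div_assoc, eq_div_iff hb1, ← map_mul, ← map_mul]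
  congr 1
  have h1 : lm E (fun i => (w i)⁻¹ * PowerSeries.X ^ (m * (E i : ℕ) - v i)) * lm E β =
      lm E (fun i => (PowerSeries.X : PowerSeries k) ^ (m * (E i : ℕ))) := by
    rw [← map_mul, lm_eq]
    refine nul_of_eventually_eq ?_
    filter_upwards [hvw] with i hi
    obtain ⟨h2, h3, h4⟩ := hi
    have h5 : v i ≤ m * (E i : ℕ) := h2.trans (Nat.mul_le_mul_right _ hm)
    have h6 : w i * (w i)⁻¹ = 1 := PowerSeries.mul_inv_cancel _ (by
      rwa [← PowerSeries.coeff_zero_eq_constantCoeff_apply])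
    rw [Pi.mul_apply, h3]
    calc (w i)⁻¹ * PowerSeries.X ^ (m * (E i : ℕ) - v i) * (PowerSeries.X ^ v i * w i)
        = (w i * (w i)⁻¹) * (PowerSeries.X ^ (m * (E i : ℕ) - v i) * PowerSeries.X ^ v i) := by
          ring
      _ = _ := by rw [h6, one_mul, ← pow_add, Nat.sub_add_cancel h5]
  rw [← h1]
  ring

theorem exists_denP (p : Polynomial (KL E k)) : ∃ (s : ℕ) (q : Polynomial (Lam E k)),
    q.natDegree ≤ p.natDegree ∧ q.map (algebraMap (Lam E k) (KL E k)) =
      Polynomial.C (algebraMap (Lam E k) (KL E k)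
        (lm E (fun i => (PowerSeries.X : PowerSeries k) ^ (s * (E i : ℕ))))) * p := by
  choose n hn using fun j => exists_den (p.coeff j)
  let s : ℕ := ∑ j ∈ Finset.range (p.natDegree + 1), n j
  have hs : ∀ j, j ∈ Finset.range (p.natDegree + 1) → n j ≤ s := fun j hj =>
    Finset.single_le_sum (fun _ _ => Nat.zero_le _) hj
  have h1 : ∀ j, ∃ y : Lam E k, (p.natDegree < j → y = 0) ∧
      algebraMap (Lam E k) (KL E k) y = algebraMap (Lam E k) (KL E k)
        (lm E (fun i => (PowerSeries.X : PowerSeries k) ^ (s * (E i : ℕ)))) * p.coeff j := by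
    intro j
    rcases Nat.lt_or_ge p.natDegree j with h | h
    · refine ⟨0, fun _ => rfl, ?_⟩
      rw [Polynomial.coeff_eq_zero_of_natDegree_lt h, mul_zero, map_zero]
    · obtain ⟨y, hy⟩ := hn j s (hs j (Finset.mem_range.2 (by omega)))
      exact ⟨y, fun h2 => absurd h2 (by omega), hy⟩
  choose y hy0 hy using h1
  refine ⟨s, ∑ j ∈ Finset.range (p.natDegree + 1), Polynomial.monomial j (y j), ?_, ?_⟩
  · refine Polynomial.natDegree_sum_le_of_forall_le _ _ fun j hj => ?_
    exact (Polynomial.natDegree_monomial_le _).trans (by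
      have := Finset.mem_range.1 hj
      omega)
  · ext1 j
    rw [Polynomial.coeff_map, Polynomial.coeff_C_mul, ← hy j, Polynomial.finsetSum_coeff]
    simp only [Polynomial.coeff_monomial]
    rw [Finset.sum_ite_eq']
    split_ifs with h
    · rfl
    · rw [hy0 j (by
        by_contra h2
        exact h (Finset.mem_range.2 (by omega)))]

/-! ### powers of the parameter -/

private noncomputable def tt (E : ℕ → ℕ+) (k : Type u) [Field k] (n : ℕ) : Lam E k :=
  lm E (fun i => (PowerSeries.X : PowerSeries k) ^ (n * (E i : ℕ)))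

private theorem tt_add (m n : ℕ) : tt E k (m + n) = tt E k m * tt E k n := by
  unfold tt
  rw [← map_mul]
  congr 1
  funext i
  rw [Pi.mul_apply, add_mul, pow_add]

private theorem tt_pow (m n : ℕ) : tt E k m ^ n = tt E k (m * n) := by
  unfold tt
  rw [← map_pow]
  congr 1
  funext i
  rw [Pi.pow_apply, ← pow_mul]
  congr 1
  ring

private theorem tt_ne (n : ℕ) : tt E k n ≠ 0 := by
  intro h
  obtain ⟨i, hi⟩ := ((lm_eq_zero.1 h) (n + 1)).exists
  have h1 := (PowerSeries.X_pow_dvd_iff.1 hi) (n * (E i : ℕ)) (by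
    have := (E i).pos
    nlinarith)
  rw [PowerSeries.coeff_X_pow, if_pos rfl] at h1
  exact one_ne_zero h1

/-! ### polynomials over the limit ring -/

private theorem kl_inj : Function.Injective (toKL (E := E) (k := k)) :=
  MvPolynomial.map_injective _ (IsFractionRing.injective _ _)

private theorem kl_C (c : Lam E k) : toKL (C c) = C (algebraMap (Lam E k) (KL E k) c) := by
  unfold toKL
  rw [map_C]

private theorem kl_X (j : Fin 2) : toKL (X j : MvPolynomial (Fin 2) (Lam E k)) = X j := by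
  unfold toKL
  rw [map_X]

private theorem kl_aeval (χ : Fin 2 → MvPolynomial (Fin 2) (Lam E k))
    (H : MvPolynomial (Fin 2) (Lam E k)) :
    toKL (aeval χ H) = aeval (fun j => toKL (χ j)) (toKL H) := MvPolynomial.map_bind₁ _ _ _

private theorem kl_eval₂ (q : Polynomial (Lam E k)) (t : MvPolynomial (Fin 2) (Lam E k)) :
    toKL (q.eval₂ C t) = (q.map (algebraMap (Lam E k) (KL E k))).eval₂ C (toKL t) := by
  rw [Polynomial.hom_eval₂, Polynomial.eval₂_map]
  congr 1
  ext1 c
  rw [RingHom.comp_apply, RingHom.comp_apply, kl_C]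

private theorem homog_scale {a b d : ℕ} {F : MvPolynomial (Fin 2) (Lam E k)}
    (hF : ∀ m, coeff m F ≠ 0 → wt a b m = d) :
    aeval (![C (tt E k a) * X 0, C (tt E k b) * X 1] :
      Fin 2 → MvPolynomial (Fin 2) (Lam E k)) F = C (tt E k d) * F := by
  have h1 : ∀ m ∈ F.support, aeval (![C (tt E k a) * X 0, C (tt E k b) * X 1] :
      Fin 2 → MvPolynomial (Fin 2) (Lam E k)) (monomial m (coeff m F)) =
      C (tt E k d) * monomial m (coeff m F) := by
    intro m hm
    have h2 := hF m (mem_support_iff.1 hm)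
    have h3 : (monomial m (coeff m F) : MvPolynomial (Fin 2) (Lam E k)) =
        C (coeff m F) * (X 0 ^ m 0 * X 1 ^ m 1) := by
      rw [monomial_eq, Finsupp.prod_fintype _ _ (fun i => pow_zero _), Fin.prod_univ_two]
    have h4 : tt E k d = tt E k a ^ m 0 * tt E k b ^ m 1 := by
      rw [tt_pow, tt_pow, ← tt_add, ← h2]
      rfl
    rw [aeval_monomial, Finsupp.prod_fintype _ _ (fun i => pow_zero _), Fin.prod_univ_two, h3,
      MvPolynomial.algebraMap_eq, h4, map_mul, map_pow, map_pow]
    simp only [Matrix.cons_val_zero, Matrix.cons_val_one]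
    ring
  conv_lhs => rw [F.as_sum, map_sum, Finset.sum_congr rfl h1, ← Finset.mul_sum]
  rw [← F.as_sum]

/-- the identity at the limit level -/
private theorem star_lim {a b d s : ℕ} {F G H : MvPolynomial (Fin 2) (Lam E k)}
    (hF : ∀ m, coeff m F ≠ 0 → wt a b m = d) {z : Lam E k}
    {q : Polynomial (Lam E k)} {p : Polynomial (KL E k)}
    (hq : q.map (algebraMap (Lam E k) (KL E k)) =
      Polynomial.C (algebraMap (Lam E k) (KL E k) (tt E k s)) * p)
    (hH : aeval (![X 0, C (tt E k s) * X 1] : Fin 2 → MvPolynomial (Fin 2) (Lam E k)) H =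
      C (tt E k (s * d)) * G)
    (hG : toKL G = aeval ![X 0 - C (algebraMap (Lam E k) (KL E k) z),
      X 1 - Polynomial.aeval (X 0 : MvPolynomial (Fin 2) (KL E k)) p] (toKL F)) :
    aeval (![C z + C (tt E k a) * X 0,
      q.eval₂ C (C z + C (tt E k a) * X 0) + C (tt E k (b + s)) * X 1] :
        Fin 2 → MvPolynomial (Fin 2) (Lam E k)) H = C (tt E k (s * d + d)) * F := by
  have hT : algebraMap (Lam E k) (KL E k) (tt E k s) ≠ 0 := by
    intro h
    exact tt_ne s ((map_eq_zero_iff _ (IsFractionRing.injective (Lam E k) (KL E k))).1 h)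
  have h2 := congrArg (toKL (E := E) (k := k)) hH
  have h3 : (fun j => toKL ((![X 0, C (tt E k s) * X 1] :
      Fin 2 → MvPolynomial (Fin 2) (Lam E k)) j)) =
      ![X 0, C (algebraMap (Lam E k) (KL E k) (tt E k s)) * X 1] := by
    funext j
    fin_cases j
    · exact kl_X 0
    · change toKL (C (tt E k s) * X 1) = C (algebraMap (Lam E k) (KL E k) (tt E k s)) * X 1
      rw [map_mul, kl_C, kl_X]
  rw [kl_aeval, map_mul, kl_C, h3] at h2
  have h4 := star_field hT (Ta := algebraMap (Lam E k) (KL E k) (tt E k a))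
    (Tb := algebraMap (Lam E k) (KL E k) (tt E k b)) p h2 hG
  have h5 : (fun j => toKL ((![C z + C (tt E k a) * X 0,
      q.eval₂ C (C z + C (tt E k a) * X 0) + C (tt E k (b + s)) * X 1] :
        Fin 2 → MvPolynomial (Fin 2) (Lam E k)) j)) =
      ![C (algebraMap (Lam E k) (KL E k) z) +
        C (algebraMap (Lam E k) (KL E k) (tt E k a)) * X 0,
        C (algebraMap (Lam E k) (KL E k) (tt E k s)) *
        p.eval₂ C (C (algebraMap (Lam E k) (KL E k) z) +
        C (algebraMap (Lam E k) (KL E k) (tt E k a)) * X 0) +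
        C (algebraMap (Lam E k) (KL E k) (tt E k b) *
          algebraMap (Lam E k) (KL E k) (tt E k s)) * X 1] := by
    have e0 : toKL (C z + C (tt E k a) * X 0 : MvPolynomial (Fin 2) (Lam E k)) =
        C (algebraMap (Lam E k) (KL E k) z) +
          C (algebraMap (Lam E k) (KL E k) (tt E k a)) * X 0 := by
      rw [map_add, map_mul, kl_C, kl_C, kl_X]
    funext j
    fin_cases j
    · exact e0
    · change toKL (q.eval₂ C (C z + C (tt E k a) * X 0) + C (tt E k (b + s)) * X 1) = _
      rw [map_add, map_mul, kl_C, kl_X, kl_eval₂, e0, hq, Polynomial.eval₂_mul,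
        Polynomial.eval₂_C, tt_add, map_mul]
      rfl
  have h6 : (fun j => toKL ((![C (tt E k a) * X 0, C (tt E k b) * X 1] :
        Fin 2 → MvPolynomial (Fin 2) (Lam E k)) j)) =
      ![C (algebraMap (Lam E k) (KL E k) (tt E k a)) * X 0,
        C (algebraMap (Lam E k) (KL E k) (tt E k b)) * X 1] := by
    funext j
    fin_cases j
    · change toKL (C (tt E k a) * X 0) = C (algebraMap (Lam E k) (KL E k) (tt E k a)) * X 0
      rw [map_mul, kl_C, kl_X]
    · change toKL (C (tt E k b) * X 1) = C (algebraMap (Lam E k) (KL E k) (tt E k b)) * X 1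
      rw [map_mul, kl_C, kl_X]
  have h7 : aeval (![C z + C (tt E k a) * X 0,
      q.eval₂ C (C z + C (tt E k a) * X 0) + C (tt E k (b + s)) * X 1] :
        Fin 2 → MvPolynomial (Fin 2) (Lam E k)) H = C (tt E k (s * d)) *
      aeval (![C (tt E k a) * X 0, C (tt E k b) * X 1] :
        Fin 2 → MvPolynomial (Fin 2) (Lam E k)) F := by
    apply kl_inj
    rw [kl_aeval, map_mul, kl_C, kl_aeval, h5, h6]
    exact h4
  rw [h7, homog_scale hF, tt_add, map_mul, mul_assoc]

/-- the arc in the new chart -/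
private theorem star_arc {A B s : ℕ} {P' : Fin 2 → PowerSeries (Om k)} {v : PowerSeries k}
    {q : Polynomial (PowerSeries k)}
    (h0 : (PowerSeries.X : PowerSeries (Om k)) ^ A ∣
      P' 0 - PowerSeries.map (algebraMap k (Om k)) v)
    (h1 : (PowerSeries.X : PowerSeries (Om k)) ^ B ∣ PowerSeries.X ^ s * P' 1 -
      q.eval₂ (PowerSeries.map (algebraMap k (Om k))) (P' 0)) :
    ∃ Q : Fin 2 → PowerSeries (Om k), ∀ j, ev Q (tch A B v q j) = ev P' (sca k 0 s j) := by
  obtain ⟨w0, hw0⟩ := h0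
  obtain ⟨w1, hw1⟩ := h1
  rw [sub_eq_iff_eq_add] at hw0
  rw [sub_eq_iff_eq_add] at hw1
  refine ⟨![w0, w1], fun j => ?_⟩
  have h5 : ev ![w0, w1] (cA v + PowerSeries.X ^ A * xA 0) = P' 0 := by
    rw [ev_add, ev_mul, ev_X_pow, ev_xA, ev_cA, hw0, add_comm]
    rfl
  fin_cases j
  · change ev ![w0, w1] (cA v + PowerSeries.X ^ A * xA 0) =
      ev P' (PowerSeries.X ^ 0 * xA 0)
    rw [h5, pow_zero, one_mul, ev_xA]
  · change ev ![w0, w1] (q.eval₂ cA (cA v + PowerSeries.X ^ A * xA 0) +
      PowerSeries.X ^ B * xA 1) = ev P' (PowerSeries.X ^ s * xA 1)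
    rw [ev_add, ev_mul, ev_X_pow, ev_xA, ev_eval₂, h5, ev_mul, ev_X_pow, ev_xA, hw1, add_comm]
    rfl

/-- the end of the proof at the finite level -/
private theorem star_fin {a b s e N : ℕ} (hb : 0 < b) {grp : J → Fin r} {d : Fin r → ℕ}
    {c Hh : J → AA k} {P P' : Fin 2 → PowerSeries (Om k)} {L : ℕ} {u v : PowerSeries k}
    {p q : Polynomial (PowerSeries k)} (hT : TC a b grp d c P L u p P') (hdeg : a * N < b)
    (hq : q.natDegree ≤ N) (hi : s * e ≤ L)
    (hH : ∀ h, PowerSeries.X ^ (s * e * d (grp h)) * ev (tch (a * L) (b * L - s * e) u p) (c h) =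
      PowerSeries.X ^ (d (grp h) * L) * Hh h)
    (hH' : ∀ h, (PowerSeries.X : AA k) ^ ((s * d (grp h) + d (grp h)) * e) ∣
      ev (tch (a * e) ((b + s) * e) v q) (Hh h)) {Q : Fin 2 → PowerSeries (Om k)}
    (hQ : ∀ j, ev Q (tch (a * e) ((b + s) * e) v q j) = ev P' (sca k 0 (s * e) j)) :
    HasT a b grp d c P (L + e) := by
  have hAB : a * L * N ≤ b * L - s * e := by
    apply Nat.le_sub_of_add_le
    nlinarith [Nat.mul_le_mul_right L (Nat.succ_le_of_lt hdeg)]
  have hbL : s * e ≤ b * L := hi.trans (Nat.le_mul_of_pos_left _ hb)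
  have eA : a * (L + e) = a * L + a * e := by ring
  have eB : b * (L + e) = b * L - s * e + (b + s) * e := by
    rw [mul_add, add_mul]
    omega
  refine ⟨u + PowerSeries.X ^ (a * L) * v, p + corr (a * L) (b * L - s * e) N u q, Q, ?_, ?_,
    fun h => ?_⟩
  · have h1 : (p + corr (a * L) (b * L - s * e) N u q).natDegree ≤ max p.natDegree N :=
      (Polynomial.natDegree_add_le _ _).trans
        (max_le_max (le_refl _) (corr_natDegree _ _ _ _ _))
    have h2 := hT.1
    rcases max_choice p.natDegree N with h3 | h3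
    · rw [h3] at h1
      exact lt_of_le_of_lt (Nat.mul_le_mul_left a h1) h2
    · rw [h3] at h1
      exact lt_of_le_of_lt (Nat.mul_le_mul_left a h1) hdeg
  · rw [hT.2.1]
    funext j
    rw [eA, eB, ← tch_comp hAB _ _ _ _ hq, ev_ev]
    have h4 : (fun j => ev Q (tch (a * e) ((b + s) * e) v q j)) =
        fun j => ev P' (sca k 0 (s * e) j) := funext hQ
    rw [h4, ← ev_ev, tch_sca, Nat.sub_add_cancel hbL]
  · rw [eA, eB, ← ev_tch_comp hAB _ _ _ _ hq]
    have h5 := congrArg (ev (tch (a * e) ((b + s) * e) v q)) (hH h)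
    rw [ev_mul, ev_mul, ev_X_pow, ev_X_pow] at h5
    obtain ⟨w, hw⟩ := hH' h
    rw [hw, ← mul_assoc, ← pow_add] at h5
    have h6 : d (grp h) * L + (s * d (grp h) + d (grp h)) * e =
        s * e * d (grp h) + d (grp h) * (L + e) := by ring
    rw [h6, pow_add, mul_assoc (PowerSeries.X ^ (s * e * d (grp h)))] at h5
    exact ⟨w, mul_left_cancel₀ (pow_ne_zero _ PowerSeries.X_ne_zero) h5⟩

theorem star [Finite J] {a b : ℕ} (ha : 0 < a) (hb : 0 < b) {grp : J → Fin r} {d : Fin r → ℕ}
    {F G : J → MvPolynomial (Fin 2) (Lam E k)}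
    (hF : ∀ h m, coeff m (F h) ≠ 0 → wt a b m = d (grp h))
    {c c' : ℕ → J → AA k} (hc : ∀ h, IsLim E (fun i => c i h) (F h))
    (hc' : ∀ h, IsLim E (fun i => c' i h) (G h))
    {P P' : ℕ → Fin 2 → PowerSeries (Om k)} {L : ℕ → ℕ} {u : ℕ → PowerSeries k}
    {p : ℕ → Polynomial (PowerSeries k)}
    (hT : ∀ i, TC a b grp d (c i) (P i) (L i) (u i) (p i) (P' i))
    (hg : ∀ i h, ev (tch (a * L i) (b * L i) (u i) (p i)) (c i h) =
      PowerSeries.X ^ (d (grp h) * L i) * c' i h)
    (hL : ∀ ℓ : ℕ, ∀ᶠ i in Uf, ℓ * (E i : ℕ) ≤ L i) {z : ℕ → Fin 2 → PowerSeries k}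
    (hz : Near E P' z) (htr : Tr a b F G (fun j => lm E (fun i => z i j))) :
    ∀ᶠ i in Uf, HasT a b grp d (c i) (P i) (L i + (E i : ℕ)) := by
  obtain ⟨p₀, hdeg, hev, hFG⟩ := htr
  obtain ⟨s, q, hq1, hq2⟩ := exists_denP p₀
  obtain ⟨q', hq'1, _, hq'2⟩ := exists_seqP q
  have hz0 : IsLim E (fun i => (M3.cA (z i 0) : AA k)) (C (lm E (fun i => z i 0))) :=
    IsLim.cA fun i => z i 0
  -- the value of `q`
  have hqz : q.eval (lm E (fun i => z i 0)) = tt E k s * lm E (fun i => z i 1) := by
    apply IsFractionRing.injective (Lam E k) (KL E k)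
    rw [map_mul, ← hev]
    have h := congrArg (Polynomial.eval (algebraMap (Lam E k) (KL E k)
      (lm E (fun i => z i 0)))) hq2
    rw [Polynomial.eval_map, Polynomial.eval₂_at_apply, Polynomial.eval_mul,
      Polynomial.eval_C] at h
    exact h
  have hqv : lm E (fun i => (q' i).eval (z i 0)) = q.eval (lm E (fun i => z i 0)) := by
    have h1 := (hq'2 _ _ hz0).2 0
    have h2 : q.eval₂ C (C (lm E (fun i => z i 0)) : MvPolynomial (Fin 2) (Lam E k)) =
        C (q.eval (lm E (fun i => z i 0))) := Polynomial.eval₂_at_apply _ _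
    rw [h2, coeff_zero_C] at h1
    rw [h1]
    congr 1
    funext i
    have h3 : (q' i).eval₂ M3.cA (M3.cA (z i 0)) = M3.cA ((q' i).eval (z i 0)) :=
      Polynomial.eval₂_at_apply _ _
    change (q' i).eval (z i 0) = mc ((q' i).eval₂ M3.cA (M3.cA (z i 0))) 0
    rw [h3, mc_cA, if_pos rfl]
  have hnul : Nul E (fun i => (q' i).eval (z i 0) - PowerSeries.X ^ (s * (E i : ℕ)) * z i 1) := by
    rw [← lm_eq, hqv, hqz, tt, ← map_mul]
    rfl
  -- the functions
  choose Hh hHh using fun i h => exists_H (s * (E i : ℕ)) ha hb (hT i).1 (hg i h)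
  have hbig : ∀ h M, ∀ᶠ i in Uf, ∀ m, d (grp h) < wt a b m →
      (PowerSeries.X : PowerSeries k) ^ (M * (E i : ℕ)) ∣ mc (Hh i h) m := by
    intro h M
    filter_upwards [hL s, homog_mod (hF h) (hc h) M] with i hi hi'
    exact (hHh i h hi).2.2 _ hi'
  have hwt : ∀ m : Fin 2 →₀ ℕ, m 0 + m 1 ≤ wt a b m := by
    intro m
    unfold wt
    nlinarith [Nat.zero_le ((a - 1) * m 0), Nat.zero_le ((b - 1) * m 1)]
  have hlim : ∀ h, ∃ H, IsLim E (fun i => Hh i h) H := by
    intro h
    refine exists_poly_lim (fun M => ⟨d (grp h), ?_⟩) (d (grp h)) fun m hm M => ?_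
    · filter_upwards [hbig h M] with i hi m hm
      exact hi m (hm.trans_le (hwt m))
    · filter_upwards [hbig h M] with i hi
      exact hi m (hm.trans_le (hwt m))
  choose H hH using hlim
  have hrel : ∀ h, aeval (![X 0, C (tt E k s) * X 1] :
      Fin 2 → MvPolynomial (Fin 2) (Lam E k)) (H h) = C (tt E k (s * d (grp h))) * G h := by
    intro h
    have h1 : IsLim E (fun i => ev (sca k 0 (s * (E i : ℕ))) (Hh i h))
        (aeval (![X 0, C (tt E k s) * X 1] : Fin 2 → MvPolynomial (Fin 2) (Lam E k)) (H h)) := by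
      refine IsLim.ev (hH h) fun j => ?_
      fin_cases j
      · have h2 : (fun i : ℕ => sca k 0 (s * (E i : ℕ)) 0) = fun _ => xA 0 := by
          funext i
          change PowerSeries.X ^ 0 * xA 0 = xA 0
          rw [pow_zero, one_mul]
        change IsLim E (fun i : ℕ => sca k 0 (s * (E i : ℕ)) 0) (X 0)
        rw [h2]
        exact IsLim.xA 0
      · exact (IsLim.X_pow fun i => s * (E i : ℕ)).mul (IsLim.xA 1)
    have h2 : IsLim E (fun i => PowerSeries.X ^ (s * d (grp h) * (E i : ℕ)) * c' i h)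
        (C (tt E k (s * d (grp h))) * G h) := (IsLim.X_pow _).mul (hc' h)
    refine h1.unique (h2.congr (nul_of_eventually_eq ?_))
    filter_upwards [hL s] with i hi
    rw [(hHh i h hi).2.1]
    congr 2
    ring
  have hth : ∀ h, ∀ᶠ i in Uf,
      (PowerSeries.X : AA k) ^ ((s * d (grp h) + d (grp h)) * (E i : ℕ)) ∣
      ev (tch (a * (E i : ℕ)) ((b + s) * (E i : ℕ)) (z i 0) (q' i)) (Hh i h) := by
    intro h
    have h0 : IsLim E (fun i => cA (z i 0) + PowerSeries.X ^ (a * (E i : ℕ)) * xA 0)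
        (C (lm E (fun i => z i 0)) + C (tt E k a) * X 0) :=
      hz0.add ((IsLim.X_pow fun i => a * (E i : ℕ)).mul (IsLim.xA 0))
    have h1 : IsLim E
        (fun i => ev (tch (a * (E i : ℕ)) ((b + s) * (E i : ℕ)) (z i 0) (q' i)) (Hh i h))
        (aeval (![C (lm E (fun i => z i 0)) + C (tt E k a) * X 0,
          q.eval₂ C (C (lm E (fun i => z i 0)) + C (tt E k a) * X 0) +
            C (tt E k (b + s)) * X 1] : Fin 2 → MvPolynomial (Fin 2) (Lam E k)) (H h)) := by
      refine IsLim.ev (hH h) fun j => ?_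
      fin_cases j
      · exact h0
      · exact (hq'2 _ _ h0).add ((IsLim.X_pow fun i => (b + s) * (E i : ℕ)).mul (IsLim.xA 1))
    rw [star_lim (hF h) hq2 (hrel h) (hFG h)] at h1
    obtain ⟨F', hF'1, hF'2⟩ := exists_rep (F h)
    have h2 : IsLim E (fun i => PowerSeries.X ^ ((s * d (grp h) + d (grp h)) * (E i : ℕ)) *
        toAA (F' i)) (C (tt E k (s * d (grp h) + d (grp h))) * F h) :=
      (IsLim.X_pow _).mul (isLim_rep hF'1 hF'2)
    filter_upwards [h1.nul_sub h2 (s * d (grp h) + d (grp h))] with i hi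
    have h3 := dvd_add hi (dvd_mul_right
      ((PowerSeries.X : AA k) ^ ((s * d (grp h) + d (grp h)) * (E i : ℕ))) (toAA (F' i)))
    rwa [sub_add_cancel] at h3
  -- the arcs
  have harc : Nul E (fun i => PowerSeries.X ^ (s * (E i : ℕ)) * P' i 1 -
      (q' i).eval₂ (PowerSeries.map (algebraMap k (Om k))) (P' i 0)) := by
    have h1 : Nul E (fun i => PowerSeries.X ^ (s * (E i : ℕ)) *
        (P' i 1 - PowerSeries.map (algebraMap k (Om k)) (z i 1))) := (hz 1).mul_left _
    have h2 : Nul E (fun i => (q' i).eval₂ (PowerSeries.map (algebraMap k (Om k))) (P' i 0) -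
        (q' i).eval₂ (PowerSeries.map (algebraMap k (Om k)))
          (PowerSeries.map (algebraMap k (Om k)) (z i 0))) := by
      intro M
      filter_upwards [hz 0 M] with i hi
      refine hi.trans ?_
      rw [Polynomial.eval₂_eq_eval_map, Polynomial.eval₂_eq_eval_map]
      exact Polynomial.sub_dvd_eval_sub _ _ _
    have h3 := hnul.map (algebraMap k (Om k))
    have h4 : (fun i => PowerSeries.X ^ (s * (E i : ℕ)) * P' i 1 -
        (q' i).eval₂ (PowerSeries.map (algebraMap k (Om k))) (P' i 0)) =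
        fun i => PowerSeries.X ^ (s * (E i : ℕ)) *
          (P' i 1 - PowerSeries.map (algebraMap k (Om k)) (z i 1)) -
          ((q' i).eval₂ (PowerSeries.map (algebraMap k (Om k))) (P' i 0) -
          (q' i).eval₂ (PowerSeries.map (algebraMap k (Om k)))
            (PowerSeries.map (algebraMap k (Om k)) (z i 0))) -
          PowerSeries.map (algebraMap k (Om k))
            ((q' i).eval (z i 0) - PowerSeries.X ^ (s * (E i : ℕ)) * z i 1) := by
      funext i
      rw [Polynomial.eval₂_at_apply, map_sub, map_mul, map_pow, PowerSeries.map_X]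
      ring
    rw [h4]
    exact (h1.sub h2).sub h3
  filter_upwards [hL s, Filter.eventually_all.2 hth, hz 0 a, harc (b + s)] with i hi hi' h1 h2
  obtain ⟨Q, hQ⟩ := star_arc h1 h2
  exact star_fin hb (hT i) hdeg ((hq'1 i).trans hq1) hi (fun h => (hHh i h hi).1) hi' hQ

end

end M4
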