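import Pool.Agent.M4.Tame
import Pool.Agent.M4.Nulb
import Pool.Agent.M3.Tay

/-!
PIECE M4-B01: functions recentred at a point, Taylor coefficients.

`cent P f = f(P + x)`; its coefficient `mc (cent P f) m` is the Taylor coefficient `T_m f (P)` of `f` at the point `P`.

PROOF. `ev_cent`: `ev_ev_ext`.  `cent_mul`, ...: `ev_mul`, ....
`exists_hasse` (the Taylor coefficients of `f : AA k` are the values of functions over `k`): let `R₀ := MvPolynomial (Fin 2) k`,
`P₀ j := PowerSeries.C (X j) : PowerSeries R₀` the universal point and `g := mc (cent P₀ f) m : PowerSeries R₀ = AA k`.  Claim: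
`mc (cent P f) m = ev P (mc (cent P₀ f) m)` for all `f`, `m`, `P`.  Both sides are additive in `f`, compatible with the multiplication by
`X^n` and continuous (as in `M3.Tay`: `cont_zero`; copy it as a private lemma: a map `D : AA k → PowerSeries S` which is additive,
commutes with `X^n * _` and vanishes on `PowerSeries.C p` is zero; here `D f := mc (cent P f) m - ev P (mc (cent P₀ f) m)`); for
`f = PowerSeries.C p` use `MvPolynomial.induction_on p`: constants; sums; for a product with a variable `X j`:
`cent P (g * xA j) = cent P g * (cA (P j) + xA j)`, so `mc (cent P (g * xA j)) m = mc (cent P g) m * P j + mc (cent P g) (m - single j 1)`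
(the second term only if `m j ≠ 0`).
`cent_der`: the same method (both sides are additive, continuous in `f`; or: with `exists_hasse` and `dS_ev` it is enough to prove
`dA j (mc (cent P₀ f) m) = (m j + 1) * mc (cent P₀ f) (m + single j 1)`, again by the same method).  The recursion of `mc` for the product with a
variable and the product rule `dS δ (a * b)` give the induction step.
`cen_cent`: `cen N P j = cA (P j) + X^N * (xA j - cA (shiftP N P j))` (see `powIrr_cen` in `M3.PowIrr`, private, copy it) and `ev_ev_ext`.
`exists_cent_ne`: suppose all `mc (cent (P i) (c i)) m` are null.  `cent` is tame (`Tame.ev`), so it is null (`nul_iff_mc`), so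
`ev (fun j => xA j - cA (P i j)) (cent (P i) (c i))` is null (`Nul.ev`); this is `ev xA (c i)` in `AA L` (`ev_ev_ext`), i.e. the function
`c i` with coefficients mapped to `L` (`PowerSeries.map (MvPolynomial.map (algebraMap k L))`), so `c` is null (the divisibility by a
power of `X` is reflected, `PowerSeries.X_pow_dvd_iff`, `MvPolynomial.map_injective`).
-/

open MvPolynomial

namespace M4

open M3

universe u

section
variable {k : Type u} [CommRing k]

private theorem cent_mc_mul_xA (F : AA k) (j : Fin 2) (m : Fin 2 →₀ ℕ) :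
    mc (F * xA j) m = if m j = 0 then 0 else mc F (m - Finsupp.single j 1) := by
  classical
  ext n
  rw [coeff_mc]
  unfold xA
  rw [PowerSeries.coeff_mul_C, coeff_mul_X']
  by_cases h : m j = 0
  · rw [if_pos h, if_neg (by simpa using h), map_zero]
  · rw [if_neg h, if_pos (by simpa using h), coeff_mc]

private theorem cent_mc_mul_cA (F : AA k) (c : PowerSeries k) (m : Fin 2 →₀ ℕ) :
    mc (F * cA c) m = mc F m * c := by
  rw [mul_comm, mc_cA_mul, mul_comm]

private theorem cent_cont_zero {S : Type*} [CommRing S] (D : AA k → PowerSeries S)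
    (hadd : ∀ f g, D (f + g) = D f + D g)
    (hX : ∀ (n : ℕ) f, D (PowerSeries.X ^ n * f) = PowerSeries.X ^ n * D f)
    (hC : ∀ p : MvPolynomial (Fin 2) k, D (PowerSeries.C p) = 0) (f : AA k) : D f = 0 := by
  have hpol : ∀ q : Polynomial (MvPolynomial (Fin 2) k), D (q : AA k) = 0 := by
    intro q
    induction q using Polynomial.induction_on' with
    | add p q hp hq => rw [Polynomial.coe_add, hadd, hp, hq, add_zero]
    | monomial n a =>
      have : ((Polynomial.monomial n a : Polynomial (MvPolynomial (Fin 2) k)) : AA k) =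
          PowerSeries.X ^ n * PowerSeries.C a := by
        refine PowerSeries.ext fun m => ?_
        rw [Polynomial.coe_monomial, PowerSeries.coeff_monomial, PowerSeries.coeff_X_pow_mul',
          PowerSeries.coeff_C]
        by_cases h : m = n
        · rw [if_pos h, if_pos h.ge, if_pos (by omega)]
        · rw [if_neg h]
          split_ifs
          · omega
          · rfl
          · rfl
      rw [this, hX, hC, mul_zero]
  have h2 : ∀ M : ℕ, (PowerSeries.X : PowerSeries S) ^ M ∣ D f := by
    intro M
    have h0 : (PowerSeries.X : AA k) ^ M ∣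
        f - (PowerSeries.trunc M f : Polynomial (MvPolynomial (Fin 2) k)) := by
      rw [PowerSeries.X_pow_dvd_iff]
      intro m hm
      rw [map_sub, Polynomial.coeff_coe, PowerSeries.coeff_trunc, if_pos hm, sub_self]
    obtain ⟨g, hg⟩ := h0
    have h1 : f = ((PowerSeries.trunc M f : Polynomial (MvPolynomial (Fin 2) k)) : AA k) +
        PowerSeries.X ^ M * g := by rw [← hg]; ring
    rw [h1, hadd, hX, hpol, zero_add]
    exact Dvd.intro _ rfl
  refine PowerSeries.ext fun n => ?_
  rw [map_zero]
  exact PowerSeries.X_pow_dvd_iff.1 (h2 (n + 1)) n (Nat.lt_succ_self n)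

private theorem cent_ev_zero (F : AA k) : ev (fun _ => (0 : PowerSeries k)) F = mc F 0 := by
  rw [← sub_eq_zero]
  refine cent_cont_zero (fun F => ev (fun _ => (0 : PowerSeries k)) F - mc F 0) ?_ ?_ ?_ F
  · intro f g
    simp only [ev_add, mc_add]
    ring
  · intro n f
    simp only [ev_mul, ev_pow, ev_X, mc_X_pow_mul]
    ring
  · intro p
    show ev (fun _ => (0 : PowerSeries k)) (PowerSeries.C p) - mc (PowerSeries.C p) 0 = 0
    rw [sub_eq_zero, ev_C]
    ext n
    rw [coeff_mc, PowerSeries.coeff_C]
    have h1 : aeval (fun _ : Fin 2 => (0 : PowerSeries k)) p = PowerSeries.C (coeff 0 p) := by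
      induction p using MvPolynomial.induction_on with
      | C a => rw [aeval_C, coeff_zero_C]; rfl
      | add p q hp hq => rw [map_add, hp, hq, coeff_add, map_add]
      | mul_X p j hp => 
        classical
        rw [map_mul, aeval_X, mul_zero, coeff_mul_X', if_neg (by simp), map_zero]
    rw [h1, PowerSeries.coeff_C]
    split_ifs
    · rfl
    · rw [coeff_zero]

variable {R : Type u} [CommRing R] [Algebra k R]

private theorem cent_coeff_dS (δ : Derivation k R R) (g : PowerSeries R) (n : ℕ) :
    PowerSeries.coeff n (dS δ g) = δ (PowerSeries.coeff n g) := by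
  unfold dS
  rw [PowerSeries.coeff_mk]

private theorem cent_dS_add (δ : Derivation k R R) (f g : PowerSeries R) :
    dS δ (f + g) = dS δ f + dS δ g := by
  refine PowerSeries.ext fun n => ?_
  rw [cent_coeff_dS, map_add, map_add, map_add, cent_coeff_dS, cent_coeff_dS]

private theorem cent_dS_mul (δ : Derivation k R R) (f g : PowerSeries R) :
    dS δ (f * g) = dS δ f * g + f * dS δ g := by
  refine PowerSeries.ext fun n => ?_
  rw [cent_coeff_dS, PowerSeries.coeff_mul, map_sum, map_add, PowerSeries.coeff_mul,
    PowerSeries.coeff_mul, ← Finset.sum_add_distrib]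
  refine Finset.sum_congr rfl fun p _ => ?_
  rw [Derivation.leibniz, cent_coeff_dS, cent_coeff_dS, smul_eq_mul, smul_eq_mul]
  ring

private theorem cent_dS_X_pow_mul (δ : Derivation k R R) (N : ℕ) (f : PowerSeries R) :
    dS δ (PowerSeries.X ^ N * f) = PowerSeries.X ^ N * dS δ f := by
  refine PowerSeries.ext fun n => ?_
  rw [cent_coeff_dS, PowerSeries.coeff_X_pow_mul', PowerSeries.coeff_X_pow_mul']
  split_ifs
  · rw [cent_coeff_dS]
  · rw [map_zero]

private theorem cent_dS_zero (δ : Derivation k R R) : dS δ (0 : PowerSeries R) = 0 := by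
  refine PowerSeries.ext fun n => ?_
  rw [cent_coeff_dS, map_zero, map_zero]

private theorem cent_map_cA (c : PowerSeries k) :
    PowerSeries.map (algebraMap k (MvPolynomial (Fin 2) R)) c =
      cA (PowerSeries.map (algebraMap k R) c) := by
  ext1 n
  unfold cA
  rw [PowerSeries.coeff_map, PowerSeries.coeff_map, PowerSeries.coeff_map,
    MvPolynomial.algebraMap_apply]

private theorem cent_map_cA_self (c : PowerSeries k) :
    PowerSeries.map (algebraMap k (MvPolynomial (Fin 2) k)) c = cA c := by
  rw [cent_map_cA, Algebra.algebraMap_self, PowerSeries.map_id]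
  rfl

end

section
variable {k : Type u} [CommRing k] {R : Type u} [CommRing R] [Algebra k R]

/-- the function recentred at the point `P` -/
noncomputable def cent (P : Fin 2 → PowerSeries R) (f : AA k) : AA R :=
  ev (fun j => (cA (P j) + xA j : AA R)) f

theorem cent_add (P : Fin 2 → PowerSeries R) (f g : AA k) :
    cent P (f + g) = cent P f + cent P g :=
  ev_add _ f g

theorem cent_mul (P : Fin 2 → PowerSeries R) (f g : AA k) :
    cent P (f * g) = cent P f * cent P g :=
  ev_mul _ f g

theorem ev_cent {R' : Type u} [CommRing R'] [Algebra k R'] [Algebra R R'] [IsScalarTower k R R']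
    (P : Fin 2 → PowerSeries R) (H : Fin 2 → PowerSeries R') (f : AA k) :
    ev H (cent P f) = ev (fun j => PowerSeries.map (algebraMap R R') (P j) + H j) f := by
  unfold cent
  rw [ev_ev_ext]
  congr 1
  funext j
  rw [ev_add, ev_cA, ev_xA]

theorem ev_cent_self (P H : Fin 2 → PowerSeries R) (f : AA k) :
    ev H (cent P f) = ev (fun j => P j + H j) f := by
  rw [ev_cent]
  congr 1

theorem mc_cent_zero (P : Fin 2 → PowerSeries R) (f : AA k) : mc (cent P f) 0 = ev P f := by
  rw [← cent_ev_zero, ev_cent_self]
  congr 1
  funext j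
  rw [add_zero]

private theorem cent_X_pow_mul (P : Fin 2 → PowerSeries R) (n : ℕ) (f : AA k) :
    cent P (PowerSeries.X ^ n * f) = PowerSeries.X ^ n * cent P f := by
  unfold cent
  rw [ev_mul, ev_pow, ev_X]

private theorem cent_C_C (P : Fin 2 → PowerSeries R) (a : k) :
    cent P (PowerSeries.C (C a) : AA k) = cA (PowerSeries.C (algebraMap k R a)) := by
  have h1 : (PowerSeries.C (C a) : AA k) = cA (PowerSeries.C a) := by
    unfold cA
    rw [PowerSeries.map_C]
  unfold cent
  rw [h1, ev_cA, cent_map_cA, PowerSeries.map_C]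

private theorem cent_mul_xA (P : Fin 2 → PowerSeries R) (f : AA k) (j : Fin 2)
    (m : Fin 2 →₀ ℕ) : mc (cent P (f * xA j)) m = mc (cent P f) m * P j +
      if m j = 0 then 0 else mc (cent P f) (m - Finsupp.single j 1) := by
  have h1 : cent P (xA j : AA k) = cA (P j) + xA j := ev_xA _ j
  rw [cent_mul, h1, mul_add, mc_add, cent_mc_mul_cA, cent_mc_mul_xA]

/-- Taylor coefficients are values of functions over `k` -/
theorem exists_hasse (f : AA k) (m : Fin 2 →₀ ℕ) :
    ∃ g : AA k, ∀ (R : Type u) [CommRing R] [Algebra k R] (P : Fin 2 → PowerSeries R),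
      mc (cent P f) m = ev P g := by
  refine ⟨mc (cent (R := MvPolynomial (Fin 2) k) xA f) m, ?_⟩
  intro R _ _ P
  rw [← sub_eq_zero]
  refine cent_cont_zero (fun f => mc (cent P f) m -
    ev P (mc (cent (R := MvPolynomial (Fin 2) k) xA f) m)) ?_ ?_ ?_ f
  · intro f g
    simp only [cent_add, mc_add, ev_add]
    ring
  · intro n f
    simp only [cent_X_pow_mul, mc_X_pow_mul, ev_mul, ev_pow, ev_X]
    ring
  · intro p
    show mc (cent P (PowerSeries.C p)) m -
      ev P (mc (cent (R := MvPolynomial (Fin 2) k) xA (PowerSeries.C p)) m) = 0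
    rw [sub_eq_zero]
    induction p using MvPolynomial.induction_on generalizing m with
    | C a =>
      rw [cent_C_C, cent_C_C, mc_cA, mc_cA]
      split_ifs
      · rw [ev_C, MvPolynomial.algebraMap_eq, aeval_C, PowerSeries.algebraMap_apply]
      · rw [ev_zero]
    | add p q hp hq => rw [map_add, cent_add, mc_add, hp, hq, cent_add, mc_add, ev_add]
    | mul_X p j hp =>
      have h1 : (PowerSeries.C (p * X j) : AA k) = PowerSeries.C p * xA j := by
        rw [map_mul]
        rfl
      rw [h1, cent_mul_xA, cent_mul_xA, ev_add, ev_mul, ev_xA, hp]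
      split_ifs
      · rw [ev_zero]
      · rw [hp]

private theorem cent_der_aux (δ : Derivation k R R) (P : Fin 2 → PowerSeries R)
    (p : MvPolynomial (Fin 2) k) (m : Fin 2 →₀ ℕ) :
    dS δ (mc (cent P (PowerSeries.C p)) m) =
      ((m 0 + 1 : ℕ) : PowerSeries R) * mc (cent P (PowerSeries.C p)) (m + Finsupp.single 0 1) *
        dS δ (P 0) +
      ((m 1 + 1 : ℕ) : PowerSeries R) * mc (cent P (PowerSeries.C p)) (m + Finsupp.single 1 1) *
        dS δ (P 1) := by
  induction p using MvPolynomial.induction_on generalizing m with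
  | C a =>
    have h0 : m + Finsupp.single (0 : Fin 2) 1 ≠ 0 := by
      intro h
      have := DFunLike.congr_fun h 0
      simp at this
    have h1 : m + Finsupp.single (1 : Fin 2) 1 ≠ 0 := by
      intro h
      have := DFunLike.congr_fun h 1
      simp at this
    rw [cent_C_C, mc_cA, mc_cA, mc_cA, if_neg h0, if_neg h1, mul_zero, mul_zero, zero_mul,
      zero_mul, add_zero]
    split_ifs
    · refine PowerSeries.ext fun n => ?_
      rw [cent_coeff_dS, PowerSeries.coeff_C, map_zero]
      split_ifs
      · exact δ.map_algebraMap a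
      · rw [map_zero]
    · exact cent_dS_zero δ
  | add p q hp hq =>
    simp only [map_add, cent_add, mc_add, cent_dS_add, hp, hq]
    ring
  | mul_X p j hp =>
    have h1 : (PowerSeries.C (p * X j) : AA k) = PowerSeries.C p * xA j := by
      rw [map_mul]
      rfl
    rw [h1, cent_mul_xA, cent_mul_xA, cent_mul_xA, cent_dS_add, cent_dS_mul, hp]
    fin_cases j
    · simp only [Fin.zero_eta, Finsupp.add_apply, Finsupp.single_eq_same]
      have h2 : m + Finsupp.single (0 : Fin 2) 1 - Finsupp.single 0 1 = m :=
        add_tsub_cancel_right _ _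
      rw [if_neg (by omega : ¬ (m 0 + 1 = 0)), h2]
      have h3 : (Finsupp.single (1 : Fin 2) 1) (0 : Fin 2) = 0 := by simp
      rw [h3, add_zero]
      by_cases h : m 0 = 0
      · rw [if_pos h, if_pos h, cent_dS_zero, h]
        push_cast
        ring
      · have h4 : m - Finsupp.single (0 : Fin 2) 1 + Finsupp.single 0 1 = m := by
          ext i
          fin_cases i
          · simp
            omega
          · simp
        have h5 : m + Finsupp.single (1 : Fin 2) 1 - Finsupp.single 0 1 =
            m - Finsupp.single (0 : Fin 2) 1 + Finsupp.single 1 1 := by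
          ext i
          fin_cases i
          · simp
          · simp
        rw [if_neg h, if_neg h, hp, h4, h5]
        have h6 : (m - Finsupp.single (0 : Fin 2) 1 : Fin 2 →₀ ℕ) 0 + 1 = m 0 := by
          simp
          omega
        have h7 : (m - Finsupp.single (0 : Fin 2) 1 : Fin 2 →₀ ℕ) 1 = m 1 := by
          simp
        rw [h6, h7]
        push_cast
        ring
    · simp only [Fin.mk_one, Finsupp.add_apply, Finsupp.single_eq_same]
      have h2 : m + Finsupp.single (1 : Fin 2) 1 - Finsupp.single 1 1 = m :=
        add_tsub_cancel_right _ _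
      rw [if_neg (by omega : ¬ (m 1 + 1 = 0)), h2]
      have h3 : (Finsupp.single (0 : Fin 2) 1) (1 : Fin 2) = 0 := by simp
      rw [h3, add_zero]
      by_cases h : m 1 = 0
      · rw [if_pos h, if_pos h, cent_dS_zero, h]
        push_cast
        ring
      · have h4 : m - Finsupp.single (1 : Fin 2) 1 + Finsupp.single 1 1 = m := by
          ext i
          fin_cases i
          · simp
          · simp
            omega
        have h5 : m + Finsupp.single (0 : Fin 2) 1 - Finsupp.single 1 1 =
            m - Finsupp.single (1 : Fin 2) 1 + Finsupp.single 0 1 := by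
          ext i
          fin_cases i
          · simp
          · simp
        rw [if_neg h, if_neg h, hp, h4, h5]
        have h6 : (m - Finsupp.single (1 : Fin 2) 1 : Fin 2 →₀ ℕ) 1 + 1 = m 1 := by
          simp
          omega
        have h7 : (m - Finsupp.single (1 : Fin 2) 1 : Fin 2 →₀ ℕ) 0 = m 0 := by
          simp
        rw [h6, h7]
        push_cast
        ring

theorem cent_der (δ : Derivation k R R) (P : Fin 2 → PowerSeries R) (f : AA k)
    (m : Fin 2 →₀ ℕ) :
    dS δ (mc (cent P f) m) =
      ((m 0 + 1 : ℕ) : PowerSeries R) * mc (cent P f) (m + Finsupp.single 0 1) * dS δ (P 0) +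
      ((m 1 + 1 : ℕ) : PowerSeries R) * mc (cent P f) (m + Finsupp.single 1 1) * dS δ (P 1) := by
  rw [← sub_eq_zero]
  refine cent_cont_zero (fun f => dS δ (mc (cent P f) m) -
    (((m 0 + 1 : ℕ) : PowerSeries R) * mc (cent P f) (m + Finsupp.single 0 1) * dS δ (P 0) +
      ((m 1 + 1 : ℕ) : PowerSeries R) * mc (cent P f) (m + Finsupp.single 1 1) * dS δ (P 1)))
    ?_ ?_ ?_ f
  · intro f g
    simp only [cent_add, mc_add, cent_dS_add]
    ring
  · intro n f
    simp only [cent_X_pow_mul, mc_X_pow_mul, cent_dS_X_pow_mul]
    ring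
  · intro p
    exact sub_eq_zero.2 (cent_der_aux δ P p m)

theorem dS_dvd (δ : Derivation k R R) {g : PowerSeries R} {N : ℕ}
    (h : (PowerSeries.X : PowerSeries R) ^ N ∣ g) : (PowerSeries.X : PowerSeries R) ^ N ∣ dS δ g := by
  obtain ⟨q, rfl⟩ := h
  rw [cent_dS_X_pow_mul]
  exact Dvd.intro _ rfl

end

section
variable {k : Type u} [Field k] {L : Type u} [Field L] [Algebra k L]

private theorem cent_cen (Q : Fin 2 → PowerSeries L) (N : ℕ) (j : Fin 2) :
    cen N Q j = cA (Q j) + PowerSeries.X ^ N * (xA j - cA (shiftP N Q j)) := by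
  have h0 : Q j = ((PowerSeries.trunc N (Q j) : Polynomial L) : PowerSeries L) +
      PowerSeries.X ^ N * shiftP N Q j := by
    ext n
    rw [map_add, PowerSeries.coeff_X_pow_mul', Polynomial.coeff_coe, PowerSeries.coeff_trunc]
    unfold shiftP
    by_cases h : n < N
    · rw [if_pos h, if_neg (by omega), add_zero]
    · rw [if_neg h, if_pos (by omega), zero_add, PowerSeries.coeff_mk,
        Nat.sub_add_cancel (by omega)]
  have h1 : cA (PowerSeries.X : PowerSeries L) = PowerSeries.X := PowerSeries.map_X _
  have h := congrArg cA h0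
  rw [map_add, map_mul, map_pow, h1] at h
  unfold cen
  rw [h]
  ring

theorem cen_cent (N : ℕ) (P : Fin 2 → PowerSeries L) (f : AA k) :
    (ev (cen N P) f : AA L) = ev (fun j => (PowerSeries.X ^ N * (xA j - cA (shiftP N P j)) : AA L))
      (cent P f) := by
  rw [ev_cent]
  congr 1
  funext j
  rw [cent_cen, cent_map_cA_self]

private theorem cent_ev_xA (f : AA k) : ev (xA : Fin 2 → AA L) f =
    PowerSeries.map (MvPolynomial.map (algebraMap k L)) f := by
  have h1 : ∀ p : MvPolynomial (Fin 2) k,
      aeval (xA : Fin 2 → AA L) p = PowerSeries.C (MvPolynomial.map (algebraMap k L) p) := by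
    intro p
    induction p using MvPolynomial.induction_on with
    | C a => rw [aeval_C, PowerSeries.algebraMap_apply, MvPolynomial.map_C,
        MvPolynomial.algebraMap_apply]
    | add p q hp hq => rw [map_add, map_add, map_add, hp, hq]
    | mul_X p j hp =>
      rw [map_mul, map_mul, map_mul, hp, aeval_X, MvPolynomial.map_X]
      rfl
  ext1 n
  rw [coeff_ev, Finset.sum_eq_single (n, 0)]
  · rw [h1, PowerSeries.coeff_zero_C, PowerSeries.coeff_map]
  · rintro ⟨a', b'⟩ hab hne
    have h2 : b' ≠ 0 := by
      rintro rfl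
      apply hne
      have := Finset.HasAntidiagonal.mem_antidiagonal.1 hab
      ext <;> simp
      simpa using this
    rw [h1, PowerSeries.coeff_C, if_neg h2]
  · intro h2
    exact absurd (Finset.HasAntidiagonal.mem_antidiagonal.2 (by simp)) h2

theorem Tame.cent {E : ℕ → ℕ+} {c : ℕ → AA k} (h : Tame E c) (P : ℕ → Fin 2 → PowerSeries L) :
    Tame E (fun i => cent (P i) (c i)) :=
  Tame.ev h fun j => (Tame.cA fun i => P i j).add (Tame.xA j)

theorem exists_cent_ne {E : ℕ → ℕ+} {c : ℕ → AA k} (tm : Tame E c) (h : ¬ Nul E c)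
    (P : ℕ → Fin 2 → PowerSeries L) : ∃ m, ¬ Nul E (fun i => mc (cent (P i) (c i)) m) := by
  by_contra hcon
  push Not at hcon
  have h1 : Nul E (fun i => cent (P i) (c i)) := (nul_iff_mc (tm.cent P)).2 hcon
  have h2 := Nul.ev (R := MvPolynomial (Fin 2) L) h1 (fun i j => (xA j - cA (P i j) : AA L))
  refine h fun M => ?_
  filter_upwards [h2 M] with i hi
  have h3 : (fun j : Fin 2 =>
      PowerSeries.map (algebraMap L (MvPolynomial (Fin 2) L)) (P i j) +
        (xA j - cA (P i j) : AA L)) = xA := by
    funext j
    rw [cent_map_cA_self]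
    ring
  rw [ev_cent, h3, cent_ev_xA] at hi
  rw [PowerSeries.X_pow_dvd_iff] at hi ⊢
  intro m hm
  have h4 := hi m hm
  rw [PowerSeries.coeff_map] at h4
  exact (map_eq_zero_iff _ (MvPolynomial.map_injective _ (algebraMap k L).injective)).1 h4

end

end M4
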