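import Pool.Agent.M4.Defs
import Pool.Agent.M3.Cone

/-!
PIECE M4-X01: the cone construction with unbounded exponents: the functions `cone i₀ (E i) μ (p i)`.
-/

open MvPolynomial

namespace M4

open M3

universe u

section
variable {k : Type u} [Field k]

private noncomputable def Res (i₀ : Fin 3) (m : Fin 3 →₀ ℕ) : Fin 2 →₀ ℕ :=
  Finsupp.equivFunOnFinite.symm fun j => m (i₀.succAbove j)

private theorem res_deg (i₀ : Fin 3) (m : Fin 3 →₀ ℕ) :
    m.degree = m i₀ + (Res i₀ m).degree := by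
  rw [Finsupp.degree_eq_sum, Finsupp.degree_eq_sum, Fin.sum_univ_succAbove _ i₀]
  rfl

private theorem res_inj (i₀ : Fin 3) {m m' : Fin 3 →₀ ℕ} (h : m.degree = m'.degree)
    (h' : Res i₀ m = Res i₀ m') : m = m' := by
  rw [res_deg i₀ m, res_deg i₀ m', h', Nat.add_right_cancel_iff] at h
  ext i
  rcases eq_or_ne i i₀ with rfl | h1
  · exact h
  · obtain ⟨j, rfl⟩ := Fin.exists_succAbove_eq h1
    exact DFunLike.congr_fun h' j

private theorem deh_mono (i₀ : Fin 3) (m : Fin 3 →₀ ℕ) (c : k) :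
    deh i₀ (monomial m c) = monomial (Res i₀ m) c := by
  unfold deh
  rw [aeval_monomial, Finsupp.prod_fintype _ _ (fun i => pow_zero _),
    Fin.prod_univ_succAbove _ i₀, Fin.insertNth_apply_same, one_pow, one_mul]
  simp only [Fin.insertNth_apply_succAbove]
  rw [monomial_eq, Finsupp.prod_fintype _ _ (fun i => pow_zero _)]
  rfl

private theorem deh_expand (i₀ : Fin 3) (g : MvPolynomial (Fin 3) k) :
    deh i₀ g = ∑ m ∈ g.support, monomial (Res i₀ m) (coeff m g) := by
  conv_lhs => rw [g.as_sum]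
  rw [map_sum]
  exact Finset.sum_congr rfl fun m _ => deh_mono i₀ m _

private theorem deh_coeff_zero (i₀ : Fin 3) {g : MvPolynomial (Fin 3) k} {d : ℕ}
    (hg : g.IsHomogeneous d) {e : Fin 2 →₀ ℕ} (he : d < e.degree) : coeff e (deh i₀ g) = 0 := by
  classical
  rw [deh_expand, coeff_sum]
  refine Finset.sum_eq_zero fun m hm => ?_
  rw [coeff_monomial, if_neg]
  rintro rfl
  have h1 : m.degree = d := by
    rw [Finsupp.degree_eq_weight_one]
    exact hg (mem_support_iff.1 hm)
  rw [res_deg i₀ m] at h1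
  omega

private theorem deh_coeff (i₀ : Fin 3) {g : MvPolynomial (Fin 3) k} {d : ℕ}
    (hg : g.IsHomogeneous d) {m : Fin 3 →₀ ℕ} (hm : m.degree = d) :
    coeff (Res i₀ m) (deh i₀ g) = coeff m g := by
  classical
  rw [deh_expand, coeff_sum]
  simp only [coeff_monomial]
  rw [Finset.sum_eq_single m]
  · rw [if_pos rfl]
  · intro m' hm' hne
    rw [if_neg]
    intro h
    apply hne
    refine res_inj i₀ ?_ h
    rw [hm, Finsupp.degree_eq_weight_one]
    exact hg (mem_support_iff.1 hm')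
  · intro h
    rw [if_pos rfl]
    exact notMem_support_iff.1 h

/-- the functions `cone i₀ (E i) μ (p i)` are tame -/
theorem cone_tame (E : ℕ → ℕ+) (i₀ : Fin 3) (μ : ℕ) (p : ℕ → MvPolynomial (Fin 3) k) :
    Tame E (fun i => cone i₀ (E i) μ (p i)) := by
  intro M
  refine ⟨μ + M, Filter.Eventually.of_forall fun i m hm => ?_⟩
  rw [PowerSeries.X_pow_dvd_iff]
  intro n hn
  rw [coeff_mc]
  unfold cone
  rw [PowerSeries.coeff_mk]
  split_ifs with h
  · refine deh_coeff_zero i₀ (homogeneousComponent_isHomogeneous _ _) ?_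
    have h1 : n / (E i : ℕ) < M := Nat.div_lt_of_lt_mul (by rw [Nat.mul_comm]; exact hn)
    have h2 : m.degree = m 0 + m 1 := by
      rw [Finsupp.degree_eq_sum, Fin.sum_univ_two]
    omega
  · exact coeff_zero _

/-- the functions `cone i₀ (E i) μ (p i)` do not tend to zero if `p i` has a monomial of
degree `μ` -/
theorem cone_ne (E : ℕ → ℕ+) (i₀ : Fin 3) (μ : ℕ) (p : ℕ → MvPolynomial (Fin 3) k)
    (m : Fin 3 →₀ ℕ) (hm : m.degree = μ) (hp : ∀ᶠ i in Uf, coeff m (p i) ≠ 0) :
    ¬ Nul E (fun i => cone i₀ (E i) μ (p i)) := by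
  intro h
  obtain ⟨i, h1, h2⟩ := (hp.and (h 1)).exists
  apply h1
  rw [one_mul, PowerSeries.X_pow_dvd_iff] at h2
  have h3 := h2 0 (E i).pos
  unfold cone at h3
  rw [PowerSeries.coeff_mk, if_pos (dvd_zero _), Nat.zero_div, add_zero] at h3
  have h4 := deh_coeff i₀ (homogeneousComponent_isHomogeneous μ (p i)) hm
  rw [h3, coeff_zero, coeff_homogeneousComponent, if_pos hm] at h4
  exact h4.symm

end

end M4
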