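import Pool.Agent.M3.Mc
import Pool.Agent.M3.GmA
import Pool.Agent.M3.CodCh

/-!
PROJECT M4 (MP_405ba3_ag, all of Q1 for `A^3`): basic definitions.

As in M3 but the limits are taken with respect to `X i = τ^(E i)`, where `E : ℕ → ℕ+` is an arbitrary sequence.
`Nul E a`: the sequence `a` of power series is zero in the limit (divisible by `X i ^ M` for almost all `i`, for every
`M`); it is used for power series over `k`, over `Om k` and over `MvPolynomial (Fin 2) k` (functions, `AA k`).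
`Lam E R` is the ring of sequences of power series over `R` modulo the null sequences, `lm E a` the class of `a`.
Functions are sequences `c : ℕ → AA k`; limits of functions are only used if they are polynomials (`IsLim`).
-/

open MvPolynomial

namespace M4

open M3

universe u

/-! ### null sequences and the limit ring -/

section
variable {R : Type*} [CommRing R]

/-- the sequence is zero in the limit -/
def Nul (E : ℕ → ℕ+) (a : ℕ → PowerSeries R) : Prop :=
  ∀ M : ℕ, ∀ᶠ i in Uf, (PowerSeries.X : PowerSeries R) ^ (M * (E i : ℕ)) ∣ a i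

theorem Nul.zero (E : ℕ → ℕ+) : Nul E (fun _ => (0 : PowerSeries R)) := fun _ =>
  Filter.Eventually.of_forall fun _ => dvd_zero _

theorem Nul.add {E : ℕ → ℕ+} {a b : ℕ → PowerSeries R} (ha : Nul E a) (hb : Nul E b) :
    Nul E (fun i => a i + b i) := fun M => by
  filter_upwards [ha M, hb M] with i h1 h2 using dvd_add h1 h2

theorem Nul.neg {E : ℕ → ℕ+} {a : ℕ → PowerSeries R} (ha : Nul E a) :
    Nul E (fun i => -a i) := fun M => by
  filter_upwards [ha M] with i h1 using (dvd_neg).2 h1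

theorem Nul.sub {E : ℕ → ℕ+} {a b : ℕ → PowerSeries R} (ha : Nul E a) (hb : Nul E b) :
    Nul E (fun i => a i - b i) := fun M => by
  filter_upwards [ha M, hb M] with i h1 h2 using dvd_sub h1 h2

theorem Nul.mul_left {E : ℕ → ℕ+} {b : ℕ → PowerSeries R} (a : ℕ → PowerSeries R)
    (hb : Nul E b) : Nul E (fun i => a i * b i) := fun M => by
  filter_upwards [hb M] with i h1 using Dvd.dvd.mul_left h1 _

theorem Nul.mul_right {E : ℕ → ℕ+} {a : ℕ → PowerSeries R} (ha : Nul E a)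
    (b : ℕ → PowerSeries R) : Nul E (fun i => a i * b i) := fun M => by
  filter_upwards [ha M] with i h1 using Dvd.dvd.mul_right h1 _

end

/-- the ideal of null sequences -/
def nulI (E : ℕ → ℕ+) (R : Type u) [CommRing R] : Ideal (ℕ → PowerSeries R) where
  carrier := {a | Nul E a}
  add_mem' ha hb := Nul.add ha hb
  zero_mem' := Nul.zero E
  smul_mem' c _ ha := Nul.mul_left c ha

/-- the limit ring -/
def Lam (E : ℕ → ℕ+) (R : Type u) [CommRing R] : Type u := (ℕ → PowerSeries R) ⧸ nulI E R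

noncomputable instance (E : ℕ → ℕ+) (R : Type u) [CommRing R] : CommRing (Lam E R) :=
  inferInstanceAs (CommRing ((ℕ → PowerSeries R) ⧸ nulI E R))

/-- the class of a sequence -/
noncomputable def lm (E : ℕ → ℕ+) {R : Type u} [CommRing R] : (ℕ → PowerSeries R) →+* Lam E R :=
  Ideal.Quotient.mk (nulI E R)

section
variable {E : ℕ → ℕ+} {R : Type u} [CommRing R]

theorem lm_surj (x : Lam E R) : ∃ a, lm E a = x := Ideal.Quotient.mk_surjective x

theorem lm_eq_zero {a : ℕ → PowerSeries R} : lm E a = 0 ↔ Nul E a :=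
  Ideal.Quotient.eq_zero_iff_mem

theorem lm_eq {a b : ℕ → PowerSeries R} : lm E a = lm E b ↔ Nul E (fun i => a i - b i) :=
  Ideal.Quotient.eq

end

section
variable {R : Type*} [CommRing R]

/-- a sequence which is not null has bounded order (normalised by `E`) -/
theorem not_nul {E : ℕ → ℕ+} {a : ℕ → PowerSeries R} :
    ¬ Nul E a ↔ ∃ A : ℕ, ∀ᶠ i in Uf, ¬ (PowerSeries.X : PowerSeries R) ^ (A * (E i : ℕ)) ∣ a i := by
  unfold Nul
  rw [not_forall]
  refine exists_congr fun A => ?_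
  exact Ultrafilter.eventually_not.symm

theorem Nul.of_mul {k : Type*} [Field k] {E : ℕ → ℕ+} {a b : ℕ → PowerSeries k}
    (h : Nul E (fun i => a i * b i)) : Nul E a ∨ Nul E b := by
  by_contra hcon
  rw [not_or] at hcon
  obtain ⟨A, hA⟩ := not_nul.1 hcon.1
  obtain ⟨B, hB⟩ := not_nul.1 hcon.2
  have hlt : ∀ (n : ℕ) (x : PowerSeries k), ¬ (PowerSeries.X : PowerSeries k) ^ n ∣ x →
      x.order < n := by
    intro n x hx
    by_contra h1
    rw [not_lt] at h1
    exact hx (PowerSeries.X_pow_dvd_iff.2 fun m hm =>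
      PowerSeries.coeff_of_lt_order _ (lt_of_lt_of_le (by exact_mod_cast hm) h1))
  obtain ⟨i, h1, h2, h3⟩ := (hA.and (hB.and (h (A + B)))).exists
  have h4 := hlt _ _ h1
  have h5 := hlt _ _ h2
  have h6 : (a i * b i).order < ((A + B) * (E i : ℕ) : ℕ) := by
    rw [PowerSeries.order_mul]
    obtain ⟨x, hx⟩ := ENat.ne_top_iff_exists.1 (ne_top_of_lt h4)
    obtain ⟨y, hy⟩ := ENat.ne_top_iff_exists.1 (ne_top_of_lt h5)
    rw [← hx] at h4
    rw [← hy] at h5
    rw [← hx, ← hy]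
    have h7 : x < A * (E i : ℕ) := by exact_mod_cast h4
    have h8 : y < B * (E i : ℕ) := by exact_mod_cast h5
    have : x + y < (A + B) * (E i : ℕ) := by nlinarith
    exact_mod_cast this
  obtain ⟨q, hq⟩ := h3
  change a i * b i = _ at hq
  rw [hq, PowerSeries.order_mul, PowerSeries.order_X_pow] at h6
  exact absurd h6 (not_lt.2 le_self_add)

end

section
variable {E : ℕ → ℕ+}

instance {k : Type u} [Field k] : Nontrivial (Lam E k) := by
  refine ⟨0, lm E 1, fun h => ?_⟩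
  have h1 := (lm_eq_zero (E := E)).1 h.symm
  obtain ⟨i, hi⟩ := (h1 1).exists
  rw [one_mul] at hi
  have h2 := (PowerSeries.X_pow_dvd_iff.1 hi) 0 (E i).pos
  simp at h2

instance {k : Type u} [Field k] : NoZeroDivisors (Lam E k) where
  eq_zero_or_eq_zero_of_mul_eq_zero := by
    intro x y hxy
    obtain ⟨a, rfl⟩ := lm_surj x
    obtain ⟨b, rfl⟩ := lm_surj y
    rw [← map_mul, lm_eq_zero] at hxy
    rw [lm_eq_zero, lm_eq_zero]
    exact hxy.of_mul

instance {k : Type u} [Field k] : IsDomain (Lam E k) := NoZeroDivisors.to_isDomain _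

instance {k : Type u} [Field k] [CharZero k] : CharZero (Lam E k) := by
  refine charZero_of_inj_zero fun n hn => ?_
  have h1 : lm E (fun _ : ℕ => ((n : ℕ) : PowerSeries k)) = 0 := by
    have : (fun _ : ℕ => ((n : ℕ) : PowerSeries k)) = ((n : ℕ) : ℕ → PowerSeries k) := rfl
    rw [this, map_natCast, hn]
  obtain ⟨i, hi⟩ := ((lm_eq_zero.1 h1) 1).exists
  rw [one_mul] at hi
  have h2 := (PowerSeries.X_pow_dvd_iff.1 hi) 0 (E i).pos
  have h3 : PowerSeries.coeff 0 ((n : ℕ) : PowerSeries k) = (n : k) := by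
    rw [PowerSeries.coeff_zero_eq_constantCoeff]
    simp
  rw [h3] at h2
  exact_mod_cast h2

end

/-- the field of fractions of the limit ring -/
abbrev KL (E : ℕ → ℕ+) (k : Type u) [Field k] : Type u := FractionRing (Lam E k)

/-- polynomials over the limit ring as polynomials over its field of fractions -/
noncomputable def toKL {E : ℕ → ℕ+} {k : Type u} [Field k] :
    MvPolynomial (Fin 2) (Lam E k) →+* MvPolynomial (Fin 2) (KL E k) :=
  MvPolynomial.map (algebraMap (Lam E k) (KL E k))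

/-! ### functions -/

section
variable {k : Type u} [CommRing k]

/-- modulo `X i ^ M` the function `c i` is a polynomial of bounded degree -/
def Tame (E : ℕ → ℕ+) (c : ℕ → AA k) : Prop :=
  ∀ M : ℕ, ∃ D : ℕ, ∀ᶠ i in Uf, ∀ m : Fin 2 →₀ ℕ, D < m 0 + m 1 →
    (PowerSeries.X : PowerSeries k) ^ (M * (E i : ℕ)) ∣ mc (c i) m

/-- the functions `c i` tend to the polynomial `F` -/
def IsLim (E : ℕ → ℕ+) (c : ℕ → AA k) (F : MvPolynomial (Fin 2) (Lam E k)) : Prop :=
  Tame E c ∧ ∀ m, coeff m F = lm E (fun i => mc (c i) m)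

end

/-! ### arcs -/

section
variable {k : Type u} [Field k]

/-- the arcs `P i` tend to the rational arc `z` -/
def Near (E : ℕ → ℕ+) (P : ℕ → Fin 2 → PowerSeries (Om k)) (z : ℕ → Fin 2 → PowerSeries k) : Prop :=
  ∀ j, Nul E (fun i => P i j - PowerSeries.map (algebraMap k (Om k)) (z i j))

variable {r : ℕ} {J : Type}

/-- `cod P - ∑ lam j * ord_P (c_j)` is bounded below by a multiple of `E`, for arcs of bounded
codimension and order -/
def LowB (E : ℕ → ℕ+) (lam : Fin r → ℝ) (grp : J → Fin r) (c : ℕ → J → AA k) : Prop :=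
  ∃ K : ℝ, ∀ ℓ : ℕ, ∀ᶠ i in Uf, ∀ (L : Type u) [Field L] [Algebra k L]
    (P : Fin 2 → PowerSeries L) (C : ℕ) (n : Fin r → ℕ), C ≤ ℓ * (E i : ℕ) →
    (∀ j, n j ≤ ℓ * (E i : ℕ)) → Cod k P C → OrdGe grp (c i) P n →
    -K * ((E i : ℕ) : ℝ) ≤ (C : ℝ) - ∑ j, lam j * n j

/-- the values `C i - ∑ lam j * n i j` are dominated by arcs of bounded codimension and order -/
def Dom (E : ℕ → ℕ+) (lam : Fin r → ℝ) (grp : J → Fin r) (c : ℕ → J → AA k) (C : ℕ → ℕ)
    (n : ℕ → Fin r → ℕ) : Prop :=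
  ∃ ℓ : ℕ, ∀ᶠ i in Uf, ∃ (Q : Fin 2 → PowerSeries (Om k)) (C' : ℕ) (n' : Fin r → ℕ),
    C' ≤ ℓ * (E i : ℕ) ∧ (∀ j, n' j ≤ ℓ * (E i : ℕ)) ∧ Cod k Q C' ∧ OrdGe grp (c i) Q n' ∧
    (C' : ℝ) - ∑ j, lam j * n' j ≤ C i - ∑ j, lam j * n i j

/-- sequences of charts; the natural number is the sum of all exponents (normalised by `E`) -/
inductive IsChS (E : ℕ → ℕ+) : (ℕ → Fin 2 → AA k) → ℕ → Prop
  | refl : IsChS E (fun _ => xA) 0
  | swap {χ : ℕ → Fin 2 → AA k} {N : ℕ} : IsChS E χ N →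
      IsChS E (fun i j => ev (swA k) (χ i j)) N
  | step {χ : ℕ → Fin 2 → AA k} {N : ℕ} (c : ℕ → PowerSeries k) (p : ℕ → Polynomial (PowerSeries k))
      (D N₀ N₁ : ℕ) : IsChS E χ N → (∀ i, (p i).natDegree ≤ D) →
      (∀ i j, 1 ≤ j → PowerSeries.X ^ (N₀ * (E i : ℕ)) ∣ (p i).coeff j) →
      IsChS E (fun i j => ev (chA (c i) (p i) (N₀ * (E i : ℕ)) (N₁ * (E i : ℕ))) (χ i j))
        (N + N₀ + N₁)

theorem IsChS.isCh {E : ℕ → ℕ+} {χ : ℕ → Fin 2 → AA k} {N : ℕ} (h : IsChS E χ N) (i : ℕ) :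
    IsCh (χ i) (N * (E i : ℕ)) := by
  induction h with
  | refl =>
    rw [zero_mul]
    exact IsCh.refl
  | swap _ ih => exact IsCh.swap ih
  | @step χ N c p D N₀ N₁ _ hD hp ih =>
    have h1 := IsCh.step (c i) (p i) (N₀ * (E i : ℕ)) (N₁ * (E i : ℕ)) ih (hp i)
    rwa [show (N + N₀ + N₁) * (E i : ℕ) =
      N * (E i : ℕ) + N₀ * (E i : ℕ) + N₁ * (E i : ℕ) by ring]

/-- `G` is the composition of `F` with `(x - z 0, y - p(x))`, where `a deg p < b` and this map
vanishes at `z` -/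
def Tr {E : ℕ → ℕ+} (a b : ℕ) (F G : J → MvPolynomial (Fin 2) (Lam E k)) (z : Fin 2 → Lam E k) :
    Prop :=
  ∃ p : Polynomial (KL E k), a * p.natDegree < b ∧
    p.eval (algebraMap (Lam E k) (KL E k) (z 0)) = algebraMap (Lam E k) (KL E k) (z 1) ∧
    ∀ h, toKL (G h) = aeval ![X 0 - C (algebraMap (Lam E k) (KL E k) (z 0)),
      X 1 - Polynomial.aeval (X 0 : MvPolynomial (Fin 2) (KL E k)) p] (toKL (F h))

end

end M4
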