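import Pool.Agent.M4.Expo
import Pool.Agent.M4.Cent
import Pool.Agent.M3.CodB

/-!
PIECE M4-B05: arcs along the integral curve of a derivation.

PROOF. Let `L' := FractionRing (MvPolynomial (Fin 2 × ℕ) L)`, `t := mk fun n => X_(0, n)`, `w := mk fun n => X_(1, n)` (images in `L'`), `φ` as in
`exists_exp`, `Φ := coll φ`, `j₁` the other index, `R j₀ := Φ (P j₀)`, `R j₁ := Φ (P j₁) + X^M * w`.
(1) Orders.  Let `f`, `B` with `X^(M * B) ∣ mc (cent P f) m` for `m 0 + m 1 < B`.  `exists_hasse`: `mc (cent P f) m = ev P g_m`,
`mc (cent (Φ ∘ P) f) m = ev (Φ ∘ P) g_m` (the same `g_m`; the second one over `L'`), so by `coll_ev`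
`mc (cent (Φ ∘ P) f) m = Φ (mc (cent P f) m)`, divisible by `X^(M * B)` for `m 0 + m 1 < B` (`coll_dvd`).  `ev R f = ev H (cent (Φ ∘ P) f)`,
`H := R - Φ ∘ P`, `H j₀ = 0`, `H j₁ = X^M * w` (`ev_cent_self`).  General lemma: if `X^K ∣ mc g m` for `m 0 + m 1 < B` and `X^M ∣ H j` for all
`j`, `M * B ≤ K`, then `X^(M * B) ∣ ev H g` (compare with `ev ![X^M * xA 0, X^M * xA 1] g`, `mc_scale`, `X_pow_dvd_iff_mc`, `ev_ev`, `ev_dvd`).
(2) Codimension.  Level `m`; `T := {(j₀, n) : κ + 1 ≤ n} ∪ {(j₁, n) : M ≤ n}` (`n < m`), `T.card + (M + κ + 1) ≥ 2 m`.  The coefficients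
`R_(j, n)`, `(j, n) ∈ T`, are algebraically independent over `L`, hence over `k`: the `t_l`, `l + κ + 1 < m`, and the `w_l`, `l + M < m`,
are algebraically independent over `L`, their number is at most the one of `T`, and they are in the field generated over `L` by the
`R_(j, n)`, `(j, n) ∈ T` (then `alg_exchange` of `M3.CodB`, with the field `L`, gives an independent subset of `T` with at least
`T.card` elements, so all of `T`).  Indeed the coefficient of `τ^n` of `Φ (P j)` is the sum over `p` and `l + l' + p = n` of
`coeff l (t^p) * δ^p(P_(j, l')) / p!`; for `p = 0` it is in `L`; `δ^p (P_(j, l')) = 0` for `p ≥ 1` and `l' < κ` (`h0`); so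
`Φ(P j)_n` is a polynomial over `L` in the `t_l`, `l ≤ n - 1 - κ`, and `t_(n - 1 - κ)` occurs only for `p = 1`, with the coefficient
`δ(P_(j, κ))` (for `p ≥ 2` only `coeff l (t^p)` with `l ≤ n - p - κ` occur).  For `j = j₀` this coefficient is not zero, so by induction on `n`
`t_(n - 1 - κ)` is in the field generated by `R_(j₀, κ + 1), .., R_(j₀, n)`.  And `R_(j₁, n) = Φ(P j₁)_n + w_(n - M)`.
-/

open MvPolynomial

namespace M4

open M3

universe u

section
variable {S : Type u} [CommRing S]

private theorem expArc_ord (g : AA S) (H : Fin 2 → PowerSeries S) (M B : ℕ)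
    (hH : ∀ j, (PowerSeries.X : PowerSeries S) ^ M ∣ H j)
    (hg : ∀ m : Fin 2 →₀ ℕ, m 0 + m 1 < B → (PowerSeries.X : PowerSeries S) ^ (M * B) ∣ mc g m) :
    (PowerSeries.X : PowerSeries S) ^ (M * B) ∣ ev H g := by
  choose u hu using hH
  have h1 : ev H g = ev u (ev (![PowerSeries.X ^ M * xA 0, PowerSeries.X ^ M * xA 1] :
      Fin 2 → AA S) g) := by
    rw [ev_ev]
    congr 1
    funext j
    rw [hu j]
    fin_cases j
    · show _ = ev u (PowerSeries.X ^ M * xA 0)
      rw [ev_mul, ev_pow, ev_X, ev_xA]
      rfl
    · show _ = ev u (PowerSeries.X ^ M * xA 1)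
      rw [ev_mul, ev_pow, ev_X, ev_xA]
      rfl
  rw [h1]
  apply ev_dvd
  rw [X_pow_dvd_iff_mc]
  intro e
  rw [mc_scale]
  by_cases he : e 0 + e 1 < B
  · exact Dvd.dvd.mul_left (hg e he) _
  · apply Dvd.dvd.mul_right
    apply pow_dvd_pow
    rw [← mul_add]
    exact Nat.mul_le_mul_left _ (not_lt.1 he)

private theorem expArc_pow (K : Subring S) (t : PowerSeries S) (c : ℕ)
    (h : ∀ l ≤ c, PowerSeries.coeff l t ∈ K) (p : ℕ) :
    ∀ c' ≤ c, PowerSeries.coeff c' (t ^ p) ∈ K := by
  induction p with
  | zero =>
    intro c' _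
    rw [pow_zero, PowerSeries.coeff_one]
    split_ifs
    · exact K.one_mem
    · exact K.zero_mem
  | succ p ih =>
    intro c' hc
    rw [pow_succ, PowerSeries.coeff_mul]
    refine K.sum_mem fun q hq => K.mul_mem (ih _ ?_) (h _ ?_)
    · have := Finset.HasAntidiagonal.mem_antidiagonal.1 hq
      omega
    · have := Finset.HasAntidiagonal.mem_antidiagonal.1 hq
      omega

end

section
variable {k : Type u} [Field k] {L : Type u} [Field L] [Algebra k L]
  {L' : Type u} [Field L'] [Algebra L L']

private theorem expArc_iter (δ : Derivation k L L) {a : L} (h : δ a = 0) {p : ℕ} (hp : p ≠ 0) :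
    (δ : L → L)^[p] a = 0 := by
  obtain ⟨q, rfl⟩ := Nat.exists_eq_succ_of_ne_zero hp
  rw [Function.iterate_succ_apply, h]
  induction q with
  | zero => rfl
  | succ q ih =>
    rw [Function.iterate_succ_apply, map_zero]
    exact ih (Nat.succ_ne_zero q)

/-- one term of the coefficient of `Φ P` -/
private theorem expArc_term (δ : Derivation k L L) (t : PowerSeries L') (Pj : PowerSeries L) (κ : ℕ)
    (h0 : ∀ n < κ, PowerSeries.coeff n (dS δ Pj) = 0) (K : IntermediateField L L') (n d : ℕ)
    (hK : ∀ l, l + d ≤ n → PowerSeries.coeff l t ∈ K) (a b p : ℕ) (hab : a + b = n)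
    (hp : p ≤ b) (hd : p = 0 ∨ a < κ ∨ d ≤ a + p) :
    PowerSeries.coeff (b - p) (t ^ p) *
      algebraMap L L' ((δ : L → L)^[p] (PowerSeries.coeff a Pj) * ((p.factorial : ℕ) : L)⁻¹) ∈ K := by
  by_cases h1 : p = 0
  · subst h1
    rw [pow_zero, PowerSeries.coeff_one]
    split_ifs
    · rw [one_mul]
      exact K.algebraMap_mem _
    · rw [zero_mul]
      exact K.zero_mem
  by_cases h2 : a < κ
  · have h3 : δ (PowerSeries.coeff a Pj) = 0 := by
      have := h0 a h2
      unfold dS at this
      rwa [PowerSeries.coeff_mk] at this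
    rw [expArc_iter δ h3 h1, zero_mul, map_zero, mul_zero]
    exact K.zero_mem
  · have h3 : d ≤ a + p := by tauto
    refine K.mul_mem ?_ (K.algebraMap_mem _)
    refine expArc_pow K.toSubring t (b - p) (fun l hl => ?_) p (b - p) le_rfl
    exact hK l (by omega)

end

theorem exp_arc {k : Type u} [Field k] {L : Type u} [Field L] [CharZero L] [Algebra k L]
    (δ : Derivation k L L) (P : Fin 2 → PowerSeries L) (κ : ℕ) (j₀ : Fin 2)
    (h0 : ∀ j, ∀ n < κ, PowerSeries.coeff n (dS δ (P j)) = 0)
    (h1 : PowerSeries.coeff κ (dS δ (P j₀)) ≠ 0) (M : ℕ) :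
    ∃ (L' : Type u) (_ : Field L') (_ : Algebra k L') (R : Fin 2 → PowerSeries L'),
      Cod k R (M + κ + 1) ∧ ∀ (f : AA k) (B : ℕ),
        (∀ m : Fin 2 →₀ ℕ, m 0 + m 1 < B →
          (PowerSeries.X : PowerSeries L) ^ (M * B) ∣ mc (cent P f) m) →
        (PowerSeries.X : PowerSeries L') ^ (M * B) ∣ ev R f := by
  classical
  let R₀ := MvPolynomial (Fin 2 × ℕ) L
  let L' := FractionRing R₀
  have ht : IsScalarTower k L L' := inferInstance
  let v : Fin 2 × ℕ → L' := fun p => algebraMap R₀ L' (X p)
  have hv : AlgebraicIndependent L v := by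
    have h1 : AlgebraicIndependent L (X : Fin 2 × ℕ → R₀) := MvPolynomial.algebraicIndependent_X _ _
    exact h1.map' (f := IsScalarTower.toAlgHom L R₀ L') (IsFractionRing.injective R₀ L')
  let t : PowerSeries L' := PowerSeries.mk fun n => v (0, n)
  let w : PowerSeries L' := PowerSeries.mk fun n => v (1, n)
  obtain ⟨φ, hφ1, hφ2⟩ := exists_exp (k := k) δ t
  let H : Fin 2 → PowerSeries L' := fun j => if j = j₀ then 0 else PowerSeries.X ^ M * w
  let R : Fin 2 → PowerSeries L' := fun j => coll φ (P j) + H j
  refine ⟨L', inferInstance, inferInstance, R, ?_, ?_⟩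
  · intro m
    let T : Finset (Fin 2 × Fin m) := Finset.univ.filter fun s =>
      (s.1 = j₀ → κ + 1 ≤ s.2.val) ∧ (s.1 ≠ j₀ → M ≤ s.2.val)
    refine ⟨T, ?_, ?_⟩
    · have h2 : Tᶜ ⊆ (({j₀} : Finset (Fin 2)) ×ˢ (Finset.univ.filter fun n : Fin m => n.val < κ + 1)) ∪
          ((Finset.univ.filter fun j : Fin 2 => j ≠ j₀) ×ˢ
            (Finset.univ.filter fun n : Fin m => n.val < M)) := by
        intro s hs
        rw [Finset.mem_compl, Finset.mem_filter] at hs
        by_cases hj : s.1 = j₀
        · refine Finset.mem_union_left _ (Finset.mem_product.2 ⟨by simp [hj],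
            Finset.mem_filter.2 ⟨Finset.mem_univ _, ?_⟩⟩)
          by_contra hlt
          exact hs ⟨Finset.mem_univ _, fun _ => not_lt.1 hlt, fun h => absurd hj h⟩
        · refine Finset.mem_union_right _ (Finset.mem_product.2 ⟨by simp [hj],
            Finset.mem_filter.2 ⟨Finset.mem_univ _, ?_⟩⟩)
          by_contra hlt
          exact hs ⟨Finset.mem_univ _, fun h => absurd h hj, fun _ => not_lt.1 hlt⟩
      have hF : ∀ c : ℕ, (Finset.univ.filter fun n : Fin m => n.val < c).card ≤ c := by
        intro c
        conv_rhs => rw [← Finset.card_range c]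
        refine Finset.card_le_card_of_injOn (fun n : Fin m => n.val) ?_ ?_
        · intro n hn
          have := (Finset.mem_filter.1 hn).2
          exact Finset.mem_coe.2 (Finset.mem_range.2 this)
        · intro n _ n' _ hh
          exact Fin.ext hh
      have hJ : (Finset.univ.filter fun j : Fin 2 => j ≠ j₀).card = 1 := by
        fin_cases j₀ <;> decide
      have h3 := (Finset.card_le_card h2).trans (Finset.card_union_le _ _)
      rw [Finset.card_product, Finset.card_product, Finset.card_singleton, hJ, one_mul, one_mul,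
        Finset.card_compl, Fintype.card_prod, Fintype.card_fin, Fintype.card_fin] at h3
      have h4 := hF (κ + 1)
      have h5 := hF M
      omega
    · let x : T → L' := fun s => PowerSeries.coeff s.1.2.val (R s.1.1)
      let g : T → Fin 2 × ℕ := fun s => if s.1.1 = j₀ then (0, s.1.2.val - (κ + 1)) else
        (1, s.1.2.val - M)
      have hg : Function.Injective g := by
        intro s s' hss
        have hs := (Finset.mem_filter.1 s.2).2
        have hs' := (Finset.mem_filter.1 s'.2).2
        apply Subtype.ext
        by_cases h3 : s.1.1 = j₀ <;> by_cases h4 : s'.1.1 = j₀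
        · simp only [g, if_pos h3, if_pos h4, Prod.mk.injEq, true_and] at hss
          have h5 := hs.1 h3
          have h6 := hs'.1 h4
          exact Prod.ext (h3.trans h4.symm) (Fin.ext (by omega))
        · simp [g, if_pos h3, if_neg h4] at hss
        · simp [g, if_neg h3, if_pos h4] at hss
        · simp only [g, if_neg h3, if_neg h4, Prod.mk.injEq, true_and] at hss
          have h5 := hs.2 h3
          have h6 := hs'.2 h4
          have h7 : s.1.1 = s'.1.1 := by
            revert h3 h4
            generalize s.1.1 = a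
            generalize s'.1.1 = b
            fin_cases a <;> fin_cases b <;> fin_cases j₀ <;> simp
          exact Prod.ext h7 (Fin.ext (by omega))
      let y : T → L' := fun s => v (g s)
      have hy : AlgebraicIndependent L y := hv.comp g hg
      let K : IntermediateField L L' := IntermediateField.adjoin L (Set.range x)
      have hxK : ∀ s, x s ∈ K := fun s => IntermediateField.subset_adjoin L _ ⟨s, rfl⟩
      -- the coefficients of `Φ P`
      have hcoeff : ∀ j n, PowerSeries.coeff n (coll φ (P j)) =
          ∑ q ∈ Finset.HasAntidiagonal.antidiagonal n, ∑ p ∈ Finset.range (q.2 + 1),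
            PowerSeries.coeff (q.2 - p) (t ^ p) * algebraMap L L'
              ((δ : L → L)^[p] (PowerSeries.coeff q.1 (P j)) * ((p.factorial : ℕ) : L)⁻¹) := by
        intro j n
        rw [coeff_coll]
        exact Finset.sum_congr rfl fun q _ => hφ2 _ _
      have hA : ∀ j n, (∀ l, l + (κ + 1) ≤ n → PowerSeries.coeff l t ∈ K) →
          PowerSeries.coeff n (coll φ (P j)) ∈ K := by
        intro j n hl
        rw [hcoeff]
        refine K.sum_mem fun q hq => K.sum_mem fun p hp => ?_
        refine expArc_term δ t (P j) κ (h0 j) K n (κ + 1) hl q.1 q.2 p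
          (Finset.HasAntidiagonal.mem_antidiagonal.1 hq) (by have := Finset.mem_range.1 hp; omega) ?_
        omega
      have hB : ∀ n, (∀ l, l + (κ + 2) ≤ n → PowerSeries.coeff l t ∈ K) → κ + 1 ≤ n →
          PowerSeries.coeff n (coll φ (P j₀)) ∈ K → PowerSeries.coeff (n - (κ + 1)) t ∈ K := by
        intro n hl hn hmem
        rw [hcoeff, Finset.sum_sigma'] at hmem
        have hmain : (⟨(κ, n - κ), 1⟩ : Σ _ : ℕ × ℕ, ℕ) ∈
            (Finset.HasAntidiagonal.antidiagonal n).sigma fun q => Finset.range (q.2 + 1) := by
          rw [Finset.mem_sigma]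
          refine ⟨Finset.HasAntidiagonal.mem_antidiagonal.2 (by show κ + (n - κ) = n; omega),
            Finset.mem_range.2 (by show 1 < n - κ + 1; omega)⟩
        rw [← Finset.add_sum_erase _ _ hmain] at hmem
        have hrest := (add_mem_cancel_right (K.sum_mem fun z hz => ?_)).1 hmem
        · simp only [pow_one, Function.iterate_one, Nat.factorial_one, Nat.cast_one, inv_one,
            mul_one] at hrest
          have h1' : δ (PowerSeries.coeff κ (P j₀)) ≠ 0 := by
            have := h1
            unfold dS at this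
            rwa [PowerSeries.coeff_mk] at this
          have h2 := K.mul_mem hrest (K.inv_mem (K.algebraMap_mem (δ (PowerSeries.coeff κ (P j₀)))))
          rw [mul_assoc, mul_inv_cancel₀, mul_one] at h2
          · rw [show n - (κ + 1) = n - κ - 1 by omega]
            exact h2
          · exact (map_ne_zero _).2 h1'
        · obtain ⟨hz1, hz2⟩ := Finset.mem_erase.1 hz
          rw [Finset.mem_sigma] at hz2
          have h3 := Finset.HasAntidiagonal.mem_antidiagonal.1 hz2.1
          have h4 := Finset.mem_range.1 hz2.2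
          refine expArc_term δ t (P j₀) κ (h0 j₀) K n (κ + 2) hl z.1.1 z.1.2 z.2 h3 (by omega) ?_
          by_contra hcon
          push Not at hcon
          apply hz1
          obtain ⟨⟨a, b⟩, p⟩ := z
          simp only at hcon h3 h4 ⊢
          obtain ⟨h5, h6, h7⟩ := hcon
          have h8 : p = 1 := by omega
          have h9 : a = κ := by omega
          subst h8 h9
          have h10 : b = n - a := by omega
          rw [h10]
      have hC : ∀ l, l + (κ + 1) < m → PowerSeries.coeff l t ∈ K := by
        intro l
        induction l using Nat.strong_induction_on with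
        | _ l ih =>
          intro hlm
          have h2 := hB (l + (κ + 1)) (fun l' hl' => ih l' (by omega) (by omega)) (by omega) ?_
          · rwa [Nat.add_sub_cancel] at h2
          · have h3 := hxK ⟨(j₀, ⟨l + (κ + 1), hlm⟩), Finset.mem_filter.2 ⟨Finset.mem_univ _,
              fun _ => by show κ + 1 ≤ l + (κ + 1); omega, fun h => absurd rfl h⟩⟩
            have h4 : x ⟨(j₀, ⟨l + (κ + 1), hlm⟩), Finset.mem_filter.2 ⟨Finset.mem_univ _,
              fun _ => by show κ + 1 ≤ l + (κ + 1); omega, fun h => absurd rfl h⟩⟩ =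
                PowerSeries.coeff (l + (κ + 1)) (coll φ (P j₀)) := by
              show PowerSeries.coeff (l + (κ + 1)) (R j₀) = _
              simp only [R, H, if_true, add_zero]
            rwa [h4] at h3
      have hyK : ∀ s, y s ∈ K := by
        intro s
        have hs := (Finset.mem_filter.1 s.2).2
        by_cases hj : s.1.1 = j₀
        · have h5 := hs.1 hj
          have h6 := hC (s.1.2.val - (κ + 1)) (by have := s.1.2.2; omega)
          have h7 : y s = PowerSeries.coeff (s.1.2.val - (κ + 1)) t := by
            simp only [y, g, t, if_pos hj, PowerSeries.coeff_mk]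
          rw [h7]
          exact h6
        · have h5 := hs.2 hj
          have h6 := hxK s
          have h7 : x s = PowerSeries.coeff s.1.2.val (coll φ (P s.1.1)) + y s := by
            simp only [x, y, g, R, H, if_neg hj, map_add]
            rw [PowerSeries.coeff_X_pow_mul', if_pos h5]
            simp only [w, PowerSeries.coeff_mk]
          rw [h7] at h6
          refine (add_mem_cancel_left (hA _ _ fun l hl => hC l ?_)).1 h6
          have := s.1.2.2
          omega
      obtain ⟨T'', hT1, hT2⟩ := alg_exchange (k := L) x y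
        (fun s => isAlgebraic_algebraMap (⟨y s, hyK s⟩ : K)) Finset.univ
        (hy.comp (fun s : (Finset.univ : Finset T) => s.1) Subtype.val_injective)
      have hT3 : T'' = Finset.univ := by
        rw [← Finset.card_eq_iff_eq_univ]
        have := Finset.card_le_univ T''
        rw [Finset.card_univ] at hT1
        omega
      subst hT3
      have hx : AlgebraicIndependent L x := by
        have h2 := hT2.comp (fun s : T => (⟨s, Finset.mem_univ s⟩ : (Finset.univ : Finset T)))
          (by intro a b hab; simpa using hab)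
        exact h2
      exact hx.restrictScalars (algebraMap k L).injective
  · intro f B hf
    have h2 : ev R f = ev H (cent (fun j => coll φ (P j)) f) := by
      rw [ev_cent_self]
    rw [h2]
    refine expArc_ord _ H M B ?_ ?_
    · intro j
      simp only [H]
      split_ifs
      · exact dvd_zero _
      · exact dvd_mul_right _ _
    · intro e he
      obtain ⟨g, hg⟩ := exists_hasse f e
      rw [hg, ← coll_ev φ hφ1]
      apply coll_dvd
      rw [← hg]
      exact hf e he

end M4
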