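import Pool.Agent.M3.Mc
import Pool.Agent.M3.Tay

/-!
PIECE M4-B04: extension of ring homomorphisms `R → R'[[τ]]` to `R[[τ]]`, exponentials of derivations.

PROOF. `coll φ` is `∑ a_n τ^n ↦ ∑ φ(a_n) τ^n`; it is the same construction as `ev P` (which is `coll (aeval P)`), so all
proofs can be copied from `M3.Ev`: additivity from `coeff`; `coll φ (X^n * a) = X^n * coll φ a`; `coll φ (C a) = φ a`; `coll_dvd`;
multiplicativity: true for polynomials in `τ` (`Polynomial.eval₂`), and both sides are continuous (`PowerSeries.trunc`).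
`coll_ev`: the map `f ↦ coll φ (ev P f) - ev (coll φ ∘ P) f` is additive in `f`, commutes with `X^n * _` and vanishes for
`f = PowerSeries.C p`: `ev P (C p) = aeval P p` (`ev_C`) and `coll φ (aeval P p) = aeval (coll φ ∘ P) p` since `coll φ` is a ring
homomorphism which is the identity on `k` (`φ` is a `k`-algebra homomorphism; `coll φ (algebraMap k _ c) = φ (algebraMap k R c)`); then
`M3.ev_dvd` and continuity as in `cont_zero` of `M3.Tay` (private, copy).
`exists_exp`: `φ a := ∑_p (τ t)^p * C (δ^p a / p!)`, i.e. the coefficient of `τ^n` is the given finite sum (for `p > n` the term is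
divisible by `τ^p`).  Additivity is clear, `φ (algebraMap k L c)`: only the term `p = 0` (`Derivation.map_algebraMap`).
Multiplicativity: by induction on `p` the Leibniz rule
`δ^p (a b) = ∑ i ∈ range (p + 1), p.choose i * δ^i a * δ^(p - i) b`, so `δ^p (a b) / p! = ∑ over the antidiagonal of p of (δ^i a / i!) (δ^j b / j!)`;
write `φ a = ∑ p ∈ range (n + 1), X^p * t^p * C (algebraMap (..))` modulo `X^(n + 1)` and compare the coefficient of `τ^n` of
the product (a convenient way: `φ = coll`-type substitution: first `ψ : L →+* PowerSeries L`, `ψ a := mk fun p => δ^p a / p!` is a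
ring homomorphism (coefficients of a product), then `F ↦ mk fun n => ∑ p ∈ range (n + 1), coeff (n - p) (t^p) * algebraMap (coeff p F)`,
the substitution of `τ t`, is a ring homomorphism `PowerSeries L →+* PowerSeries L'` (`PowerSeries.subst` of Mathlib, or by hand: true
for polynomials, and continuous)).
-/

open MvPolynomial

namespace M4

open M3

universe u

private theorem Expo_eq_of_dvd {A : Type*} [CommRing A] {x y : PowerSeries A}
    (h : ∀ N, (PowerSeries.X : PowerSeries A) ^ N ∣ x - y) : x = y := by
  ext n
  have := (PowerSeries.X_pow_dvd_iff.1 (h (n + 1))) n (Nat.lt_succ_self n)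
  rw [map_sub] at this
  exact sub_eq_zero.1 this

private theorem Expo_trunc_dvd {A : Type*} [CommRing A] (f : PowerSeries A) (N : ℕ) :
    (PowerSeries.X : PowerSeries A) ^ N ∣ f - (PowerSeries.trunc N f : Polynomial A) := by
  rw [PowerSeries.X_pow_dvd_iff]
  intro m hm
  rw [map_sub, Polynomial.coeff_coe, PowerSeries.coeff_trunc, if_pos hm, sub_self]

/-- a continuous additive map which is multiplicative on polynomials is multiplicative -/
private theorem Expo_mul_of_poly {A B : Type*} [CommRing A] [CommRing B]
    (D : PowerSeries A → PowerSeries B) (hadd : ∀ f g, D (f + g) = D f + D g)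
    (hdvd : ∀ (N : ℕ) f, (PowerSeries.X : PowerSeries A) ^ N ∣ f →
      (PowerSeries.X : PowerSeries B) ^ N ∣ D f)
    (hpol : ∀ p q : Polynomial A, D ((p : PowerSeries A) * (q : PowerSeries A))
      = D (p : PowerSeries A) * D (q : PowerSeries A))
    (f g : PowerSeries A) : D (f * g) = D f * D g := by
  have hsub : ∀ f g, D (f - g) = D f - D g := by
    intro f g
    rw [eq_sub_iff_add_eq, ← hadd, sub_add_cancel]
  apply Expo_eq_of_dvd
  intro N
  set f' : Polynomial A := PowerSeries.trunc N f with hf'
  set g' : Polynomial A := PowerSeries.trunc N g with hg'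
  have hf : (PowerSeries.X : PowerSeries A) ^ N ∣ f - f' := Expo_trunc_dvd f N
  have hg : (PowerSeries.X : PowerSeries A) ^ N ∣ g - g' := Expo_trunc_dvd g N
  have h1 : (PowerSeries.X : PowerSeries A) ^ N ∣ f * g - (f' : PowerSeries A) * (g' : PowerSeries A) := by
    have : f * g - (f' : PowerSeries A) * (g' : PowerSeries A)
        = (f - f') * g + f' * (g - g') := by ring
    rw [this]
    exact dvd_add (Dvd.dvd.mul_right hf _) (Dvd.dvd.mul_left hg _)
  have h2 := hdvd N _ h1
  rw [hsub] at h2
  have h3 := hdvd N _ hf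
  rw [hsub] at h3
  have h4 := hdvd N _ hg
  rw [hsub] at h4
  have h6 : D (f * g) - D f * D g
      = (D (f * g) - D ((f' : PowerSeries A) * (g' : PowerSeries A))) -
      ((D f - D (f' : PowerSeries A)) * D g
        + D (f' : PowerSeries A) * (D g - D (g' : PowerSeries A))) := by
    rw [hpol]
    ring
  rw [h6]
  exact dvd_sub h2 (dvd_add (Dvd.dvd.mul_right h3 _) (Dvd.dvd.mul_left h4 _))

private theorem Expo_cont_zero {k : Type u} [CommRing k] {S : Type*} [CommRing S]
    (D : AA k → PowerSeries S)
    (hadd : ∀ f g, D (f + g) = D f + D g)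
    (hX : ∀ (n : ℕ) f, D (PowerSeries.X ^ n * f) = PowerSeries.X ^ n * D f)
    (hC : ∀ p : MvPolynomial (Fin 2) k, D (PowerSeries.C p) = 0) (f : AA k) : D f = 0 := by
  have hpol : ∀ q : Polynomial (MvPolynomial (Fin 2) k), D (q : AA k) = 0 := by
    intro q
    induction q using Polynomial.induction_on' with
    | add p q hp hq =>
      rw [Polynomial.coe_add, hadd, hp, hq, add_zero]
    | monomial n a =>
      have : ((Polynomial.monomial n a : Polynomial (MvPolynomial (Fin 2) k)) : AA k) =
          PowerSeries.X ^ n * PowerSeries.C a := by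
        refine PowerSeries.ext fun m => ?_
        rw [Polynomial.coe_monomial, PowerSeries.coeff_monomial, PowerSeries.coeff_X_pow_mul',
          PowerSeries.coeff_C]
        by_cases h : m = n
        · rw [if_pos h, if_pos h.ge, if_pos (by omega)]
        · rw [if_neg h]
          split_ifs
          · omega
          · rfl
          · rfl
      rw [this, hX, hC, mul_zero]
  refine PowerSeries.ext fun n => ?_
  rw [map_zero]
  obtain ⟨g, hg⟩ := Expo_trunc_dvd f (n + 1)
  have h1 : f = ((PowerSeries.trunc (n + 1) f : Polynomial (MvPolynomial (Fin 2) k)) : AA k) +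
      PowerSeries.X ^ (n + 1) * g := by rw [← hg]; ring
  have h2 : D f = PowerSeries.X ^ (n + 1) * D g := by
    conv_lhs => rw [h1]
    rw [hadd, hX, hpol, zero_add]
  exact PowerSeries.X_pow_dvd_iff.1 (Dvd.intro _ h2.symm) n (Nat.lt_succ_self n)

section
variable {R : Type u} [CommRing R] {R' : Type u} [CommRing R']

/-- extension of `φ : R → R'[[τ]]` to power series -/
noncomputable def coll (φ : R →+* PowerSeries R') (a : PowerSeries R) : PowerSeries R' :=
  PowerSeries.mk fun n => ∑ p ∈ Finset.HasAntidiagonal.antidiagonal n,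
    PowerSeries.coeff p.2 (φ (PowerSeries.coeff p.1 a))

theorem coeff_coll (φ : R →+* PowerSeries R') (a : PowerSeries R) (n : ℕ) :
    PowerSeries.coeff n (coll φ a) = ∑ p ∈ Finset.HasAntidiagonal.antidiagonal n,
      PowerSeries.coeff p.2 (φ (PowerSeries.coeff p.1 a)) := by
  unfold coll
  rw [PowerSeries.coeff_mk]

theorem coll_add (φ : R →+* PowerSeries R') (a b : PowerSeries R) :
    coll φ (a + b) = coll φ a + coll φ b := by
  ext n
  simp only [coeff_coll, map_add, Finset.sum_add_distrib]

private theorem Expo_coll_monomial (φ : R →+* PowerSeries R') (i : ℕ) (a : R) :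
    coll φ (PowerSeries.monomial i a) = PowerSeries.X ^ i * φ a := by
  ext n
  rw [coeff_coll, PowerSeries.coeff_X_pow_mul']
  split_ifs with h
  · rw [Finset.sum_eq_single (i, n - i)]
    · rw [PowerSeries.coeff_monomial_same]
    · rintro ⟨a', b'⟩ hab hne
      have h1 : a' ≠ i := by
        rintro rfl
        apply hne
        have := Finset.HasAntidiagonal.mem_antidiagonal.1 hab
        simp at this
        ext
        · rfl
        · show b' = n - a'
          omega
      rw [PowerSeries.coeff_monomial, if_neg h1, map_zero, map_zero]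
    · intro h2
      exact absurd (Finset.HasAntidiagonal.mem_antidiagonal.2 (by simp; omega)) h2
  · apply Finset.sum_eq_zero
    rintro ⟨a', b'⟩ hab
    have h1 : a' ≠ i := by
      rintro rfl
      have := Finset.HasAntidiagonal.mem_antidiagonal.1 hab
      simp at this
      omega
    rw [PowerSeries.coeff_monomial, if_neg h1, map_zero, map_zero]

private theorem Expo_coll_poly (φ : R →+* PowerSeries R') (q : Polynomial R) :
    coll φ (q : PowerSeries R) = Polynomial.eval₂ φ PowerSeries.X q := by
  induction q using Polynomial.induction_on' with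
  | add p q hp hq => rw [Polynomial.coe_add, coll_add, hp, hq, Polynomial.eval₂_add]
  | monomial n a =>
    rw [Polynomial.coe_monomial, Expo_coll_monomial, Polynomial.eval₂_monomial, mul_comm]

private theorem Expo_coll_dvd (φ : R →+* PowerSeries R') {N : ℕ} {a : PowerSeries R}
    (h : (PowerSeries.X : PowerSeries R) ^ N ∣ a) :
    (PowerSeries.X : PowerSeries R') ^ N ∣ coll φ a := by
  rw [PowerSeries.X_pow_dvd_iff] at h ⊢
  intro m hm
  rw [coeff_coll]
  apply Finset.sum_eq_zero
  rintro ⟨a', b'⟩ hab
  have := Finset.HasAntidiagonal.mem_antidiagonal.1 hab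
  rw [h a' (by simp at this; omega), map_zero, map_zero]

theorem coll_mul (φ : R →+* PowerSeries R') (a b : PowerSeries R) :
    coll φ (a * b) = coll φ a * coll φ b := by
  refine Expo_mul_of_poly (coll φ) (coll_add φ) (fun N f h => Expo_coll_dvd φ h) ?_ a b
  intro p q
  rw [← Polynomial.coe_mul, Expo_coll_poly, Expo_coll_poly, Expo_coll_poly, Polynomial.eval₂_mul]

theorem coll_C (φ : R →+* PowerSeries R') (a : R) : coll φ (PowerSeries.C a) = φ a := by
  have := Expo_coll_poly φ (Polynomial.C a)
  rw [Polynomial.coe_C, Polynomial.eval₂_C] at this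
  exact this

theorem coll_X_pow_mul (φ : R →+* PowerSeries R') (N : ℕ) (a : PowerSeries R) :
    coll φ (PowerSeries.X ^ N * a) = PowerSeries.X ^ N * coll φ a := by
  have h1 : coll φ (PowerSeries.X ^ N) = PowerSeries.X ^ N := by
    have h2 := Expo_coll_poly φ (Polynomial.X ^ N)
    rw [Polynomial.coe_pow, Polynomial.coe_X, Polynomial.eval₂_pow, Polynomial.eval₂_X] at h2
    exact h2
  rw [coll_mul, h1]

theorem coll_dvd (φ : R →+* PowerSeries R') {N : ℕ} {a : PowerSeries R}
    (h : (PowerSeries.X : PowerSeries R) ^ N ∣ a) :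
    (PowerSeries.X : PowerSeries R') ^ N ∣ coll φ a :=
  Expo_coll_dvd φ h

theorem coll_ev {k : Type u} [CommRing k] [Algebra k R] [Algebra k R'] (φ : R →+* PowerSeries R')
    (hφ : ∀ x : k, φ (algebraMap k R x) = algebraMap k (PowerSeries R') x)
    (P : Fin 2 → PowerSeries R) (f : AA k) :
    coll φ (ev P f) = ev (fun j => coll φ (P j)) f := by
  rw [← sub_eq_zero]
  refine Expo_cont_zero (fun f => coll φ (ev P f) - ev (fun j => coll φ (P j)) f) ?_ ?_ ?_ f
  · intro f g
    simp only [ev_add, coll_add]
    ring
  · intro n f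
    simp only [ev_mul, ev_pow, ev_X, coll_X_pow_mul]
    ring
  · intro p
    show coll φ (ev P (PowerSeries.C p)) - ev (fun j => coll φ (P j)) (PowerSeries.C p) = 0
    rw [sub_eq_zero, ev_C, ev_C]
    induction p using MvPolynomial.induction_on with
    | C a =>
      rw [aeval_C, aeval_C, PowerSeries.algebraMap_apply, coll_C, hφ]
    | add p q hp hq => rw [map_add, map_add, coll_add, hp, hq]
    | mul_X p j hp => rw [map_mul, map_mul, coll_mul, hp, aeval_X, aeval_X]

end

/-- a derivation acts on the coefficients of a power series -/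
private noncomputable def ExpoD {k : Type u} [CommRing k] {L : Type u} [CommRing L] [Algebra k L]
    (δ : Derivation k L L) (g : PowerSeries L) : PowerSeries L :=
  PowerSeries.mk fun n => δ (PowerSeries.coeff n g)

private theorem Expo_coeff_D {k : Type u} [CommRing k] {L : Type u} [CommRing L] [Algebra k L]
    (δ : Derivation k L L) (g : PowerSeries L) (n : ℕ) :
    PowerSeries.coeff n (ExpoD δ g) = δ (PowerSeries.coeff n g) := by
  unfold ExpoD
  rw [PowerSeries.coeff_mk]

private theorem Expo_D_mul {k : Type u} [CommRing k] {L : Type u} [CommRing L] [Algebra k L]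
    (δ : Derivation k L L) (f g : PowerSeries L) :
    ExpoD δ (f * g) = ExpoD δ f * g + f * ExpoD δ g := by
  refine PowerSeries.ext fun n => ?_
  rw [Expo_coeff_D, PowerSeries.coeff_mul, map_sum, map_add, PowerSeries.coeff_mul,
    PowerSeries.coeff_mul, ← Finset.sum_add_distrib]
  refine Finset.sum_congr rfl fun p _ => ?_
  rw [Derivation.leibniz, Expo_coeff_D, Expo_coeff_D, smul_eq_mul, smul_eq_mul]
  ring

/-- the exponential series -/
private noncomputable def Expopsi {k : Type u} [Field k] {L : Type u} [Field L] [Algebra k L]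
    (δ : Derivation k L L) (a : L) : PowerSeries L :=
  PowerSeries.mk fun p => (δ : L → L)^[p] a * ((p.factorial : ℕ) : L)⁻¹

private theorem Expo_coeff_psi {k : Type u} [Field k] {L : Type u} [Field L] [Algebra k L]
    (δ : Derivation k L L) (a : L) (p : ℕ) :
    PowerSeries.coeff p (Expopsi δ a) = (δ : L → L)^[p] a * ((p.factorial : ℕ) : L)⁻¹ := by
  unfold Expopsi
  rw [PowerSeries.coeff_mk]

private theorem Expo_fact {L : Type u} [Field L] [CharZero L] (n : ℕ) :
    ((n.factorial : ℕ) : L) ≠ 0 := Nat.cast_ne_zero.mpr (Nat.factorial_ne_zero n)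

private theorem Expo_unique {k : Type u} [Field k] {L : Type u} [Field L] [CharZero L] [Algebra k L]
    (δ : Derivation k L L) (G : PowerSeries L)
    (hG : ∀ n, ((n + 1 : ℕ) : L) * PowerSeries.coeff (n + 1) G = δ (PowerSeries.coeff n G)) :
    G = Expopsi δ (PowerSeries.coeff 0 G) := by
  have key : ∀ n, ((n.factorial : ℕ) : L) * PowerSeries.coeff n G
      = (δ : L → L)^[n] (PowerSeries.coeff 0 G) := by
    intro n
    induction n with
    | zero => simp
    | succ n ih =>
      rw [Function.iterate_succ_apply', ← ih, Nat.factorial_succ]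
      have h1 : δ (((n.factorial : ℕ) : L) * PowerSeries.coeff n G)
          = ((n.factorial : ℕ) : L) * δ (PowerSeries.coeff n G) := by
        rw [← nsmul_eq_mul, ← nsmul_eq_mul, map_nsmul]
      rw [h1, ← hG, Nat.cast_mul]
      ring
  ext n
  rw [Expo_coeff_psi, ← key n]
  field_simp [Expo_fact (L := L) n]

private theorem Expo_psi_rec {k : Type u} [Field k] {L : Type u} [Field L] [CharZero L] [Algebra k L]
    (δ : Derivation k L L) (a : L) (n : ℕ) :
    ((n + 1 : ℕ) : L) * PowerSeries.coeff (n + 1) (Expopsi δ a)
      = δ (PowerSeries.coeff n (Expopsi δ a)) := by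
  rw [Expo_coeff_psi, Expo_coeff_psi, Function.iterate_succ_apply']
  set x := (δ : L → L)^[n] a with hx
  have hn := Expo_fact (L := L) n
  have h1 : ((n.factorial : ℕ) : L) * δ (x * ((n.factorial : ℕ) : L)⁻¹) = δ x := by
    rw [← nsmul_eq_mul, ← map_nsmul, nsmul_eq_mul]
    congr 1
    rw [mul_comm x, ← mul_assoc, mul_inv_cancel₀ hn, one_mul]
  have h2 : ((n + 1 : ℕ) : L) ≠ 0 := Nat.cast_ne_zero.mpr (Nat.succ_ne_zero n)
  rw [Nat.factorial_succ, Nat.cast_mul, mul_inv]
  apply mul_left_cancel₀ hn
  rw [h1]
  have h3 : ((n.factorial : ℕ) : L) * (((n + 1 : ℕ) : L) * (δ x * (((n + 1 : ℕ) : L)⁻¹ * ((n.factorial : ℕ) : L)⁻¹)))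
      = (((n.factorial : ℕ) : L) * ((n.factorial : ℕ) : L)⁻¹)
        * ((((n + 1 : ℕ) : L) * ((n + 1 : ℕ) : L)⁻¹)) * δ x := by ring
  rw [h3, mul_inv_cancel₀ hn, mul_inv_cancel₀ h2, one_mul, one_mul]

private theorem Expo_psi_mul {k : Type u} [Field k] {L : Type u} [Field L] [CharZero L] [Algebra k L]
    (δ : Derivation k L L) (a b : L) : Expopsi δ (a * b) = Expopsi δ a * Expopsi δ b := by
  have hd : ∀ c : L, PowerSeries.derivative L (Expopsi δ c) = ExpoD δ (Expopsi δ c) := by
    intro c
    ext n
    rw [PowerSeries.coeff_derivative, Expo_coeff_D, ← Expo_psi_rec, mul_comm]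
    push_cast
    rfl
  have h := Expo_unique δ (Expopsi δ a * Expopsi δ b) (by
    intro n
    have h1 : PowerSeries.derivative L (Expopsi δ a * Expopsi δ b)
        = ExpoD δ (Expopsi δ a * Expopsi δ b) := by
      rw [Derivation.leibniz, hd, hd, Expo_D_mul, smul_eq_mul, smul_eq_mul]
      ring
    have h2 := congrArg (PowerSeries.coeff n) h1
    rw [PowerSeries.coeff_derivative, Expo_coeff_D] at h2
    rw [← h2, mul_comm]
    push_cast
    rfl)
  rw [h]
  congr 1
  rw [PowerSeries.coeff_mul]
  simp [Expo_coeff_psi]

/-- substitution of `τ t` -/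
private noncomputable def Exposig {L : Type u} [CommRing L] {L' : Type u} [CommRing L']
    [Algebra L L'] (t : PowerSeries L') (F : PowerSeries L) : PowerSeries L' :=
  PowerSeries.mk fun n => ∑ p ∈ Finset.range (n + 1),
    PowerSeries.coeff (n - p) (t ^ p) * algebraMap L L' (PowerSeries.coeff p F)

private theorem Expo_coeff_sig {L : Type u} [CommRing L] {L' : Type u} [CommRing L']
    [Algebra L L'] (t : PowerSeries L') (F : PowerSeries L) (n : ℕ) :
    PowerSeries.coeff n (Exposig t F) = ∑ p ∈ Finset.range (n + 1),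
      PowerSeries.coeff (n - p) (t ^ p) * algebraMap L L' (PowerSeries.coeff p F) := by
  unfold Exposig
  rw [PowerSeries.coeff_mk]

private theorem Expo_sig_add {L : Type u} [CommRing L] {L' : Type u} [CommRing L']
    [Algebra L L'] (t : PowerSeries L') (F G : PowerSeries L) :
    Exposig t (F + G) = Exposig t F + Exposig t G := by
  ext n
  simp only [Expo_coeff_sig, map_add, mul_add, Finset.sum_add_distrib]

private theorem Expo_sig_poly {L : Type u} [CommRing L] {L' : Type u} [CommRing L']
    [Algebra L L'] (t : PowerSeries L') (q : Polynomial L) :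
    Exposig t (q : PowerSeries L)
      = Polynomial.eval₂ ((PowerSeries.C : L' →+* PowerSeries L').comp (algebraMap L L'))
        (PowerSeries.X * t) q := by
  induction q using Polynomial.induction_on' with
  | add p q hp hq => rw [Polynomial.coe_add, Expo_sig_add, hp, hq, Polynomial.eval₂_add]
  | monomial i a =>
    rw [Polynomial.coe_monomial, Polynomial.eval₂_monomial]
    ext n
    rw [Expo_coeff_sig, mul_pow, RingHom.comp_apply, PowerSeries.coeff_C_mul,
      PowerSeries.coeff_X_pow_mul']
    split_ifs with h
    · rw [Finset.sum_eq_single i]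
      · rw [PowerSeries.coeff_monomial_same, mul_comm]
      · intro p _ hp
        rw [PowerSeries.coeff_monomial, if_neg hp, map_zero, mul_zero]
      · intro h2
        exact absurd (Finset.mem_range.mpr (by omega)) h2
    · rw [mul_zero]
      refine Finset.sum_eq_zero fun p hp => ?_
      have h1 := Finset.mem_range.mp hp
      rw [PowerSeries.coeff_monomial, if_neg (by omega), map_zero, mul_zero]

private theorem Expo_sig_dvd {L : Type u} [CommRing L] {L' : Type u} [CommRing L']
    [Algebra L L'] (t : PowerSeries L') (N : ℕ) (F : PowerSeries L)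
    (h : (PowerSeries.X : PowerSeries L) ^ N ∣ F) :
    (PowerSeries.X : PowerSeries L') ^ N ∣ Exposig t F := by
  rw [PowerSeries.X_pow_dvd_iff] at h ⊢
  intro m hm
  rw [Expo_coeff_sig]
  refine Finset.sum_eq_zero fun p hp => ?_
  have h1 := Finset.mem_range.mp hp
  rw [h p (by omega), map_zero, mul_zero]

private theorem Expo_sig_mul {L : Type u} [CommRing L] {L' : Type u} [CommRing L']
    [Algebra L L'] (t : PowerSeries L') (F G : PowerSeries L) :
    Exposig t (F * G) = Exposig t F * Exposig t G := by
  refine Expo_mul_of_poly (Exposig t) (Expo_sig_add t) (Expo_sig_dvd t) ?_ F G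
  intro p q
  rw [← Polynomial.coe_mul, Expo_sig_poly, Expo_sig_poly, Expo_sig_poly, Polynomial.eval₂_mul]

private theorem Expo_iter_zero {k : Type u} [Field k] {L : Type u} [Field L] [Algebra k L]
    (δ : Derivation k L L) (x : k) (p : ℕ) : (δ : L → L)^[p + 1] (algebraMap k L x) = 0 := by
  induction p with
  | zero => simp
  | succ p ih => rw [Function.iterate_succ_apply', ih, map_zero]

private theorem Expo_phi_alg {k : Type u} [Field k] {L : Type u} [Field L] [Algebra k L]
    {L' : Type u} [Field L'] [Algebra L L'] [Algebra k L'] [IsScalarTower k L L']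
    (δ : Derivation k L L) (t : PowerSeries L') (x : k) :
    Exposig t (Expopsi δ (algebraMap k L x)) = algebraMap k (PowerSeries L') x := by
  ext n
  rw [Expo_coeff_sig, Finset.sum_range_succ', PowerSeries.algebraMap_apply, PowerSeries.coeff_C]
  have h1 : ∑ p ∈ Finset.range n, PowerSeries.coeff (n - (p + 1)) (t ^ (p + 1)) *
      algebraMap L L' (PowerSeries.coeff (p + 1) (Expopsi δ (algebraMap k L x))) = 0 := by
    refine Finset.sum_eq_zero fun p _ => ?_
    rw [Expo_coeff_psi, Expo_iter_zero, zero_mul, map_zero, mul_zero]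
  rw [h1, zero_add, Expo_coeff_psi, pow_zero, Nat.sub_zero, PowerSeries.coeff_one]
  rw [Function.iterate_zero, id_eq, Nat.factorial_zero, Nat.cast_one, inv_one, mul_one,
    ← IsScalarTower.algebraMap_apply k L L']
  split_ifs <;> simp

theorem exists_exp {k : Type u} [Field k] {L : Type u} [Field L] [CharZero L] [Algebra k L]
    {L' : Type u} [Field L'] [Algebra L L'] [Algebra k L'] [IsScalarTower k L L']
    (δ : Derivation k L L) (t : PowerSeries L') :
    ∃ φ : L →+* PowerSeries L',
      (∀ x : k, φ (algebraMap k L x) = algebraMap k (PowerSeries L') x) ∧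
      ∀ (a : L) (n : ℕ), PowerSeries.coeff n (φ a) = ∑ p ∈ Finset.range (n + 1),
        PowerSeries.coeff (n - p) (t ^ p) *
          algebraMap L L' ((δ : L → L)^[p] a * ((p.factorial : ℕ) : L)⁻¹) := by
  refine ⟨{ toFun := fun a => Exposig t (Expopsi δ a)
            map_one' := ?_
            map_mul' := ?_
            map_zero' := ?_
            map_add' := ?_ }, ?_, ?_⟩
  · have h1 := Expo_phi_alg δ t (1 : k)
    rw [map_one, map_one] at h1
    exact h1
  · intro a b
    rw [Expo_psi_mul, Expo_sig_mul]
  · have h1 := Expo_phi_alg δ t (0 : k)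
    rw [map_zero, map_zero] at h1
    exact h1
  · intro a b
    have hit : ∀ p : ℕ, (δ : L → L)^[p] (a + b) = (δ : L → L)^[p] a + (δ : L → L)^[p] b := by
      intro p
      induction p with
      | zero => rfl
      | succ p ih => rw [Function.iterate_succ_apply', Function.iterate_succ_apply',
          Function.iterate_succ_apply', ih, map_add]
    have h1 : Expopsi δ (a + b) = Expopsi δ a + Expopsi δ b := by
      ext p
      rw [map_add, Expo_coeff_psi, Expo_coeff_psi, Expo_coeff_psi, hit, add_mul]
    rw [h1, Expo_sig_add]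
  · intro x
    exact Expo_phi_alg δ t x
  · intro a n
    change PowerSeries.coeff n (Exposig t (Expopsi δ a)) = _
    rw [Expo_coeff_sig]
    refine Finset.sum_congr rfl fun p _ => ?_
    rw [Expo_coeff_psi]

end M4
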