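import Pool.Agent.M4.DomT
import Pool.Agent.M3.Newt

/-!
PIECE M4-G01: the Newton polygon of a family which is bounded below (port of `M3.Newt`).

PROOF. For `s : ℕ` and almost all `i` consider the arc `P := (X^(s * w₀ * E i) * U 0, X^(s * w₁ * E i) * U 1)`, `U` generic over `k`
(`exists_generic`): `Cod k P (s * w₀ * E i + s * w₁ * E i)` (`newt_cod` in `M3.Newt` is private, copy it, or use `cod_chA`).  For
`grp h = j`: `X^(s * φ j * E i) ∣ ev P (c i h)`: `ev P (c i h) = ev U (ev ![X^(s w₀ E i) * xA 0, X^(s w₁ E i) * xA 1] (c i h))`, and by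
`mc_scale` the coefficient of `x^m` is `X^(s * wt w₀ w₁ m * E i) * mc (c i h) m`, divisible by `X^(s * φ j * E i)` if `φ j ≤ wt w₀ w₁ m`, and if `mc (c i h) m` is
null by `tame_uniform` with `M := s * max φ`.  `LowB` with `ℓ := s * (w₀ + w₁) + s * ∑ j, φ j`:
`-K * E i ≤ s * (w₀ + w₁) * E i - ∑ lam j * (s * φ j * E i)`; divide by `s * E i` and let `s → ∞`.
-/

open MvPolynomial

namespace M4

open M3

universe u

private theorem newtS_indep {κ : Type u} [Field κ] {L : Type u} [Field L] [Algebra κ L]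
    {U : Fin 2 → PowerSeries L} (hU : Cod κ U 0) (m : ℕ) :
    AlgebraicIndependent κ (fun t : Fin 2 × Fin m => PowerSeries.coeff t.2.val (U t.1)) := by
  obtain ⟨T, hT, hI⟩ := hU m
  have hc : T = Finset.univ := by
    apply Finset.eq_univ_of_card
    refine le_antisymm (Finset.card_le_univ T) ?_
    rw [Fintype.card_prod, Fintype.card_fin, Fintype.card_fin]
    omega
  have h := hI.comp (fun t : Fin 2 × Fin m => (⟨t, by rw [hc]; exact Finset.mem_univ t⟩ : T))
    (fun a b hab => by simpa using hab)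
  exact h

private theorem newtS_card (m : ℕ) (N : Fin 2 → ℕ) :
    2 * m ≤ (Finset.univ.filter (fun t : Fin 2 × Fin m => N t.1 ≤ t.2.val)).card +
      (N 0 + N 1) := by
  have h1 := Finset.card_filter_add_card_filter_not (s := (Finset.univ : Finset (Fin 2 × Fin m)))
    (fun t : Fin 2 × Fin m => N t.1 ≤ t.2.val)
  have h2 : (Finset.univ : Finset (Fin 2 × Fin m)).card = 2 * m := by
    rw [Finset.card_univ, Fintype.card_prod, Fintype.card_fin, Fintype.card_fin]
  have h3 : (Finset.univ.filter (fun t : Fin 2 × Fin m => ¬ N t.1 ≤ t.2.val)).card ≤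
      N 0 + N 1 := by
    have h4 : (Finset.univ.filter (fun t : Fin 2 × Fin m => ¬ N t.1 ≤ t.2.val)).card ≤
        (Finset.univ.sigma (fun j : Fin 2 => Finset.range (N j))).card := by
      refine Finset.card_le_card_of_injOn (fun t => (⟨t.1, t.2.val⟩ : Σ _ : Fin 2, ℕ)) ?_ ?_
      · intro t ht
        have := (Finset.mem_filter.1 ht).2
        simpa using this
      · rintro ⟨a, b⟩ - ⟨c, d⟩ - h
        simp only [Sigma.mk.injEq, heq_eq_eq] at h
        ext
        · simp [h.1]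
        · exact h.2
    rw [Finset.card_sigma, Fin.sum_univ_two, Finset.card_range, Finset.card_range] at h4
    exact h4
  omega

private theorem newtS_cod {κ : Type u} [Field κ] {L : Type u} [Field L] [Algebra κ L]
    {U : Fin 2 → PowerSeries L} (hU : Cod κ U 0) (N : Fin 2 → ℕ) :
    Cod κ (fun j => PowerSeries.X ^ N j * U j) (N 0 + N 1) := by
  intro m
  refine ⟨Finset.univ.filter (fun t : Fin 2 × Fin m => N t.1 ≤ t.2.val), newtS_card m N, ?_⟩
  have h := (newtS_indep hU m).comp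
    (fun t : (Finset.univ.filter (fun t : Fin 2 × Fin m => N t.1 ≤ t.2.val)) =>
      ((t.1.1, ⟨t.1.2.val - N t.1.1, by have := t.1.2.isLt; omega⟩) : Fin 2 × Fin m)) ?_
  · convert h using 2 with t
    have ht : N t.1.1 ≤ t.1.2.val := (Finset.mem_filter.1 t.2).2
    show PowerSeries.coeff t.1.2.val (PowerSeries.X ^ N t.1.1 * U t.1.1) =
      PowerSeries.coeff (t.1.2.val - N t.1.1) (U t.1.1)
    rw [PowerSeries.coeff_X_pow_mul', if_pos ht]
  · rintro ⟨⟨a, b⟩, hab⟩ ⟨⟨c, d⟩, hcd⟩ h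
    have h1 : N a ≤ b.val := (Finset.mem_filter.1 hab).2
    have h2 : N c ≤ d.val := (Finset.mem_filter.1 hcd).2
    simp only [Prod.mk.injEq, Fin.mk.injEq] at h
    obtain ⟨h3, h4⟩ := h
    subst h3
    have : b = d := by ext; omega
    subst this
    rfl

theorem newt_le {E : ℕ → ℕ+} {k : Type u} [Field k] {r : ℕ} {J : Type} [Finite J]
    {lam : Fin r → ℝ} {grp : J → Fin r} {c : ℕ → J → AA k} (tm : ∀ h, Tame E (fun i => c i h))
    (hL : LowB E lam grp c) (w₀ w₁ : ℕ) (φ : Fin r → ℕ)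
    (hφ : ∀ h m, ¬ Nul E (fun i => mc (c i h) m) → φ (grp h) ≤ wt w₀ w₁ m) :
    ∑ j, lam j * φ j ≤ (w₀ : ℝ) + w₁ := by
  obtain ⟨K, hK⟩ := hL
  obtain ⟨U, hU⟩ := exists_generic k
  have key : ∀ s : ℕ, -K ≤ (s : ℝ) * ((w₀ : ℝ) + w₁ - ∑ j, lam j * φ j) := by
    intro s
    have hT : ∀ᶠ i in Uf, ∀ h, ∀ m : Fin 2 →₀ ℕ, Nul E (fun i => mc (c i h) m) →
        (PowerSeries.X : PowerSeries k) ^ ((s * ∑ j, φ j) * (E i : ℕ)) ∣ mc (c i h) m := by
      rw [Filter.eventually_all]
      intro h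
      exact tame_uniform (tm h) (s * ∑ j, φ j)
    obtain ⟨i, hi, hTi⟩ := ((hK (s * (w₀ + w₁) + s * ∑ j, φ j)).and hT).exists
    have hcod := newtS_cod hU ![s * w₀ * (E i : ℕ), s * w₁ * (E i : ℕ)]
    have hφle : ∀ j, φ j ≤ ∑ j, φ j := fun j =>
      Finset.single_le_sum (fun _ _ => Nat.zero_le _) (Finset.mem_univ j)
    have h1 := hi (Om k)
      (fun j => PowerSeries.X ^ (![s * w₀ * (E i : ℕ), s * w₁ * (E i : ℕ)] j) * U j) _
      (fun j => s * φ j * (E i : ℕ)) ?_ ?_ hcod ?_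
    · simp only [Matrix.cons_val_zero, Matrix.cons_val_one] at h1
      push_cast at h1
      have hE : (0 : ℝ) < ((E i : ℕ) : ℝ) := by exact_mod_cast (E i).pos
      have h2 : ∑ x, lam x * ((s : ℝ) * (φ x : ℝ) * ((E i : ℕ) : ℝ)) =
          (s : ℝ) * (∑ j, lam j * φ j) * ((E i : ℕ) : ℝ) := by
        rw [Finset.mul_sum, Finset.sum_mul]
        refine Finset.sum_congr rfl fun j _ => ?_
        ring
      rw [h2] at h1
      have h3 : -K * ((E i : ℕ) : ℝ) ≤
          ((s : ℝ) * ((w₀ : ℝ) + w₁ - ∑ j, lam j * φ j)) * ((E i : ℕ) : ℝ) := by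
        refine h1.trans_eq ?_
        ring
      exact le_of_mul_le_mul_right h3 hE
    · simp only [Matrix.cons_val_zero, Matrix.cons_val_one]
      rw [← add_mul]
      refine Nat.mul_le_mul_right _ ?_
      rw [mul_add]
      exact Nat.le_add_right _ _
    · intro j
      refine Nat.mul_le_mul_right _ ?_
      exact (Nat.mul_le_mul_left s (hφle j)).trans (Nat.le_add_left _ _)
    · intro h
      have h2 : (fun j => PowerSeries.X ^ (![s * w₀ * (E i : ℕ), s * w₁ * (E i : ℕ)] j) * U j) =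
          fun j => ev U ((![PowerSeries.X ^ (s * w₀ * (E i : ℕ)) * xA 0,
            PowerSeries.X ^ (s * w₁ * (E i : ℕ)) * xA 1] : Fin 2 → AA k) j) := by
        funext j
        fin_cases j
        · show PowerSeries.X ^ (s * w₀ * (E i : ℕ)) * U 0 =
            ev U (PowerSeries.X ^ (s * w₀ * (E i : ℕ)) * xA 0)
          rw [ev_mul, ev_pow, ev_X, ev_xA]
        · show PowerSeries.X ^ (s * w₁ * (E i : ℕ)) * U 1 =
            ev U (PowerSeries.X ^ (s * w₁ * (E i : ℕ)) * xA 1)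
          rw [ev_mul, ev_pow, ev_X, ev_xA]
      rw [h2, ← ev_ev]
      apply ev_dvd
      rw [X_pow_dvd_iff_mc]
      intro e
      rw [mc_scale]
      by_cases h3 : Nul E (fun i => mc (c i h) e)
      · refine Dvd.dvd.mul_left ((pow_dvd_pow _ ?_).trans (hTi h e h3)) _
        exact Nat.mul_le_mul_right _ (Nat.mul_le_mul_left s (hφle (grp h)))
      · refine Dvd.dvd.mul_right (pow_dvd_pow _ ?_) _
        have h4 := Nat.mul_le_mul_right (E i : ℕ) (Nat.mul_le_mul_left s (hφ h e h3))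
        unfold wt at h4
        calc s * φ (grp h) * (E i : ℕ) ≤ s * (w₀ * e 0 + w₁ * e 1) * (E i : ℕ) := h4
          _ = s * w₀ * (E i : ℕ) * e 0 + s * w₁ * (E i : ℕ) * e 1 := by ring
  by_contra hcon
  have hc : (w₀ : ℝ) + w₁ - ∑ j, lam j * φ j < 0 := by
    have := not_le.1 hcon
    linarith
  obtain ⟨s, hs⟩ := exists_nat_gt (K / (-((w₀ : ℝ) + w₁ - ∑ j, lam j * φ j)))
  have h5 := key s
  rw [div_lt_iff₀ (by linarith)] at hs
  linarith

end M4
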