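import Pool.Agent.M4.LimP
import Pool.Agent.M3.UDef

/-!
PIECE M4-U01: sequences of charts are polynomial automorphisms over `KL E k` (port of `M3.UCh`).

PROOF. `isChS_pol`: induction on `IsChS`, as `isCh_pol` in `M3.UCh` with `toAA (χp j) = χ j` replaced by
`IsLim E (fun i => χ i j) (χp j)`.  `refl`: `IsLim.xA`.  `swap`: `IsLim.ev` with the limit `![X 1, X 0]` of `swA k`.
`step c p D N₀ N₁`: the limit of `chA (c i) (p i) (N₀ * E i) (N₁ * E i)` is
`![C (lm c) + C t₀ * X 0, p'.eval₂ C (X 0) + C t₁ * X 1]`, `t₀ := lm E (fun i => X^(N₀ * E i))`, `t₁ := lm E (fun i => X^(N₁ * E i))`,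
`p' := ∑ n ≤ D, monomial n (lm E (fun i => (p i).coeff n))` (`IsLim.cA`, `IsLim.X_pow`, sums; `(p i).eval₂ cA (xA 0)` is the sum
over `n ≤ D` of `cA ((p i).coeff n) * xA 0 ^ n`).  `t₀`, `t₁` are not zero (`X^(N * E i)` is not divisible by
`X^((N + 1) * E i)`, `E i > 0`).  The inverse over `KL E k` as in `M3.UCh`.
`isChS_trans`: `χK j := toKL (χp j)`; `IsLim.ev`; `toKL (aeval χp G) = aeval (toKL ∘ χp) (toKL G)`.
-/

open MvPolynomial

namespace M4

open M3

universe u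

section
variable {k : Type u} [Field k] {E : ℕ → ℕ+}

private theorem uchs_toKL_C (c : Lam E k) :
    toKL (C c : MvPolynomial (Fin 2) (Lam E k)) = C (algebraMap (Lam E k) (KL E k) c) := by
  unfold toKL
  rw [map_C]

private theorem uchs_toKL_X (j : Fin 2) :
    toKL (X j : MvPolynomial (Fin 2) (Lam E k)) = X j := by
  unfold toKL
  rw [map_X]

theorem toKL_aeval (χ : Fin 2 → MvPolynomial (Fin 2) (Lam E k))
    (H : MvPolynomial (Fin 2) (Lam E k)) :
    toKL (aeval χ H) = aeval (fun j => toKL (χ j)) (toKL H) := by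
  have h : (toKL (E := E) (k := k)).comp (aeval χ).toRingHom =
      ((aeval (fun j => toKL (χ j)) : MvPolynomial (Fin 2) (KL E k) →ₐ[KL E k]
        MvPolynomial (Fin 2) (KL E k)).toRingHom).comp (toKL (E := E) (k := k)) := by
    apply MvPolynomial.ringHom_ext
    · intro c
      show toKL (aeval χ (C c)) = aeval (fun j => toKL (χ j)) (toKL (C c))
      rw [aeval_C, MvPolynomial.algebraMap_eq, uchs_toKL_C, aeval_C, MvPolynomial.algebraMap_eq]
    · intro j
      show toKL (aeval χ (X j)) = aeval (fun j => toKL (χ j)) (toKL (X j))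
      rw [aeval_X, uchs_toKL_X, aeval_X]
  exact congrArg (fun F => F H) h

theorem lm_X_pow_ne (N : ℕ) :
    lm E (fun i => (PowerSeries.X : PowerSeries k) ^ (N * (E i : ℕ))) ≠ 0 := by
  intro h
  obtain ⟨i, hi⟩ := ((lm_eq_zero.1 h) (N + 1)).exists
  have h1 : N * (E i : ℕ) < (N + 1) * (E i : ℕ) :=
    Nat.mul_lt_mul_of_pos_right (Nat.lt_succ_self N) (E i).pos
  have h2 := (PowerSeries.X_pow_dvd_iff.1 hi) _ h1
  rw [PowerSeries.coeff_X_pow, if_pos rfl] at h2
  exact one_ne_zero h2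

/-- composition of polynomial charts -/
private theorem uchs_comp {χ χ₀ : ℕ → Fin 2 → AA k}
    {ψ : Fin 2 → MvPolynomial (Fin 2) (Lam E k)} {φ : Fin 2 → MvPolynomial (Fin 2) (KL E k)}
    (hψ : ∀ j, IsLim E (fun i => χ₀ i j) (ψ j)) (hφ : PolAut (fun j => toKL (ψ j)) φ)
    (h : ∃ (χp : Fin 2 → MvPolynomial (Fin 2) (Lam E k))
      (θ : Fin 2 → MvPolynomial (Fin 2) (KL E k)),
      (∀ j, IsLim E (fun i => χ i j) (χp j)) ∧ PolAut (fun j => toKL (χp j)) θ) :
    ∃ (χp : Fin 2 → MvPolynomial (Fin 2) (Lam E k))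
      (θ : Fin 2 → MvPolynomial (Fin 2) (KL E k)),
      (∀ j, IsLim E (fun i => ev (χ₀ i) (χ i j)) (χp j)) ∧ PolAut (fun j => toKL (χp j)) θ := by
  obtain ⟨χp, θ, h1, h2⟩ := h
  refine ⟨fun j => aeval ψ (χp j), fun j => aeval θ (φ j), fun j => (h1 j).ev hψ, ?_⟩
  simp only [toKL_aeval]
  exact h2.comp hφ

private theorem uchs_aut {K : Type u} [Field K] (c' t₀ t₁ : K) (h₀ : t₀ ≠ 0) (h₁ : t₁ ≠ 0)
    (q : Polynomial K) :
    PolAut (![C c' + C t₀ * X 0, Polynomial.aeval (X 0 : MvPolynomial (Fin 2) K) q +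
      C t₁ * X 1] : Fin 2 → MvPolynomial (Fin 2) K)
      (![C t₀⁻¹ * (X 0 - C c'), C t₁⁻¹ * (X 1 - Polynomial.aeval
        (C t₀⁻¹ * (X 0 - C c') : MvPolynomial (Fin 2) K) q)]) := by
  have e0 : (C t₀⁻¹ * C t₀ : MvPolynomial (Fin 2) K) = 1 := by
    rw [← C_mul, inv_mul_cancel₀ h₀, C_1]
  have e1 : (C t₁⁻¹ * C t₁ : MvPolynomial (Fin 2) K) = 1 := by
    rw [← C_mul, inv_mul_cancel₀ h₁, C_1]
  set χ : Fin 2 → MvPolynomial (Fin 2) K := ![C c' + C t₀ * X 0,
    Polynomial.aeval (X 0 : MvPolynomial (Fin 2) K) q + C t₁ * X 1] with hχ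
  set φ0 : MvPolynomial (Fin 2) K := C t₀⁻¹ * (X 0 - C c') with hφ0
  set φ : Fin 2 → MvPolynomial (Fin 2) K := ![φ0, C t₁⁻¹ * (X 1 - Polynomial.aeval φ0 q)]
    with hφ
  have a0 : aeval χ φ0 = X 0 := by
    rw [hφ0, map_mul, map_sub, aeval_C, aeval_C, aeval_X, MvPolynomial.algebraMap_eq]
    show C t₀⁻¹ * (C c' + C t₀ * X 0 - C c') = X 0
    rw [add_sub_cancel_left, ← mul_assoc, e0, one_mul]
  refine ⟨fun j => ?_, fun j => ?_⟩
  · fin_cases j
    · exact a0
    · show aeval χ (C t₁⁻¹ * (X 1 - Polynomial.aeval φ0 q)) = X 1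
      rw [map_mul, map_sub, aeval_C, aeval_X, ← Polynomial.aeval_algHom_apply, a0,
        MvPolynomial.algebraMap_eq]
      show C t₁⁻¹ * (Polynomial.aeval (X 0) q + C t₁ * X 1 - Polynomial.aeval (X 0) q) = X 1
      rw [add_sub_cancel_left, ← mul_assoc, e1, one_mul]
  · fin_cases j
    · show aeval φ (C c' + C t₀ * X 0) = X 0
      rw [map_add, map_mul, aeval_C, aeval_C, aeval_X, MvPolynomial.algebraMap_eq]
      show C c' + C t₀ * (C t₀⁻¹ * (X 0 - C c')) = X 0
      rw [← mul_assoc, mul_comm (C t₀), e0, one_mul, add_sub_cancel]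
    · show aeval φ (Polynomial.aeval (X 0) q + C t₁ * X 1) = X 1
      rw [map_add, map_mul, aeval_C, aeval_X, ← Polynomial.aeval_algHom_apply, aeval_X,
        MvPolynomial.algebraMap_eq]
      show Polynomial.aeval φ0 q + C t₁ * (C t₁⁻¹ * (X 1 - Polynomial.aeval φ0 q)) = X 1
      rw [← mul_assoc, mul_comm (C t₁), e1, one_mul, add_sub_cancel]

theorem isChS_pol {χ : ℕ → Fin 2 → AA k} {N : ℕ} (hχ : IsChS E χ N) :
    ∃ (χp : Fin 2 → MvPolynomial (Fin 2) (Lam E k))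
      (θ : Fin 2 → MvPolynomial (Fin 2) (KL E k)),
      (∀ j, IsLim E (fun i => χ i j) (χp j)) ∧ PolAut (fun j => toKL (χp j)) θ := by
  induction hχ with
  | refl =>
    refine ⟨X, X, fun j => IsLim.xA j, fun j => ?_, fun j => ?_⟩
    · rw [aeval_X, uchs_toKL_X]
    · show aeval X (toKL (X j)) = X j
      rw [uchs_toKL_X, aeval_X]
  | @swap χ N _ ih =>
    refine uchs_comp (χ₀ := fun _ => swA k) (ψ := ![X 1, X 0]) (φ := ![X 1, X 0]) (fun j => ?_)
      ⟨fun j => ?_, fun j => ?_⟩ ih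
    · fin_cases j
      · exact IsLim.xA 1
      · exact IsLim.xA 0
    · fin_cases j
      · show aeval (fun j => toKL ((![X 1, X 0] : Fin 2 → _) j)) (X 1) = X 0
        rw [aeval_X]
        exact uchs_toKL_X 0
      · show aeval (fun j => toKL ((![X 1, X 0] : Fin 2 → _) j)) (X 0) = X 1
        rw [aeval_X]
        exact uchs_toKL_X 1
    · fin_cases j
      · show aeval (![X 1, X 0] : Fin 2 → MvPolynomial (Fin 2) (KL E k)) (toKL (X 1)) = X 0
        rw [uchs_toKL_X, aeval_X]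
        rfl
      · show aeval (![X 1, X 0] : Fin 2 → MvPolynomial (Fin 2) (KL E k)) (toKL (X 0)) = X 1
        rw [uchs_toKL_X, aeval_X]
        rfl
  | @step χ N c p D N₀ N₁ _ hD _ ih =>
    obtain ⟨t₀, ht₀⟩ : ∃ t, t = lm E (fun i => (PowerSeries.X : PowerSeries k) ^
      (N₀ * (E i : ℕ))) := ⟨_, rfl⟩
    obtain ⟨t₁, ht₁⟩ : ∃ t, t = lm E (fun i => (PowerSeries.X : PowerSeries k) ^
      (N₁ * (E i : ℕ))) := ⟨_, rfl⟩
    have hne : ∀ t : Lam E k, t ≠ 0 → algebraMap (Lam E k) (KL E k) t ≠ 0 := fun t ht h =>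
      ht ((IsFractionRing.injective (Lam E k) (KL E k)) (h.trans (map_zero _).symm))
    have h₀ : t₀ ≠ 0 := ht₀ ▸ lm_X_pow_ne N₀
    have h₁ : t₁ ≠ 0 := ht₁ ▸ lm_X_pow_ne N₁
    obtain ⟨q, hq⟩ : ∃ q : Polynomial (KL E k), q = ∑ n ∈ Finset.range (D + 1),
        Polynomial.C (algebraMap (Lam E k) (KL E k) (lm E (fun i => (p i).coeff n))) *
          Polynomial.X ^ n := ⟨_, rfl⟩
    refine uchs_comp (χ₀ := fun i => chA (c i) (p i) (N₀ * (E i : ℕ)) (N₁ * (E i : ℕ)))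
      (ψ := ![C (lm E c) + C t₀ * X 0,
        (∑ n ∈ Finset.range (D + 1), C (lm E (fun i => (p i).coeff n)) * X 0 ^ n) + C t₁ * X 1])
      (fun j => ?_) ?_ ih
      (φ := ![C (algebraMap (Lam E k) (KL E k) t₀)⁻¹ *
        (X 0 - C (algebraMap (Lam E k) (KL E k) (lm E c))),
        C (algebraMap (Lam E k) (KL E k) t₁)⁻¹ * (X 1 - Polynomial.aeval
        (C (algebraMap (Lam E k) (KL E k) t₀)⁻¹ *
          (X 0 - C (algebraMap (Lam E k) (KL E k) (lm E c))) : MvPolynomial (Fin 2) (KL E k)) q)])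
    · fin_cases j
      · show IsLim E (fun i => cA (c i) + PowerSeries.X ^ (N₀ * (E i : ℕ)) * xA 0)
          (C (lm E c) + C t₀ * X 0)
        rw [ht₀]
        exact (IsLim.cA c).add ((IsLim.X_pow fun i => N₀ * (E i : ℕ)).mul (IsLim.xA 0))
      · show IsLim E (fun i => (p i).eval₂ cA (xA 0) + PowerSeries.X ^ (N₁ * (E i : ℕ)) * xA 1)
          ((∑ n ∈ Finset.range (D + 1), C (lm E (fun i => (p i).coeff n)) * X 0 ^ n) +
            C t₁ * X 1)
        rw [ht₁]
        refine IsLim.add ?_ ((IsLim.X_pow fun i => N₁ * (E i : ℕ)).mul (IsLim.xA 1))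
        have e1 : (fun i => (p i).eval₂ (cA (k := k)) (xA 0)) = fun i =>
            ∑ n ∈ Finset.range (D + 1), cA ((p i).coeff n) * xA 0 ^ n := by
          funext i
          exact Polynomial.eval₂_eq_sum_range' _ (Nat.lt_succ_of_le (hD i)) _
        rw [e1]
        exact IsLim.sum _ fun n _ => (IsLim.cA fun i => (p i).coeff n).mul ((IsLim.xA 0).pow n)
    · have h2 : (fun j => toKL ((![C (lm E c) + C t₀ * X 0,
          (∑ n ∈ Finset.range (D + 1), C (lm E (fun i => (p i).coeff n)) * X 0 ^ n) +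
            C t₁ * X 1] : Fin 2 → MvPolynomial (Fin 2) (Lam E k)) j)) =
          ![C (algebraMap (Lam E k) (KL E k) (lm E c)) +
            C (algebraMap (Lam E k) (KL E k) t₀) * X 0,
            Polynomial.aeval (X 0 : MvPolynomial (Fin 2) (KL E k)) q +
              C (algebraMap (Lam E k) (KL E k) t₁) * X 1] := by
        funext j
        fin_cases j
        · show toKL (C (lm E c) + C t₀ * X 0) = _
          rw [map_add, map_mul, uchs_toKL_C, uchs_toKL_C, uchs_toKL_X]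
          rfl
        · show toKL ((∑ n ∈ Finset.range (D + 1), C (lm E (fun i => (p i).coeff n)) * X 0 ^ n) +
              C t₁ * X 1) =
            Polynomial.aeval (X 0 : MvPolynomial (Fin 2) (KL E k)) q +
              C (algebraMap (Lam E k) (KL E k) t₁) * X 1
          rw [map_add, map_mul, uchs_toKL_C, uchs_toKL_X, map_sum, hq, map_sum]
          congr 1
          refine Finset.sum_congr rfl fun n _ => ?_
          rw [map_mul, map_pow, uchs_toKL_C, uchs_toKL_X, map_mul, map_pow, Polynomial.aeval_C,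
            Polynomial.aeval_X, MvPolynomial.algebraMap_eq]
      rw [h2]
      exact uchs_aut _ _ _ (hne _ h₀) (hne _ h₁) _

theorem isChS_trans {χ : ℕ → Fin 2 → AA k} {N : ℕ} (hχ : IsChS E χ N) :
    ∃ χK θ : Fin 2 → MvPolynomial (Fin 2) (KL E k), PolAut χK θ ∧
      (∀ j, coeff 0 (χK j) = algebraMap (Lam E k) (KL E k) (lm E (fun i => mc (χ i j) 0))) ∧
      ∀ (c : ℕ → AA k) (G : MvPolynomial (Fin 2) (Lam E k)), IsLim E c G → ∀ m : Fin 2 →₀ ℕ,
        coeff m (aeval χK (toKL G)) =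
          algebraMap (Lam E k) (KL E k) (lm E (fun i => mc (ev (χ i) (c i)) m)) := by
  obtain ⟨χp, θ, h1, h2⟩ := isChS_pol hχ
  have hc : ∀ (F : MvPolynomial (Fin 2) (Lam E k)) (m : Fin 2 →₀ ℕ), coeff m (toKL F) =
      algebraMap (Lam E k) (KL E k) (coeff m F) := by
    intro F m
    unfold toKL
    rw [coeff_map]
  refine ⟨fun j => toKL (χp j), θ, h2, fun j => ?_, fun c G hG m => ?_⟩
  · rw [hc, (h1 j).2]
  · rw [← toKL_aeval, hc, (hG.ev h1).2]

end

end M4
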