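import Pool.Agent.M4.ConeS
import Pool.Agent.M3.Bdd3

/-!
PIECE M4-X02: divisors from arcs for two sequences of ideals with `a i ≡ b i` modulo `m ^ i`.
-/

open MvPolynomial Filter

namespace M4

open M3 MLD

universe u

private theorem XArc_aeval {k : Type u} [Field k] (ρ : MvPolynomial (Fin 3) k) :
    toFF k (Fin 3) ρ = aeval (fun i : Fin 3 => (xx k i : FF k (Fin 3))) ρ := by
  have h : toFF k (Fin 3) = aeval (fun i : Fin 3 => (xx k i : FF k (Fin 3))) := by
    refine MvPolynomial.algHom_ext fun i => ?_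
    rw [aeval_X]
    rfl
  rw [h]

/-- the order of an ideal given by generators modulo a power of the maximal ideal, if the
coordinates have large order -/
theorem ord_genS {k : Type u} [Field k] (E : DivisorOver k (Fin 3))
    (I : Ideal (MvPolynomial (Fin 3) k)) (hI : I ≠ ⊥) {J : Type} [Fintype J] (S : J → Prop)
    (p : J → MvPolynomial (Fin 3) k) (g v s e : ℕ) (hg : 0 < g) (hv : v ≤ s * e)
    (hx : ∀ b, (e : ℤ) ≤ g * E.ord (xx k b))
    (hp : ∀ h, S h → p h ≠ 0 → (v : ℤ) ≤ g * E.ord (toFF k (Fin 3) (p h)))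
    (hq : ∀ q ∈ I, ∃ H : J → MvPolynomial (Fin 3) k, (∀ h, ¬ S h → H h = 0) ∧
      ∀ m : Fin 3 →₀ ℕ, m.degree < s → coeff m (q - ∑ h, H h * p h) = 0) :
    v ≤ g * E.ordI I := by
  obtain ⟨N, hN1, hN2⟩ : ∃ N : ℕ, v ≤ g * N ∧ ∀ x : ℤ, (v : ℤ) ≤ g * x → (N : ℤ) ≤ x := by
    refine ⟨(v + g - 1) / g, ?_, ?_⟩
    · have h1 := Nat.lt_mul_div_succ (v + g - 1) hg
      rw [Nat.mul_add, Nat.mul_one] at h1
      omega
    · intro x hx
      by_contra hlt
      have h1 := Nat.mul_div_le (v + g - 1) g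
      have h2 : x + 1 ≤ (((v + g - 1) / g : ℕ) : ℤ) := by omega
      have h3 : (g : ℤ) * (((v + g - 1) / g : ℕ) : ℤ) ≤ (v : ℤ) + g - 1 := by
        have h4 : ((g * ((v + g - 1) / g) : ℕ) : ℤ) ≤ ((v + g - 1 : ℕ) : ℤ) := by
          exact_mod_cast h1
        rw [Nat.cast_mul] at h4
        omega
      have h5 : (g : ℤ) * (x + 1) ≤ (g : ℤ) * (((v + g - 1) / g : ℕ) : ℤ) :=
        mul_le_mul_of_nonneg_left h2 (by omega)
      have h6 : (g : ℤ) * (x + 1) = g * x + g := by ring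
      omega
  have hρ : ∀ ρ : MvPolynomial (Fin 3) k, (∀ m : Fin 3 →₀ ℕ, m.degree < s → coeff m ρ = 0) →
      E.ge N (toFF k (Fin 3) ρ) := by
    intro ρ hρ
    rw [XArc_aeval]
    refine E.ge_aeval (fun i : Fin 3 => (xx k i : FF k (Fin 3))) (fun b => E.ord (xx k b))
      (fun b => Or.inr le_rfl) ρ N fun m hm => ?_
    have h1 : s ≤ m.degree := by
      by_contra hlt
      exact hm (hρ m (not_le.1 hlt))
    refine hN2 _ ?_
    have h2 : (m.sum fun b n => (n : ℤ) * E.ord (xx k b)) =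
        ∑ b, (m b : ℤ) * E.ord (xx k b) := by
      rw [Finsupp.sum_fintype _ _ (fun b => by simp)]
    have h3 : (m.degree : ℤ) = ∑ b, (m b : ℤ) := by
      rw [Finsupp.degree_eq_sum]
      push_cast
      rfl
    rw [h2, Finset.mul_sum]
    have h4 : (v : ℤ) ≤ (m.degree : ℤ) * e := by
      have : v ≤ m.degree * e := hv.trans (Nat.mul_le_mul_right e h1)
      exact_mod_cast this
    refine h4.trans ?_
    rw [h3, Finset.sum_mul]
    refine Finset.sum_le_sum fun b _ => ?_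
    have h5 := mul_le_mul_of_nonneg_left (hx b) (Int.natCast_nonneg (m b))
    linarith [mul_left_comm (m b : ℤ) (g : ℤ) (E.ord (xx k b))]
  have hNI : N ≤ E.ordI I := by
    refine le_ordI E hI N fun q hq1 hq0 => ?_
    obtain ⟨H, hH1, hH2⟩ := hq q hq1
    have h1 : E.ge N (toFF k (Fin 3) q) := by
      have h2 : q = (∑ h, H h * p h) + (q - ∑ h, H h * p h) := by ring
      rw [h2, map_add, map_sum]
      refine E.ge_add (E.ge_sum _ _ fun h _ => ?_) (hρ _ hH2)
      rw [map_mul]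
      by_cases hS : S h
      · by_cases hp0 : p h = 0
        · rw [hp0, map_zero, mul_zero]
          exact E.ge_zero _
        · have h3 : E.ge N (toFF k (Fin 3) (p h)) := Or.inr (hN2 _ (hp h hS hp0))
          have h4 : E.ge 0 (toFF k (Fin 3) (H h)) := by
            by_cases hH0 : H h = 0
            · rw [hH0, map_zero]
              exact E.ge_zero _
            · exact Or.inr (E.ord_poly' _ hH0)
          have h5 := E.ge_mul h4 h3
          rwa [zero_add] at h5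
      · rw [hH1 h hS, map_zero, zero_mul]
        exact E.ge_zero _
    rcases h1 with h1 | h1
    · exfalso
      apply hq0
      have h : Function.Injective (algebraMap (MvPolynomial (Fin 3) k) (FF k (Fin 3))) :=
        IsFractionRing.injective (MvPolynomial (Fin 3) k) (FF k (Fin 3))
      apply h
      rw [map_zero]
      exact h1
    · exact h1
  exact hN1.trans (Nat.mul_le_mul_left g hNI)

/-- elements of a power of the maximal ideal have no monomials of small degree -/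
theorem coeff_mm_pow {k : Type u} [Field k] {s : ℕ} {q : MvPolynomial (Fin 3) k}
    (hq : q ∈ mm k (Fin 3) ^ s) (m : Fin 3 →₀ ℕ) (hm : m.degree < s) : coeff m q = 0 :=
  (mem_pow_idealOfVars_iff' s q).1 hq m hm

section
variable {k : Type u} [Field k] [CharZero k] {r : ℕ}

/-- generators of `b i` modulo powers of the maximal ideal also generate `a i` -/
theorem gen_transfer {a b : ℕ → Fin r → Ideal (MvPolynomial (Fin 3) k)}
    (hab : ∀ i j, a i j ⊔ mm k (Fin 3) ^ i = b i j ⊔ mm k (Fin 3) ^ i) {J : Type} [Fintype J]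
    {grp : J → Fin r} {p : J → ℕ → MvPolynomial (Fin 3) k}
    (hH : ∀ s : ℕ, ∀ᶠ i in Uf, ∀ j, ∀ q ∈ b i j, ∃ H : J → MvPolynomial (Fin 3) k,
      (∀ h, ¬ grp h = j → H h = 0) ∧
      ∀ m : Fin 3 →₀ ℕ, m.degree < s → coeff m (q - ∑ h, H h * p h i) = 0) (s : ℕ) :
    ∀ᶠ i in Uf, ∀ j, ∀ q ∈ a i j, ∃ H : J → MvPolynomial (Fin 3) k,
      (∀ h, ¬ grp h = j → H h = 0) ∧
      ∀ m : Fin 3 →₀ ℕ, m.degree < s → coeff m (q - ∑ h, H h * p h i) = 0 := by
  filter_upwards [hH s, Bdd3_ge s] with i h1 hi j q hq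
  have h2 : q ∈ b i j ⊔ mm k (Fin 3) ^ i := by
    rw [← hab]
    exact Ideal.mem_sup_left hq
  obtain ⟨q₁, hq₁, q₂, hq₂, rfl⟩ := Submodule.mem_sup.1 h2
  obtain ⟨H, hH1, hH2⟩ := h1 j q₁ hq₁
  refine ⟨H, hH1, fun m hm => ?_⟩
  have h3 : q₁ + q₂ - ∑ h, H h * p h i = (q₁ - ∑ h, H h * p h i) + q₂ := by ring
  rw [h3, coeff_add, hH2 m hm, coeff_mm_pow hq₂ m (by omega), add_zero]

/-- divisors from arcs -/
theorem dvs_of_arcS (E : ℕ → ℕ+)
    (a : ℕ → Fin r → Ideal (MvPolynomial (Fin 3) k)) (ha : ∀ i j, a i j ≠ ⊥) {J : Type} [Fintype J]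
    (grp : J → Fin r) (p : J → ℕ → MvPolynomial (Fin 3) k) (μ : Fin r → ℕ)
    (hd : ∀ᶠ i in Uf, ∀ h, ∀ d < μ (grp h), homogeneousComponent d (p h i) = 0)
    (hH : ∀ s : ℕ, ∀ᶠ i in Uf, ∀ j, ∀ q ∈ a i j, ∃ H : J → MvPolynomial (Fin 3) k,
      (∀ h, ¬ grp h = j → H h = 0) ∧
      ∀ m : Fin 3 →₀ ℕ, m.degree < s → coeff m (q - ∑ h, H h * p h i) = 0)
    (i₀ : Fin 3) (ℓ : ℕ) :
    ∀ᶠ i in Uf, ∀ (L : Type u) [Field L] [Algebra k L] (Q : Fin 2 → PowerSeries L) (C : ℕ)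
      (n : Fin r → ℕ), (∀ j, n j ≤ ℓ * (E i : ℕ)) → (∀ m, CodLe k Q m C) →
      OrdGe grp (fun h => cone i₀ (E i) (μ (grp h)) (p h i)) Q n →
      ∃ (F : DivisorOver k (Fin 3)) (g A₁ : ℕ), 0 < g ∧ F.CenterZero ∧
        F.logDisc ≤ (((A₁ : ℕ) : ℝ) : EReal) ∧ g * A₁ ≤ C + 3 * (E i : ℕ) ∧
        ∀ j, n j + (E i : ℕ) * μ j ≤ g * F.ordI (a i j) := by
  filter_upwards [hd, hH (ℓ + (∑ j, μ j) + 1)] with i hdi hHi
  intro L _ _ Q C n hn hcod hord
  obtain ⟨F, g, A₁, hg, hE, -, hlog, hgA, hdiv⟩ :=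
    arc_to_div i₀ (E i) (E i).pos ((ℓ + (∑ j, μ j) + 1) * (E i : ℕ)) Q C (hcod _)
  refine ⟨F, g, A₁, hg, hE, hlog, hgA, fun j => ?_⟩
  have hμ : μ j ≤ ∑ j, μ j := Finset.single_le_sum (fun _ _ => Nat.zero_le _) (Finset.mem_univ j)
  have hv : n j + (E i : ℕ) * μ j ≤ (ℓ + (∑ j, μ j) + 1) * (E i : ℕ) := by
    have h1 := Nat.mul_le_mul_left (E i : ℕ) hμ
    have h2 := hn j
    nlinarith
  refine ord_genS F (a i j) (ha i j) (fun h => grp h = j) (fun h => p h i) g _ _ (E i) hg hv ?_ ?_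
    (hHi j)
  · intro b
    have h1 := hdiv (X b) 1 0 (X_ne_zero b) ?_ ?_ ?_
    · rw [zero_add, mul_one] at h1
      exact h1
    · intro d hd'
      have hd0 : d = 0 := by omega
      rw [hd0, homogeneousComponent_zero, coeff_zero_X, C_0]
    · have := (E i).pos
      nlinarith
    · rw [pow_zero]
      exact one_dvd _
  · intro h hh hne
    refine hdiv (p h i) (μ j) (n j) hne ?_ hv ?_
    · intro d hd'
      exact hdi h d (by rw [hh]; exact hd')
    · have h1 : (PowerSeries.X : PowerSeries L) ^ n (grp h) ∣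
          ev Q (cone i₀ (E i) (μ (grp h)) (p h i)) := hord h
      rw [hh] at h1
      exact h1

end

end M4
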