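import Pool.Agent.M4.Defs
import Pool.Agent.M3.LinHom

/-!
PIECE M4-Z01: a state is a power of one smooth function near a point different from the origin.

PROOF. The proof of `LinHom_alg` (`M3.LinHom`, private) word by word with the domain `Lam E k` instead of `PowerSeries κ` and
`KL E k` instead of `KK κ` (only that `KL E k` is the field of fractions of the domain `Lam E k` is used): `common_factors` for
`toKL (F h)`; homogeneous factors (`hom_dvd`); two different factors do not both vanish at `z ≠ 0` (`hom_coprime`), a factor which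
vanishes at `z` has a partial derivative which does not vanish at `z` (`irr_grad`, `hom_pderiv`, `hom_coprime`); clear denominators; the
masses are `≤ 1` (`hS.wk`, `mult_le`).  If no factor vanishes at `z` take for `G` a linear polynomial with `G(z) = 0` and `B = 0`
(`G := X 0 - C (z 0)`).
-/

open MvPolynomial

namespace M4

open M3

universe u

section
variable {E : ℕ → ℕ+} {k : Type u} [Field k]

private theorem ZAlg_inj : Function.Injective (algebraMap (Lam E k) (KL E k)) :=
  IsFractionRing.injective _ _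

private theorem ZAlg_toKL_inj : Function.Injective (toKL (E := E) (k := k)) :=
  MvPolynomial.map_injective _ ZAlg_inj

private theorem ZAlg_charZero [CharZero k] : CharZero (KL E k) :=
  charZero_of_injective_algebraMap ZAlg_inj

/-- clearing denominators -/
private theorem ZAlg_clear (P : MvPolynomial (Fin 2) (KL E k)) :
    ∃ (c : Lam E k) (Q : MvPolynomial (Fin 2) (Lam E k)), c ≠ 0 ∧
      toKL Q = C (algebraMap _ _ c) * P := by
  induction P using MvPolynomial.induction_on with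
  | C a =>
    obtain ⟨x, y, hy, rfl⟩ := IsFractionRing.div_surjective (A := Lam E k) a
    refine ⟨y, C x, nonZeroDivisors.ne_zero hy, ?_⟩
    have hy' : algebraMap (Lam E k) (KL E k) y ≠ 0 := by
      rw [Ne, map_eq_zero_iff _ ZAlg_inj]
      exact nonZeroDivisors.ne_zero hy
    rw [toKL, map_C, ← C_mul, mul_div_cancel₀ _ hy']
  | add p q hp hq =>
    obtain ⟨c, P, hc, hP⟩ := hp
    obtain ⟨e, Q, he, hQ⟩ := hq
    refine ⟨c * e, C e * P + C c * Q, mul_ne_zero hc he, ?_⟩
    have h1 : ∀ x : Lam E k, toKL (C x) = C (algebraMap _ _ x) := fun x => map_C _ x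
    rw [map_add, map_mul, map_mul, h1, h1, hP, hQ, map_mul, C_mul]
    ring
  | mul_X p i hp =>
    obtain ⟨c, P, hc, hP⟩ := hp
    refine ⟨c, P * X i, hc, ?_⟩
    have h1 : toKL (X i : MvPolynomial (Fin 2) (Lam E k)) = X i := map_X _ i
    rw [map_mul, hP, h1, mul_assoc]

private theorem ZAlg_eval (z : Fin 2 → Lam E k)
    (P : MvPolynomial (Fin 2) (Lam E k)) :
    eval (fun j => algebraMap (Lam E k) (KL E k) (z j)) (toKL P) =
      algebraMap _ _ (eval z P) := by
  rw [toKL, eval_map]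
  exact (MvPolynomial.eval₂_comp _ z P).symm

private theorem ZAlg_pderiv (j : Fin 2) (P : MvPolynomial (Fin 2) (Lam E k)) :
    toKL (pderiv j P) = pderiv j (toKL P) := by
  exact (MvPolynomial.pderiv_map).symm

private theorem ZAlg_rel {a b : ℕ} (ha : 0 < a) (hb : 0 < b) {p q : MvPolynomial (Fin 2) (KL E k)}
    {d e : ℕ} (hp : HomW a b d p) (hq : HomW a b e q) (h : IsRelPrime p q)
    {z : Fin 2 → KL E k} (hz : z ≠ 0) (h1 : eval z p = 0) (h2 : eval z q = 0) : False := by
  obtain ⟨N, ⟨A, B, hAB⟩, A', B', hAB'⟩ := hom_coprime ha hb hp hq h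
  have e1 := congrArg (eval z) hAB
  have e2 := congrArg (eval z) hAB'
  simp only [map_add, map_mul, map_pow, h1, h2, mul_zero, add_zero, eval_X] at e1 e2
  apply hz
  funext j
  fin_cases j
  · exact eq_zero_of_pow_eq_zero e1.symm
  · exact eq_zero_of_pow_eq_zero e2.symm

end

theorem z_alg {E : ℕ → ℕ+} {k : Type u} [Field k] [CharZero k] {r : ℕ} {J : Type} [Fintype J]
    {a b : ℕ} {mu : Fin r → ℝ} {grp : J → Fin r} {d : Fin r → ℕ}
    {F : J → MvPolynomial (Fin 2) (Lam E k)} (hS : Stt a b mu grp d (fun h => toKL (F h)))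
    (z : Fin 2 → Lam E k) (hz : z ≠ 0) :
    ∃ (G : MvPolynomial (Fin 2) (Lam E k)) (B : J → ℕ)
      (W : J → MvPolynomial (Fin 2) (Lam E k)) (v : J → Lam E k),
      eval z G = 0 ∧ (∃ j, eval z (pderiv j G) ≠ 0) ∧
      (∀ h, F h ≠ 0 → v h ≠ 0 ∧ eval z (W h) ≠ 0 ∧ C (v h) * F h = G ^ B h * W h) ∧
      ∃ hj : Fin r → J, (∀ j, grp (hj j) = j ∧ F (hj j) ≠ 0) ∧
        ∑ j, mu j * B (hj j) ≤ 1 := by
  classical
  have ha := hS.ha
  have hb : 0 < b := lt_of_lt_of_le ha hS.hab
  have hcz : CharZero (KL E k) := ZAlg_charZero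
  obtain ⟨z', hz'⟩ : ∃ z' : Fin 2 → KL E k, z' = fun j => algebraMap (Lam E k) (KL E k) (z j) :=
    ⟨_, rfl⟩
  have hz0 : z' ≠ 0 := by
    intro h0
    apply hz
    funext j
    have h1 := congrFun h0 j
    rw [hz'] at h1
    exact (map_eq_zero_iff _ ZAlg_inj).1 h1
  have hev : ∀ P : MvPolynomial (Fin 2) (Lam E k), eval z P = 0 ↔ eval z' (toKL P) = 0 := by
    intro P
    rw [hz', ZAlg_eval, map_eq_zero_iff _ ZAlg_inj]
  have hF0 : ∀ h, F h ≠ 0 ↔ toKL (F h) ≠ 0 := fun h => by
    rw [Ne, Ne, map_eq_zero_iff _ ZAlg_toKL_inj]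
  obtain ⟨s, m, u, hs1, hs2, hs3⟩ := common_factors fun h => toKL (F h)
  have hdv : ∀ h p, p ∈ s → F h ≠ 0 → p ^ m h p ∣ toKL (F h) := by
    intro h p hp hF
    rw [(hs3 h ((hF0 h).1 hF)).2]
    exact Dvd.dvd.mul_left (Finset.dvd_prod_of_mem (fun q => q ^ m h q) hp) _
  have hhom : ∀ h p, p ∈ s → F h ≠ 0 → m h p ≠ 0 → ∃ e, HomW a b e p := by
    intro h p hp hF hm
    exact hom_dvd ha hb ((hF0 h).1 hF) (hS.hom h) ((dvd_pow_self p hm).trans (hdv h p hp hF))
  by_cases hc : ∃ p ∈ s, (∃ h, F h ≠ 0 ∧ m h p ≠ 0) ∧ eval z' p = 0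
  · obtain ⟨p, hp, ⟨h₀, hF₀, hm₀⟩, hpz⟩ := hc
    obtain ⟨e, he⟩ := hhom h₀ p hp hF₀ hm₀
    obtain ⟨c, G, hc, hG⟩ := ZAlg_clear p
    choose cW W hcW hW using fun h => ZAlg_clear (C (u h) * ∏ q ∈ s.erase p, q ^ m h q)
    have hcK : ∀ c : Lam E k, c ≠ 0 → algebraMap (Lam E k) (KL E k) c ≠ 0 := by
      intro c hc
      rwa [Ne, map_eq_zero_iff _ ZAlg_inj]
    obtain ⟨B', hB', hsum⟩ := hS.wk p (hs1 p hp)
    choose hj hj1 hj2 using hB'
    have hjF : ∀ j, F (hj j) ≠ 0 := by
      intro j h0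
      apply hj2 j
      change p ^ (B' j + 1) ∣ toKL (F (hj j))
      rw [h0, map_zero]
      exact dvd_zero _
    refine ⟨G, fun h => m h p, W, fun h => cW h * c ^ m h p, ?_, ?_, ?_, hj,
      fun j => ⟨hj1 j, hjF j⟩, ?_⟩
    · rw [hev, hG, map_mul, hpz, mul_zero]
    · by_contra hcon
      push Not at hcon
      have h1 : ∀ j, eval z' (pderiv j p) = 0 := by
        intro j
        have h2 := (hev _).1 (hcon j)
        rw [ZAlg_pderiv, hG, pderiv_C_mul, map_mul, eval_C] at h2
        exact (mul_eq_zero.1 h2).resolve_left (hcK c hc)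
      exact ZAlg_rel ha hb (hom_pderiv he 0) (hom_pderiv he 1) (irr_grad ha hb he (hs1 p hp))
        hz0 (h1 0) (h1 1)
    · intro h hF
      obtain ⟨hu, hfac⟩ := hs3 h ((hF0 h).1 hF)
      refine ⟨mul_ne_zero (hcW h) (pow_ne_zero _ hc), ?_, ?_⟩
      · rw [Ne, hev, hW, map_mul, map_mul, eval_C, eval_C, map_prod]
        refine mul_ne_zero (hcK _ (hcW h)) (mul_ne_zero hu (Finset.prod_ne_zero_iff.2 ?_))
        intro q hq
        rw [map_pow]
        by_cases hmq : m h q = 0
        · rw [hmq, pow_zero]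
          exact one_ne_zero
        · have hqs := Finset.mem_of_mem_erase hq
          obtain ⟨e', he'⟩ := hhom h q hqs hF hmq
          refine pow_ne_zero _ fun hqz => ?_
          exact ZAlg_rel ha hb he he' (hs2 p hp q hqs (Finset.ne_of_mem_erase hq).symm) hz0
            hpz hqz
      · apply ZAlg_toKL_inj
        have h1 : ∀ x : Lam E k, toKL (C x) = C (algebraMap _ _ x) := fun x => map_C _ x
        have h2 := Finset.mul_prod_erase s (fun q => q ^ m h q) hp
        change toKL (C (cW h * c ^ m h p) * F h) = toKL (G ^ m h p * W h)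
        rw [map_mul toKL, map_mul toKL, map_pow toKL, h1, hW, hG, hfac, ← h2, map_mul, map_pow,
          C_mul, C_pow, mul_pow]
        ring
    · refine le_trans (Finset.sum_le_sum fun j _ => ?_) hsum
      refine mul_le_mul_of_nonneg_left ?_ (hS.hmu j).le
      exact Nat.cast_le.2 (mult_le (hj2 j) (hdv _ p hp (hjF j)))
  · choose hj hj1 hj2 using hS.ne
    refine ⟨X 0 - C (z 0), fun _ => 0, F, fun _ => 1, ?_, ⟨0, ?_⟩, ?_, hj,
      fun j => ⟨hj1 j, (hF0 _).2 (hj2 j)⟩, ?_⟩
    · rw [map_sub, eval_X, eval_C, sub_self]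
    · rw [map_sub, pderiv_X_self, pderiv_C, sub_zero, map_one]
      exact one_ne_zero
    · intro h hF
      refine ⟨one_ne_zero, ?_, ?_⟩
      · obtain ⟨hu, hfac⟩ := hs3 h ((hF0 h).1 hF)
        rw [Ne, hev, hfac, map_mul, eval_C, map_prod]
        refine mul_ne_zero hu (Finset.prod_ne_zero_iff.2 ?_)
        intro q hq
        rw [map_pow]
        by_cases hmq : m h q = 0
        · rw [hmq, pow_zero]
          exact one_ne_zero
        · exact pow_ne_zero _ fun hqz => hc ⟨q, hq, ⟨h, hF, hmq⟩, hqz⟩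
      · rw [C_1, one_mul, pow_zero, one_mul]
    · simp

end M4
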